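import Pool.Agent.H51K.AsmComm

/-!
Block systems: `M = Σ q, I q × Fin (r q)`.
-/

set_option autoImplicit false
set_option linter.unusedSectionVars false
open Matrix
open scoped ComplexOrder MatrixOrder

namespace Pool.Agent.H51K.Asm

/-- Kadison-Schwarz for Kraus maps with `∑ K K* = 1` -/
theorem kraus_contr {ι n : Type*} [Fintype ι] [Fintype n] [DecidableEq n]
    (K : ι → Matrix n n ℂ) (hK : ∑ a, K a * (K a)ᴴ = 1) {κ : ℝ} {x : Matrix n n ℂ}
    (hx : xᴴ * x ≤ κ • (1 : Matrix n n ℂ)) :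
    (∑ a, K a * x * (K a)ᴴ)ᴴ * (∑ a, K a * x * (K a)ᴴ) ≤ κ • (1 : Matrix n n ℂ) := by
  set Φ := ∑ a, K a * x * (K a)ᴴ with hΦ
  have hΦs : Φᴴ = ∑ a, K a * xᴴ * (K a)ᴴ := by
    rw [hΦ, Matrix.conjTranspose_sum]
    refine Finset.sum_congr rfl fun a _ => ?_
    simp only [Matrix.conjTranspose_mul, Matrix.conjTranspose_conjTranspose, Matrix.mul_assoc]
  have h1 : (∑ a, (x * (K a)ᴴ - (K a)ᴴ * Φ)ᴴ * (x * (K a)ᴴ - (K a)ᴴ * Φ)).PosSemidef :=
    Matrix.posSemidef_sum _ fun a _ => Matrix.posSemidef_conjTranspose_mul_self _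
  have e1 : ∑ a, (x * (K a)ᴴ - (K a)ᴴ * Φ)ᴴ * (x * (K a)ᴴ - (K a)ᴴ * Φ) =
      ∑ a, K a * (xᴴ * x) * (K a)ᴴ - Φᴴ * Φ := by
    have e2 : ∀ a, (x * (K a)ᴴ - (K a)ᴴ * Φ)ᴴ * (x * (K a)ᴴ - (K a)ᴴ * Φ) =
        K a * (xᴴ * x) * (K a)ᴴ - (K a * xᴴ * (K a)ᴴ) * Φ - Φᴴ * (K a * x * (K a)ᴴ) +
          Φᴴ * (K a * (K a)ᴴ) * Φ := by
      intro a
      simp only [Matrix.conjTranspose_sub, Matrix.conjTranspose_mul,
        Matrix.conjTranspose_conjTranspose, Matrix.sub_mul, Matrix.mul_sub, Matrix.mul_assoc]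
      abel
    simp only [e2]
    rw [Finset.sum_add_distrib, Finset.sum_sub_distrib, Finset.sum_sub_distrib,
      ← Matrix.sum_mul, ← Matrix.mul_sum, ← Matrix.sum_mul, ← Matrix.mul_sum, hK, ← hΦs, ← hΦ,
      Matrix.mul_one]
    abel
  rw [e1] at h1
  have h2 : (∑ a, K a * (κ • (1 : Matrix n n ℂ) - xᴴ * x) * (K a)ᴴ).PosSemidef :=
    Matrix.posSemidef_sum _ fun a _ => psd_conj' (Matrix.le_iff.1 hx) (K a)
  have e3 : ∑ a, K a * (κ • (1 : Matrix n n ℂ) - xᴴ * x) * (K a)ᴴ =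
      κ • 1 - ∑ a, K a * (xᴴ * x) * (K a)ᴴ := by
    have : ∀ a, K a * (κ • (1 : Matrix n n ℂ) - xᴴ * x) * (K a)ᴴ =
        κ • (K a * (K a)ᴴ) - K a * (xᴴ * x) * (K a)ᴴ := by
      intro a
      rw [Matrix.mul_sub, Matrix.sub_mul, Matrix.mul_smul, Matrix.smul_mul, Matrix.mul_one]
    simp only [this]
    rw [Finset.sum_sub_distrib, ← Finset.smul_sum, hK]
  rw [e3] at h2
  rw [Matrix.le_iff]
  exact psd_of_eq (h2.add h1) (by abel)

section
variable {Q : Type} [Fintype Q] [DecidableEq Q] (I : Q → Type)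
  [∀ q, Fintype (I q)] [∀ q, DecidableEq (I q)] (r : Q → ℕ)

/-- index type of a block system -/
abbrev BM : Type := Σ q : Q, I q × Fin (r q)

/-- inclusion of the block `p` -/
def EE (p : Σ q, I q) : Matrix (BM I r) (Fin (r p.1)) ℂ :=
  (1 : Matrix (BM I r) (BM I r) ℂ).submatrix id (fun k => ⟨p.1, (p.2, k)⟩)

variable {I r}

theorem EE_apply (p : Σ q, I q) (m : BM I r) (k : Fin (r p.1)) :
    EE I r p m k = if m = ⟨p.1, (p.2, k)⟩ then 1 else 0 := by
  rw [EE, Matrix.submatrix_apply, Matrix.one_apply]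
  rfl

theorem EE_orth (p : Σ q, I q) : (EE I r p)ᴴ * EE I r p = 1 := by
  ext k l
  rw [Matrix.mul_apply]
  simp only [Matrix.conjTranspose_apply, EE_apply]
  rw [Finset.sum_eq_single (⟨p.1, (p.2, k)⟩ : BM I r)]
  · by_cases h : k = l
    · subst h; simp
    · have : (⟨p.1, (p.2, k)⟩ : BM I r) ≠ ⟨p.1, (p.2, l)⟩ := by
        intro h'
        apply h
        simpa using h'
      rw [if_neg this, Matrix.one_apply_ne h]
      simp
  · intro m _ hm
    rw [if_neg hm]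
    simp
  · intro h
    exact absurd (Finset.mem_univ _) h

theorem EE_ne {p p' : Σ q, I q} (h : p ≠ p') : (EE I r p')ᴴ * EE I r p = 0 := by
  ext k l
  rw [Matrix.mul_apply]
  simp only [Matrix.conjTranspose_apply, EE_apply, Matrix.zero_apply]
  refine Finset.sum_eq_zero fun m _ => ?_
  by_cases h1 : m = ⟨p'.1, (p'.2, k)⟩
  · have : m ≠ ⟨p.1, (p.2, l)⟩ := by
      intro h2
      apply h
      rw [h1] at h2
      obtain ⟨q, i⟩ := p
      obtain ⟨q', i'⟩ := p'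
      simp only [Sigma.mk.injEq] at h2
      obtain ⟨h3, h4⟩ := h2
      subst h3
      simp only [heq_eq_eq, Prod.mk.injEq] at h4
      rw [h4.1]
    rw [if_neg this]
    simp
  · rw [if_neg h1]
    simp

theorem EE_sum : ∑ p : (Σ q, I q), EE I r p * (EE I r p)ᴴ = 1 := by
  ext m m'
  rw [Matrix.sum_apply]
  obtain ⟨q, i, k⟩ := m
  rw [Finset.sum_eq_single (⟨q, i⟩ : Σ q, I q)]
  · rw [Matrix.mul_apply]
    simp only [Matrix.conjTranspose_apply, EE_apply]
    rw [Finset.sum_eq_single k]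
    · rw [if_pos rfl, Matrix.one_apply]
      by_cases h : m' = ⟨q, i, k⟩
      · rw [if_pos h, if_pos h.symm]; simp
      · rw [if_neg h, if_neg (fun h' => h h'.symm)]; simp
    · intro l _ hl
      have : (⟨q, i, k⟩ : BM I r) ≠ ⟨q, i, l⟩ := by
        intro h'
        apply hl
        simpa using h'.symm
      rw [if_neg this, zero_mul]
    · intro h
      exact absurd (Finset.mem_univ _) h
  · intro p _ hp
    rw [Matrix.mul_apply]
    refine Finset.sum_eq_zero fun l _ => ?_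
    rw [EE_apply]
    have : (⟨q, i, k⟩ : BM I r) ≠ ⟨p.1, (p.2, l)⟩ := by
      intro h2
      apply hp
      obtain ⟨q', i'⟩ := p
      simp only [Sigma.mk.injEq] at h2
      obtain ⟨h3, h4⟩ := h2
      subst h3
      simp only [heq_eq_eq, Prod.mk.injEq] at h4
      rw [h4.1]
    rw [if_neg this, zero_mul]
  · intro h
    exact absurd (Finset.mem_univ _) h

variable (I r) in
/-- block of a matrix -/
def blk (x : Matrix (BM I r) (BM I r) ℂ) (p p' : Σ q, I q) :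
    Matrix (Fin (r p'.1)) (Fin (r p.1)) ℂ := (EE I r p')ᴴ * x * EE I r p

theorem sum_EE_mul {l : Type*} [Fintype l] (X : Matrix (BM I r) l ℂ) :
    ∑ p : (Σ q, I q), EE I r p * ((EE I r p)ᴴ * X) = X := by
  have : ∀ p : (Σ q, I q), EE I r p * ((EE I r p)ᴴ * X) = (EE I r p * (EE I r p)ᴴ) * X :=
    fun p => (Matrix.mul_assoc _ _ _).symm
  simp only [this]
  rw [← Matrix.sum_mul, EE_sum, Matrix.one_mul]

theorem hs_cols {l : Type*} [Fintype l] (X : Matrix l (BM I r) ℂ) :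
    hs X = ∑ p : (Σ q, I q), hs (X * EE I r p) := by
  have : ∀ p : (Σ q, I q), hs (X * EE I r p) = rtr (Xᴴ * X * (EE I r p * (EE I r p)ᴴ)) := by
    intro p
    unfold hs
    rw [Matrix.conjTranspose_mul, Matrix.mul_assoc, rtr_mul_comm, Matrix.mul_assoc,
      Matrix.mul_assoc, Matrix.mul_assoc]
  simp only [this]
  rw [← rtr_sum, ← Matrix.mul_sum, EE_sum, Matrix.mul_one]
  rfl

theorem hs_rows {l : Type*} [Fintype l] (X : Matrix (BM I r) l ℂ) :
    hs X = ∑ p : (Σ q, I q), hs ((EE I r p)ᴴ * X) := by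
  rw [← hs_conjTranspose, hs_cols]
  refine Finset.sum_congr rfl fun p _ => ?_
  rw [← hs_conjTranspose, Matrix.conjTranspose_mul, Matrix.conjTranspose_conjTranspose]

theorem hs_blk (x : Matrix (BM I r) (BM I r) ℂ) :
    hs x = ∑ p : (Σ q, I q), ∑ p' : (Σ q, I q), hs (blk I r x p p') := by
  rw [hs_cols]
  refine Finset.sum_congr rfl fun p _ => ?_
  rw [hs_rows]
  refine Finset.sum_congr rfl fun p' _ => ?_
  rw [blk, Matrix.mul_assoc]

theorem blk_add (x y : Matrix (BM I r) (BM I r) ℂ) (p p' : Σ q, I q) :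
    blk I r (x + y) p p' = blk I r x p p' + blk I r y p p' := by
  rw [blk, Matrix.mul_add, Matrix.add_mul]; rfl

theorem blk_sub (x y : Matrix (BM I r) (BM I r) ℂ) (p p' : Σ q, I q) :
    blk I r (x - y) p p' = blk I r x p p' - blk I r y p p' := by
  rw [blk, Matrix.mul_sub, Matrix.sub_mul]; rfl

theorem blk_conj (x : Matrix (BM I r) (BM I r) ℂ) (p p' : Σ q, I q) :
    blk I r xᴴ p p' = (blk I r x p' p)ᴴ := by
  rw [blk, blk, Matrix.conjTranspose_mul, Matrix.conjTranspose_mul,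
    Matrix.conjTranspose_conjTranspose, Matrix.mul_assoc]

theorem blk_marg {κ : ℝ} {x : Matrix (BM I r) (BM I r) ℂ}
    (hx : xᴴ * x ≤ κ • (1 : Matrix (BM I r) (BM I r) ℂ)) (p : Σ q, I q) :
    ∑ p' : (Σ q, I q), (blk I r x p p')ᴴ * blk I r x p p' ≤
      κ • (1 : Matrix (Fin (r p.1)) (Fin (r p.1)) ℂ) := by
  have h1 : ∀ p' : (Σ q, I q), (blk I r x p p')ᴴ * blk I r x p p' =
      ((EE I r p)ᴴ * xᴴ) * (EE I r p' * ((EE I r p')ᴴ * (x * EE I r p))) := by
    intro p'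
    rw [blk]
    simp only [Matrix.conjTranspose_mul, Matrix.conjTranspose_conjTranspose, Matrix.mul_assoc]
  simp only [h1]
  rw [← Matrix.mul_sum, sum_EE_mul]
  have h2 := conj_mono hx (EE I r p)
  rw [Matrix.mul_smul, Matrix.smul_mul, Matrix.mul_one, EE_orth] at h2
  simpa only [Matrix.mul_assoc] using h2

variable {S : Type} [Fintype S]

variable (I r) in
/-- block diagonal unitaries -/
def BW (W : ∀ q, S → Matrix (Fin (r q)) (Fin (r q)) ℂ) (s : S) : Matrix (BM I r) (BM I r) ℂ :=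
  ∑ p : (Σ q, I q), EE I r p * W p.1 s * (EE I r p)ᴴ

theorem BW_mul_EE (W : ∀ q, S → Matrix (Fin (r q)) (Fin (r q)) ℂ) (s : S) (p : Σ q, I q) :
    BW I r W s * EE I r p = EE I r p * W p.1 s := by
  rw [BW, Matrix.sum_mul, Finset.sum_eq_single p]
  · rw [Matrix.mul_assoc, EE_orth, Matrix.mul_one]
  · intro p' _ hp'
    rw [Matrix.mul_assoc, EE_ne hp'.symm, Matrix.mul_zero]
  · intro h
    exact absurd (Finset.mem_univ _) h

theorem EE_mul_BW (W : ∀ q, S → Matrix (Fin (r q)) (Fin (r q)) ℂ) (s : S) (p : Σ q, I q) :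
    (EE I r p)ᴴ * BW I r W s = W p.1 s * (EE I r p)ᴴ := by
  rw [BW, Matrix.mul_sum, Finset.sum_eq_single p]
  · rw [← Matrix.mul_assoc, ← Matrix.mul_assoc, EE_orth, Matrix.one_mul]
  · intro p' _ hp'
    rw [← Matrix.mul_assoc, ← Matrix.mul_assoc, EE_ne hp', Matrix.zero_mul, Matrix.zero_mul]
  · intro h
    exact absurd (Finset.mem_univ _) h

theorem BW_unitary {W : ∀ q, S → Matrix (Fin (r q)) (Fin (r q)) ℂ}
    (hW : ∀ q s, W q s ∈ Matrix.unitaryGroup (Fin (r q)) ℂ) (s : S) :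
    BW I r W s ∈ Matrix.unitaryGroup (BM I r) ℂ := by
  rw [Matrix.mem_unitaryGroup_iff']
  show (BW I r W s)ᴴ * BW I r W s = 1
  have h1 : (BW I r W s)ᴴ = ∑ p : (Σ q, I q), EE I r p * (W p.1 s)ᴴ * (EE I r p)ᴴ := by
    rw [BW, Matrix.conjTranspose_sum]
    refine Finset.sum_congr rfl fun p _ => ?_
    simp only [Matrix.conjTranspose_mul, Matrix.conjTranspose_conjTranspose, Matrix.mul_assoc]
  rw [h1, Matrix.sum_mul]
  have h2 : ∀ p : (Σ q, I q), EE I r p * (W p.1 s)ᴴ * (EE I r p)ᴴ * BW I r W s =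
      EE I r p * (EE I r p)ᴴ := by
    intro p
    have h3 : (W p.1 s)ᴴ * W p.1 s = 1 := (Matrix.mem_unitaryGroup_iff'.1 (hW p.1 s))
    rw [Matrix.mul_assoc, EE_mul_BW, ← Matrix.mul_assoc, Matrix.mul_assoc (EE I r p), h3,
      Matrix.mul_one]
  simp only [h2]
  exact EE_sum

theorem blk_comm (W : ∀ q, S → Matrix (Fin (r q)) (Fin (r q)) ℂ) (s : S)
    (x : Matrix (BM I r) (BM I r) ℂ) (p p' : Σ q, I q) :
    blk I r (BW I r W s * x - x * BW I r W s) p p' =
      W p'.1 s * blk I r x p p' - blk I r x p p' * W p.1 s := by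
  rw [blk, Matrix.mul_sub, Matrix.sub_mul]
  congr 1
  · rw [← Matrix.mul_assoc, EE_mul_BW, blk]
    simp only [Matrix.mul_assoc]
  · rw [← Matrix.mul_assoc, Matrix.mul_assoc, BW_mul_EE, blk]
    simp only [Matrix.mul_assoc]

theorem En_blk (W : ∀ q, S → Matrix (Fin (r q)) (Fin (r q)) ℂ) (x : Matrix (BM I r) (BM I r) ℂ) :
    En (BW I r W) x = ∑ p : (Σ q, I q), ∑ p' : (Σ q, I q),
      EnR (W p'.1) (W p.1) (blk I r x p p') := by
  unfold En EnR
  simp only [hs_blk, blk_comm]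
  rw [Finset.sum_comm]
  refine Finset.sum_congr rfl fun p _ => ?_
  rw [Finset.sum_comm]

theorem ext_blk {x y : Matrix (BM I r) (BM I r) ℂ} (h : ∀ p p', blk I r x p p' = blk I r y p p') :
    x = y := by
  rw [← sub_eq_zero]
  apply hs_eq_zero
  rw [hs_blk]
  refine Finset.sum_eq_zero fun p _ => Finset.sum_eq_zero fun p' _ => ?_
  rw [blk_sub, h, sub_self, hs_zero]

/-- assembling a matrix from blocks -/
theorem blk_assemble (F : ∀ p p' : (Σ q, I q), Matrix (Fin (r p'.1)) (Fin (r p.1)) ℂ)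
    (p p' : Σ q, I q) :
    blk I r (∑ a : (Σ q, I q), ∑ a' : (Σ q, I q), EE I r a' * F a a' * (EE I r a)ᴴ) p p' = F p p' := by
  rw [blk, Matrix.mul_sum, Matrix.sum_mul, Finset.sum_eq_single p]
  · rw [Matrix.mul_sum, Matrix.sum_mul, Finset.sum_eq_single p']
    · have : (EE I r p')ᴴ * (EE I r p' * F p p' * (EE I r p)ᴴ) * EE I r p =
          ((EE I r p')ᴴ * EE I r p') * F p p' * ((EE I r p)ᴴ * EE I r p) := by
        simp only [Matrix.mul_assoc]
      rw [this, EE_orth, EE_orth, Matrix.one_mul, Matrix.mul_one]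
    · intro a' _ ha'
      have : (EE I r p')ᴴ * (EE I r a' * F p a' * (EE I r p)ᴴ) * EE I r p =
          ((EE I r p')ᴴ * EE I r a') * F p a' * ((EE I r p)ᴴ * EE I r p) := by
        simp only [Matrix.mul_assoc]
      rw [this, EE_ne ha', Matrix.zero_mul, Matrix.zero_mul]
    · intro h
      exact absurd (Finset.mem_univ _) h
  · intro a _ ha
    rw [Matrix.mul_sum, Matrix.sum_mul]
    refine Finset.sum_eq_zero fun a' _ => ?_
    have : (EE I r p')ᴴ * (EE I r a' * F a a' * (EE I r a)ᴴ) * EE I r p =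
          ((EE I r p')ᴴ * EE I r a') * F a a' * ((EE I r a)ᴴ * EE I r p) := by
        simp only [Matrix.mul_assoc]
    rw [this, EE_ne ha.symm, Matrix.mul_zero]
  · intro h
    exact absurd (Finset.mem_univ _) h

end

end Pool.Agent.H51K.Asm
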