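import Pool.Agent.H51K.AsmBlocks

/-!
The conditional expectation onto the commutant of a block system.
-/

set_option autoImplicit false
set_option linter.unusedSectionVars false
open Matrix
open scoped ComplexOrder MatrixOrder

namespace Pool.Agent.H51K.Asm

section
variable {Q : Type} [Fintype Q] [DecidableEq Q] {I : Q → Type}
  [∀ q, Fintype (I q)] [∀ q, DecidableEq (I q)] {r : Q → ℕ}

/-- matrix units -/
def sg {n : ℕ} (k l : Fin n) : Matrix (Fin n) (Fin n) ℂ := Matrix.single k l 1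

theorem sg_sandwich {n : ℕ} (k l l' k' : Fin n) (A : Matrix (Fin n) (Fin n) ℂ) :
    sg k l * A * sg l' k' = A l l' • sg k k' := by
  rw [sg, sg, sg, Matrix.single_mul_mul_single, Matrix.smul_single, one_mul, mul_one, smul_eq_mul,
    mul_one]

theorem sg_mul {n : ℕ} (k l k' : Fin n) : sg k l * sg l k' = sg k k' := by
  rw [sg, sg, sg, Matrix.single_mul_single_same, one_mul]

theorem conj_single {n : ℕ} (k l : Fin n) :
    (sg k l)ᴴ = sg l k := by
  ext a b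
  rw [Matrix.conjTranspose_apply, sg, sg, Matrix.single, Matrix.single, Matrix.of_apply,
    Matrix.of_apply]
  by_cases h1 : k = b <;> by_cases h2 : l = a <;> simp [h1, h2]

theorem sum_single_one {n : ℕ} :
    ∑ k : Fin n, sg k k = 1 := by
  ext a b
  rw [Matrix.sum_apply, Matrix.one_apply]
  by_cases h : a = b
  · subst h
    rw [if_pos rfl, Finset.sum_eq_single a]
    · simp [sg]
    · intro c _ hc
      exact Matrix.single_apply_of_ne _ _ _ _ _ (fun h => hc h.1)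
    · intro h
      exact absurd (Finset.mem_univ _) h
  · rw [if_neg h]
    refine Finset.sum_eq_zero fun c _ => ?_
    exact Matrix.single_apply_of_ne _ _ _ _ _ (fun h' => h (h'.1.symm.trans h'.2))

variable (I r) in
/-- partial isometries exchanging the basis vectors `k` and `l` of all the blocks of class `q` -/
def FF (q : Q) (k l : Fin (r q)) : Matrix (BM I r) (BM I r) ℂ :=
  ∑ i : I q, EE I r ⟨q, i⟩ * sg k l * (EE I r ⟨q, i⟩)ᴴ

theorem FF_conj (q : Q) (k l : Fin (r q)) : (FF I r q k l)ᴴ = FF I r q l k := by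
  rw [FF, FF, Matrix.conjTranspose_sum]
  refine Finset.sum_congr rfl fun i _ => ?_
  simp only [Matrix.conjTranspose_mul, Matrix.conjTranspose_conjTranspose, Matrix.mul_assoc]
  rw [conj_single]

theorem EEH_FF (q : Q) (i : I q) (k l : Fin (r q)) :
    (EE I r ⟨q, i⟩)ᴴ * FF I r q k l = sg k l * (EE I r ⟨q, i⟩)ᴴ := by
  rw [FF, Matrix.mul_sum, Finset.sum_eq_single i]
  · rw [← Matrix.mul_assoc, ← Matrix.mul_assoc, EE_orth, Matrix.one_mul]
  · intro j _ hj
    have : (⟨q, i⟩ : Σ q, I q) ≠ ⟨q, j⟩ := by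
      intro h
      apply hj
      simpa using h.symm
    rw [← Matrix.mul_assoc, ← Matrix.mul_assoc, EE_ne this.symm, Matrix.zero_mul, Matrix.zero_mul]
  · intro h
    exact absurd (Finset.mem_univ _) h

theorem EEH_FF_ne {q q' : Q} (hq : q' ≠ q) (i : I q') (k l : Fin (r q)) :
    (EE I r ⟨q', i⟩)ᴴ * FF I r q k l = 0 := by
  rw [FF, Matrix.mul_sum]
  refine Finset.sum_eq_zero fun j _ => ?_
  have : (⟨q, j⟩ : Σ q, I q) ≠ ⟨q', i⟩ := by
    intro h
    apply hq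
    exact (Sigma.mk.inj_iff.1 h).1.symm
  rw [← Matrix.mul_assoc, ← Matrix.mul_assoc, EE_ne this, Matrix.zero_mul, Matrix.zero_mul]

theorem FF_EE (q : Q) (i : I q) (k l : Fin (r q)) :
    FF I r q k l * EE I r ⟨q, i⟩ = EE I r ⟨q, i⟩ * sg k l := by
  have h := congrArg Matrix.conjTranspose (EEH_FF (I := I) (r := r) q i l k)
  rw [Matrix.conjTranspose_mul, Matrix.conjTranspose_mul, Matrix.conjTranspose_conjTranspose,
    FF_conj, conj_single] at h
  exact h

theorem FF_EE_ne {q q' : Q} (hq : q' ≠ q) (i : I q') (k l : Fin (r q)) :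
    FF I r q k l * EE I r ⟨q', i⟩ = 0 := by
  have h := congrArg Matrix.conjTranspose (EEH_FF_ne (I := I) (r := r) hq i l k)
  rw [Matrix.conjTranspose_mul, Matrix.conjTranspose_conjTranspose,
    FF_conj, Matrix.conjTranspose_zero] at h
  exact h

theorem FF_mul (q : Q) (k l : Fin (r q)) :
    FF I r q k l * FF I r q l k =
      ∑ i : I q, EE I r ⟨q, i⟩ * sg k k * (EE I r ⟨q, i⟩)ᴴ := by
  conv_lhs => rw [FF]
  rw [Matrix.sum_mul]
  refine Finset.sum_congr rfl fun i _ => ?_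
  rw [Matrix.mul_assoc, EEH_FF, ← Matrix.mul_assoc, Matrix.mul_assoc (EE I r ⟨q, i⟩),
    sg_mul]

variable (I r) in
/-- Kraus operators of the conditional expectation -/
noncomputable def KK (a : Σ q : Q, Fin (r q) × Fin (r q)) : Matrix (BM I r) (BM I r) ℂ :=
  (Real.sqrt (r a.1 : ℝ))⁻¹ • FF I r a.1 a.2.1 a.2.2

theorem KK_sq (hr : ∀ q, 0 < r q) (q : Q) :
    (Real.sqrt (r q : ℝ))⁻¹ * (Real.sqrt (r q : ℝ))⁻¹ = (r q : ℝ)⁻¹ := by
  have : (0 : ℝ) < r q := Nat.cast_pos.2 (hr q)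
  rw [← mul_inv, Real.mul_self_sqrt this.le]

theorem KK_sum (hr : ∀ q, 0 < r q) :
    ∑ a : (Σ q : Q, Fin (r q) × Fin (r q)), KK I r a * (KK I r a)ᴴ = 1 := by
  rw [Fintype.sum_sigma, ← EE_sum (I := I) (r := r), Fintype.sum_sigma]
  refine Finset.sum_congr rfl fun q _ => ?_
  have hrq : (0 : ℝ) < r q := Nat.cast_pos.2 (hr q)
  rw [Fintype.sum_prod_type]
  have h1 : ∀ k l : Fin (r q), KK I r ⟨q, (k, l)⟩ * (KK I r ⟨q, (k, l)⟩)ᴴ =
      (r q : ℝ)⁻¹ • ∑ i : I q, EE I r ⟨q, i⟩ * sg k k * (EE I r ⟨q, i⟩)ᴴ := by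
    intro k l
    rw [KK, Matrix.conjTranspose_smul, star_trivial, Matrix.smul_mul, Matrix.mul_smul, smul_smul,
      KK_sq hr, FF_conj, FF_mul]
  have h2 : ∀ k : Fin (r q), ∑ l : Fin (r q), KK I r ⟨q, (k, l)⟩ * (KK I r ⟨q, (k, l)⟩)ᴴ =
      ∑ i : I q, EE I r ⟨q, i⟩ * sg k k * (EE I r ⟨q, i⟩)ᴴ := by
    intro k
    simp only [h1]
    rw [Finset.sum_const, Finset.card_univ, Fintype.card_fin, ← Nat.cast_smul_eq_nsmul ℝ,
      smul_smul, mul_inv_cancel₀ hrq.ne', one_smul]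
  simp only [h2]
  rw [Finset.sum_comm]
  refine Finset.sum_congr rfl fun i _ => ?_
  rw [← Matrix.sum_mul, ← Matrix.mul_sum, sum_single_one, Matrix.mul_one]

theorem blk_kraus (hr : ∀ q, 0 < r q) (x : Matrix (BM I r) (BM I r) ℂ) (p p' : Σ q, I q) :
    blk I r (∑ a : (Σ q : Q, Fin (r q) × Fin (r q)), KK I r a * x * (KK I r a)ᴴ) p p' =
      ceB r p.1 p'.1 (blk I r x p p') := by
  obtain ⟨q, i⟩ := p
  obtain ⟨q', j⟩ := p'
  have h0 : ∀ (q₀ : Q) (k l : Fin (r q₀)), (EE I r ⟨q', j⟩)ᴴ * (KK I r ⟨q₀, (k, l)⟩ * x *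
      (KK I r ⟨q₀, (k, l)⟩)ᴴ) * EE I r ⟨q, i⟩ = (r q₀ : ℝ)⁻¹ •
        (((EE I r ⟨q', j⟩)ᴴ * FF I r q₀ k l) * x * (FF I r q₀ l k * EE I r ⟨q, i⟩)) := by
    intro q₀ k l
    rw [KK, Matrix.conjTranspose_smul, star_trivial, FF_conj]
    simp only [Matrix.smul_mul, Matrix.mul_smul, smul_smul, Matrix.mul_assoc]
    rw [KK_sq hr]
  rw [blk, Matrix.mul_sum, Matrix.sum_mul, Fintype.sum_sigma]
  simp only [Fintype.sum_prod_type]
  by_cases hq : q = q'
  · subst hq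
    rw [Finset.sum_eq_single q]
    · rw [ceB_self]
      simp only [h0, EEH_FF, FF_EE]
      have h1 : ∀ k l : Fin (r q), sg k l * (EE I r ⟨q, j⟩)ᴴ * x *
          (EE I r ⟨q, i⟩ * sg l k) =
          (blk I r x ⟨q, i⟩ ⟨q, j⟩ l l) • sg k k := by
        intro k l
        have : sg k l * (EE I r ⟨q, j⟩)ᴴ * x * (EE I r ⟨q, i⟩ * sg l k) =
            sg k l * (blk I r x ⟨q, i⟩ ⟨q, j⟩) * sg l k := by
          rw [blk]
          simp only [Matrix.mul_assoc]
        rw [this, sg_sandwich]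
      simp only [h1]
      have h2 : ∀ k : Fin (r q), ∑ l : Fin (r q), (r q : ℝ)⁻¹ •
          ((blk I r x ⟨q, i⟩ ⟨q, j⟩ l l) • sg k k) =
          (Matrix.trace (blk I r x ⟨q, i⟩ ⟨q, j⟩) / r q) • sg k k := by
        intro k
        rw [← Finset.smul_sum, ← Finset.sum_smul]
        have h3 : ((r q : ℝ)⁻¹ • ((∑ l : Fin (r q), blk I r x ⟨q, i⟩ ⟨q, j⟩ l l) •
            sg k k) : Matrix (Fin (r q)) (Fin (r q)) ℂ) =
            (((r q : ℝ)⁻¹ : ℝ) : ℂ) • ((∑ l : Fin (r q), blk I r x ⟨q, i⟩ ⟨q, j⟩ l l) •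
            sg k k) := rfl
        rw [h3, smul_smul]
        congr 1
        rw [Matrix.trace, div_eq_inv_mul]
        push_cast
        rfl
      simp only [h2]
      rw [← Finset.smul_sum, sum_single_one]
    · intro q₀ _ hq₀
      refine Finset.sum_eq_zero fun k _ => Finset.sum_eq_zero fun l _ => ?_
      rw [h0, EEH_FF_ne hq₀.symm, Matrix.zero_mul, Matrix.zero_mul, smul_zero]
    · intro h
      exact absurd (Finset.mem_univ _) h
  · rw [ceB_ne r hq]
    refine Finset.sum_eq_zero fun q₀ _ => Finset.sum_eq_zero fun k _ =>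
      Finset.sum_eq_zero fun l _ => ?_
    rw [h0]
    by_cases h1 : q' = q₀
    · have h2 : q ≠ q₀ := fun h => hq (h.trans h1.symm)
      rw [FF_EE_ne h2, Matrix.mul_zero, smul_zero]
    · rw [EEH_FF_ne h1, Matrix.zero_mul, Matrix.zero_mul, smul_zero]

theorem exists_ce {S : Type} [Fintype S] (hr : ∀ q, 0 < r q)
    (W : ∀ q, S → Matrix (Fin (r q)) (Fin (r q)) ℂ) {κ : ℝ} {x : Matrix (BM I r) (BM I r) ℂ}
    (hx : xᴴ * x ≤ κ • (1 : Matrix (BM I r) (BM I r) ℂ)) :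
    ∃ x' : Matrix (BM I r) (BM I r) ℂ, (∀ s, x' * BW I r W s = BW I r W s * x') ∧
      x'ᴴ * x' ≤ κ • (1 : Matrix (BM I r) (BM I r) ℂ) ∧
      ∀ p p', blk I r x' p p' = ceB r p.1 p'.1 (blk I r x p p') := by
  refine ⟨∑ a : (Σ q : Q, Fin (r q) × Fin (r q)), KK I r a * x * (KK I r a)ᴴ, ?_,
    kraus_contr _ (KK_sum hr) hx, blk_kraus hr x⟩
  intro s
  symm
  rw [← sub_eq_zero]
  apply hs_eq_zero
  rw [hs_blk]
  refine Finset.sum_eq_zero fun p _ => Finset.sum_eq_zero fun p' _ => ?_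
  rw [blk_comm, blk_kraus hr]
  obtain ⟨q, i⟩ := p
  obtain ⟨q', j⟩ := p'
  by_cases hq : q = q'
  · subst hq
    rw [ceB_self]
    simp only [Matrix.mul_smul, Matrix.smul_mul, Matrix.mul_one, Matrix.one_mul, sub_self, hs_zero]
  · rw [ceB_ne r hq, Matrix.mul_zero, Matrix.zero_mul, sub_self, hs_zero]

end

end Pool.Agent.H51K.Asm
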