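import Pool.Agent.H51K.AsmTools

/-!
The Cayley transform.
-/

set_option autoImplicit false
set_option linter.unusedSectionVars false
open Matrix
open scoped ComplexOrder MatrixOrder

namespace Pool.Agent.H51K.Asm

variable {m n l k : Type*} [Fintype m] [Fintype n] [Fintype l] [Fintype k]

theorem psd_le_one_sq' [DecidableEq n] {X : Matrix n n ℂ} (hX : X.PosSemidef)
    (h1 : (1 - X).PosSemidef) : Xᴴ * X ≤ 1 := by
  have hX' : Xᴴ = X := hX.1
  rw [Matrix.le_iff, hX']
  have := h1.add (psd_le_one_sq hX h1)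
  rwa [sub_add_sub_cancel] at this

theorem cayley [DecidableEq n] [DecidableEq l] (y : Matrix l n ℂ) {t : ℝ} (ht : 0 < t) :
    ∃ (u : Matrix l n ℂ) (b : Matrix n n ℂ), uᴴ * u ≤ 1 ∧ bᴴ = b ∧ bᴴ * b ≤ 1 ∧
      rtr (b * (yᴴ * y)) - t * rtr b = t * (Fintype.card n - hs u) ∧
      ∀ (g' : Matrix l l ℂ) (g : Matrix n n ℂ), g' ∈ Matrix.unitaryGroup l ℂ →
        g ∈ Matrix.unitaryGroup n ℂ →
        hs (g' * u - u * g) ≤ (9 / t) * hs (g' * y - y * g) := by
  obtain ⟨X, hX, hX1, hXa, haX⟩ := resolvent (yᴴ * y) (Matrix.posSemidef_conjTranspose_mul_self y) ht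
  have hX' : Xᴴ = X := hX.1
  set q : ℝ := 2 / Real.sqrt t with hq
  have hst : 0 < Real.sqrt t := Real.sqrt_pos.2 ht
  have hq2 : q * q = 4 / t := by
    rw [hq, div_mul_div_comm, Real.mul_self_sqrt ht.le]
    norm_num
  have hXX := psd_le_one_sq hX hX1
  -- `X a X = t (X - X²)`
  have hXaX : X * (yᴴ * y) * X = t • (X - X * X) := by
    rw [hXa, Matrix.smul_mul, Matrix.sub_mul, Matrix.one_mul]
  have huu : (q • (y * X))ᴴ * (q • (y * X)) = (4 : ℝ) • (X - X * X) := by
    have e : (q • (y * X))ᴴ * (q • (y * X)) = (q * q) • (X * (yᴴ * y) * X) := by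
      rw [Matrix.conjTranspose_smul, star_trivial, Matrix.smul_mul, Matrix.mul_smul, smul_smul,
        Matrix.conjTranspose_mul, hX']
      simp only [Matrix.mul_assoc]
    rw [e, hXaX, hq2, smul_smul]
    congr 1
    field_simp
  have hD : (1 - (2 : ℝ) • X)ᴴ = 1 - (2 : ℝ) • X := by
    rw [Matrix.conjTranspose_sub, Matrix.conjTranspose_one, Matrix.conjTranspose_smul, star_trivial,
      hX']
  have hDD : (1 - (2 : ℝ) • X)ᴴ * (1 - (2 : ℝ) • X) = 1 - (4 : ℝ) • (X - X * X) := by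
    have e2 : (2 : ℝ) • X = X + X := two_smul ℝ X
    have e4 : (4 : ℝ) • (X - X * X) = (X - X * X) + (X - X * X) + ((X - X * X) + (X - X * X)) := by
      rw [← two_smul ℝ (X - X * X), ← two_smul ℝ ((2 : ℝ) • (X - X * X)), smul_smul]
      norm_num
    rw [hD, e2, e4]
    noncomm_ring
  have h4 : ((4 : ℝ) • (X - X * X)).PosSemidef := hXX.smul (by norm_num : (0 : ℝ) ≤ 4)
  refine ⟨q • (y * X), X * (1 - (2 : ℝ) • X), ?_, ?_, ?_, ?_, ?_⟩
  · rw [huu, Matrix.le_iff, ← hDD]
    exact Matrix.posSemidef_conjTranspose_mul_self _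
  · rw [Matrix.conjTranspose_mul, hD, hX', Matrix.sub_mul, Matrix.mul_sub, Matrix.mul_smul,
      Matrix.smul_mul, Matrix.one_mul, Matrix.mul_one]
  · rw [Matrix.conjTranspose_mul]
    have h1 : (1 - (2 : ℝ) • X)ᴴ * (Xᴴ * X) * (1 - (2 : ℝ) • X) ≤
        (1 - (2 : ℝ) • X)ᴴ * 1 * (1 - (2 : ℝ) • X) := conj_mono (psd_le_one_sq' hX hX1) _
    rw [Matrix.mul_one, hDD] at h1
    have h2 : (1 : Matrix n n ℂ) - (4 : ℝ) • (X - X * X) ≤ 1 := by
      rw [Matrix.le_iff, sub_sub_cancel]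
      exact h4
    have h3 := h1.trans h2
    simpa only [Matrix.mul_assoc] using h3
  · have e : X * (1 - (2 : ℝ) • X) * (yᴴ * y) - t • (X * (1 - (2 : ℝ) • X)) =
        t • (1 - (4 : ℝ) • (X - X * X)) := by
      have e1 : X * (1 - (2 : ℝ) • X) = (1 - (2 : ℝ) • X) * X := by
        rw [Matrix.sub_mul, Matrix.mul_sub, Matrix.mul_smul,
          Matrix.smul_mul, Matrix.one_mul, Matrix.mul_one]
      rw [e1, Matrix.mul_assoc, hXa, ← hDD, hD, Matrix.mul_smul, ← smul_sub, ← Matrix.mul_sub]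
      congr 2
      have : (2 : ℝ) • X = X + X := by rw [two_smul]
      rw [this]
      abel
    rw [← rtr_smul, ← rtr_sub, e, rtr_smul, rtr_sub, rtr_one, ← huu]
    rfl
  · intro g' g hg' hg
    have hg1 : g * gᴴ = 1 := (Matrix.mem_unitaryGroup_iff.1 hg)
    have hg'1 : g'ᴴ * g' = 1 := (Matrix.mem_unitaryGroup_iff'.1 hg')
    set D := g' * y - y * g with hDdef
    set K : Matrix l l ℂ := t⁻¹ • (y * X * yᴴ) with hK
    have hKp : K.PosSemidef := (psd_conj' hX y).smul (inv_nonneg.2 ht.le)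
    have hK' : Kᴴ = K := hKp.1
    have hKK : K * K = K - t⁻¹ • (y * (X * X) * yᴴ) := by
      have e : K * K = (t⁻¹ * t⁻¹) • (y * (X * (yᴴ * y) * X) * yᴴ) := by
        rw [hK, Matrix.smul_mul, Matrix.mul_smul, smul_smul]
        simp only [Matrix.mul_assoc]
      rw [e, hXaX, Matrix.mul_smul, Matrix.smul_mul, smul_smul, Matrix.mul_sub, Matrix.sub_mul,
        smul_sub, hK, mul_assoc, inv_mul_cancel₀ ht.ne', mul_one]
    have hK1 : (1 - K)ᴴ * (1 - K) ≤ (1 : ℝ) • (1 : Matrix l l ℂ) := by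
      rw [one_smul, Matrix.conjTranspose_sub, Matrix.conjTranspose_one, hK', Matrix.le_iff]
      have e : 1 - (1 - K) * (1 - K) = K + t⁻¹ • (y * (X * X) * yᴴ) := by
        have : (1 - K) * (1 - K) = 1 - K - K + K * K := by noncomm_ring
        rw [this, hKK]
        abel
      rw [e]
      have hX2 : (X * X).PosSemidef := by
        have := Matrix.posSemidef_conjTranspose_mul_self X
        rwa [hX'] at this
      exact hKp.add ((psd_conj' hX2 y).smul (inv_nonneg.2 ht.le))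
    have hyX : (y * X)ᴴ * (y * X) ≤ (t / 4) • (1 : Matrix n n ℂ) := by
      have e : (y * X)ᴴ * (y * X) = t • (X - X * X) := by
        rw [← hXaX, Matrix.conjTranspose_mul, hX']
        simp only [Matrix.mul_assoc]
      rw [e, Matrix.le_iff]
      have e2 : (t / 4) • (1 : Matrix n n ℂ) - t • (X - X * X) =
          (t / 4) • ((1 - (2 : ℝ) • X)ᴴ * (1 - (2 : ℝ) • X)) := by
        rw [hDD, smul_sub (t / 4) (1 : Matrix n n ℂ), smul_smul]
        congr 2
        ring
      rw [e2]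
      exact (Matrix.posSemidef_conjTranspose_mul_self _).smul (by positivity)
    have hyX' : (y * X) * (y * X)ᴴ ≤ (t / 4) • (1 : Matrix l l ℂ) := swap_bound (by positivity) hyX
    have hXb : X * Xᴴ ≤ (1 : ℝ) • (1 : Matrix n n ℂ) := by
      rw [one_smul]
      have := psd_le_one_sq' hX hX1
      rwa [hX'] at this ⊢
    -- the commutator of the resolvent
    have hcomm : t • (g * X - X * g) = - (X * (yᴴ * D + g * Dᴴ * g' * y) * X) := by
      have e1 : yᴴ * D + g * Dᴴ * g' * y = g * (yᴴ * y) - (yᴴ * y) * g := by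
        rw [hDdef]
        simp only [Matrix.conjTranspose_sub, Matrix.conjTranspose_mul, Matrix.mul_sub,
          Matrix.sub_mul, Matrix.mul_assoc]
        rw [← Matrix.mul_assoc g'ᴴ g' y, hg'1, Matrix.one_mul, ← Matrix.mul_assoc g gᴴ, hg1,
          Matrix.one_mul]
        abel
      rw [e1]
      have e2 : X * (g * (yᴴ * y) - (yᴴ * y) * g) * X =
          X * g * ((yᴴ * y) * X) - (X * (yᴴ * y)) * g * X := by
        simp only [Matrix.mul_sub, Matrix.sub_mul, Matrix.mul_assoc]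
      rw [e2, haX, hXa, Matrix.mul_smul, Matrix.smul_mul, Matrix.smul_mul, ← smul_sub, ← smul_neg]
      congr 1
      noncomm_ring
    have hmain : g' * (q • (y * X)) - (q • (y * X)) * g =
        q • ((1 - K) * (D * X) - t⁻¹ • ((y * X) * ((g * Dᴴ * g') * (y * X)))) := by
      have e1 : g * X - X * g = t⁻¹ • (-(X * (yᴴ * D + g * Dᴴ * g' * y) * X)) := by
        rw [← hcomm, smul_smul, inv_mul_cancel₀ ht.ne', one_smul]
      have e2 : g' * (y * X) - (y * X) * g = D * X + y * (g * X - X * g) := by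
        rw [hDdef]
        simp only [Matrix.mul_sub, Matrix.sub_mul, Matrix.mul_assoc]
        abel
      rw [Matrix.mul_smul, Matrix.smul_mul, ← smul_sub, e2, e1, hK]
      congr 1
      simp only [Matrix.mul_add, Matrix.add_mul, Matrix.sub_mul, Matrix.mul_smul, Matrix.smul_mul,
        Matrix.mul_neg, smul_neg, smul_add, neg_add, Matrix.one_mul, Matrix.mul_assoc]
      abel
    have b1 : hs ((1 - K) * (D * X)) ≤ hs D := by
      have h1 := hs_mul_le hK1 (D * X)
      have h2 := hs_mul_le' hXb D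
      linarith
    have b2 : hs (t⁻¹ • ((y * X) * ((g * Dᴴ * g') * (y * X)))) ≤ hs D / 16 := by
      have h1 := hs_mul_le hyX ((g * Dᴴ * g') * (y * X))
      have h2 := hs_mul_le' hyX' (g * Dᴴ * g')
      rw [hs_mul_unitary hg', hs_unitary_mul hg, hs_conjTranspose] at h2
      rw [hs_smul]
      have h3 : hs ((y * X) * ((g * Dᴴ * g') * (y * X))) ≤ (t / 4) * ((t / 4) * hs D) :=
        h1.trans (mul_le_mul_of_nonneg_left h2 (by positivity))
      calc t⁻¹ ^ 2 * hs ((y * X) * ((g * Dᴴ * g') * (y * X)))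
          ≤ t⁻¹ ^ 2 * ((t / 4) * ((t / 4) * hs D)) :=
            mul_le_mul_of_nonneg_left h3 (by positivity)
        _ = hs D / 16 := by field_simp; ring
    rw [hmain, hs_smul]
    have b3 := hs_sub_le ((1 - K) * (D * X)) (t⁻¹ • ((y * X) * ((g * Dᴴ * g') * (y * X))))
    have hDn := hs_nonneg D
    have b4 : hs ((1 - K) * (D * X) - t⁻¹ • ((y * X) * ((g * Dᴴ * g') * (y * X)))) ≤
        (9 / 4) * hs D := by linarith
    calc q ^ 2 * hs ((1 - K) * (D * X) - t⁻¹ • ((y * X) * ((g * Dᴴ * g') * (y * X))))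
        ≤ q ^ 2 * ((9 / 4) * hs D) := mul_le_mul_of_nonneg_left b4 (by positivity)
      _ = (9 / t) * hs D := by
        rw [sq, hq2]
        ring

end Pool.Agent.H51K.Asm
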