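import Pool.Agent.H51K.AsmPairs

/-!
The commutant lemma for families of blocks.
-/

set_option autoImplicit false
set_option linter.unusedSectionVars false
open Matrix
open scoped ComplexOrder MatrixOrder

namespace Pool.Agent.H51K.Asm

theorem psd_of_eq {n : Type*} [Fintype n] {A B : Matrix n n ℂ} (h : B.PosSemidef) (e : A = B) :
    A.PosSemidef := e ▸ h

/-- rectangular identity -/
def rOne (a b : ℕ) : Matrix (Fin a) (Fin b) ℂ := Matrix.of fun k l => if (k : ℕ) = l then 1 else 0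

theorem rOne_self (a : ℕ) : rOne a a = 1 := by
  ext k l
  simp only [rOne, Matrix.of_apply, Matrix.one_apply, Fin.ext_iff]

/-- rectangular trace -/
noncomputable def rTr {a b : ℕ} (A : Matrix (Fin a) (Fin b) ℂ) : ℂ :=
  Matrix.trace ((rOne a b)ᴴ * A)

theorem rTr_self {a : ℕ} (A : Matrix (Fin a) (Fin a) ℂ) : rTr A = Matrix.trace A := by
  rw [rTr, rOne_self, Matrix.conjTranspose_one, Matrix.one_mul]

theorem traceless {r : ℕ} (hr : 0 < r) (A : Matrix (Fin r) (Fin r) ℂ) :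
    Matrix.trace (A - (Matrix.trace A / r) • (1 : Matrix (Fin r) (Fin r) ℂ)) = 0 := by
  have hr' : (r : ℂ) ≠ 0 := Nat.cast_ne_zero.2 hr.ne'
  rw [Matrix.trace_sub, Matrix.trace_smul, Matrix.trace_one, Fintype.card_fin, smul_eq_mul]
  field_simp
  ring

theorem hs_split {r : ℕ} (hr : 0 < r) (A : Matrix (Fin r) (Fin r) ℂ) :
    hs A = hs (A - (Matrix.trace A / r) • (1 : Matrix (Fin r) (Fin r) ℂ)) +
      ‖Matrix.trace A / r‖ ^ 2 * r := by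
  rw [← hs_add_scalar _ (traceless hr A), sub_add_cancel]

theorem hs_ce_le {r : ℕ} (hr : 0 < r) (A : Matrix (Fin r) (Fin r) ℂ) (c : ℂ) :
    hs (A - (Matrix.trace A / r) • (1 : Matrix (Fin r) (Fin r) ℂ)) ≤
      hs (A - c • (1 : Matrix (Fin r) (Fin r) ℂ)) := by
  have h := hs_add_scalar _ (traceless hr A) (Matrix.trace A / r - c)
  have e : A - (Matrix.trace A / r) • (1 : Matrix (Fin r) (Fin r) ℂ) +
      (Matrix.trace A / r - c) • (1 : Matrix (Fin r) (Fin r) ℂ) = A - c • 1 := by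
    rw [sub_smul]; abel
  rw [e] at h
  rw [h]
  have : (0 : ℝ) ≤ ‖Matrix.trace A / r - c‖ ^ 2 * r := by positivity
  linarith

section
variable {Q : Type} [DecidableEq Q] (r : Q → ℕ)

/-- blockwise conditional expectation -/
noncomputable def ceB (q q' : Q) (A : Matrix (Fin (r q')) (Fin (r q)) ℂ) :
    Matrix (Fin (r q')) (Fin (r q)) ℂ :=
  if q = q' then (rTr A / r q) • rOne (r q') (r q) else 0

theorem ceB_self (q : Q) (A : Matrix (Fin (r q)) (Fin (r q)) ℂ) :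
    ceB r q q A = (Matrix.trace A / r q) • (1 : Matrix (Fin (r q)) (Fin (r q)) ℂ) := by
  rw [ceB, if_pos rfl, rOne_self, rTr_self]

theorem ceB_ne {q q' : Q} (h : q ≠ q') (A : Matrix (Fin (r q')) (Fin (r q)) ℂ) :
    ceB r q q' A = 0 := by
  rw [ceB, if_neg h]

/-- `A - ce A + ζ μ` -/
noncomputable def Yf (ζ : ℂ) (q q' : Q) (A : Matrix (Fin (r q')) (Fin (r q)) ℂ) :
    Matrix (Fin (r q')) (Fin (r q)) ℂ :=
  A - ceB r q q' A + (if q = q' then ζ * (Real.sqrt (hs (A - ceB r q q' A) / r q) : ℝ) else 0) •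
    rOne (r q') (r q)

theorem Yf_self (ζ : ℂ) (q : Q) (A : Matrix (Fin (r q)) (Fin (r q)) ℂ) :
    Yf r ζ q q A = A - (Matrix.trace A / r q) • (1 : Matrix (Fin (r q)) (Fin (r q)) ℂ) +
      (ζ * (Real.sqrt (hs (A - (Matrix.trace A / r q) • 1) / r q) : ℝ)) • 1 := by
  rw [Yf, if_pos rfl, ceB_self, rOne_self]

theorem Yf_ne (ζ : ℂ) {q q' : Q} (h : q ≠ q') (A : Matrix (Fin (r q')) (Fin (r q)) ℂ) :
    Yf r ζ q q' A = A := by
  rw [Yf, if_neg h, ceB_ne r h, zero_smul, add_zero, sub_zero]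

theorem Yf_energy {S : Type} [Fintype S] (W : ∀ q, S → Matrix (Fin (r q)) (Fin (r q)) ℂ)
    (ζ : ℂ) (q q' : Q) (A : Matrix (Fin (r q')) (Fin (r q)) ℂ) :
    EnR (W q') (W q) (Yf r ζ q q' A) = EnR (W q') (W q) A := by
  by_cases h : q = q'
  · subst h
    rw [Yf_self]
    unfold EnR
    refine Finset.sum_congr rfl fun s _ => ?_
    congr 1
    rw [Matrix.mul_add, Matrix.add_mul, Matrix.mul_sub, Matrix.sub_mul]
    simp only [Matrix.mul_smul, Matrix.smul_mul, Matrix.mul_one, Matrix.one_mul]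
    abel
  · rw [Yf_ne r ζ h]

theorem add_scalar_marg {r : ℕ} (A : Matrix (Fin r) (Fin r) ℂ) (c : ℂ) :
    (A + c • (1 : Matrix (Fin r) (Fin r) ℂ))ᴴ * (A + c • (1 : Matrix (Fin r) (Fin r) ℂ)) ≤
      (2 : ℝ) • (Aᴴ * A) + (2 * ‖c‖ ^ 2) • (1 : Matrix (Fin r) (Fin r) ℂ) := by
  have h := Matrix.posSemidef_conjTranspose_mul_self (A - c • (1 : Matrix (Fin r) (Fin r) ℂ))
  rw [Matrix.le_iff]
  refine psd_of_eq h ?_
  have e : (2 * ‖c‖ ^ 2) • (1 : Matrix (Fin r) (Fin r) ℂ) = (star c * c) • (1 : Matrix (Fin r) (Fin r) ℂ) + (star c * c) • (1 : Matrix (Fin r) (Fin r) ℂ) := by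
    rw [← add_smul, Complex.star_def, Complex.conj_mul']
    have : ((‖c‖ : ℂ) ^ 2 + (‖c‖ : ℂ) ^ 2) = ((2 * ‖c‖ ^ 2 : ℝ) : ℂ) := by push_cast; ring
    rw [this]
    rfl
  rw [e, two_smul]
  simp only [Matrix.conjTranspose_add, Matrix.conjTranspose_sub, Matrix.conjTranspose_smul,
    Matrix.conjTranspose_one, Matrix.add_mul, Matrix.mul_add, Matrix.sub_mul, Matrix.mul_sub,
    Matrix.smul_mul, Matrix.mul_smul, Matrix.mul_one, Matrix.one_mul, smul_add, smul_sub,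
    smul_smul]
  rw [mul_comm c (star c)]
  abel

theorem Yf_marg (hr : ∀ q, 0 < r q) {ζ : ℂ} (hζ : ‖ζ‖ ≤ 1) (q q' : Q)
    (A : Matrix (Fin (r q')) (Fin (r q)) ℂ) :
    (Yf r ζ q q' A)ᴴ * Yf r ζ q q' A ≤ (2 : ℝ) • (Aᴴ * A) + (4 * (hs A / r q)) • 1 := by
  have hr' : (0 : ℝ) < r q := Nat.cast_pos.2 (hr q)
  by_cases h : q = q'
  · subst h
    rw [Yf_self]
    set lam : ℂ := Matrix.trace A / r q with hlam
    set μ : ℝ := Real.sqrt (hs (A - lam • (1 : Matrix (Fin (r q)) (Fin (r q)) ℂ)) / r q) with hμ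
    have hμ2 : μ ^ 2 = hs (A - lam • (1 : Matrix (Fin (r q)) (Fin (r q)) ℂ)) / r q :=
      Real.sq_sqrt (div_nonneg (hs_nonneg _) hr'.le)
    have e : A - lam • (1 : Matrix (Fin (r q)) (Fin (r q)) ℂ) + (ζ * (μ : ℂ)) • 1 =
        A + (-lam + ζ * (μ : ℂ)) • 1 := by
      rw [add_smul, neg_smul]; abel
    rw [e]
    refine (add_scalar_marg A _).trans ?_
    have h1 : ‖-lam + ζ * (μ : ℂ)‖ ^ 2 ≤ 2 * (hs A / r q) := by
      have h2 : ‖-lam + ζ * (μ : ℂ)‖ ≤ ‖lam‖ + μ := by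
        refine (norm_add_le _ _).trans ?_
        rw [norm_neg, norm_mul, Complex.norm_real, Real.norm_of_nonneg (Real.sqrt_nonneg _)]
        have : ‖ζ‖ * μ ≤ 1 * μ := mul_le_mul_of_nonneg_right hζ (Real.sqrt_nonneg _)
        linarith
      have h3 : ‖-lam + ζ * (μ : ℂ)‖ ^ 2 ≤ (‖lam‖ + μ) ^ 2 :=
        pow_le_pow_left₀ (norm_nonneg _) h2 2
      have h4 : (‖lam‖ + μ) ^ 2 ≤ 2 * ‖lam‖ ^ 2 + 2 * μ ^ 2 := by nlinarith [sq_nonneg (‖lam‖ - μ)]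
      have h5 : 2 * ‖lam‖ ^ 2 + 2 * μ ^ 2 = 2 * (hs A / r q) := by
        rw [hμ2, hs_split (hr q) A, ← hlam]
        field_simp
        ring
      linarith
    rw [Matrix.le_iff]
    have h6 : ((4 * (hs A / r q) - 2 * ‖-lam + ζ * (μ : ℂ)‖ ^ 2) •
        (1 : Matrix (Fin (r q)) (Fin (r q)) ℂ)).PosSemidef :=
      Matrix.PosSemidef.one.smul (by linarith)
    refine psd_of_eq h6 ?_
    rw [sub_smul]
    abel
  · rw [Yf_ne r ζ h, Matrix.le_iff]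
    have h1 : ((Aᴴ * A) + (4 * (hs A / r q)) • (1 : Matrix (Fin (r q)) (Fin (r q)) ℂ)).PosSemidef :=
      (Matrix.posSemidef_conjTranspose_mul_self A).add
        (Matrix.PosSemidef.one.smul (mul_nonneg (by norm_num) (div_nonneg (hs_nonneg _) hr'.le)))
    refine psd_of_eq h1 ?_
    rw [two_smul]
    abel

end

section
variable {S : Type} [Fintype S] {Q : Type} [Fintype Q] [DecidableEq Q] (I : Q → Type)
  [∀ q, Fintype (I q)] (r : Q → ℕ) (W : ∀ q, S → Matrix (Fin (r q)) (Fin (r q)) ℂ)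

/-- flatness hypothesis for a system of blocks with multiplicities -/
def FlatP (κ e τ : ℝ) : Prop :=
  ∀ (y : ∀ p p' : (Σ q, I q), Matrix (Fin (r p'.1)) (Fin (r p.1)) ℂ)
    (b : ∀ p _p' : (Σ q, I q), Matrix (Fin (r p.1)) (Fin (r p.1)) ℂ),
    (∀ p p', (b p p')ᴴ = b p p') → (∀ p p', (b p p')ᴴ * b p p' ≤ 1) →
    (∀ p, ∑ p', (y p p')ᴴ * y p p' ≤ κ • (1 : Matrix (Fin (r p.1)) (Fin (r p.1)) ℂ)) →
    (∑ p, ∑ p', EnR (W p'.1) (W p.1) (y p p') ≤ e) →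
    ∑ p, ∑ p', Fl (b p p') (y p p') ≤ τ

variable {I r W}

theorem comm_diff (hW : ∀ q s, W q s ∈ Matrix.unitaryGroup (Fin (r q)) ℂ) (hr : ∀ q, 0 < r q)
    {δ η : ℝ} (hδ : 0 < δ) (hη : 0 < η)
    (hn : ∀ q q', q ≠ q' → Nonempty (I q) → Nonempty (I q') → ¬ Near δ η (W q) (W q'))
    {κ e τ : ℝ} (hF : FlatP I r W κ e τ)
    (z : ∀ p p' : (Σ q, I q), Matrix (Fin (r p'.1)) (Fin (r p.1)) ℂ)
    (h1 : ∀ p, ∑ p', (z p p')ᴴ * z p p' ≤ κ • (1 : Matrix (Fin (r p.1)) (Fin (r p.1)) ℂ))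
    (hE : ∑ p, ∑ p', EnR (W p'.1) (W p.1) (z p p') ≤ e) :
    ∑ p, ∑ p' : (Σ q, I q), (if p.1 ≠ p'.1 ∧ r p'.1 ≤ r p.1 then hs (z p p') else 0) ≤
      (9 / η) * e + δ⁻¹ * τ := by
  have key : ∀ p p' : (Σ q, I q), ∃ b : Matrix (Fin (r p.1)) (Fin (r p.1)) ℂ, bᴴ = b ∧
      bᴴ * b ≤ 1 ∧ (if p.1 ≠ p'.1 ∧ r p'.1 ≤ r p.1 then hs (z p p') else 0) ≤
        (9 / η) * EnR (W p'.1) (W p.1) (z p p') + δ⁻¹ * Fl b (z p p') := by
    intro p p'
    by_cases h : p.1 ≠ p'.1 ∧ r p'.1 ≤ r p.1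
    · rw [if_pos h]
      exact diff_class hδ hη (hW p.1) (hW p'.1) (hr _) h.2
        (hn p.1 p'.1 h.1 ⟨p.2⟩ ⟨p'.2⟩) (z p p')
    · rw [if_neg h]
      refine ⟨0, by simp, by simp, ?_⟩
      rw [Fl_zero, mul_zero, add_zero]
      exact mul_nonneg (by positivity) (EnR_nonneg _ _ _)
  choose b hb hbb hbF using key
  have h2 := hF z b hb hbb h1 hE
  calc ∑ p, ∑ p' : (Σ q, I q), (if p.1 ≠ p'.1 ∧ r p'.1 ≤ r p.1 then hs (z p p') else 0)
      ≤ ∑ p, ∑ p' : (Σ q, I q), ((9 / η) * EnR (W p'.1) (W p.1) (z p p') +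
          δ⁻¹ * Fl (b p p') (z p p')) :=
        Finset.sum_le_sum fun p _ => Finset.sum_le_sum fun p' _ => hbF p p'
    _ = (9 / η) * ∑ p, ∑ p' : (Σ q, I q), EnR (W p'.1) (W p.1) (z p p') +
          δ⁻¹ * ∑ p, ∑ p' : (Σ q, I q), Fl (b p p') (z p p') := by
        simp only [Finset.sum_add_distrib, Finset.mul_sum]
    _ ≤ (9 / η) * e + δ⁻¹ * τ := by
        refine add_le_add (mul_le_mul_of_nonneg_left hE (by positivity))
          (mul_le_mul_of_nonneg_left h2 (by positivity))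

theorem comm_same (hr : ∀ q, 0 < r q) {κ e τ : ℝ} (hF : FlatP I r W (6 * κ) e τ)
    (z : ∀ p p' : (Σ q, I q), Matrix (Fin (r p'.1)) (Fin (r p.1)) ℂ)
    (h1 : ∀ p, ∑ p', (z p p')ᴴ * z p p' ≤ κ • (1 : Matrix (Fin (r p.1)) (Fin (r p.1)) ℂ))
    (hE : ∑ p, ∑ p', EnR (W p'.1) (W p.1) (z p p') ≤ e) :
    ∑ p, ∑ p' : (Σ q, I q), (if p.1 = p'.1 then hs (z p p' - ceB r p.1 p'.1 (z p p')) else 0) ≤
      3 * τ := by
  have key : ∀ p p' : (Σ q, I q), ∃ b : Fin 3 → Matrix (Fin (r p.1)) (Fin (r p.1)) ℂ,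
      (∀ i, (b i)ᴴ = b i) ∧ (∀ i, (b i)ᴴ * b i ≤ 1) ∧
      (if p.1 = p'.1 then hs (z p p' - ceB r p.1 p'.1 (z p p')) else 0) =
        Fl (b 0) (Yf r 0 p.1 p'.1 (z p p')) +
        (Fl (b 1) (Yf r 1 p.1 p'.1 (z p p')) - Fl (b 1) (Yf r 0 p.1 p'.1 (z p p')) -
         Fl (b 2) (Yf r Complex.I p.1 p'.1 (z p p')) + Fl (b 2) (Yf r 0 p.1 p'.1 (z p p'))) / 2 := by
    intro p p'
    obtain ⟨q, i⟩ := p
    obtain ⟨q', j⟩ := p'
    generalize z ⟨q, i⟩ ⟨q', j⟩ = A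
    dsimp only at A ⊢
    by_cases h : q = q'
    · subst h
      obtain ⟨b, hb, hbb, hF⟩ := same_class (hr q)
        (A - (Matrix.trace A / r q) • (1 : Matrix (Fin (r q)) (Fin (r q)) ℂ)) (traceless (hr q) A)
      refine ⟨b, hb, hbb, ?_⟩
      rw [if_pos rfl, ceB_self, Yf_self, Yf_self, Yf_self]
      simp only [zero_mul, zero_smul, add_zero, one_mul]
      exact hF
    · refine ⟨fun _ => 0, by simp, by simp, ?_⟩
      rw [if_neg h]
      simp only [Fl_zero]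
      norm_num
  choose b hb hbb hbF using key
  have hmarg : ∀ ζ : ℂ, ‖ζ‖ ≤ 1 → ∀ p : (Σ q, I q), ∑ p' : (Σ q, I q),
      (Yf r ζ p.1 p'.1 (z p p'))ᴴ * (Yf r ζ p.1 p'.1 (z p p')) ≤
        (6 * κ) • (1 : Matrix (Fin (r p.1)) (Fin (r p.1)) ℂ) := by
    intro ζ hζ p
    have hr' : (0 : ℝ) < r p.1 := Nat.cast_pos.2 (hr p.1)
    have s1 : ∑ p' : (Σ q, I q), (Yf r ζ p.1 p'.1 (z p p'))ᴴ * (Yf r ζ p.1 p'.1 (z p p')) ≤
        ∑ p' : (Σ q, I q), ((2 : ℝ) • ((z p p')ᴴ * z p p') +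
          (4 * (hs (z p p') / r p.1)) • (1 : Matrix (Fin (r p.1)) (Fin (r p.1)) ℂ)) :=
      Finset.sum_le_sum fun p' _ => Yf_marg r hr hζ p.1 p'.1 (z p p')
    refine s1.trans ?_
    rw [Finset.sum_add_distrib, ← Finset.smul_sum, ← Finset.sum_smul, ← Finset.mul_sum,
      ← Finset.sum_div]
    have s2 : ∑ p' : (Σ q, I q), hs (z p p') ≤ κ * r p.1 := by
      have := rtr_mono (h1 p)
      rw [rtr_sum, rtr_smul, rtr_one, Fintype.card_fin] at this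
      exact this
    have s3 : 4 * ((∑ p' : (Σ q, I q), hs (z p p')) / r p.1) ≤ 4 * κ := by
      have : (∑ p' : (Σ q, I q), hs (z p p')) / r p.1 ≤ κ := by
        rw [div_le_iff₀ hr']; exact s2
      linarith
    have s4 := (Matrix.le_iff.1 (h1 p)).smul (by norm_num : (0 : ℝ) ≤ 2)
    have s5 : ((4 * κ - 4 * ((∑ p' : (Σ q, I q), hs (z p p')) / r p.1)) •
        (1 : Matrix (Fin (r p.1)) (Fin (r p.1)) ℂ)).PosSemidef :=
      Matrix.PosSemidef.one.smul (by linarith)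
    rw [Matrix.le_iff]
    refine psd_of_eq (s4.add s5) ?_
    rw [smul_sub, sub_smul, smul_smul]
    have : (6 * κ) • (1 : Matrix (Fin (r p.1)) (Fin (r p.1)) ℂ) = (2 * κ) • 1 + (4 * κ) • 1 := by
      rw [← add_smul]; congr 1; ring
    rw [this]
    abel
  have hen : ∀ ζ : ℂ, ∑ p, ∑ p' : (Σ q, I q), EnR (W p'.1) (W p.1)
      (Yf r ζ p.1 p'.1 (z p p')) ≤ e := by
    intro ζ
    have : ∑ p, ∑ p' : (Σ q, I q), EnR (W p'.1) (W p.1) (Yf r ζ p.1 p'.1 (z p p')) =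
        ∑ p, ∑ p' : (Σ q, I q), EnR (W p'.1) (W p.1) (z p p') :=
      Finset.sum_congr rfl fun p _ => Finset.sum_congr rfl fun p' _ => Yf_energy r W ζ _ _ _
    rw [this]
    exact hE
  have f0 := hF (fun p p' => Yf r 0 p.1 p'.1 (z p p')) (fun p p' => b p p' 0)
    (fun p p' => hb p p' 0) (fun p p' => hbb p p' 0) (hmarg 0 (by simp)) (hen 0)
  have f1 := hF (fun p p' => Yf r 1 p.1 p'.1 (z p p')) (fun p p' => b p p' 1)
    (fun p p' => hb p p' 1) (fun p p' => hbb p p' 1) (hmarg 1 (by simp)) (hen 1)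
  have f2 := hF (fun p p' => Yf r 0 p.1 p'.1 (z p p')) (fun p p' => -b p p' 1)
    (fun p p' => by rw [Matrix.conjTranspose_neg, hb p p' 1])
    (fun p p' => by rw [Matrix.conjTranspose_neg, Matrix.neg_mul, Matrix.mul_neg, neg_neg]; exact hbb p p' 1)
    (hmarg 0 (by simp)) (hen 0)
  have f3 := hF (fun p p' => Yf r Complex.I p.1 p'.1 (z p p')) (fun p p' => -b p p' 2)
    (fun p p' => by rw [Matrix.conjTranspose_neg, hb p p' 2])
    (fun p p' => by rw [Matrix.conjTranspose_neg, Matrix.neg_mul, Matrix.mul_neg, neg_neg]; exact hbb p p' 2)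
    (hmarg Complex.I (by simp)) (hen Complex.I)
  have f4 := hF (fun p p' => Yf r 0 p.1 p'.1 (z p p')) (fun p p' => b p p' 2)
    (fun p p' => hb p p' 2) (fun p p' => hbb p p' 2) (hmarg 0 (by simp)) (hen 0)
  simp only [Fl_neg, Finset.sum_neg_distrib] at f2 f3
  simp only [hbF]
  simp only [Finset.sum_add_distrib, Finset.sum_sub_distrib, ← Finset.sum_div]
  linarith

theorem comm_lemma (hW : ∀ q s, W q s ∈ Matrix.unitaryGroup (Fin (r q)) ℂ) (hr : ∀ q, 0 < r q)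
    {δ η : ℝ} (hδ : 0 < δ) (hη : 0 < η)
    (hn : ∀ q q', q ≠ q' → Nonempty (I q) → Nonempty (I q') → ¬ Near δ η (W q) (W q'))
    {κ e τ : ℝ} (hκ : 0 ≤ κ) (hF : FlatP I r W κ e τ) (hF6 : FlatP I r W (6 * κ) e τ)
    (z : ∀ p p' : (Σ q, I q), Matrix (Fin (r p'.1)) (Fin (r p.1)) ℂ)
    (h1 : ∀ p, ∑ p', (z p p')ᴴ * z p p' ≤ κ • (1 : Matrix (Fin (r p.1)) (Fin (r p.1)) ℂ))
    (h2 : ∀ p, ∑ p', z p' p * (z p' p)ᴴ ≤ κ • (1 : Matrix (Fin (r p.1)) (Fin (r p.1)) ℂ))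
    (hE : ∑ p, ∑ p', EnR (W p'.1) (W p.1) (z p p') ≤ e) :
    ∑ p, ∑ p' : (Σ q, I q), hs (z p p' - ceB r p.1 p'.1 (z p p')) ≤
      2 * ((9 / η) * e + δ⁻¹ * τ) + 3 * τ := by
  have a1 := comm_diff hW hr hδ hη hn hF z h1 hE
  have a2 := comm_diff hW hr hδ hη hn hF (fun p p' => (z p' p)ᴴ)
    (fun p => by
      simp only [Matrix.conjTranspose_conjTranspose]
      exact h2 p)
    (by
      have e1 : ∀ p p' : (Σ q, I q), EnR (W p'.1) (W p.1) (z p' p)ᴴ =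
          EnR (W p.1) (W p'.1) (z p' p) := fun p p' => EnR_adj (hW p.1) (hW p'.1) _
      simp only [e1]
      rw [Finset.sum_comm]
      exact hE)
  have a3 := comm_same hr hF6 z h1 hE
  simp only [hs_conjTranspose] at a2
  rw [Finset.sum_comm] at a2
  have hsplit : ∀ p p' : (Σ q, I q), hs (z p p' - ceB r p.1 p'.1 (z p p')) ≤
      (if p.1 ≠ p'.1 ∧ r p'.1 ≤ r p.1 then hs (z p p') else 0) +
      (if p'.1 ≠ p.1 ∧ r p.1 ≤ r p'.1 then hs (z p p') else 0) +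
      (if p.1 = p'.1 then hs (z p p' - ceB r p.1 p'.1 (z p p')) else 0) := by
    intro p p'
    have hz := hs_nonneg (z p p')
    by_cases h : p.1 = p'.1
    · have h3 : ¬ (p.1 ≠ p'.1 ∧ r p'.1 ≤ r p.1) := fun h' => h'.1 h
      have h4 : ¬ (p'.1 ≠ p.1 ∧ r p.1 ≤ r p'.1) := fun h' => h'.1 h.symm
      rw [if_neg h3, if_neg h4, if_pos h]
      linarith
    · rw [if_neg h, ceB_ne r h, sub_zero]
      rcases le_total (r p'.1) (r p.1) with h5 | h5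
      · rw [if_pos ⟨h, h5⟩]
        split_ifs <;> linarith
      · rw [if_pos (⟨fun h' => h h'.symm, h5⟩ : p'.1 ≠ p.1 ∧ r p.1 ≤ r p'.1)]
        split_ifs <;> linarith
  calc ∑ p, ∑ p' : (Σ q, I q), hs (z p p' - ceB r p.1 p'.1 (z p p'))
      ≤ ∑ p, ∑ p' : (Σ q, I q), ((if p.1 ≠ p'.1 ∧ r p'.1 ≤ r p.1 then hs (z p p') else 0) +
      (if p'.1 ≠ p.1 ∧ r p.1 ≤ r p'.1 then hs (z p p') else 0) +
      (if p.1 = p'.1 then hs (z p p' - ceB r p.1 p'.1 (z p p')) else 0)) :=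
        Finset.sum_le_sum fun p _ => Finset.sum_le_sum fun p' _ => hsplit p p'
    _ ≤ 2 * ((9 / η) * e + δ⁻¹ * τ) + 3 * τ := by
        simp only [Finset.sum_add_distrib]
        linarith

end

end Pool.Agent.H51K.Asm
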