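import Pool.Agent.H51K.AsmMatch

/-!
The assembly theorem.
-/

set_option autoImplicit false
set_option linter.unusedSectionVars false
open Matrix
open scoped ComplexOrder MatrixOrder

namespace Pool.Agent.H51K

namespace Asm

theorem hs_submatrix {m n m' n' : Type*} [Fintype m] [Fintype n] [Fintype m'] [Fintype n']
    (A : Matrix m n ℂ) (e : m' ≃ m) (f : n' ≃ n) : hs (A.submatrix e f) = hs A := by
  rw [hs_eq_sum, hs_eq_sum, ← f.sum_comp]
  refine Finset.sum_congr rfl fun j _ => ?_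
  rw [← e.sum_comp]
  rfl

/-- transport of `Core` from an arbitrary index type -/
theorem core_of {S : Type} [Fintype S] {d : ℕ} {g : S → Matrix (Fin d) (Fin d) ℂ} {C' ε : ℝ}
    {M : Type} [Fintype M] [DecidableEq M] (W : S → Matrix M M ℂ) (U : Matrix (Fin d) M ℂ)
    (hW : ∀ s, W s ∈ Matrix.unitaryGroup M ℂ)
    (h1 : |(Fintype.card M : ℝ) - d| ≤ ε * d)
    (h2 : Uᴴ * U ≤ (2 : ℝ) • (1 : Matrix M M ℂ))
    (h3 : hs (U * Uᴴ - 1) ≤ ε * d) (h4 : hs (Uᴴ * U - 1) ≤ ε * d) (h5 : EnR g W U ≤ ε * d)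
    (h6 : ∀ x : Matrix M M ℂ, xᴴ * x ≤ 1 →
      ∃ x' : Matrix M M ℂ, (∀ s, x' * W s = W s * x') ∧ x'ᴴ * x' ≤ 1 ∧
        hs (x - x') ≤ C' * En W x + ε * d) : Core g C' ε := by
  set e := Fintype.equivFin M with he
  have hmul : ∀ (A B : Matrix M M ℂ), (A.submatrix e.symm e.symm) * (B.submatrix e.symm e.symm) =
      (A * B).submatrix e.symm e.symm := fun A B => Matrix.submatrix_mul_equiv A B _ _ _
  have hUU : (U.submatrix id e.symm) * (U.submatrix id e.symm)ᴴ = U * Uᴴ := by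
    rw [Matrix.conjTranspose_submatrix, Matrix.submatrix_mul_equiv]
    rfl
  have hUU' : (U.submatrix id e.symm)ᴴ * (U.submatrix id e.symm) =
      (Uᴴ * U).submatrix e.symm e.symm := by
    rw [Matrix.conjTranspose_submatrix]
    have := Matrix.submatrix_mul_equiv Uᴴ U e.symm (Equiv.refl (Fin d)) e.symm
    exact this
  have hone : (1 : Matrix (Fin (Fintype.card M)) (Fin (Fintype.card M)) ℂ) =
      (1 : Matrix M M ℂ).submatrix e.symm e.symm := (Matrix.submatrix_one_equiv e.symm).symm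
  refine ⟨Fintype.card M, fun s => (W s).submatrix e.symm e.symm, U.submatrix id e.symm,
    ?_, h1, ?_, ?_, ?_, ?_, ?_⟩
  · intro s
    rw [Matrix.mem_unitaryGroup_iff']
    show ((W s).submatrix e.symm e.symm)ᴴ * (W s).submatrix e.symm e.symm = 1
    rw [Matrix.conjTranspose_submatrix, hmul, hone]
    congr 1
    exact Matrix.mem_unitaryGroup_iff'.1 (hW s)
  · rw [hUU', hone, Matrix.le_iff]
    have := (Matrix.le_iff.1 h2).submatrix e.symm
    exact this
  · rw [hUU]; exact h3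
  · rw [hUU', hone]
    have : (Uᴴ * U).submatrix e.symm e.symm - (1 : Matrix M M ℂ).submatrix e.symm e.symm =
        (Uᴴ * U - 1).submatrix e.symm e.symm := rfl
    rw [this, hs_submatrix]
    exact h4
  · refine le_trans (le_of_eq ?_) h5
    unfold EnR
    refine Finset.sum_congr rfl fun s _ => ?_
    have e1 : g s * U.submatrix id e.symm = (g s * U).submatrix id e.symm := by
      ext i j; rfl
    have e2 : U.submatrix id e.symm * (W s).submatrix e.symm e.symm =
        (U * W s).submatrix id e.symm := Matrix.submatrix_mul_equiv U (W s) _ _ _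
    have e3 : (g s * U).submatrix id e.symm - (U * W s).submatrix id e.symm =
        (g s * U - U * W s).submatrix (Equiv.refl (Fin d)) e.symm := rfl
    rw [e1, e2, e3, hs_submatrix]
  · intro x hx
    have hx' : (x.submatrix e e)ᴴ * (x.submatrix e e) ≤ 1 := by
      rw [Matrix.conjTranspose_submatrix, Matrix.submatrix_mul_equiv]
      have := (Matrix.le_iff.1 hx).submatrix e
      rw [Matrix.le_iff]
      refine psd_of_eq this ?_
      rw [Matrix.submatrix_sub]
      simp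
    obtain ⟨x', h7, h8, h9⟩ := h6 (x.submatrix e e) hx'
    have hxx : (x.submatrix e e).submatrix e.symm e.symm = x := by
      rw [Matrix.submatrix_submatrix]; simp
    refine ⟨x'.submatrix e.symm e.symm, ?_, ?_, ?_⟩
    · intro s
      show x'.submatrix e.symm e.symm * (W s).submatrix e.symm e.symm =
        (W s).submatrix e.symm e.symm * x'.submatrix e.symm e.symm
      rw [hmul, hmul, h7 s]
    · rw [Matrix.conjTranspose_submatrix, hmul, hone, Matrix.le_iff]
      exact (Matrix.le_iff.1 h8).submatrix e.symm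
    · have e1 : x - x'.submatrix e.symm e.symm = (x.submatrix e e - x').submatrix e.symm e.symm := by
        rw [Matrix.submatrix_sub]
        show x - _ = (x.submatrix e e).submatrix e.symm e.symm - _
        rw [hxx]
      have e2 : En (fun s => (W s).submatrix e.symm e.symm) x = En W (x.submatrix e e) := by
        unfold En EnR
        refine Finset.sum_congr rfl fun s _ => ?_
        have e3 : (W s).submatrix e.symm e.symm * x - x * (W s).submatrix e.symm e.symm =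
            (W s * x.submatrix e e - x.submatrix e e * W s).submatrix e.symm e.symm := by
          rw [Matrix.submatrix_sub]
          show _ = (W s * x.submatrix e e).submatrix e.symm e.symm -
            (x.submatrix e e * W s).submatrix e.symm e.symm
          rw [← hmul, ← hmul, hxx]
        rw [e3, hs_submatrix]
      rw [e1, hs_submatrix, e2]
      exact h9

theorem hs_sub_ceB_le {Q : Type} [DecidableEq Q] {r : Q → ℕ} (hr : ∀ q, 0 < r q) (q q' : Q)
    (A B : Matrix (Fin (r q')) (Fin (r q)) ℂ) :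
    hs (A - ceB r q q' A) ≤ 2 * hs (A - B) + 2 * hs (B - ceB r q q' B) := by
  have h : hs (A - ceB r q q' B) ≤ 2 * hs (A - B) + 2 * hs (B - ceB r q q' B) := by
    have h1 := hs_add_le (A - B) (B - ceB r q q' B)
    rwa [sub_add_sub_cancel] at h1
  refine le_trans ?_ h
  by_cases hq : q = q'
  · subst hq
    rw [ceB_self, ceB_self]
    exact hs_ce_le (hr q) A _
  · rw [ceB_ne r hq, ceB_ne r hq]

section
variable {S : Type} [Fintype S] {d : ℕ} {g : S → Matrix (Fin d) (Fin d) ℂ} {εf tf ε₂ : ℝ}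
  {D : Dec g εf tf ε₂} {J' : Finset (Fin D.J)} {c : Fin D.J → Fin D.J} {δ η : ℝ}

theorem FlatP.mono {Q : Type} [Fintype Q] {I : Q → Type} [∀ q, Fintype (I q)] {r : Q → ℕ}
    {W : ∀ q, S → Matrix (Fin (r q)) (Fin (r q)) ℂ} {κ κ' e e' τ τ' : ℝ}
    (h : FlatP I r W κ e τ) (hκ : κ' ≤ κ) (he : e' ≤ e) (hτ : τ ≤ τ') :
    FlatP I r W κ' e' τ' := fun y b hb hbb hy hE =>
  (h y b hb hbb (fun p => le_smul_one_mono hκ (hy p)) (hE.trans he)).trans hτ

/-- the commutant estimate for a system of blocks -/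
theorem system_commutant (hg : ∀ s, g s ∈ Matrix.unitaryGroup (Fin d) ℂ)
    {C t : ℝ} (hC : 0 ≤ C) (Φ : Avg d)
    (hΦ : ∀ κ : ℝ, 0 < κ → ∀ c : Matrix (Fin d) (Fin d) ℂ,
      cᴴ * c ≤ κ • (1 : Matrix (Fin d) (Fin d) ℂ) →
      En g (Φ.ap c) ≤ κ * (t * d) ∧ hs (c - Φ.ap c) ≤ C * En g c + κ * (t * d))
    (hε : ε₂ ≤ 1) (Y : Sys D J' c δ η) {lam : ℝ} (hlam : 0 < lam) (hlam1 : lam ≤ 1 / 2)
    (hδ : δ = lam ^ 2) (hη : 0 ≤ η) {c₁ : ℝ} (hc₁ : 0 < c₁)
    (hn : ∀ q q', q ≠ q' → Nonempty (II J' c q) → Nonempty (II J' c q') →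
      ¬ Near (1 / 2) c₁ (D.W q) (D.W q'))
    (hfl : 2 * ε₂ + 16 * η + t ≤ tf)
    (x : Matrix (BM (II J' c) D.r) (BM (II J' c) D.r) ℂ) (hx : xᴴ * x ≤ 1) :
    ∃ x' : Matrix (BM (II J' c) D.r) (BM (II J' c) D.r) ℂ,
      (∀ s, x' * BW (II J' c) D.r D.W s = BW (II J' c) D.r D.W s * x') ∧ x'ᴴ * x' ≤ 1 ∧
      hs (x - x') ≤ 192 * C * En (BW (II J' c) D.r D.W) x +
        (40 * hs (Y.Uᴴ * Y.U - 1) + 192 * C * ((2 * ε₂ + 8 * η) * d) + 64 * (t * d) +
          (36 / c₁) * ((96 * ε₂ + 384 * η + 48 * t) * d) + 14 * (96 * (εf + 20 * lam) * d)) := by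
  have hd : (0 : ℝ) ≤ d := Nat.cast_nonneg _
  have hδ0 : 0 ≤ δ := by rw [hδ]; positivity
  have hδ1 : δ ≤ 1 / 2 := by rw [hδ]; nlinarith
  have hE := Y.energy hη hδ1 hε
  obtain ⟨z, hz1, hz2, hz3⟩ := improve hg (BW_unitary D.W_unitary) Y.U_bound hC Φ hΦ x hx
  have hz1' := adj_bound (by norm_num) hz1
  have hzE : En (BW (II J' c) D.r D.W) z ≤ (96 * ε₂ + 384 * η + 48 * t) * d := by
    refine hz2.trans ?_
    linarith
  have hflat : FlatP (II J' c) D.r D.W 96 ((96 * ε₂ + 384 * η + 48 * t) * d)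
      (96 * (εf + 20 * lam) * d) := by
    have h1 := Y.flatP (κ := 96) (e := (96 * ε₂ + 384 * η + 48 * t) * d) (lam := lam) hδ0 hδ1 hη
      hε (by norm_num) hlam (by
        have h2 : (2 * ε₂ + 16 * η + t) * d ≤ tf * d := mul_le_mul_of_nonneg_right hfl hd
        refine le_trans (le_of_eq ?_) h2
        ring)
    refine h1.mono le_rfl le_rfl (mul_le_mul_of_nonneg_right ?_ hd)
    have h3 : δ / lam = lam := by rw [hδ]; field_simp
    rw [h3, hδ]
    nlinarith
  have hflat16 : FlatP (II J' c) D.r D.W 16 ((96 * ε₂ + 384 * η + 48 * t) * d)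
      (96 * (εf + 20 * lam) * d) := hflat.mono (by norm_num) le_rfl le_rfl
  have hflat96 : FlatP (II J' c) D.r D.W (6 * 16) ((96 * ε₂ + 384 * η + 48 * t) * d)
      (96 * (εf + 20 * lam) * d) := hflat.mono (by norm_num) le_rfl le_rfl
  have hcl := comm_lemma (I := II J' c) (r := D.r) (W := D.W) D.W_unitary D.r_pos
    (by norm_num : (0 : ℝ) < 1 / 2) hc₁ hn (by norm_num) hflat16 hflat96
    (fun p p' => blk (II J' c) D.r z p p')
    (fun p => blk_marg hz1 p)
    (fun p => by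
      have h1 := blk_marg hz1' p
      simp only [blk_conj, Matrix.conjTranspose_conjTranspose] at h1
      exact h1)
    (by rw [← En_blk]; exact hzE)
  obtain ⟨x', h1, h2, h3⟩ := exists_ce D.r_pos D.W (κ := 1) (x := x) (by rwa [one_smul])
  rw [one_smul] at h2
  refine ⟨x', h1, h2, ?_⟩
  have h4 : hs (x - x') ≤ 2 * hs (x - z) +
      2 * ∑ p, ∑ p', hs (blk (II J' c) D.r z p p' - ceB D.r p.1 p'.1 (blk (II J' c) D.r z p p')) := by
    rw [hs_blk, hs_blk (x - z), Finset.mul_sum, Finset.mul_sum, ← Finset.sum_add_distrib]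
    refine Finset.sum_le_sum fun p _ => ?_
    rw [Finset.mul_sum, Finset.mul_sum, ← Finset.sum_add_distrib]
    refine Finset.sum_le_sum fun p' _ => ?_
    rw [blk_sub, blk_sub, h3]
    exact hs_sub_ceB_le D.r_pos p.1 p'.1 _ _
  have h5 : C * (12 * EnR g (BW (II J' c) D.r D.W) Y.U + 12 * En (BW (II J' c) D.r D.W) x) ≤
      C * (12 * ((2 * ε₂ + 8 * η) * d) + 12 * En (BW (II J' c) D.r D.W) x) :=
    mul_le_mul_of_nonneg_left (by linarith) hC
  have h6 : 2 * (2 * (9 / c₁ * ((96 * ε₂ + 384 * η + 48 * t) * d) +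
      (1 / 2 : ℝ)⁻¹ * (96 * (εf + 20 * lam) * d)) + 3 * (96 * (εf + 20 * lam) * d)) =
      (36 / c₁) * ((96 * ε₂ + 384 * η + 48 * t) * d) + 14 * (96 * (εf + 20 * lam) * d) := by
    ring
  linarith

end

open Classical in
/-- choice of a maximal matching and of representatives -/
theorem exists_reps {J : ℕ} (A B : Fin J → Fin J → Prop) (hrefl : ∀ i, A i i)
    (hsymm : ∀ i j, A i j → A j i) :
    ∃ (M : Finset (Fin J × Fin J)) (J' : Finset (Fin J)) (c : Fin J → Fin J),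
      (∀ e ∈ M, ∀ e' ∈ M, e ≠ e' → e.1 ≠ e'.1) ∧ (∀ e ∈ M, ∀ e' ∈ M, e ≠ e' → e.2 ≠ e'.2) ∧
      (∀ e ∈ M, B e.1 e.2) ∧ (∀ e ∈ M, ¬ A e.1 e.2) ∧
      (∀ j, j ∉ J' → ∃ e ∈ M, j = e.1 ∨ j = e.2) ∧ (∀ i ∈ J', A (c i) i) ∧
      (∀ q q', q ≠ q' → (∃ i ∈ J', c i = q) → (∃ i ∈ J', c i = q') → ¬ B q q') := by
  -- a maximal matching
  let P : Finset (Fin J × Fin J) → Prop := fun M =>
    (∀ e ∈ M, ∀ e' ∈ M, e ≠ e' → e.1 ≠ e'.1) ∧ (∀ e ∈ M, ∀ e' ∈ M, e ≠ e' → e.2 ≠ e'.2) ∧
    (∀ e ∈ M, ∀ e' ∈ M, e.1 ≠ e'.2) ∧ (∀ e ∈ M, B e.1 e.2) ∧ (∀ e ∈ M, ¬ A e.1 e.2)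
  obtain ⟨M, hM, hmax⟩ := Finset.exists_max_image (Finset.univ.filter P) Finset.card
    ⟨∅, by simp [P]⟩
  simp only [Finset.mem_filter, Finset.mem_univ, true_and] at hM hmax
  obtain ⟨hM1, hM2, hM3, hM4, hM5⟩ := hM
  set J' : Finset (Fin J) := Finset.univ \ (M.image Prod.fst ∪ M.image Prod.snd) with hJ'
  have hmem : ∀ i, i ∈ J' → ∀ e ∈ M, i ≠ e.1 ∧ i ≠ e.2 := by
    intro i hi e he
    simp only [hJ', Finset.mem_sdiff, Finset.mem_univ, true_and, Finset.mem_union,
      Finset.mem_image, not_or, not_exists, not_and] at hi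
    exact ⟨fun h => hi.1 e he h.symm, fun h => hi.2 e he h.symm⟩
  have hBA : ∀ i ∈ J', ∀ j ∈ J', B i j → A i j := by
    intro i hi j hj hB
    by_contra hA
    have hij : i ≠ j := fun h => hA (h ▸ hrefl i)
    have hnot : (i, j) ∉ M := fun h => (hmem i hi _ h).1 rfl
    have hP : P (insert (i, j) M) := by
      refine ⟨?_, ?_, ?_, ?_, ?_⟩
      · intro e he e' he' hne
        rcases Finset.mem_insert.1 he with rfl | he
        · rcases Finset.mem_insert.1 he' with rfl | he'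
          · exact absurd rfl hne
          · exact (hmem i hi e' he').1
        · rcases Finset.mem_insert.1 he' with rfl | he'
          · exact (hmem i hi e he).1.symm
          · exact hM1 e he e' he' hne
      · intro e he e' he' hne
        rcases Finset.mem_insert.1 he with rfl | he
        · rcases Finset.mem_insert.1 he' with rfl | he'
          · exact absurd rfl hne
          · exact (hmem j hj e' he').2
        · rcases Finset.mem_insert.1 he' with rfl | he'
          · exact (hmem j hj e he).2.symm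
          · exact hM2 e he e' he' hne
      · intro e he e' he'
        rcases Finset.mem_insert.1 he with rfl | he
        · rcases Finset.mem_insert.1 he' with rfl | he'
          · exact hij
          · exact (hmem i hi e' he').2
        · rcases Finset.mem_insert.1 he' with rfl | he'
          · exact (hmem j hj e he).1.symm
          · exact hM3 e he e' he'
      · intro e he
        rcases Finset.mem_insert.1 he with rfl | he
        · exact hB
        · exact hM4 e he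
      · intro e he
        rcases Finset.mem_insert.1 he with rfl | he
        · exact hA
        · exact hM5 e he
    have := hmax _ hP
    rw [Finset.card_insert_of_notMem hnot] at this
    omega
  -- representatives
  let R' : Finset (Fin J) → Prop := fun R => R ⊆ J' ∧ ∀ i ∈ R, ∀ j ∈ R, i ≠ j → ¬ A i j
  obtain ⟨R, hR, hRmax⟩ := Finset.exists_max_image (Finset.univ.filter R') Finset.card
    ⟨∅, by simp [R']⟩
  simp only [Finset.mem_filter, Finset.mem_univ, true_and] at hR hRmax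
  obtain ⟨hR1, hR2⟩ := hR
  have hc : ∀ i, ∃ k, i ∈ J' → k ∈ R ∧ A k i := by
    intro i
    by_cases hi : i ∈ J'
    · by_contra hcon
      push Not at hcon
      have hiR : i ∉ R := fun h => (hcon i).2 h (hrefl i)
      have : R' (insert i R) := by
        refine ⟨Finset.insert_subset hi hR1, ?_⟩
        intro a ha b hb hab
        rcases Finset.mem_insert.1 ha with rfl | ha1
        · rcases Finset.mem_insert.1 hb with rfl | hb1
          · exact absurd rfl hab
          · exact fun h => (hcon b).2 hb1 (hsymm _ _ h)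
        · rcases Finset.mem_insert.1 hb with rfl | hb1
          · exact (hcon a).2 ha1
          · exact hR2 a ha1 b hb1 hab
      have := hRmax _ this
      rw [Finset.card_insert_of_notMem hiR] at this
      omega
    · exact ⟨i, fun h => absurd h hi⟩
  choose c hc using hc
  refine ⟨M, J', c, hM1, hM2, hM4, hM5, ?_, fun i hi => (hc i hi).2, ?_⟩
  · intro j hj
    simp only [hJ', Finset.mem_sdiff, Finset.mem_univ, true_and, not_not, Finset.mem_union,
      Finset.mem_image] at hj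
    rcases hj with ⟨e, he, h⟩ | ⟨e, he, h⟩
    · exact ⟨e, he, Or.inl h.symm⟩
    · exact ⟨e, he, Or.inr h.symm⟩
  · rintro q q' hqq ⟨i, hi, rfl⟩ ⟨j, hj, rfl⟩ hB
    exact hR2 _ (hc i hi).1 _ (hc j hj).1 hqq
      (hBA _ (hR1 (hc i hi).1) _ (hR1 (hc j hj).1) hB)

theorem mass_le {J : ℕ} (r : Fin J → ℕ) (M : Finset (Fin J × Fin J)) (J' : Finset (Fin J))
    (h : ∀ j, j ∉ J' → ∃ e ∈ M, j = e.1 ∨ j = e.2) :
    (∑ j, if j ∈ J' then 0 else (r j : ℝ)) ≤ 2 * ∑ e ∈ M, max (r e.1 : ℝ) (r e.2) := by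
  have h1 : ∀ j, (if j ∈ J' then 0 else (r j : ℝ)) ≤
      ∑ e ∈ M, ((if j = e.1 then (r j : ℝ) else 0) + (if j = e.2 then (r j : ℝ) else 0)) := by
    intro j
    have hnn : ∀ e ∈ M, (0 : ℝ) ≤
        ((if j = e.1 then (r j : ℝ) else 0) + (if j = e.2 then (r j : ℝ) else 0)) := by
      intro e _
      split_ifs <;> positivity
    by_cases hj : j ∈ J'
    · rw [if_pos hj]
      exact Finset.sum_nonneg hnn
    · rw [if_neg hj]
      obtain ⟨e, he, hje⟩ := h j hj
      refine le_trans ?_ (Finset.single_le_sum hnn he)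
      rcases hje with h2 | h2
      · rw [if_pos h2]
        have : (0 : ℝ) ≤ if j = e.2 then (r j : ℝ) else 0 := by split_ifs <;> positivity
        linarith
      · rw [if_pos h2]
        have : (0 : ℝ) ≤ if j = e.1 then (r j : ℝ) else 0 := by split_ifs <;> positivity
        linarith
  refine (Finset.sum_le_sum fun j _ => h1 j).trans ?_
  rw [Finset.sum_comm, Finset.mul_sum]
  refine Finset.sum_le_sum fun e _ => ?_
  rw [Finset.sum_add_distrib, Finset.sum_ite_eq', Finset.sum_ite_eq', if_pos (Finset.mem_univ _),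
    if_pos (Finset.mem_univ _)]
  have h3 := le_max_left (r e.1 : ℝ) (r e.2)
  have h4 := le_max_right (r e.1 : ℝ) (r e.2)
  linarith

open Filter Topology in
theorem ev_small (a : ℝ) {b : ℝ} (hb : 0 < b) : ∀ᶠ x in 𝓝[>] (0 : ℝ), a * x ≤ b := by
  have h1 : Tendsto (fun x : ℝ => a * x) (𝓝[>] 0) (𝓝 (a * 0)) :=
    (continuous_const.mul continuous_id).continuousAt.tendsto.mono_left nhdsWithin_le_nhds
  rw [mul_zero] at h1
  exact (h1.eventually (gt_mem_nhds hb)).mono fun x hx => le_of_lt hx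

end Asm

open Asm in
theorem assembleTheorem : AssembleTheorem := by
  intro S _ C hC
  refine ⟨192 * C, by positivity, fun ε hε => ?_⟩
  set c₁ : ℝ := 1 / (768 * C) with hc₁
  have hc₁0 : 0 < c₁ := by positivity
  have hCc : 192 * C * c₁ = 1 / 4 := by rw [hc₁]; field_simp; norm_num
  -- choice of `lam`, `ε₇`
  obtain ⟨lam, hl1, hl2, hlam⟩ := ((ev_small 1 (by norm_num : (0 : ℝ) < 1 / 2)).and
    ((ev_small 27280 (by positivity : 0 < ε / 6)).and self_mem_nhdsWithin)).exists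
  replace hlam : 0 < lam := hlam
  rw [one_mul] at hl1
  set δ := lam ^ 2 with hδ
  have hδ0 : 0 < δ := by positivity
  have hδl : δ ≤ lam / 2 := by rw [hδ]; nlinarith
  set ε₇ := ε / 2400 with hε₇
  have hε₇0 : 0 < ε₇ := by positivity
  obtain ⟨εf, hf1, hf2, hεf⟩ := ((ev_small 1344 (by positivity : 0 < ε / 6)).and
    ((ev_small (64 * δ⁻¹) (by positivity : 0 < ε₇ / 12)).and self_mem_nhdsWithin)).exists
  replace hεf : 0 < εf := hεf
  refine ⟨εf, hεf, fun tf htf => ?_⟩
  obtain ⟨η, hη1, hη2, hη3, hη⟩ := ((ev_small 8 (by positivity : 0 < ε / 6)).and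
    ((ev_small (1536 * C + (36 / c₁) * 384) (by positivity : 0 < ε / 6)).and
      ((ev_small 16 (by positivity : 0 < tf / 2)).and self_mem_nhdsWithin))).exists
  replace hη : 0 < η := hη
  obtain ⟨ε₂, he1, he2, he3, he4, hε₂⟩ := ((ev_small 1 (by norm_num : (0 : ℝ) < 1 / 2)).and
    ((ev_small (120 + 384 * C + (36 / c₁) * 96) (by positivity : 0 < ε / 6)).and
      ((ev_small 68 (by positivity : 0 < tf / 4)).and
        ((ev_small (920 + 1920 * C + 17280 / η + 1280 * δ⁻¹) (by positivity : 0 < ε₇ / 12)).and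
          self_mem_nhdsWithin)))).exists
  replace hε₂ : 0 < ε₂ := hε₂
  rw [one_mul] at he1
  obtain ⟨t, ht1, ht2, ht3, ht⟩ := ((ev_small (64 + (36 / c₁) * 48) (by positivity : 0 < ε / 6)).and
    ((ev_small 6 (by positivity : 0 < tf / 4)).and
      ((ev_small (64 + 1728 / η) (by positivity : 0 < ε₇ / 12)).and self_mem_nhdsWithin))).exists
  replace ht : 0 < t := ht
  refine ⟨ε₂, hε₂, t, ht, ?_⟩
  intro d g hd hg hT ⟨D⟩
  obtain ⟨Φ, hΦ⟩ := hasT_one hT
  have hd0 : (0 : ℝ) < d := Nat.cast_pos.2 hd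
  obtain ⟨M, J', c, hM1, hM2, hM3, hM4, hM5, hc1, hc2⟩ := exists_reps
    (fun i j => Near δ η (D.W i) (D.W j)) (fun i j => Near (1 / 2) c₁ (D.W i) (D.W j))
    (fun i => Near.refl hδ0.le hη.le _)
    (fun i j h => h.symm (D.W_unitary i) (D.W_unitary j))
  obtain ⟨Y⟩ := exists_sys D J' c δ η hc1
  -- mass of the matching
  set m := ∑ e ∈ M, max (D.r e.1 : ℝ) (D.r e.2) with hm
  have hmatch := matching D hg hC.le Φ hΦ hε₂ he1 hδ0 hη (by linarith) M hM1 hM2 hM3 hM4
  rw [← hm] at hmatch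
  have hmass : m ≤ ε₇ * d := by
    have e1 : 2 * (20 * (23 * ε₂ * d) + 8 * (C * (12 * (10 * ε₂ * d) + 12 * (c₁ * m)) +
        4 * (t * d))) + 2 * (2 * ((9 / η) * ((480 * ε₂ + 48 * t) * d) +
          δ⁻¹ * (16 * (εf + 20 * ε₂) * d))) =
        (192 * C * c₁) * m + ((920 + 1920 * C + 17280 / η + 1280 * δ⁻¹) * ε₂ +
          (64 + 1728 / η) * t + (64 * δ⁻¹) * εf) * d := by
      ring
    rw [e1, hCc] at hmatch
    have e2 : ((920 + 1920 * C + 17280 / η + 1280 * δ⁻¹) * ε₂ +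
          (64 + 1728 / η) * t + (64 * δ⁻¹) * εf) * d ≤ (ε₇ / 12 + ε₇ / 12 + ε₇ / 12) * d :=
      mul_le_mul_of_nonneg_right (by linarith) hd0.le
    linarith
  have hμ := mass_le D.r M J' hM5
  rw [← hm] at hμ
  set μ' := ∑ j, (if j ∈ J' then 0 else (D.r j : ℝ)) with hμ'
  have hμ2 : μ' ≤ 2 * (ε₇ * d) := by linarith
  have hδ1 : δ ≤ 1 / 2 := by linarith
  have hε₂1 : ε₂ ≤ 1 := by linarith
  have hcard := Y.card_le hδ0.le hδ1 hε₂1
  have hUU := Y.UU_near hδ0.le hδ1 hε₂1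
  rw [← hμ'] at hcard hUU
  have hswap := hs_swap Y.U
  rw [Fintype.card_fin] at hswap
  have hcard2 := (abs_le.1 hcard).2
  have hUtU : hs (Y.Uᴴ * Y.U - 1) ≤ (3 * ε₂ + 20 * δ + 10 * ε₇) * d := by
    rw [hswap]
    linarith
  have hsm : 40 * (3 * ε₂ + 20 * δ + 10 * ε₇) + 192 * C * (2 * ε₂ + 8 * η) + 64 * t +
      (36 / c₁) * (96 * ε₂ + 384 * η + 48 * t) + 14 * (96 * (εf + 20 * lam)) ≤ ε := by
    have e1 : 40 * (3 * ε₂ + 20 * δ + 10 * ε₇) + 192 * C * (2 * ε₂ + 8 * η) + 64 * t +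
      (36 / c₁) * (96 * ε₂ + 384 * η + 48 * t) + 14 * (96 * (εf + 20 * lam)) =
      (120 + 384 * C + (36 / c₁) * 96) * ε₂ + (1536 * C + (36 / c₁) * 384) * η +
      (64 + (36 / c₁) * 48) * t + 1344 * εf + 400 * ε₇ + (800 * δ + 26880 * lam) := by
      ring
    rw [e1]
    have e2 : 400 * ε₇ = ε / 6 := by rw [hε₇]; ring
    linarith
  have hpos1 : 0 ≤ 192 * C * (2 * ε₂ + 8 * η) := by positivity
  have hpos2 : 0 ≤ (36 / c₁) * (96 * ε₂ + 384 * η + 48 * t) := by positivity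
  have hsm2 : 40 * (3 * ε₂ + 20 * δ + 10 * ε₇) ≤ ε := by linarith
  have hsm3 : (3 * ε₂ + 20 * δ + 10 * ε₇) * d ≤ ε * d :=
    mul_le_mul_of_nonneg_right (by linarith) hd0.le
  have hp1 : 0 ≤ ε₂ * d := by positivity
  have hp2 : 0 ≤ δ * d := by positivity
  have hp3 : 0 ≤ ε₇ * d := by positivity
  refine core_of (BW (II J' c) D.r D.W) Y.U (BW_unitary D.W_unitary) ?_ Y.U_bound ?_ ?_ ?_ ?_
  · refine hcard.trans ?_
    linarith
  · refine hUU.trans ?_
    linarith
  · exact hUtU.trans hsm3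
  · refine (Y.energy hη.le hδ1 hε₂1).trans (mul_le_mul_of_nonneg_right ?_ hd0.le)
    linarith
  · intro x hx
    obtain ⟨x', h1, h2, h3⟩ := system_commutant hg hC.le Φ hΦ hε₂1 Y hlam hl1 hδ hη.le hc₁0
      (fun q q' hqq ⟨i⟩ ⟨j⟩ => hc2 q q' hqq ⟨i.1, i.2.1, i.2.2⟩ ⟨j.1, j.2.1, j.2.2⟩)
      (by linarith) x hx
    refine ⟨x', h1, h2, h3.trans ?_⟩
    have e1 : 40 * hs (Y.Uᴴ * Y.U - 1) + 192 * C * ((2 * ε₂ + 8 * η) * d) + 64 * (t * d) +
          (36 / c₁) * ((96 * ε₂ + 384 * η + 48 * t) * d) + 14 * (96 * (εf + 20 * lam) * d) ≤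
        (40 * (3 * ε₂ + 20 * δ + 10 * ε₇) + 192 * C * (2 * ε₂ + 8 * η) + 64 * t +
      (36 / c₁) * (96 * ε₂ + 384 * η + 48 * t) + 14 * (96 * (εf + 20 * lam))) * d := by
      have : 40 * hs (Y.Uᴴ * Y.U - 1) ≤ 40 * ((3 * ε₂ + 20 * δ + 10 * ε₇) * d) := by linarith
      linarith
    have e2 := mul_le_mul_of_nonneg_right hsm hd0.le
    linarith

end Pool.Agent.H51K
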