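import Pool.Agent.H51K.AsmCE

/-!
Improving the energy of a contraction through the averaged conjugation.
-/

set_option autoImplicit false
set_option linter.unusedSectionVars false
open Matrix
open scoped ComplexOrder MatrixOrder

namespace Pool.Agent.H51K.Asm

theorem comp_bound {m n l : Type*} [Fintype m] [Fintype n] [Fintype l] [DecidableEq n]
    [DecidableEq l] {a b : ℝ} (ha : 0 ≤ a) {A : Matrix m n ℂ} {B : Matrix n l ℂ}
    (hA : Aᴴ * A ≤ a • (1 : Matrix n n ℂ)) (hB : Bᴴ * B ≤ b • (1 : Matrix l l ℂ)) :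
    (A * B)ᴴ * (A * B) ≤ (a * b) • (1 : Matrix l l ℂ) := by
  have h1 := conj_mono hA B
  have e1 : Bᴴ * (Aᴴ * A) * B = (A * B)ᴴ * (A * B) := by
    rw [Matrix.conjTranspose_mul]
    simp only [Matrix.mul_assoc]
  have e2 : Bᴴ * (a • (1 : Matrix n n ℂ)) * B = a • (Bᴴ * B) := by
    rw [Matrix.mul_smul, Matrix.smul_mul, Matrix.mul_one]
  rw [e1, e2] at h1
  refine h1.trans ?_
  rw [Matrix.le_iff] at *
  have := hB.smul ha
  rwa [smul_sub, smul_smul] at this

theorem adj_bound {m n : Type*} [Fintype m] [Fintype n] [DecidableEq n] [DecidableEq m]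
    {a : ℝ} (ha : 0 < a) {A : Matrix m n ℂ}
    (hA : Aᴴ * A ≤ a • (1 : Matrix n n ℂ)) : (Aᴴ)ᴴ * Aᴴ ≤ a • (1 : Matrix m m ℂ) := by
  rw [Matrix.conjTranspose_conjTranspose]
  exact swap_bound ha hA

/-- `hs (A X B) ≤ a b hs X` -/
theorem hs_sandwich {m n l k : Type*} [Fintype m] [Fintype n] [Fintype l] [Fintype k]
    [DecidableEq m] [DecidableEq n] [DecidableEq l] [DecidableEq k]
    {a b : ℝ} (hb : 0 < b) {A : Matrix m n ℂ} {B : Matrix l k ℂ}
    (hA : Aᴴ * A ≤ a • (1 : Matrix n n ℂ)) (hB : Bᴴ * B ≤ b • (1 : Matrix k k ℂ))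
    (X : Matrix n l ℂ) : hs (A * X * B) ≤ a * b * hs X := by
  have h1 := hs_mul_le' (swap_bound hb hB) (A * X)
  have h2 := hs_mul_le hA X
  have h3 := mul_le_mul_of_nonneg_left h2 hb.le
  linarith

section
variable {S : Type} [Fintype S] {d : ℕ} {M : Type} [Fintype M] [DecidableEq M]
  {g : S → Matrix (Fin d) (Fin d) ℂ} {W : S → Matrix M M ℂ} {U : Matrix (Fin d) M ℂ}

theorem improve (hg : ∀ s, g s ∈ Matrix.unitaryGroup (Fin d) ℂ)
    (hW : ∀ s, W s ∈ Matrix.unitaryGroup M ℂ) (hU : Uᴴ * U ≤ (2 : ℝ) • (1 : Matrix M M ℂ))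
    {C t : ℝ} (hC : 0 ≤ C) (Φ : Avg d)
    (hΦ : ∀ κ : ℝ, 0 < κ → ∀ c : Matrix (Fin d) (Fin d) ℂ,
      cᴴ * c ≤ κ • (1 : Matrix (Fin d) (Fin d) ℂ) →
      En g (Φ.ap c) ≤ κ * (t * d) ∧ hs (c - Φ.ap c) ≤ C * En g c + κ * (t * d))
    (x : Matrix M M ℂ) (hx : xᴴ * x ≤ 1) :
    ∃ z : Matrix M M ℂ, zᴴ * z ≤ (16 : ℝ) • (1 : Matrix M M ℂ) ∧
      En W z ≤ 48 * EnR g W U + 48 * (t * d) ∧
      hs (x - z) ≤ 20 * hs (Uᴴ * U - 1) + 8 * (C * (12 * EnR g W U + 12 * En W x) + 4 * (t * d)) := by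
  have hx' : xᴴ * x ≤ (1 : ℝ) • (1 : Matrix M M ℂ) := by rwa [one_smul]
  have hUa : (Uᴴ)ᴴ * Uᴴ ≤ (2 : ℝ) • (1 : Matrix (Fin d) (Fin d) ℂ) := adj_bound (by norm_num) hU
  have hxU : (x * Uᴴ)ᴴ * (x * Uᴴ) ≤ (2 : ℝ) • (1 : Matrix (Fin d) (Fin d) ℂ) := by
    have := comp_bound (by norm_num) hx' hUa
    rwa [one_mul] at this
  have hUx : (U * x)ᴴ * (U * x) ≤ (2 : ℝ) • (1 : Matrix M M ℂ) := by
    have := comp_bound (by norm_num) hU hx'
    rwa [mul_one] at this
  set c := U * x * Uᴴ with hc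
  have hcc : cᴴ * c ≤ (4 : ℝ) • (1 : Matrix (Fin d) (Fin d) ℂ) := by
    have := comp_bound (by norm_num) hUx hUa
    have h4 : (2 : ℝ) * 2 = 4 := by norm_num
    rwa [h4] at this
  obtain ⟨hΦ1, hΦ2⟩ := hΦ 4 (by norm_num) c hcc
  have hΦc := avg_ap_contr Φ hcc
  set e := Φ.ap c with he
  -- energy of `c`
  have hEc : En g c ≤ 12 * EnR g W U + 12 * En W x := by
    have hs1 : ∀ s, hs (g s * c - c * g s) ≤
        12 * hs (g s * U - U * W s) + 12 * hs (W s * x - x * W s) := by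
      intro s
      have e1 : g s * c - c * g s = (g s * U - U * W s) * (x * Uᴴ) +
          U * (W s * x - x * W s) * Uᴴ + (U * x) * (W s * Uᴴ - Uᴴ * g s) := by
        rw [hc]
        simp only [Matrix.mul_sub, Matrix.sub_mul, Matrix.mul_assoc]
        abel
      have h1 := hs_mul_le' (swap_bound (by norm_num) hxU) (g s * U - U * W s)
      have h2 := hs_sandwich (by norm_num) hU hUa (W s * x - x * W s)
      have h3 := hs_mul_le hUx (W s * Uᴴ - Uᴴ * g s)
      rw [hs_adj (hg s) (hW s) U] at h3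
      have h4 := hs_add3_le ((g s * U - U * W s) * (x * Uᴴ)) (U * (W s * x - x * W s) * Uᴴ)
        ((U * x) * (W s * Uᴴ - Uᴴ * g s))
      rw [e1]
      linarith
    calc En g c = ∑ s, hs (g s * c - c * g s) := rfl
      _ ≤ ∑ s, (12 * hs (g s * U - U * W s) + 12 * hs (W s * x - x * W s)) :=
          Finset.sum_le_sum fun s _ => hs1 s
      _ = 12 * EnR g W U + 12 * En W x := by
          rw [Finset.sum_add_distrib, ← Finset.mul_sum, ← Finset.mul_sum]
          rfl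
  have heU : (e * U)ᴴ * (e * U) ≤ (8 : ℝ) • (1 : Matrix M M ℂ) := by
    have := comp_bound (by norm_num) hΦc hU
    have h4 : (4 : ℝ) * 2 = 8 := by norm_num
    rwa [h4] at this
  have hUe : (Uᴴ * e)ᴴ * (Uᴴ * e) ≤ (8 : ℝ) • (1 : Matrix (Fin d) (Fin d) ℂ) := by
    have := comp_bound (by norm_num) hUa hΦc
    have h4 : (2 : ℝ) * 4 = 8 := by norm_num
    rwa [h4] at this
  refine ⟨Uᴴ * e * U, ?_, ?_, ?_⟩
  · have := comp_bound (by norm_num) hUe hU
    have h4 : (8 : ℝ) * 2 = 16 := by norm_num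
    rwa [h4] at this
  · have hs1 : ∀ s, hs (W s * (Uᴴ * e * U) - (Uᴴ * e * U) * W s) ≤
        48 * hs (g s * U - U * W s) + 12 * hs (g s * e - e * g s) := by
      intro s
      have e1 : W s * (Uᴴ * e * U) - (Uᴴ * e * U) * W s = (W s * Uᴴ - Uᴴ * g s) * (e * U) +
          Uᴴ * (g s * e - e * g s) * U + (Uᴴ * e) * (g s * U - U * W s) := by
        simp only [Matrix.mul_sub, Matrix.sub_mul, Matrix.mul_assoc]
        abel
      have h1 := hs_mul_le' (swap_bound (by norm_num) heU) (W s * Uᴴ - Uᴴ * g s)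
      rw [hs_adj (hg s) (hW s) U] at h1
      have h2 := hs_sandwich (by norm_num) hUa hU (g s * e - e * g s)
      have h3 := hs_mul_le hUe (g s * U - U * W s)
      have h4 := hs_add3_le ((W s * Uᴴ - Uᴴ * g s) * (e * U)) (Uᴴ * (g s * e - e * g s) * U)
        ((Uᴴ * e) * (g s * U - U * W s))
      rw [e1]
      linarith
    calc En W (Uᴴ * e * U) = ∑ s, hs (W s * (Uᴴ * e * U) - (Uᴴ * e * U) * W s) := rfl
      _ ≤ ∑ s, (48 * hs (g s * U - U * W s) + 12 * hs (g s * e - e * g s)) :=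
          Finset.sum_le_sum fun s _ => hs1 s
      _ = 48 * EnR g W U + 12 * En g e := by
          rw [Finset.sum_add_distrib, ← Finset.mul_sum, ← Finset.mul_sum]
          rfl
      _ ≤ 48 * EnR g W U + 48 * (t * d) := by linarith
  · set G := Uᴴ * U with hG
    have hGs : Gᴴ = G := by
      rw [hG, Matrix.conjTranspose_mul, Matrix.conjTranspose_conjTranspose]
    have hGG : Gᴴ * G ≤ (4 : ℝ) • (1 : Matrix M M ℂ) := by
      have := comp_bound (by norm_num) hUa hU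
      have h4 : (2 : ℝ) * 2 = 4 := by norm_num
      rwa [h4] at this
    have e1 : x - Uᴴ * e * U = ((1 - G) * x + (G * x) * (1 - G)) + Uᴴ * (c - e) * U := by
      have e2 : Uᴴ * c * U = G * x * G := by
        rw [hc, hG]
        simp only [Matrix.mul_assoc]
      rw [Matrix.mul_sub Uᴴ c e, Matrix.sub_mul (Uᴴ * c) (Uᴴ * e) U, e2,
        Matrix.sub_mul 1 G x, Matrix.mul_sub (G * x) 1 G, Matrix.one_mul, Matrix.mul_one]
      abel
    have h1 := hs_mul_le' (κ := 1) (B := x) (by rw [one_smul]; exact swap_contr hx) (1 - G)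
    have hGx : (G * x)ᴴ * (G * x) ≤ (4 : ℝ) • (1 : Matrix M M ℂ) := by
      have := comp_bound (by norm_num) hGG hx'
      rwa [mul_one] at this
    have h2 := hs_mul_le hGx (1 - G)
    have h3 := hs_sandwich (by norm_num) hUa hU (c - e)
    have h4 := hs_add_le ((1 - G) * x) ((G * x) * (1 - G))
    have h5 := hs_add_le ((1 - G) * x + (G * x) * (1 - G)) (Uᴴ * (c - e) * U)
    have h6 : hs (G - 1) = hs (1 - G) := hs_sub_comm _ _
    rw [e1, h6]
    have h7 : C * En g c ≤ C * (12 * EnR g W U + 12 * En W x) := mul_le_mul_of_nonneg_left hEc hC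
    linarith

end

end Pool.Agent.H51K.Asm
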