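import Pool.Agent.H51K.AsmSystem

/-!
The matching estimate: weakly near pairs which are not strongly near have small mass.
-/

set_option autoImplicit false
set_option linter.unusedSectionVars false
open Matrix
open scoped ComplexOrder MatrixOrder

namespace Pool.Agent.H51K.Asm

theorem orth_sum {ι m n : Type*} [Fintype m] [Fintype n] [DecidableEq ι] (s : Finset ι)
    (A : ι → Matrix m n ℂ) (h : ∀ e ∈ s, ∀ e' ∈ s, e ≠ e' → (A e)ᴴ * A e' = 0) :
    (∑ e ∈ s, A e)ᴴ * (∑ e ∈ s, A e) = ∑ e ∈ s, (A e)ᴴ * A e := by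
  rw [Matrix.conjTranspose_sum, Matrix.sum_mul]
  refine Finset.sum_congr rfl fun e he => ?_
  rw [Matrix.mul_sum, Finset.sum_eq_single e]
  · intro e' he' hne
    exact h e he e' he' hne.symm
  · intro h'
    exact absurd he h'

section
variable {S : Type} [Fintype S] {Q : Type} [Fintype Q] [DecidableEq Q] {I : Q → Type}
  [∀ q, Fintype (I q)] {r : Q → ℕ} {W : ∀ q, S → Matrix (Fin (r q)) (Fin (r q)) ℂ}

theorem comm_diff' (hW : ∀ q s, W q s ∈ Matrix.unitaryGroup (Fin (r q)) ℂ) (hr : ∀ q, 0 < r q)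
    {δ η : ℝ} (hδ : 0 < δ) (hη : 0 < η) (P : Q → Q → Prop) [∀ q q', Decidable (P q q')]
    (hn : ∀ q q', P q q' → ¬ Near δ η (W q) (W q'))
    {κ e τ : ℝ} (hF : FlatP I r W κ e τ)
    (z : ∀ p p' : (Σ q, I q), Matrix (Fin (r p'.1)) (Fin (r p.1)) ℂ)
    (h1 : ∀ p, ∑ p', (z p p')ᴴ * z p p' ≤ κ • (1 : Matrix (Fin (r p.1)) (Fin (r p.1)) ℂ))
    (hE : ∑ p, ∑ p', EnR (W p'.1) (W p.1) (z p p') ≤ e) :
    ∑ p, ∑ p' : (Σ q, I q), (if P p.1 p'.1 ∧ r p'.1 ≤ r p.1 then hs (z p p') else 0) ≤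
      (9 / η) * e + δ⁻¹ * τ := by
  have key : ∀ p p' : (Σ q, I q), ∃ b : Matrix (Fin (r p.1)) (Fin (r p.1)) ℂ, bᴴ = b ∧
      bᴴ * b ≤ 1 ∧ (if P p.1 p'.1 ∧ r p'.1 ≤ r p.1 then hs (z p p') else 0) ≤
        (9 / η) * EnR (W p'.1) (W p.1) (z p p') + δ⁻¹ * Fl b (z p p') := by
    intro p p'
    by_cases h : P p.1 p'.1 ∧ r p'.1 ≤ r p.1
    · rw [if_pos h]
      exact diff_class hδ hη (hW p.1) (hW p'.1) (hr _) h.2
        (hn p.1 p'.1 h.1) (z p p')
    · rw [if_neg h]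
      refine ⟨0, by simp, by simp, ?_⟩
      rw [Fl_zero, mul_zero, add_zero]
      exact mul_nonneg (by positivity) (EnR_nonneg _ _ _)
  choose b hb hbb hbF using key
  have h2 := hF z b hb hbb h1 hE
  calc ∑ p, ∑ p' : (Σ q, I q), (if P p.1 p'.1 ∧ r p'.1 ≤ r p.1 then hs (z p p') else 0)
      ≤ ∑ p, ∑ p' : (Σ q, I q), ((9 / η) * EnR (W p'.1) (W p.1) (z p p') +
          δ⁻¹ * Fl (b p p') (z p p')) :=
        Finset.sum_le_sum fun p _ => Finset.sum_le_sum fun p' _ => hbF p p'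
    _ = (9 / η) * ∑ p, ∑ p' : (Σ q, I q), EnR (W p'.1) (W p.1) (z p p') +
          δ⁻¹ * ∑ p, ∑ p' : (Σ q, I q), Fl (b p p') (z p p') := by
        simp only [Finset.sum_add_distrib, Finset.mul_sum]
    _ ≤ (9 / η) * e + δ⁻¹ * τ := by
        refine add_le_add (mul_le_mul_of_nonneg_left hE (by positivity))
          (mul_le_mul_of_nonneg_left h2 (by positivity))

open Classical in
theorem comm_nonnear (hW : ∀ q s, W q s ∈ Matrix.unitaryGroup (Fin (r q)) ℂ) (hr : ∀ q, 0 < r q)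
    {δ η : ℝ} (hδ : 0 < δ) (hη : 0 < η)
    {κ e τ : ℝ} (hF : FlatP I r W κ e τ)
    (z : ∀ p p' : (Σ q, I q), Matrix (Fin (r p'.1)) (Fin (r p.1)) ℂ)
    (h1 : ∀ p, ∑ p', (z p p')ᴴ * z p p' ≤ κ • (1 : Matrix (Fin (r p.1)) (Fin (r p.1)) ℂ))
    (h2 : ∀ p, ∑ p', z p' p * (z p' p)ᴴ ≤ κ • (1 : Matrix (Fin (r p.1)) (Fin (r p.1)) ℂ))
    (hE : ∑ p, ∑ p', EnR (W p'.1) (W p.1) (z p p') ≤ e) :
    ∑ p, ∑ p' : (Σ q, I q), (if ¬ Near δ η (W p.1) (W p'.1) then hs (z p p') else 0) ≤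
      2 * ((9 / η) * e + δ⁻¹ * τ) := by
  have a1 := comm_diff' hW hr hδ hη (fun q q' => ¬ Near δ η (W q) (W q')) (fun q q' h => h) hF z
    h1 hE
  have a2 := comm_diff' hW hr hδ hη (fun q q' => ¬ Near δ η (W q') (W q))
    (fun q q' h h' => h (h'.symm (hW q) (hW q'))) hF (fun p p' => (z p' p)ᴴ)
    (fun p => by
      simp only [Matrix.conjTranspose_conjTranspose]
      exact h2 p)
    (by
      have e1 : ∀ p p' : (Σ q, I q), EnR (W p'.1) (W p.1) (z p' p)ᴴ =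
          EnR (W p.1) (W p'.1) (z p' p) := fun p p' => EnR_adj (hW p.1) (hW p'.1) _
      simp only [e1]
      rw [Finset.sum_comm]
      exact hE)
  simp only [hs_conjTranspose] at a2
  rw [Finset.sum_comm] at a2
  have hsplit : ∀ p p' : (Σ q, I q), (if ¬ Near δ η (W p.1) (W p'.1) then hs (z p p') else 0) ≤
      (if ¬ Near δ η (W p.1) (W p'.1) ∧ r p'.1 ≤ r p.1 then hs (z p p') else 0) +
      (if ¬ Near δ η (W p.1) (W p'.1) ∧ r p.1 ≤ r p'.1 then hs (z p p') else 0) := by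
    intro p p'
    have hz := hs_nonneg (z p p')
    by_cases h : ¬ Near δ η (W p.1) (W p'.1)
    · rw [if_pos h]
      rcases le_total (r p'.1) (r p.1) with h5 | h5
      · rw [if_pos ⟨h, h5⟩]
        split_ifs <;> linarith
      · rw [if_pos (⟨h, h5⟩ : ¬ Near δ η (W p.1) (W p'.1) ∧ r p.1 ≤ r p'.1)]
        split_ifs <;> linarith
    · rw [if_neg h, if_neg (fun h' => h h'.1), if_neg (fun h' => h h'.1)]
      linarith
  calc ∑ p, ∑ p' : (Σ q, I q), (if ¬ Near δ η (W p.1) (W p'.1) then hs (z p p') else 0)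
      ≤ ∑ p, ∑ p' : (Σ q, I q),
        ((if ¬ Near δ η (W p.1) (W p'.1) ∧ r p'.1 ≤ r p.1 then hs (z p p') else 0) +
      (if ¬ Near δ η (W p.1) (W p'.1) ∧ r p.1 ≤ r p'.1 then hs (z p p') else 0)) :=
        Finset.sum_le_sum fun p _ => Finset.sum_le_sum fun p' _ => hsplit p p'
    _ ≤ 2 * ((9 / η) * e + δ⁻¹ * τ) := by
        simp only [Finset.sum_add_distrib]
        linarith

end

theorem hs_EE_sandwich {Q : Type} [Fintype Q] [DecidableEq Q] {I : Q → Type}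
    [∀ q, Fintype (I q)] [∀ q, DecidableEq (I q)] {r : Q → ℕ} (p p' : Σ q, I q)
    (A : Matrix (Fin (r p'.1)) (Fin (r p.1)) ℂ) :
    hs (EE I r p' * A * (EE I r p)ᴴ) = hs A := by
  have e1 : (EE I r p' * A * (EE I r p)ᴴ)ᴴ * (EE I r p' * A * (EE I r p)ᴴ) =
      EE I r p * ((Aᴴ * ((EE I r p')ᴴ * EE I r p') * A) * (EE I r p)ᴴ) := by
    simp only [Matrix.conjTranspose_mul, Matrix.conjTranspose_conjTranspose, Matrix.mul_assoc]
  unfold hs
  rw [e1, EE_orth, Matrix.mul_one, rtr_mul_comm, Matrix.mul_assoc, EE_orth, Matrix.mul_one]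

section
variable {S : Type} [Fintype S] {d : ℕ} {g : S → Matrix (Fin d) (Fin d) ℂ} {εf tf ε₂ : ℝ}

/-- the vertex `j` of the trivial system -/
def pt {J : ℕ} (j : Fin J) : Σ q, II (Finset.univ : Finset (Fin J)) id q :=
  ⟨j, ⟨j, Finset.mem_univ j, rfl⟩⟩

theorem pt_inj {J : ℕ} {i j : Fin J} (h : pt i = pt j) : i = j := congrArg Sigma.fst h

/-- index type of the trivial system -/
abbrev TM {J : ℕ} (r : Fin J → ℕ) : Type := BM (II (Finset.univ : Finset (Fin J)) id) r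

/-- inclusions of the blocks of the trivial system -/
def Ept {J : ℕ} (r : Fin J → ℕ) (j : Fin J) : Matrix (TM r) (Fin (r j)) ℂ :=
  EE (II (Finset.univ : Finset (Fin J)) id) r (pt j)

theorem Ept_orth {J : ℕ} (r : Fin J → ℕ) (j : Fin J) : (Ept r j)ᴴ * Ept r j = 1 :=
  EE_orth (pt j)

theorem Ept_ne {J : ℕ} (r : Fin J → ℕ) {i j : Fin J} (h : i ≠ j) : (Ept r i)ᴴ * Ept r j = 0 :=
  EE_ne (fun h' => h (pt_inj h').symm)

theorem BW_mul_Ept {J : ℕ} {r : Fin J → ℕ} (W : ∀ q, S → Matrix (Fin (r q)) (Fin (r q)) ℂ) (s : S)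
    (j : Fin J) : BW (II (Finset.univ : Finset (Fin J)) id) r W s * Ept r j = Ept r j * W j s :=
  BW_mul_EE W s (pt j)

theorem Ept_mul_BW {J : ℕ} {r : Fin J → ℕ} (W : ∀ q, S → Matrix (Fin (r q)) (Fin (r q)) ℂ) (s : S)
    (j : Fin J) : (Ept r j)ᴴ * BW (II (Finset.univ : Finset (Fin J)) id) r W s =
      W j s * (Ept r j)ᴴ :=
  EE_mul_BW W s (pt j)

theorem hs_Ept_sandwich {J : ℕ} {r : Fin J → ℕ} (i j : Fin J)
    (A : Matrix (Fin (r j)) (Fin (r i)) ℂ) : hs (Ept r j * A * (Ept r i)ᴴ) = hs A :=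
  hs_EE_sandwich (pt i) (pt j) A

theorem Ept_sum_le {J : ℕ} (r : Fin J → ℕ) (F : Finset (Fin J)) :
    ∑ j ∈ F, Ept r j * (Ept r j)ᴴ ≤ 1 := by
  have h2 : ∑ j ∈ F, Ept r j * (Ept r j)ᴴ =
      ∑ p ∈ F.map ⟨pt, fun _ _ h => pt_inj h⟩,
        EE (II (Finset.univ : Finset (Fin J)) id) r p *
          (EE (II (Finset.univ : Finset (Fin J)) id) r p)ᴴ := by
    rw [Finset.sum_map]
    rfl
  rw [h2, ← EE_sum (I := II (Finset.univ : Finset (Fin J)) id) (r := r)]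
  exact Finset.sum_le_univ_sum_of_nonneg fun p =>
    Matrix.nonneg_iff_posSemidef.2 (Matrix.posSemidef_self_mul_conjTranspose _)

/-- blocks of the trivial system -/
def tblk {J : ℕ} (r : Fin J → ℕ) (x : Matrix (TM r) (TM r) ℂ) (i j : Fin J) :
    Matrix (Fin (r j)) (Fin (r i)) ℂ := (Ept r j)ᴴ * x * Ept r i

theorem tblk_eq {J : ℕ} (r : Fin J → ℕ) (x : Matrix (TM r) (TM r) ℂ) (i j : Fin J) :
    tblk r x i j = blk (II (Finset.univ : Finset (Fin J)) id) r x (pt i) (pt j) := rfl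

theorem matching (D : Dec g εf tf ε₂) (hg : ∀ s, g s ∈ Matrix.unitaryGroup (Fin d) ℂ)
    {C t : ℝ} (hC : 0 ≤ C) (Φ : Avg d)
    (hΦ : ∀ κ : ℝ, 0 < κ → ∀ c : Matrix (Fin d) (Fin d) ℂ,
      cᴴ * c ≤ κ • (1 : Matrix (Fin d) (Fin d) ℂ) →
      En g (Φ.ap c) ≤ κ * (t * d) ∧ hs (c - Φ.ap c) ≤ C * En g c + κ * (t * d))
    (hε0 : 0 < ε₂) (hε : ε₂ ≤ 1 / 2)
    {δ η c₁ : ℝ} (hδ : 0 < δ) (hη : 0 < η) (hfl : 68 * ε₂ + 6 * t ≤ tf)
    (M : Finset (Fin D.J × Fin D.J))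
    (hM1 : ∀ e ∈ M, ∀ e' ∈ M, e ≠ e' → e.1 ≠ e'.1) (hM2 : ∀ e ∈ M, ∀ e' ∈ M, e ≠ e' → e.2 ≠ e'.2)
    (hB : ∀ e ∈ M, Near (1 / 2) c₁ (D.W e.1) (D.W e.2))
    (hA : ∀ e ∈ M, ¬ Near δ η (D.W e.1) (D.W e.2)) :
    (1 / 2) * ∑ e ∈ M, max (D.r e.1 : ℝ) (D.r e.2) ≤
      2 * (20 * (23 * ε₂ * d) + 8 * (C * (12 * (10 * ε₂ * d) +
        12 * (c₁ * ∑ e ∈ M, max (D.r e.1 : ℝ) (D.r e.2))) + 4 * (t * d))) +
      2 * (2 * ((9 / η) * ((480 * ε₂ + 48 * t) * d) + δ⁻¹ * (16 * (εf + 20 * ε₂) * d))) := by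
  classical
  have hd : (0 : ℝ) ≤ d := Nat.cast_nonneg _
  have hε2 : ε₂ ^ 2 ≤ ε₂ * (1 / 2) := by rw [sq]; exact mul_le_mul_of_nonneg_left hε hε0.le
  obtain ⟨Y⟩ := exists_sys D Finset.univ id (ε₂ ^ 2) ε₂
    (fun i _ => Near.refl (by positivity) hε0.le (D.W i))
  -- estimates for the trivial system
  have hEn : EnR g (BW (II Finset.univ id) D.r D.W) Y.U ≤ 10 * ε₂ * d := by
    have := Y.energy hε0.le (by linarith) (by linarith)
    refine this.trans (le_of_eq ?_)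
    ring
  have hzero : (∑ j, if j ∈ (Finset.univ : Finset (Fin D.J)) then (0 : ℝ) else (D.r j : ℝ)) = 0 := by
    simp
  have hG : hs (Y.Uᴴ * Y.U - 1) ≤ 23 * ε₂ * d := by
    have h1 := Y.UU_near (by positivity) (by linarith) (by linarith)
    have h2 := Y.card_le (by positivity) (by linarith) (by linarith)
    rw [hzero] at h1 h2
    have h3 := hs_swap Y.U
    rw [Fintype.card_fin] at h3
    have h4 := (abs_le.1 h2).2
    have h5 : ε₂ ^ 2 * d ≤ ε₂ * (1 / 2) * d := mul_le_mul_of_nonneg_right hε2 hd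
    have h6 : 0 ≤ ε₂ * d := by positivity
    rw [h3]
    linarith
  have hflat : FlatP (II Finset.univ id) D.r D.W 16 ((480 * ε₂ + 48 * t) * d)
      (16 * (εf + 20 * ε₂) * d) := by
    have h1 := Y.flatP (κ := 16) (e := (480 * ε₂ + 48 * t) * d) (lam := ε₂) (by positivity)
      (by linarith) hε0.le (by linarith) (by norm_num) hε0 (by
        have h2 : (68 * ε₂ + 6 * t) * d ≤ tf * d := mul_le_mul_of_nonneg_right hfl hd
        refine le_trans (le_of_eq ?_) h2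
        ring)
    intro y b hb hbb hy hE
    refine (h1 y b hb hbb hy hE).trans ?_
    refine mul_le_mul_of_nonneg_right ?_ hd
    have h3 : ε₂ ^ 2 / ε₂ = ε₂ := by field_simp
    rw [h3]
    linarith
  -- witnesses
  have hw : ∀ i j : Fin D.J, ∃ w : Matrix (Fin (D.r j)) (Fin (D.r i)) ℂ, wᴴ * w ≤ 1 ∧
      ((i, j) ∈ M → (1 - 1 / 2) * max (D.r i : ℝ) (D.r j) ≤ hs w ∧
        EnR (D.W j) (D.W i) w ≤ c₁ * max (D.r i : ℝ) (D.r j)) := by
    intro i j
    by_cases h : (i, j) ∈ M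
    · obtain ⟨w, h1, h2, h3⟩ := hB (i, j) h
      exact ⟨w, h1, fun _ => ⟨h2, h3⟩⟩
    · exact ⟨0, by simp, fun h' => absurd h' h⟩
  choose w hw1 hw2 using hw
  set A : Fin D.J × Fin D.J → Matrix (TM D.r) (TM D.r) ℂ := fun e =>
      Ept D.r e.2 * w e.1 e.2 * (Ept D.r e.1)ᴴ with hAdef
  have hAA : ∀ e e', (A e)ᴴ * A e' = Ept D.r e.1 * (w e.1 e.2)ᴴ *
      ((Ept D.r e.2)ᴴ * Ept D.r e'.2) * w e'.1 e'.2 * (Ept D.r e'.1)ᴴ := by
    intro e e'
    simp only [hAdef, Matrix.conjTranspose_mul, Matrix.conjTranspose_conjTranspose,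
      Matrix.mul_assoc]
  have hAorth : ∀ e ∈ M, ∀ e' ∈ M, e ≠ e' → (A e)ᴴ * A e' = 0 := by
    intro e he e' he' hne
    rw [hAA, Ept_ne D.r (hM2 e he e' he' hne), Matrix.mul_zero, Matrix.zero_mul, Matrix.zero_mul]
  set x := ∑ e ∈ M, A e with hx
  have hxc : xᴴ * x ≤ 1 := by
    rw [hx, orth_sum M A hAorth]
    have h1 : ∀ e, (A e)ᴴ * A e ≤ Ept D.r e.1 * (Ept D.r e.1)ᴴ := by
      intro e
      have e2 := conj_mono' (hw1 e.1 e.2) (Ept D.r e.1)
      rw [Matrix.mul_one] at e2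
      rw [hAA, Ept_orth, Matrix.mul_one, Matrix.mul_assoc (Ept D.r e.1)]
      exact e2
    refine (Finset.sum_le_sum fun e _ => h1 e).trans ?_
    have h2 : ∑ e ∈ M, Ept D.r e.1 * (Ept D.r e.1)ᴴ =
        ∑ j ∈ M.image Prod.fst, Ept D.r j * (Ept D.r j)ᴴ := by
      rw [Finset.sum_image]
      intro e he e' he' h
      by_contra hne
      exact hM1 e he e' he' hne h
    rw [h2]
    exact Ept_sum_le D.r _
  have hxE : En (BW (II Finset.univ id) D.r D.W) x ≤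
      c₁ * ∑ e ∈ M, max (D.r e.1 : ℝ) (D.r e.2) := by
    have h1 : ∀ s, hs (BW (II Finset.univ id) D.r D.W s * x - x * BW (II Finset.univ id) D.r D.W s)
        = ∑ e ∈ M, hs (D.W e.2 s * w e.1 e.2 - w e.1 e.2 * D.W e.1 s) := by
      intro s
      set A' : Fin D.J × Fin D.J → Matrix (TM D.r) (TM D.r) ℂ := fun e =>
        Ept D.r e.2 * (D.W e.2 s * w e.1 e.2 - w e.1 e.2 * D.W e.1 s) * (Ept D.r e.1)ᴴ with hA'
      have h2 : BW (II Finset.univ id) D.r D.W s * x - x * BW (II Finset.univ id) D.r D.W s =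
          ∑ e ∈ M, A' e := by
        rw [hx, Matrix.mul_sum, Matrix.sum_mul, ← Finset.sum_sub_distrib]
        refine Finset.sum_congr rfl fun e _ => ?_
        have e1 : BW (II Finset.univ id) D.r D.W s * A e = Ept D.r e.2 *
            (D.W e.2 s * w e.1 e.2) * (Ept D.r e.1)ᴴ := by
          simp only [hAdef]
          rw [← Matrix.mul_assoc, ← Matrix.mul_assoc, BW_mul_Ept]
          simp only [Matrix.mul_assoc]
        have e2 : A e * BW (II Finset.univ id) D.r D.W s = Ept D.r e.2 *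
            (w e.1 e.2 * D.W e.1 s) * (Ept D.r e.1)ᴴ := by
          simp only [hAdef]
          rw [Matrix.mul_assoc, Ept_mul_BW]
          simp only [Matrix.mul_assoc]
        simp only [hA']
        rw [e1, e2, Matrix.mul_sub, Matrix.sub_mul]
      have h3 : ∀ e ∈ M, ∀ e' ∈ M, e ≠ e' → (A' e)ᴴ * A' e' = 0 := by
        intro e he e' he' hne
        have : (A' e)ᴴ * A' e' = Ept D.r e.1 *
            (D.W e.2 s * w e.1 e.2 - w e.1 e.2 * D.W e.1 s)ᴴ *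
            ((Ept D.r e.2)ᴴ * Ept D.r e'.2) *
            (D.W e'.2 s * w e'.1 e'.2 - w e'.1 e'.2 * D.W e'.1 s) *
            (Ept D.r e'.1)ᴴ := by
          simp only [hA', Matrix.conjTranspose_mul, Matrix.conjTranspose_conjTranspose,
            Matrix.mul_assoc]
        rw [this, Ept_ne D.r (hM2 e he e' he' hne), Matrix.mul_zero, Matrix.zero_mul,
          Matrix.zero_mul]
      rw [h2]
      unfold hs
      rw [orth_sum M A' h3, rtr_sum]
      exact Finset.sum_congr rfl fun e _ => hs_Ept_sandwich e.1 e.2 _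
    calc En (BW (II Finset.univ id) D.r D.W) x = ∑ s, ∑ e ∈ M,
          hs (D.W e.2 s * w e.1 e.2 - w e.1 e.2 * D.W e.1 s) := by
          unfold En EnR
          exact Finset.sum_congr rfl fun s _ => h1 s
      _ = ∑ e ∈ M, EnR (D.W e.2) (D.W e.1) (w e.1 e.2) := by rw [Finset.sum_comm]; rfl
      _ ≤ ∑ e ∈ M, c₁ * max (D.r e.1 : ℝ) (D.r e.2) :=
          Finset.sum_le_sum fun e he => (hw2 e.1 e.2 he).2
      _ = c₁ * ∑ e ∈ M, max (D.r e.1 : ℝ) (D.r e.2) := by rw [Finset.mul_sum]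
  have hxblk : ∀ e ∈ M, tblk D.r x e.1 e.2 = w e.1 e.2 := by
    intro e he
    rw [tblk, hx, Matrix.mul_sum, Matrix.sum_mul]
    have hterm : ∀ e', (Ept D.r e.2)ᴴ * A e' * Ept D.r e.1 =
          ((Ept D.r e.2)ᴴ * Ept D.r e'.2) *
          w e'.1 e'.2 * ((Ept D.r e'.1)ᴴ * Ept D.r e.1) := by
      intro e'
      simp only [hAdef, Matrix.mul_assoc]
    rw [Finset.sum_eq_single e]
    · rw [hterm, Ept_orth, Ept_orth, Matrix.one_mul, Matrix.mul_one]
    · intro e' he' hne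
      rw [hterm, Ept_ne D.r (hM2 e he e' he' hne.symm), Matrix.zero_mul, Matrix.zero_mul]
    · intro h
      exact absurd he h
  -- improve
  obtain ⟨z, hz1, hz2, hz3⟩ := improve hg (BW_unitary D.W_unitary) Y.U_bound hC Φ hΦ x hxc
  have hz1' := adj_bound (by norm_num) hz1
  have hzE : En (BW (II Finset.univ id) D.r D.W) z ≤ (480 * ε₂ + 48 * t) * d := by
    refine hz2.trans ?_
    linarith
  have hnn := comm_nonnear (I := II (Finset.univ : Finset (Fin D.J)) id) (r := D.r) (W := D.W)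
    D.W_unitary D.r_pos hδ hη hflat (fun p p' => blk (II Finset.univ id) D.r z p p')
    (fun p => blk_marg hz1 p)
    (fun p => by
      have h1 := blk_marg hz1' p
      simp only [blk_conj, Matrix.conjTranspose_conjTranspose] at h1
      exact h1)
    (by rw [← En_blk]; exact hzE)
  have hinj : ∀ F : (Σ q, II (Finset.univ : Finset (Fin D.J)) id q) →
      (Σ q, II (Finset.univ : Finset (Fin D.J)) id q) → ℝ, (∀ p p', 0 ≤ F p p') →
      ∑ e ∈ M, F (pt e.1) (pt e.2) ≤ ∑ p, ∑ p', F p p' := by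
    intro F hF
    rw [← Fintype.sum_prod_type' F]
    have h2 : ∑ e ∈ M, F (pt e.1) (pt e.2) =
        ∑ x ∈ M.image (fun e => (pt e.1, pt e.2)), F x.1 x.2 := by
      rw [Finset.sum_image]
      intro e he e' he' h
      simp only [Prod.mk.injEq] at h
      exact Prod.ext (pt_inj h.1) (pt_inj h.2)
    rw [h2]
    exact Finset.sum_le_univ_sum_of_nonneg fun x => hF x.1 x.2
  have hs1 : ∑ e ∈ M, hs (w e.1 e.2 - tblk D.r z e.1 e.2) ≤ hs (x - z) := by
    rw [hs_blk]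
    refine le_trans (le_of_eq ?_) (hinj (fun p p' => hs (blk (II Finset.univ id) D.r (x - z) p p'))
      (fun p p' => hs_nonneg _))
    refine Finset.sum_congr rfl fun e he => ?_
    rw [blk_sub, ← hxblk e he]
    rfl
  have hs2 : ∑ e ∈ M, hs (tblk D.r z e.1 e.2) ≤
      2 * ((9 / η) * ((480 * ε₂ + 48 * t) * d) + δ⁻¹ * (16 * (εf + 20 * ε₂) * d)) := by
    refine le_trans (le_trans (le_of_eq ?_) (hinj (fun p p' =>
      (if ¬ Near δ η (D.W p.1) (D.W p'.1) then hs (blk (II Finset.univ id) D.r z p p') else 0))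
      (fun p p' => by
        by_cases h : ¬ Near δ η (D.W p.1) (D.W p'.1)
        · rw [if_pos h]; exact hs_nonneg _
        · rw [if_neg h]))) hnn
    refine Finset.sum_congr rfl fun e he => ?_
    have : ¬ Near δ η (D.W (pt e.1).1) (D.W (pt e.2).1) := hA e he
    rw [if_pos this]
    rfl
  have hs3 : (1 / 2) * ∑ e ∈ M, max (D.r e.1 : ℝ) (D.r e.2) ≤
      2 * hs (x - z) + 2 * (2 * ((9 / η) * ((480 * ε₂ + 48 * t) * d) +
        δ⁻¹ * (16 * (εf + 20 * ε₂) * d))) := by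
    have h1 : ∀ e ∈ M, (1 / 2) * max (D.r e.1 : ℝ) (D.r e.2) ≤
        2 * hs (w e.1 e.2 - tblk D.r z e.1 e.2) +
        2 * hs (tblk D.r z e.1 e.2) := by
      intro e he
      have h2 := (hw2 e.1 e.2 he).1
      have h3 := hs_add_le (w e.1 e.2 - tblk D.r z e.1 e.2)
        (tblk D.r z e.1 e.2)
      rw [sub_add_cancel] at h3
      linarith
    have h4 := Finset.sum_le_sum h1
    rw [← Finset.mul_sum, Finset.sum_add_distrib, ← Finset.mul_sum, ← Finset.mul_sum] at h4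
    linarith
  have hfin : hs (x - z) ≤ 20 * (23 * ε₂ * d) + 8 * (C * (12 * (10 * ε₂ * d) +
        12 * (c₁ * ∑ e ∈ M, max (D.r e.1 : ℝ) (D.r e.2))) + 4 * (t * d)) := by
    have h1 : C * (12 * EnR g (BW (II Finset.univ id) D.r D.W) Y.U +
        12 * En (BW (II Finset.univ id) D.r D.W) x) ≤ C * (12 * (10 * ε₂ * d) +
        12 * (c₁ * ∑ e ∈ M, max (D.r e.1 : ℝ) (D.r e.2))) :=
      mul_le_mul_of_nonneg_left (by linarith) hC
    linarith
  linarith

end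

end Pool.Agent.H51K.Asm
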