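import Pool.Agent.H51K.AsmCayley

/-!
Pairs of blocks: flatness forces near-unitarity (different classes) or smallness (same class).
-/

set_option autoImplicit false
set_option linter.unusedSectionVars false
open Matrix
open scoped ComplexOrder MatrixOrder

namespace Pool.Agent.H51K.Asm

variable {m n l k : Type*} [Fintype m] [Fintype n] [Fintype l] [Fintype k]

/-- flatness functional -/
noncomputable def Fl {l : Type*} [Fintype l] {r : ℕ} (b : Matrix (Fin r) (Fin r) ℂ)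
    (y : Matrix l (Fin r) ℂ) : ℝ := rtr (b * (yᴴ * y)) - hs y / r * rtr b

theorem Fl_zero {l : Type*} [Fintype l] {r : ℕ} (y : Matrix l (Fin r) ℂ) :
    Fl (0 : Matrix (Fin r) (Fin r) ℂ) y = 0 := by
  simp [Fl, rtr_zero]

theorem Fl_neg {l : Type*} [Fintype l] {r : ℕ} (b : Matrix (Fin r) (Fin r) ℂ)
    (y : Matrix l (Fin r) ℂ) : Fl (-b) y = - Fl b y := by
  simp only [Fl, Matrix.neg_mul, rtr_neg]
  ring

/-- two blocks are near: there is a near-unitary near-intertwiner -/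
def Near {S : Type} [Fintype S] (δ η : ℝ) {r₁ r₂ : ℕ} (W₁ : S → Matrix (Fin r₁) (Fin r₁) ℂ)
    (W₂ : S → Matrix (Fin r₂) (Fin r₂) ℂ) : Prop :=
  ∃ u : Matrix (Fin r₂) (Fin r₁) ℂ, uᴴ * u ≤ 1 ∧ (1 - δ) * max (r₁ : ℝ) r₂ ≤ hs u ∧
    EnR W₂ W₁ u ≤ η * max (r₁ : ℝ) r₂

theorem Near.symm {S : Type} [Fintype S] {δ η : ℝ} {r₁ r₂ : ℕ}
    {W₁ : S → Matrix (Fin r₁) (Fin r₁) ℂ} {W₂ : S → Matrix (Fin r₂) (Fin r₂) ℂ}
    (h1 : ∀ s, W₁ s ∈ Matrix.unitaryGroup (Fin r₁) ℂ)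
    (h2 : ∀ s, W₂ s ∈ Matrix.unitaryGroup (Fin r₂) ℂ)
    (h : Near δ η W₁ W₂) : Near δ η W₂ W₁ := by
  obtain ⟨u, hu, h3, h4⟩ := h
  refine ⟨uᴴ, ?_, ?_, ?_⟩
  · rw [Matrix.conjTranspose_conjTranspose]
    exact swap_contr hu
  · rw [hs_conjTranspose, max_comm]
    exact h3
  · rw [EnR_adj h2 h1, max_comm]
    exact h4

theorem Near.refl {S : Type} [Fintype S] {δ η : ℝ} (hδ : 0 ≤ δ) (hη : 0 ≤ η) {r₁ : ℕ}
    (W₁ : S → Matrix (Fin r₁) (Fin r₁) ℂ) : Near δ η W₁ W₁ := by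
  refine ⟨1, ?_, ?_, ?_⟩
  · simp
  · have : hs (1 : Matrix (Fin r₁) (Fin r₁) ℂ) = r₁ := by
      simp [hs, rtr_one]
    rw [this, max_self]
    have : (0 : ℝ) ≤ r₁ := Nat.cast_nonneg _
    nlinarith
  · have : EnR W₁ W₁ (1 : Matrix (Fin r₁) (Fin r₁) ℂ) = 0 := by
      simp [EnR, hs_zero]
    rw [this]
    positivity

/-- different classes, source at least as big as the target -/
theorem diff_class {S : Type} [Fintype S] {δ η : ℝ} (hδ : 0 < δ) (hη : 0 < η) {r₁ r₂ : ℕ}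
    {W₁ : S → Matrix (Fin r₁) (Fin r₁) ℂ} {W₂ : S → Matrix (Fin r₂) (Fin r₂) ℂ}
    (hW₁ : ∀ s, W₁ s ∈ Matrix.unitaryGroup (Fin r₁) ℂ)
    (hW₂ : ∀ s, W₂ s ∈ Matrix.unitaryGroup (Fin r₂) ℂ)
    (hr : 0 < r₁) (hle : r₂ ≤ r₁) (hn : ¬ Near δ η W₁ W₂) (y : Matrix (Fin r₂) (Fin r₁) ℂ) :
    ∃ b : Matrix (Fin r₁) (Fin r₁) ℂ, bᴴ = b ∧ bᴴ * b ≤ 1 ∧
      hs y ≤ (9 / η) * EnR W₂ W₁ y + δ⁻¹ * Fl b y := by
  by_cases hy : hs y = 0
  · refine ⟨0, by simp, by simp, ?_⟩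
    rw [Fl_zero, hy, mul_zero, add_zero]
    exact mul_nonneg (by positivity) (EnR_nonneg _ _ _)
  have hy' : 0 < hs y := lt_of_le_of_ne (hs_nonneg y) (Ne.symm hy)
  have hr' : (0 : ℝ) < r₁ := Nat.cast_pos.2 hr
  set t := hs y / r₁ with ht
  have ht0 : 0 < t := div_pos hy' hr'
  have hty : hs y = t * r₁ := by rw [ht]; field_simp
  obtain ⟨u, b, hu, hb, hbb, hF, hE⟩ := cayley y ht0
  refine ⟨b, hb, hbb, ?_⟩
  have hmax : max (r₁ : ℝ) r₂ = r₁ := max_eq_left (Nat.cast_le.2 hle)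
  have hFl : Fl b y = t * (r₁ - hs u) := by
    rw [Fl, ← ht, hF, Fintype.card_fin]
  have hEn : EnR W₂ W₁ u ≤ (9 / t) * EnR W₂ W₁ y := by
    unfold EnR
    rw [Finset.mul_sum]
    exact Finset.sum_le_sum fun s _ => hE _ _ (hW₂ s) (hW₁ s)
  have hhu : hs u ≤ r₁ := by
    have := rtr_mono hu
    rw [rtr_one, Fintype.card_fin] at this
    exact this
  have hE0 := EnR_nonneg W₂ W₁ y
  rw [hFl]
  by_cases h1 : (1 - δ) * r₁ ≤ hs u
  · have h2 : η * r₁ < EnR W₂ W₁ u := by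
      by_contra hcon
      push Not at hcon
      exact hn ⟨u, hu, by rwa [hmax], by rwa [hmax]⟩
    have h3 : η * r₁ < (9 / t) * EnR W₂ W₁ y := h2.trans_le hEn
    have h4 : 0 ≤ δ⁻¹ * (t * (r₁ - hs u)) := by
      have : 0 ≤ r₁ - hs u := by linarith
      positivity
    have h5 : t * r₁ ≤ (9 / η) * EnR W₂ W₁ y := by
      rw [div_mul_eq_mul_div, lt_div_iff₀ ht0] at h3
      rw [div_mul_eq_mul_div 9 η, le_div_iff₀ hη]
      linarith
    linarith
  · push Not at h1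
    have h2 : δ * r₁ < r₁ - hs u := by linarith
    have h3 : t * r₁ ≤ δ⁻¹ * (t * (r₁ - hs u)) := by
      rw [inv_mul_eq_div, le_div_iff₀ hδ]
      nlinarith
    have h4 : 0 ≤ (9 / η) * EnR W₂ W₁ y := by positivity
    linarith

/-- `‖u‖ ≤ 1`, `u* y ~ |y|` -/
theorem cayley2 [DecidableEq n] (y : Matrix n n ℂ) {μ : ℝ} (hμ : 0 < μ) :
    ∃ (u b : Matrix n n ℂ), uᴴ * u ≤ 1 ∧ bᴴ = b ∧ bᴴ * b ≤ 1 ∧
      hs y = μ * rtr (uᴴ * y) + (rtr (b * (yᴴ * y)) - μ ^ 2 * rtr b) := by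
  obtain ⟨X, hX, hX1, hXa, haX⟩ := resolvent (yᴴ * y) (Matrix.posSemidef_conjTranspose_mul_self y)
    (by positivity : 0 < μ ^ 2)
  have hX' : Xᴴ = X := hX.1
  have hXX := psd_le_one_sq hX hX1
  have hXaX : X * (yᴴ * y) * X = (μ ^ 2) • (X - X * X) := by
    rw [hXa, Matrix.smul_mul, Matrix.sub_mul, Matrix.one_mul]
  have huu : ((2 / μ) • (y * X))ᴴ * ((2 / μ) • (y * X)) = (4 : ℝ) • (X - X * X) := by
    have e : ((2 / μ) • (y * X))ᴴ * ((2 / μ) • (y * X)) =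
        ((2 / μ) * (2 / μ)) • (X * (yᴴ * y) * X) := by
      rw [Matrix.conjTranspose_smul, star_trivial, Matrix.smul_mul, Matrix.mul_smul, smul_smul,
        Matrix.conjTranspose_mul, hX']
      simp only [Matrix.mul_assoc]
    rw [e, hXaX, smul_smul]
    congr 1
    field_simp
    norm_num
  have hD : (1 - (2 : ℝ) • X)ᴴ = 1 - (2 : ℝ) • X := by
    rw [Matrix.conjTranspose_sub, Matrix.conjTranspose_one, Matrix.conjTranspose_smul, star_trivial,
      hX']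
  have hDD : (1 - (2 : ℝ) • X)ᴴ * (1 - (2 : ℝ) • X) = 1 - (4 : ℝ) • (X - X * X) := by
    have e2 : (2 : ℝ) • X = X + X := two_smul ℝ X
    have e4 : (4 : ℝ) • (X - X * X) = (X - X * X) + (X - X * X) + ((X - X * X) + (X - X * X)) := by
      rw [← two_smul ℝ (X - X * X), ← two_smul ℝ ((2 : ℝ) • (X - X * X)), smul_smul]
      norm_num
    rw [hD, e2, e4]
    noncomm_ring
  refine ⟨(2 / μ) • (y * X), 1 - X, ?_, ?_, ?_, ?_⟩
  · rw [huu, Matrix.le_iff, ← hDD]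
    exact Matrix.posSemidef_conjTranspose_mul_self _
  · rw [Matrix.conjTranspose_sub, Matrix.conjTranspose_one, hX']
  · exact psd_le_one_sq' hX1 (by rwa [sub_sub_cancel])
  · have e1 : ((2 / μ) • (y * X))ᴴ * y = (2 / μ) • (X * (yᴴ * y)) := by
      rw [Matrix.conjTranspose_smul, star_trivial, Matrix.smul_mul, Matrix.conjTranspose_mul, hX',
        Matrix.mul_assoc]
    rw [e1, hXa, Matrix.sub_mul, Matrix.one_mul, hXa, rtr_smul, rtr_smul, rtr_sub (yᴴ * y),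
      rtr_smul]
    unfold hs
    field_simp
    ring

/-- imaginary part of the trace -/
noncomputable def itr (A : Matrix n n ℂ) : ℝ := (Matrix.trace A).im

theorem hs_add_scalar {r : ℕ} (y : Matrix (Fin r) (Fin r) ℂ) (htr : Matrix.trace y = 0) (c : ℂ) :
    hs (y + c • (1 : Matrix (Fin r) (Fin r) ℂ)) = hs y + ‖c‖ ^ 2 * r := by
  have h1 : ip y (c • (1 : Matrix (Fin r) (Fin r) ℂ)) = 0 := by
    unfold ip rtr
    rw [Matrix.mul_smul, Matrix.mul_one, Matrix.trace_smul, Matrix.trace_conjTranspose, htr]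
    simp
  have h2 : hs (c • (1 : Matrix (Fin r) (Fin r) ℂ)) = ‖c‖ ^ 2 * r := by
    unfold hs rtr
    rw [Matrix.conjTranspose_smul, Matrix.conjTranspose_one, Matrix.smul_mul, Matrix.mul_smul,
      smul_smul, Matrix.one_mul, Matrix.trace_smul, Matrix.trace_one, Fintype.card_fin,
      Complex.star_def, Complex.conj_mul', smul_eq_mul]
    have : ((‖c‖ : ℂ) ^ 2 * (r : ℂ)) = ((‖c‖ ^ 2 * r : ℝ) : ℂ) := by push_cast; ring
    rw [this, Complex.ofReal_re]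
  rw [hs_add, h1, h2]
  ring

theorem Fl_shift {r : ℕ} (hr : 0 < r) (y b : Matrix (Fin r) (Fin r) ℂ)
    (htr : Matrix.trace y = 0) (hb : bᴴ = b) (c : ℂ) :
    Fl b (y + c • (1 : Matrix (Fin r) (Fin r) ℂ)) = Fl b y + 2 * rtr (star c • (b * y)) := by
  have hr' : (0 : ℝ) < r := Nat.cast_pos.2 hr
  unfold Fl
  rw [hs_add_scalar y htr c]
  have e : (y + c • (1 : Matrix (Fin r) (Fin r) ℂ))ᴴ * (y + c • (1 : Matrix (Fin r) (Fin r) ℂ)) =
      yᴴ * y + star c • y + c • yᴴ + (star c * c) • (1 : Matrix (Fin r) (Fin r) ℂ) := by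
    rw [Matrix.conjTranspose_add, Matrix.conjTranspose_smul, Matrix.conjTranspose_one,
      Matrix.add_mul, Matrix.mul_add, Matrix.mul_add, Matrix.smul_mul, Matrix.smul_mul,
      Matrix.mul_smul, Matrix.mul_smul, smul_smul, Matrix.one_mul, Matrix.mul_one, Matrix.one_mul]
    abel
  have h1 : rtr (b * (c • yᴴ)) = rtr (star c • (b * y)) := by
    rw [← rtr_conjTranspose, Matrix.conjTranspose_mul, Matrix.conjTranspose_smul,
      Matrix.conjTranspose_conjTranspose, hb, Matrix.smul_mul]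
    unfold rtr
    rw [Matrix.trace_smul, Matrix.trace_smul, Matrix.trace_mul_comm]
  have h2 : rtr (b * ((star c * c) • (1 : Matrix (Fin r) (Fin r) ℂ))) = ‖c‖ ^ 2 * rtr b := by
    rw [Matrix.mul_smul, Matrix.mul_one, Complex.star_def, Complex.conj_mul']
    unfold rtr
    rw [Matrix.trace_smul, smul_eq_mul]
    have : ((‖c‖ : ℂ) ^ 2 * b.trace).re = ((‖c‖ ^ 2 : ℝ) * b.trace).re := by push_cast; rfl
    rw [this, Complex.re_ofReal_mul]
  rw [e, Matrix.mul_add, Matrix.mul_add, Matrix.mul_add, rtr_add, rtr_add, rtr_add, h1, h2,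
    Matrix.mul_smul]
  field_simp
  ring

theorem half_contr (u v : Matrix n n ℂ) [DecidableEq n] (hu : uᴴ * u ≤ 1) (hv : vᴴ * v ≤ 1) :
    ((1 / 2 : ℝ) • u + (1 / 2 : ℝ) • v)ᴴ * ((1 / 2 : ℝ) • u + (1 / 2 : ℝ) • v) ≤ 1 := by
  have := convex_contr (fun _ : Fin 2 => (1 / 2 : ℝ)) ![u, v] (fun _ => by norm_num)
    (by simp) (B := 1) (fun i => by fin_cases i <;> simpa)
  simpa using this

/-- same class: a traceless element of small energy is controlled by flatness functionals -/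
theorem same_class {r : ℕ} (hr : 0 < r) (y : Matrix (Fin r) (Fin r) ℂ)
    (htr : Matrix.trace y = 0) :
    ∃ b : Fin 3 → Matrix (Fin r) (Fin r) ℂ, (∀ i, (b i)ᴴ = b i) ∧ (∀ i, (b i)ᴴ * b i ≤ 1) ∧
      hs y = Fl (b 0) y + (Fl (b 1) (y + ((Real.sqrt (hs y / r) : ℝ) : ℂ) • 1) - Fl (b 1) y
        - Fl (b 2) (y + (Complex.I * (Real.sqrt (hs y / r) : ℝ)) • 1) + Fl (b 2) y) / 2 := by
  by_cases hy : hs y = 0
  · refine ⟨fun _ => 0, by simp, by simp, ?_⟩
    simp only [Fl_zero, hy]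
    norm_num
  have hy' : 0 < hs y := lt_of_le_of_ne (hs_nonneg y) (Ne.symm hy)
  have hr' : (0 : ℝ) < r := Nat.cast_pos.2 hr
  set μ := Real.sqrt (hs y / r) with hμ
  have hμ0 : 0 < μ := Real.sqrt_pos.2 (div_pos hy' hr')
  have hμ2 : μ ^ 2 = hs y / r := Real.sq_sqrt (div_pos hy' hr').le
  obtain ⟨u, b, hu, hb, hbb, hF⟩ := cayley2 y hμ0
  have hu' : (uᴴ)ᴴ * uᴴ ≤ 1 := by
    rw [Matrix.conjTranspose_conjTranspose]
    exact swap_contr hu
  have hi : ∀ (c : ℂ), star c * c = 1 → ∀ v : Matrix (Fin r) (Fin r) ℂ, vᴴ * v ≤ 1 →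
      (c • v)ᴴ * (c • v) ≤ 1 := by
    intro c hc v hv
    rw [Matrix.conjTranspose_smul, Matrix.smul_mul, Matrix.mul_smul, smul_smul, hc, one_smul]
    exact hv
  set b1 := (1 / 2 : ℝ) • u + (1 / 2 : ℝ) • uᴴ with hb1
  set b2 := (1 / 2 : ℝ) • (Complex.I • u) + (1 / 2 : ℝ) • ((-Complex.I) • uᴴ) with hb2
  have hb1H : b1ᴴ = b1 := by
    rw [hb1, Matrix.conjTranspose_add, Matrix.conjTranspose_smul, Matrix.conjTranspose_smul,
      star_trivial, Matrix.conjTranspose_conjTranspose]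
    abel
  have hb2H : b2ᴴ = b2 := by
    rw [hb2, Matrix.conjTranspose_add, Matrix.conjTranspose_smul, Matrix.conjTranspose_smul,
      star_trivial, Matrix.conjTranspose_smul, Matrix.conjTranspose_smul,
      Matrix.conjTranspose_conjTranspose]
    simp only [Complex.star_def, map_neg, Complex.conj_I, neg_neg]
    abel
  refine ⟨![b, b1, b2], ?_, ?_, ?_⟩
  · intro i
    fin_cases i
    · exact hb
    · exact hb1H
    · exact hb2H
  · intro i
    fin_cases i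
    · exact hbb
    · exact half_contr _ _ hu hu'
    · refine half_contr _ _ (hi _ ?_ _ hu) (hi _ ?_ _ hu')
      · simp
      · simp
  · show hs y = Fl b y + (Fl b1 (y + (μ : ℂ) • 1) - Fl b1 y
        - Fl b2 (y + (Complex.I * (μ : ℝ)) • 1) + Fl b2 y) / 2
    rw [Fl_shift hr y b1 htr hb1H, Fl_shift hr y b2 htr hb2H]
    have hu1 : uᴴ = b1 + Complex.I • b2 := by
      have e1 : Complex.I • b2 = -((1 / 2 : ℝ) • u) + (1 / 2 : ℝ) • uᴴ := by
        rw [hb2, smul_add, smul_comm Complex.I (1 / 2 : ℝ), smul_comm Complex.I (1 / 2 : ℝ),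
          smul_smul, smul_smul]
        simp
      rw [e1, hb1]
      have e2 : (1 / 2 : ℝ) • uᴴ + (1 / 2 : ℝ) • uᴴ = uᴴ := by
        rw [← add_smul]; norm_num
      nth_rewrite 1 [← e2]
      abel
    have e3 : rtr (uᴴ * y) = rtr (b1 * y) - itr (b2 * y) := by
      rw [hu1, Matrix.add_mul, rtr_add, Matrix.smul_mul]
      unfold rtr itr
      rw [Matrix.trace_smul, smul_eq_mul, Complex.I_mul_re]
      ring
    have e4 : rtr (star (μ : ℂ) • (b1 * y)) = μ * rtr (b1 * y) := by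
      unfold rtr
      rw [Matrix.trace_smul, Complex.star_def, Complex.conj_ofReal, smul_eq_mul,
        Complex.re_ofReal_mul]
    have e5 : rtr (star (Complex.I * (μ : ℂ)) • (b2 * y)) = μ * itr (b2 * y) := by
      unfold rtr itr
      rw [Matrix.trace_smul, Complex.star_def, map_mul, Complex.conj_ofReal, Complex.conj_I,
        smul_eq_mul]
      simp
    have e6 : Fl b y = rtr (b * (yᴴ * y)) - μ ^ 2 * rtr b := by
      rw [Fl, hμ2]
    rw [e4, e5, e6]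
    rw [e3] at hF
    linarith

end Pool.Agent.H51K.Asm
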