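import Pool.Agent.H51K.AsmTransfer

/-!
Block systems built from an approximate decomposition.
-/

set_option autoImplicit false
set_option linter.unusedSectionVars false
open Matrix
open scoped ComplexOrder MatrixOrder

namespace Pool.Agent.H51K.Asm

/-- members of the class `q` -/
abbrev II {J : ℕ} (J' : Finset (Fin J)) (c : Fin J → Fin J) (q : Fin J) : Type :=
  {i : Fin J // i ∈ J' ∧ c i = q}

/-- parametrisation of `Σ q, II q` -/
def II_equiv {J : ℕ} (J' : Finset (Fin J)) (c : Fin J → Fin J) :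
    (Σ q, II J' c q) ≃ {j : Fin J // j ∈ J'} where
  toFun p := ⟨p.2.1, p.2.2.1⟩
  invFun x := ⟨c x.1, ⟨x.1, x.2, rfl⟩⟩
  left_inv := by
    rintro ⟨q, i, hi, rfl⟩
    rfl
  right_inv := by
    rintro ⟨x, hx⟩
    rfl

theorem sum_II {J : ℕ} (J' : Finset (Fin J)) (c : Fin J → Fin J) {A : Type*} [AddCommMonoid A]
    (F : (Σ q, II J' c q) → A) :
    ∑ p, F p = ∑ j : Fin J, if h : j ∈ J' then F ⟨c j, ⟨j, h, rfl⟩⟩ else 0 := by
  rw [← (II_equiv J' c).symm.sum_comp F]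
  set H : Fin J → A := fun j => if h : j ∈ J' then F ⟨c j, ⟨j, h, rfl⟩⟩ else 0 with hH
  have h1 : ∀ x : {j : Fin J // j ∈ J'}, F ((II_equiv J' c).symm x) = H x.1 := by
    rintro ⟨x, hx⟩
    simp only [hH, dif_pos hx]
    rfl
  simp only [h1]
  rw [Finset.sum_coe_sort J' H]
  refine Finset.sum_subset (Finset.subset_univ _) fun j _ hj => ?_
  simp only [hH, dif_neg hj]

theorem sum_II' {J : ℕ} (J' : Finset (Fin J)) (c : Fin J → Fin J) {A : Type*} [AddCommMonoid A]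
    (f : Fin J → A) : ∑ p : (Σ q, II J' c q), f p.2.1 = ∑ j ∈ J', f j := by
  rw [sum_II]
  have : ∀ j : Fin J, (if h : j ∈ J' then f j else 0) = if j ∈ J' then f j else 0 := fun j => by
    split_ifs <;> rfl
  simp only [this]
  rw [Finset.sum_ite_mem, Finset.univ_inter]

section
variable {S : Type} [Fintype S] {d : ℕ} {g : S → Matrix (Fin d) (Fin d) ℂ} {εf tf ε₂ : ℝ}

/-- near-unitary near-intertwiners from representatives -/
structure Sys (D : Dec g εf tf ε₂) (J' : Finset (Fin D.J)) (c : Fin D.J → Fin D.J)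
    (δ η : ℝ) where
  /-- the near-intertwiners -/
  u : ∀ p : (Σ q, II J' c q), Matrix (Fin (D.r p.2.1)) (Fin (D.r p.1)) ℂ
  u_contr : ∀ p, (u p)ᴴ * u p ≤ 1
  u_hs : ∀ p, (1 - δ) * max (D.r p.1 : ℝ) (D.r p.2.1) ≤ hs (u p)
  u_en : ∀ p, EnR (D.W p.2.1) (D.W p.1) (u p) ≤ η * max (D.r p.1 : ℝ) (D.r p.2.1)

theorem exists_sys (D : Dec g εf tf ε₂) (J' : Finset (Fin D.J)) (c : Fin D.J → Fin D.J)
    (δ η : ℝ) (h : ∀ i ∈ J', Near δ η (D.W (c i)) (D.W i)) : Nonempty (Sys D J' c δ η) := by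
  have : ∀ p : (Σ q, II J' c q), ∃ u : Matrix (Fin (D.r p.2.1)) (Fin (D.r p.1)) ℂ,
      uᴴ * u ≤ 1 ∧ (1 - δ) * max (D.r p.1 : ℝ) (D.r p.2.1) ≤ hs u ∧
      EnR (D.W p.2.1) (D.W p.1) u ≤ η * max (D.r p.1 : ℝ) (D.r p.2.1) := by
    rintro ⟨q, i, hi, rfl⟩
    exact h i hi
  choose u h1 h2 h3 using this
  exact ⟨⟨u, h1, h2, h3⟩⟩

variable {D : Dec g εf tf ε₂} {J' : Finset (Fin D.J)} {c : Fin D.J → Fin D.J} {δ η : ℝ}

/-- the map of the block system into `ℂ^d` -/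
noncomputable def Sys.U (Y : Sys D J' c δ η) : Matrix (Fin d) (BM (II J' c) D.r) ℂ :=
  ∑ p : (Σ q, II J' c q), D.v p.2.1 * Y.u p * (EE (II J' c) D.r p)ᴴ

theorem Sys.U_EE (Y : Sys D J' c δ η) (p : Σ q, II J' c q) :
    Y.U * EE (II J' c) D.r p = D.v p.2.1 * Y.u p := by
  rw [Sys.U, Matrix.sum_mul, Finset.sum_eq_single p]
  · rw [Matrix.mul_assoc, EE_orth, Matrix.mul_one]
  · intro p' _ hp'
    rw [Matrix.mul_assoc, EE_ne hp'.symm, Matrix.mul_zero]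
  · intro h
    exact absurd (Finset.mem_univ _) h

/-- sizes -/
noncomputable def Sys.N (_Y : Sys D J' c δ η) (p : Σ q, II J' c q) : ℝ :=
  max (D.r p.1 : ℝ) (D.r p.2.1)

theorem Sys.hs_u_le (Y : Sys D J' c δ η) (p : Σ q, II J' c q) : hs (Y.u p) ≤ D.r p.2.1 := by
  have := rtr_mono (swap_contr (Y.u_contr p))
  rw [rtr_one, Fintype.card_fin, ← hs_eq'] at this
  exact this

theorem Sys.hs_u_le' (Y : Sys D J' c δ η) (p : Σ q, II J' c q) : hs (Y.u p) ≤ D.r p.1 := by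
  have := rtr_mono (Y.u_contr p)
  rw [rtr_one, Fintype.card_fin] at this
  exact this

theorem dec_sum_r_le (D : Dec g εf tf ε₂) (hε : ε₂ ≤ 1) : ∑ j, (D.r j : ℝ) ≤ 2 * d := by
  have h := (abs_le.1 D.r_sum).2
  have hd : (0 : ℝ) ≤ d := Nat.cast_nonneg _
  have : ε₂ * d ≤ 1 * d := mul_le_mul_of_nonneg_right hε hd
  linarith

theorem Sys.sum_N (Y : Sys D J' c δ η) (hδ : δ ≤ 1 / 2) (hε : ε₂ ≤ 1) :
    ∑ p, Y.N p ≤ 4 * d := by
  have h1 : ∀ p, Y.N p ≤ 2 * D.r p.2.1 := by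
    intro p
    have h2 := (Y.u_hs p).trans (Y.hs_u_le p)
    have h3 : 0 ≤ max (D.r p.1 : ℝ) (D.r p.2.1) := le_max_of_le_left (Nat.cast_nonneg _)
    have h4 : (1 / 2) * max (D.r p.1 : ℝ) (D.r p.2.1) ≤ (1 - δ) * max (D.r p.1 : ℝ) (D.r p.2.1) :=
      mul_le_mul_of_nonneg_right (by linarith) h3
    show max (D.r p.1 : ℝ) (D.r p.2.1) ≤ _
    linarith
  calc ∑ p, Y.N p ≤ ∑ p : (Σ q, II J' c q), 2 * (D.r p.2.1 : ℝ) :=
        Finset.sum_le_sum fun p _ => h1 p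
    _ = 2 * ∑ j ∈ J', (D.r j : ℝ) := by
        rw [← Finset.mul_sum, sum_II' J' c (fun j => (D.r j : ℝ))]
    _ ≤ 2 * ∑ j, (D.r j : ℝ) := by
        refine mul_le_mul_of_nonneg_left ?_ (by norm_num)
        exact Finset.sum_le_univ_sum_of_nonneg fun j => Nat.cast_nonneg _
    _ ≤ 4 * d := by have := dec_sum_r_le D hε; linarith

theorem Sys.sum_def (Y : Sys D J' c δ η) (hδ0 : 0 ≤ δ) (hδ : δ ≤ 1 / 2) (hε : ε₂ ≤ 1) :
    ∑ p : (Σ q, II J' c q), ((D.r p.2.1 : ℝ) - hs (Y.u p)) ≤ 4 * δ * d := by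
  have h1 : ∀ p : (Σ q, II J' c q), ((D.r p.2.1 : ℝ) - hs (Y.u p)) ≤ δ * Y.N p := by
    intro p
    have h2 := Y.u_hs p
    have h3 : (D.r p.2.1 : ℝ) ≤ max (D.r p.1 : ℝ) (D.r p.2.1) := le_max_right _ _
    show _ ≤ δ * max (D.r p.1 : ℝ) (D.r p.2.1)
    linarith
  calc ∑ p : (Σ q, II J' c q), ((D.r p.2.1 : ℝ) - hs (Y.u p)) ≤ ∑ p, δ * Y.N p :=
        Finset.sum_le_sum fun p _ => h1 p
    _ = δ * ∑ p, Y.N p := by rw [Finset.mul_sum]
    _ ≤ δ * (4 * d) := mul_le_mul_of_nonneg_left (Y.sum_N hδ hε) hδ0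
    _ = 4 * δ * d := by ring

theorem Sys.card_le (Y : Sys D J' c δ η) (hδ0 : 0 ≤ δ) (hδ : δ ≤ 1 / 2) (hε : ε₂ ≤ 1) :
    |(Fintype.card (BM (II J' c) D.r) : ℝ) - d| ≤
      4 * δ * d + (∑ j, if j ∈ J' then 0 else (D.r j : ℝ)) + ε₂ * d := by
  have h0 : (Fintype.card (BM (II J' c) D.r) : ℝ) = ∑ p : (Σ q, II J' c q), (D.r p.1 : ℝ) := by
    rw [Fintype.card_sigma, Fintype.sum_sigma]
    push_cast
    refine Finset.sum_congr rfl fun q _ => ?_
    rw [Fintype.card_prod, Fintype.card_fin, Finset.sum_const, Finset.card_univ, nsmul_eq_mul]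
    push_cast
    rfl
  have h1 : |∑ p : (Σ q, II J' c q), (D.r p.1 : ℝ) - ∑ p : (Σ q, II J' c q), (D.r p.2.1 : ℝ)| ≤
      4 * δ * d := by
    rw [← Finset.sum_sub_distrib]
    refine (Finset.abs_sum_le_sum_abs _ _).trans ?_
    have h2 : ∀ p : (Σ q, II J' c q), |(D.r p.1 : ℝ) - D.r p.2.1| ≤ δ * Y.N p := by
      intro p
      have h3 := (Y.u_hs p).trans (Y.hs_u_le p)
      have h4 := (Y.u_hs p).trans (Y.hs_u_le' p)
      have h5 : (D.r p.2.1 : ℝ) ≤ max (D.r p.1 : ℝ) (D.r p.2.1) := le_max_right _ _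
      have h6 : (D.r p.1 : ℝ) ≤ max (D.r p.1 : ℝ) (D.r p.2.1) := le_max_left _ _
      show _ ≤ δ * max (D.r p.1 : ℝ) (D.r p.2.1)
      rw [abs_le]
      constructor <;> linarith
    calc ∑ p : (Σ q, II J' c q), |(D.r p.1 : ℝ) - D.r p.2.1| ≤ ∑ p, δ * Y.N p :=
          Finset.sum_le_sum fun p _ => h2 p
      _ = δ * ∑ p, Y.N p := by rw [Finset.mul_sum]
      _ ≤ δ * (4 * d) := mul_le_mul_of_nonneg_left (Y.sum_N hδ hε) hδ0
      _ = 4 * δ * d := by ring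
  have h2 : ∑ p : (Σ q, II J' c q), (D.r p.2.1 : ℝ) =
      ∑ j, (D.r j : ℝ) - ∑ j, (if j ∈ J' then 0 else (D.r j : ℝ)) := by
    rw [sum_II' J' c (fun j => (D.r j : ℝ)), ← Finset.sum_sub_distrib]
    have : ∀ j : Fin D.J, (D.r j : ℝ) - (if j ∈ J' then 0 else (D.r j : ℝ)) =
        if j ∈ J' then (D.r j : ℝ) else 0 := by
      intro j; split_ifs <;> simp
    simp only [this]
    rw [Finset.sum_ite_mem, Finset.univ_inter]
  have h3 : 0 ≤ ∑ j, (if j ∈ J' then 0 else (D.r j : ℝ)) := by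
    refine Finset.sum_nonneg fun j _ => ?_
    split_ifs
    · exact le_rfl
    · exact Nat.cast_nonneg _
  have h4 := abs_le.1 D.r_sum
  rw [h0]
  rw [h2] at h1
  have h5 := abs_le.1 h1
  rw [abs_le]
  constructor <;> linarith [h4.1, h4.2, h5.1, h5.2]

theorem Sys.energy (Y : Sys D J' c δ η) (hη : 0 ≤ η) (hδ : δ ≤ 1 / 2) (hε : ε₂ ≤ 1) :
    EnR g (BW (II J' c) D.r D.W) Y.U ≤ (2 * ε₂ + 8 * η) * d := by
  have h1 : ∀ s (p : Σ q, II J' c q),
      hs ((g s * Y.U - Y.U * BW (II J' c) D.r D.W s) * EE (II J' c) D.r p) ≤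
      2 * hs (g s * D.v p.2.1 - D.v p.2.1 * D.W p.2.1 s) +
      2 * hs (D.W p.2.1 s * Y.u p - Y.u p * D.W p.1 s) := by
    intro s p
    have e1 : (g s * Y.U - Y.U * BW (II J' c) D.r D.W s) * EE (II J' c) D.r p =
        (g s * D.v p.2.1 - D.v p.2.1 * D.W p.2.1 s) * Y.u p +
        D.v p.2.1 * (D.W p.2.1 s * Y.u p - Y.u p * D.W p.1 s) := by
      rw [Matrix.sub_mul, Matrix.mul_assoc, Y.U_EE, Matrix.mul_assoc Y.U, BW_mul_EE,
        ← Matrix.mul_assoc Y.U, Y.U_EE]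
      simp only [Matrix.mul_sub, Matrix.sub_mul, Matrix.mul_assoc]
      abel
    rw [e1]
    have h2 := hs_add_le ((g s * D.v p.2.1 - D.v p.2.1 * D.W p.2.1 s) * Y.u p)
      (D.v p.2.1 * (D.W p.2.1 s * Y.u p - Y.u p * D.W p.1 s))
    have h3 := hs_mul_le' (κ := 1) (by rw [one_smul]; exact swap_contr (Y.u_contr p))
      (g s * D.v p.2.1 - D.v p.2.1 * D.W p.2.1 s)
    have h4 := hs_mul_le (κ := 1) (by rw [one_smul]; exact D.v_contr p.2.1)
      (D.W p.2.1 s * Y.u p - Y.u p * D.W p.1 s)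
    linarith
  have h5 : ∑ j ∈ J', EnR g (D.W j) (D.v j) ≤ ε₂ * d :=
    (Finset.sum_le_univ_sum_of_nonneg fun j => EnR_nonneg _ _ _).trans D.energy
  have h6 : ∑ p : (Σ q, II J' c q), EnR (D.W p.2.1) (D.W p.1) (Y.u p) ≤ η * (4 * d) := by
    calc ∑ p : (Σ q, II J' c q), EnR (D.W p.2.1) (D.W p.1) (Y.u p) ≤ ∑ p, η * Y.N p :=
          Finset.sum_le_sum fun p _ => Y.u_en p
      _ = η * ∑ p, Y.N p := by rw [Finset.mul_sum]
      _ ≤ η * (4 * d) := mul_le_mul_of_nonneg_left (Y.sum_N hδ hε) hη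
  calc EnR g (BW (II J' c) D.r D.W) Y.U
      = ∑ s, ∑ p : (Σ q, II J' c q),
          hs ((g s * Y.U - Y.U * BW (II J' c) D.r D.W s) * EE (II J' c) D.r p) := by
        unfold EnR
        exact Finset.sum_congr rfl fun s _ => hs_cols _
    _ ≤ ∑ s, ∑ p : (Σ q, II J' c q), (2 * hs (g s * D.v p.2.1 - D.v p.2.1 * D.W p.2.1 s) +
      2 * hs (D.W p.2.1 s * Y.u p - Y.u p * D.W p.1 s)) :=
        Finset.sum_le_sum fun s _ => Finset.sum_le_sum fun p _ => h1 s p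
    _ = 2 * ∑ p : (Σ q, II J' c q), EnR g (D.W p.2.1) (D.v p.2.1) +
        2 * ∑ p : (Σ q, II J' c q), EnR (D.W p.2.1) (D.W p.1) (Y.u p) := by
        rw [Finset.sum_comm]
        simp only [Finset.sum_add_distrib, ← Finset.mul_sum]
        rfl
    _ ≤ 2 * (ε₂ * d) + 2 * (η * (4 * d)) := by
        rw [sum_II' J' c (fun j => EnR g (D.W j) (D.v j))]
        linarith
    _ = (2 * ε₂ + 8 * η) * d := by ring

theorem Sys.UU_eq (Y : Sys D J' c δ η) :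
    Y.U * Y.Uᴴ = ∑ p : (Σ q, II J' c q), (D.v p.2.1 * Y.u p) * (D.v p.2.1 * Y.u p)ᴴ := by
  have h1 : Y.U * Y.Uᴴ = Y.U * (∑ p : (Σ q, II J' c q), EE (II J' c) D.r p *
      (EE (II J' c) D.r p)ᴴ) * Y.Uᴴ := by rw [EE_sum, Matrix.mul_one]
  rw [h1, Matrix.mul_sum, Matrix.sum_mul]
  refine Finset.sum_congr rfl fun p _ => ?_
  rw [← Y.U_EE, Matrix.conjTranspose_mul]
  simp only [Matrix.mul_assoc]

theorem Sys.UU_le_sum (Y : Sys D J' c δ η) :
    Y.U * Y.Uᴴ ≤ ∑ j, D.v j * (D.v j)ᴴ := by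
  rw [Y.UU_eq]
  have h1 : ∀ p : (Σ q, II J' c q), (D.v p.2.1 * Y.u p) * (D.v p.2.1 * Y.u p)ᴴ ≤
      D.v p.2.1 * (D.v p.2.1)ᴴ := by
    intro p
    have := conj_mono' (swap_contr (Y.u_contr p)) (D.v p.2.1)
    rw [Matrix.mul_one] at this
    rw [Matrix.conjTranspose_mul]
    simpa only [Matrix.mul_assoc] using this
  calc ∑ p : (Σ q, II J' c q), (D.v p.2.1 * Y.u p) * (D.v p.2.1 * Y.u p)ᴴ
      ≤ ∑ p : (Σ q, II J' c q), D.v p.2.1 * (D.v p.2.1)ᴴ := Finset.sum_le_sum fun p _ => h1 p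
    _ = ∑ j ∈ J', D.v j * (D.v j)ᴴ := sum_II' J' c (fun j => D.v j * (D.v j)ᴴ)
    _ ≤ ∑ j, D.v j * (D.v j)ᴴ :=
        Finset.sum_le_univ_sum_of_nonneg fun j =>
          Matrix.nonneg_iff_posSemidef.2 (Matrix.posSemidef_self_mul_conjTranspose _)

theorem Sys.U_bound (Y : Sys D J' c δ η) :
    (Y.U)ᴴ * Y.U ≤ (2 : ℝ) • (1 : Matrix (BM (II J' c) D.r) (BM (II J' c) D.r) ℂ) := by
  have h1 : (Y.Uᴴ)ᴴ * Y.Uᴴ ≤ (2 : ℝ) • (1 : Matrix (Fin d) (Fin d) ℂ) := by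
    rw [Matrix.conjTranspose_conjTranspose]
    exact Y.UU_le_sum.trans D.v_sum
  have := swap_bound (by norm_num) h1
  rwa [Matrix.conjTranspose_conjTranspose] at this

theorem Sys.UU_near (Y : Sys D J' c δ η) (hδ0 : 0 ≤ δ) (hδ : δ ≤ 1 / 2) (hε : ε₂ ≤ 1) :
    hs (Y.U * Y.Uᴴ - 1) ≤
      (2 * ε₂ + 16 * δ) * d + 4 * (∑ j, if j ∈ J' then 0 else (D.r j : ℝ)) := by
  set B := ∑ j, D.v j * (D.v j)ᴴ - Y.U * Y.Uᴴ with hB
  have hBp : B.PosSemidef := Matrix.le_iff.1 Y.UU_le_sum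
  have hB2 : B ≤ (2 : ℝ) • (1 : Matrix (Fin d) (Fin d) ℂ) := by
    rw [Matrix.le_iff]
    have h1 := (Matrix.le_iff.1 D.v_sum).add (Matrix.posSemidef_self_mul_conjTranspose Y.U)
    exact psd_of_eq h1 (by rw [hB]; abel)
  have hBs : hs B ≤ 2 * rtr B := by
    have h1 := rtr_mul_mono hB2 hBp
    rw [Matrix.smul_mul, Matrix.one_mul, rtr_smul] at h1
    have h2 : hs B = rtr (B * B) := by
      unfold hs
      rw [hBp.1]
    rw [h2]
    exact h1
  have htr : rtr B ≤ (∑ j, if j ∈ J' then 0 else (D.r j : ℝ)) + 4 * δ * d := by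
    have h1 : rtr (∑ j, D.v j * (D.v j)ᴴ) = ∑ j, hs (D.v j) := by
      rw [rtr_sum]
      exact Finset.sum_congr rfl fun j _ => (hs_eq' _).symm
    have h2 : rtr (Y.U * Y.Uᴴ) = ∑ p : (Σ q, II J' c q), hs (D.v p.2.1 * Y.u p) := by
      rw [Y.UU_eq, rtr_sum]
      exact Finset.sum_congr rfl fun j _ => (hs_eq' _).symm
    have h3 : ∀ p : (Σ q, II J' c q), hs (D.v p.2.1) - hs (D.v p.2.1 * Y.u p) ≤
        (D.r p.2.1 : ℝ) - hs (Y.u p) := by
      intro p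
      have e1 : hs (Y.u p) - hs (D.v p.2.1 * Y.u p) =
          rtr ((Y.u p * (Y.u p)ᴴ) * (1 - (D.v p.2.1)ᴴ * D.v p.2.1)) := by
        have e2 : hs (D.v p.2.1 * Y.u p) =
            rtr ((Y.u p * (Y.u p)ᴴ) * ((D.v p.2.1)ᴴ * D.v p.2.1)) := by
          unfold hs
          rw [Matrix.conjTranspose_mul, Matrix.mul_assoc (Y.u p), rtr_mul_comm (Y.u p)]
          simp only [Matrix.mul_assoc]
        rw [Matrix.mul_sub, Matrix.mul_one, rtr_sub, e2, hs_eq']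
      have e3 := rtr_mul_mono (swap_contr (Y.u_contr p)) (Matrix.le_iff.1 (D.v_contr p.2.1))
      rw [Matrix.one_mul, ← e1, rtr_sub, rtr_one, Fintype.card_fin] at e3
      have e4 : rtr ((D.v p.2.1)ᴴ * D.v p.2.1) = hs (D.v p.2.1) := rfl
      rw [e4] at e3
      linarith
    have h4 : ∑ j, hs (D.v j) = ∑ p : (Σ q, II J' c q), hs (D.v p.2.1) +
        ∑ j, (if j ∈ J' then 0 else hs (D.v j)) := by
      rw [sum_II' J' c (fun j => hs (D.v j))]
      have : ∑ j ∈ J', hs (D.v j) = ∑ j, if j ∈ J' then hs (D.v j) else 0 := by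
        rw [Finset.sum_ite_mem, Finset.univ_inter]
      rw [this, ← Finset.sum_add_distrib]
      refine Finset.sum_congr rfl fun j _ => ?_
      split_ifs <;> simp
    have h5 : ∑ j, (if j ∈ J' then 0 else hs (D.v j)) ≤ ∑ j, if j ∈ J' then 0 else (D.r j : ℝ) := by
      refine Finset.sum_le_sum fun j _ => ?_
      split_ifs
      · exact le_rfl
      · have := rtr_mono (D.v_contr j)
        rw [rtr_one, Fintype.card_fin] at this
        exact this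
    have h6 := Y.sum_def hδ0 hδ hε
    have h7 : ∑ p : (Σ q, II J' c q), (hs (D.v p.2.1) - hs (D.v p.2.1 * Y.u p)) ≤
        ∑ p : (Σ q, II J' c q), ((D.r p.2.1 : ℝ) - hs (Y.u p)) :=
      Finset.sum_le_sum fun p _ => h3 p
    rw [Finset.sum_sub_distrib] at h7
    rw [hB, rtr_sub, h1, h2, h4]
    linarith
  have e1 : Y.U * Y.Uᴴ - 1 = (∑ j, D.v j * (D.v j)ᴴ - 1) - B := by
    rw [hB]; abel
  have h8 := hs_sub_le (∑ j, D.v j * (D.v j)ᴴ - 1) B
  have h9 := D.v_hs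
  rw [e1]
  linarith

theorem hs_sub_one {k : Type*} [Fintype k] [DecidableEq k] (A : Matrix k k ℂ) (hA : Aᴴ = A) :
    hs (A - 1) = rtr (A * A) - 2 * rtr A + Fintype.card k := by
  unfold hs
  rw [Matrix.conjTranspose_sub, Matrix.conjTranspose_one, hA]
  have : (A - 1) * (A - 1) = A * A - A - A + 1 := by noncomm_ring
  rw [this, rtr_add, rtr_sub, rtr_sub, rtr_one]
  ring

theorem hs_swap {m n : Type*} [Fintype m] [Fintype n] [DecidableEq m] [DecidableEq n]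
    (U : Matrix m n ℂ) :
    hs (Uᴴ * U - 1) = hs (U * Uᴴ - 1) + Fintype.card n - Fintype.card m := by
  have hA1 : (Uᴴ * U)ᴴ = Uᴴ * U := by
    rw [Matrix.conjTranspose_mul, Matrix.conjTranspose_conjTranspose]
  have hA2 : (U * Uᴴ)ᴴ = U * Uᴴ := by
    rw [Matrix.conjTranspose_mul, Matrix.conjTranspose_conjTranspose]
  rw [hs_sub_one _ hA1, hs_sub_one _ hA2, rtr_mul_comm Uᴴ U]
  have : rtr (Uᴴ * U * (Uᴴ * U)) = rtr (U * Uᴴ * (U * Uᴴ)) := by
    rw [Matrix.mul_assoc, rtr_mul_comm]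
    simp only [Matrix.mul_assoc]
  rw [this]
  ring

/-- flatness of the block system -/
theorem Sys.flatP (Y : Sys D J' c δ η) (hδ0 : 0 ≤ δ) (hδ : δ ≤ 1 / 2) (hη : 0 ≤ η) (hε : ε₂ ≤ 1)
    {κ e lam : ℝ} (hκ : 0 < κ) (hlam : 0 < lam) (he : 2 * e / κ + 8 * η * d ≤ tf * d) :
    FlatP (II J' c) D.r D.W κ e (κ * (εf + 4 * (lam + δ / lam + 3 * δ)) * d) := by
  intro y b hb hbb hy hE
  set ν : ℝ := (Real.sqrt κ)⁻¹ with hν
  have hν2 : ν * ν = κ⁻¹ := by rw [hν, ← mul_inv, Real.mul_self_sqrt hκ.le]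
  have huu : ∀ p : (Σ q, II J' c q), (Y.u p) * (Y.u p)ᴴ ≤ 1 := fun p => swap_contr (Y.u_contr p)
  -- the transferred families
  set ty : ∀ p p' : (Σ q, II J' c q), Matrix (Fin (D.r p'.1)) (Fin (D.r p.2.1)) ℂ :=
    fun p p' => ν • (y p p' * (Y.u p)ᴴ) with hty
  set tb : ∀ p _p' : (Σ q, II J' c q), Matrix (Fin (D.r p.2.1)) (Fin (D.r p.2.1)) ℂ :=
    fun p p' => Y.u p * b p p' * (Y.u p)ᴴ with htb
  have htb1 : ∀ p p', (tb p p')ᴴ = tb p p' := by
    intro p p'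
    simp only [htb, Matrix.conjTranspose_mul, Matrix.conjTranspose_conjTranspose, hb p p',
      Matrix.mul_assoc]
  have htb2 : ∀ p p', (tb p p')ᴴ * tb p p' ≤ 1 := by
    intro p p'
    have e1 : (tb p p')ᴴ * tb p p' =
        Y.u p * ((b p p')ᴴ * ((Y.u p)ᴴ * Y.u p) * b p p') * (Y.u p)ᴴ := by
      simp only [htb, Matrix.conjTranspose_mul, Matrix.conjTranspose_conjTranspose,
        Matrix.mul_assoc]
    have e2 : (b p p')ᴴ * ((Y.u p)ᴴ * Y.u p) * b p p' ≤ 1 := by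
      have h1 := conj_mono (Y.u_contr p) (b p p')
      rw [Matrix.mul_one] at h1
      exact h1.trans (hbb p p')
    have e3 := conj_mono' e2 (Y.u p)
    rw [Matrix.mul_one] at e3
    rw [e1]
    exact e3.trans (huu p)
  have hty1 : ∀ p, ∑ p', (ty p p')ᴴ * ty p p' ≤ 1 := by
    intro p
    have e1 : ∀ p', (ty p p')ᴴ * ty p p' = κ⁻¹ • (Y.u p * ((y p p')ᴴ * y p p') * (Y.u p)ᴴ) := by
      intro p'
      simp only [hty, Matrix.conjTranspose_smul, star_trivial, Matrix.conjTranspose_mul,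
        Matrix.conjTranspose_conjTranspose, Matrix.smul_mul, Matrix.mul_smul, smul_smul, hν2,
        Matrix.mul_assoc]
    simp only [e1]
    rw [← Finset.smul_sum, ← Matrix.sum_mul, ← Matrix.mul_sum]
    have e2 := conj_mono' (hy p) (Y.u p)
    rw [Matrix.mul_smul, Matrix.smul_mul, Matrix.mul_one] at e2
    have e3 : Y.u p * (∑ p', (y p p')ᴴ * y p p') * (Y.u p)ᴴ ≤
        κ • (1 : Matrix (Fin (D.r p.2.1)) (Fin (D.r p.2.1)) ℂ) := by
      refine e2.trans ?_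
      have := (Matrix.le_iff.1 (huu p)).smul hκ.le
      rw [Matrix.le_iff]
      rwa [smul_sub] at this
    exact smul_le_one_iff hκ e3
  have hty2 : ∑ p, ∑ p', EnR (D.W p'.1) (D.W p.2.1) (ty p p') ≤ tf * d := by
    have e1 : ∀ p p', EnR (D.W p'.1) (D.W p.2.1) (ty p p') ≤
        κ⁻¹ * (2 * EnR (D.W p'.1) (D.W p.1) (y p p') +
          2 * ∑ s, hs (y p p' * (D.W p.1 s * (Y.u p)ᴴ - (Y.u p)ᴴ * D.W p.2.1 s))) := by
      intro p p'
      unfold EnR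
      rw [Finset.mul_sum, Finset.mul_sum, ← Finset.sum_add_distrib, Finset.mul_sum]
      refine Finset.sum_le_sum fun s _ => ?_
      have e2 : D.W p'.1 s * ty p p' - ty p p' * D.W p.2.1 s =
          ν • ((D.W p'.1 s * y p p' - y p p' * D.W p.1 s) * (Y.u p)ᴴ +
            y p p' * (D.W p.1 s * (Y.u p)ᴴ - (Y.u p)ᴴ * D.W p.2.1 s)) := by
        simp only [hty, Matrix.smul_mul, Matrix.mul_smul, ← smul_sub]
        congr 1
        simp only [Matrix.mul_sub, Matrix.sub_mul, Matrix.mul_assoc]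
        abel
      rw [e2, hs_smul, sq, hν2]
      refine mul_le_mul_of_nonneg_left ?_ (inv_nonneg.2 hκ.le)
      have h2 := hs_add_le ((D.W p'.1 s * y p p' - y p p' * D.W p.1 s) * (Y.u p)ᴴ)
        (y p p' * (D.W p.1 s * (Y.u p)ᴴ - (Y.u p)ᴴ * D.W p.2.1 s))
      have h3 := hs_mul_le' (κ := 1) (B := (Y.u p)ᴴ)
        (by rw [one_smul, Matrix.conjTranspose_conjTranspose]; exact Y.u_contr p)
        (D.W p'.1 s * y p p' - y p p' * D.W p.1 s)
      linarith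
    have e3 : ∀ p, ∑ p', ∑ s, hs (y p p' * (D.W p.1 s * (Y.u p)ᴴ - (Y.u p)ᴴ * D.W p.2.1 s)) ≤
        κ * (η * Y.N p) := by
      intro p
      rw [Finset.sum_comm]
      have e4 : ∀ s, ∑ p', hs (y p p' * (D.W p.1 s * (Y.u p)ᴴ - (Y.u p)ᴴ * D.W p.2.1 s)) ≤
          κ * hs (D.W p.1 s * (Y.u p)ᴴ - (Y.u p)ᴴ * D.W p.2.1 s) := by
        intro s
        set X := D.W p.1 s * (Y.u p)ᴴ - (Y.u p)ᴴ * D.W p.2.1 s with hX
        have e5 : ∀ p', hs (y p p' * X) = rtr (Xᴴ * ((y p p')ᴴ * y p p') * X) := by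
          intro p'
          unfold hs
          rw [Matrix.conjTranspose_mul]
          simp only [Matrix.mul_assoc]
        simp only [e5]
        rw [← rtr_sum, ← Matrix.sum_mul, ← Matrix.mul_sum]
        have e6 := rtr_mono (conj_mono (hy p) X)
        rw [Matrix.mul_smul, Matrix.smul_mul, Matrix.mul_one, rtr_smul] at e6
        exact e6
      calc ∑ s, ∑ p', hs (y p p' * (D.W p.1 s * (Y.u p)ᴴ - (Y.u p)ᴴ * D.W p.2.1 s))
          ≤ ∑ s, κ * hs (D.W p.1 s * (Y.u p)ᴴ - (Y.u p)ᴴ * D.W p.2.1 s) :=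
            Finset.sum_le_sum fun s _ => e4 s
        _ = κ * EnR (D.W p.1) (D.W p.2.1) (Y.u p)ᴴ := by rw [← Finset.mul_sum]; rfl
        _ = κ * EnR (D.W p.2.1) (D.W p.1) (Y.u p) := by
            rw [EnR_adj (D.W_unitary p.2.1) (D.W_unitary p.1)]
        _ ≤ κ * (η * Y.N p) := mul_le_mul_of_nonneg_left (Y.u_en p) hκ.le
    calc ∑ p, ∑ p', EnR (D.W p'.1) (D.W p.2.1) (ty p p')
        ≤ ∑ p, ∑ p', κ⁻¹ * (2 * EnR (D.W p'.1) (D.W p.1) (y p p') +
          2 * ∑ s, hs (y p p' * (D.W p.1 s * (Y.u p)ᴴ - (Y.u p)ᴴ * D.W p.2.1 s))) :=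
          Finset.sum_le_sum fun p _ => Finset.sum_le_sum fun p' _ => e1 p p'
      _ = κ⁻¹ * (2 * ∑ p, ∑ p', EnR (D.W p'.1) (D.W p.1) (y p p') +
          2 * ∑ p, ∑ p', ∑ s, hs (y p p' * (D.W p.1 s * (Y.u p)ᴴ - (Y.u p)ᴴ * D.W p.2.1 s))) := by
          simp only [← Finset.mul_sum, Finset.sum_add_distrib]
      _ ≤ κ⁻¹ * (2 * e + 2 * (κ * (η * (4 * d)))) := by
          refine mul_le_mul_of_nonneg_left ?_ (inv_nonneg.2 hκ.le)
          have e7 : ∑ p, ∑ p', ∑ s, hs (y p p' * (D.W p.1 s * (Y.u p)ᴴ -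
              (Y.u p)ᴴ * D.W p.2.1 s)) ≤ κ * (η * (4 * d)) := by
            calc _ ≤ ∑ p, κ * (η * Y.N p) := Finset.sum_le_sum fun p _ => e3 p
              _ = κ * (η * ∑ p, Y.N p) := by rw [← Finset.mul_sum, ← Finset.mul_sum]
              _ ≤ κ * (η * (4 * d)) :=
                mul_le_mul_of_nonneg_left (mul_le_mul_of_nonneg_left (Y.sum_N hδ hε) hη) hκ.le
          linarith
      _ = 2 * e / κ + 8 * η * d := by field_simp; ring
      _ ≤ tf * d := he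
  -- apply the flatness of the decomposition
  have key := D.flat (Σ q, II J' c q) (fun _ a => Fin (D.r a.1)) (fun _ a => D.W a.1)
    (fun j a => if h : j ∈ J' then ty ⟨c j, ⟨j, h, rfl⟩⟩ a else 0)
    (fun j a => if h : j ∈ J' then tb ⟨c j, ⟨j, h, rfl⟩⟩ a else 0)
    (fun _ a s => D.W_unitary a.1 s)
    (fun j a => by
      split_ifs with h
      · exact htb1 ⟨c j, ⟨j, h, rfl⟩⟩ a
      · exact Matrix.conjTranspose_zero)
    (fun j a => by
      split_ifs with h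
      · exact htb2 ⟨c j, ⟨j, h, rfl⟩⟩ a
      · simp)
    (fun j => by
      by_cases h : j ∈ J'
      · simp only [dif_pos h]
        exact hty1 ⟨c j, ⟨j, h, rfl⟩⟩
      · simp only [dif_neg h]
        simp)
    (by
      have e1 : ∀ j, ∑ a : (Σ q, II J' c q), EnR (D.W a.1) (D.W j)
          (if h : j ∈ J' then ty ⟨c j, ⟨j, h, rfl⟩⟩ a else 0) =
          if h : j ∈ J' then ∑ a : (Σ q, II J' c q), EnR (D.W a.1) (D.W j)
            (ty ⟨c j, ⟨j, h, rfl⟩⟩ a) else 0 := by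
        intro j
        split_ifs with h
        · rfl
        · refine Finset.sum_eq_zero fun a _ => ?_
          unfold EnR
          simp [hs_zero]
      simp only [e1]
      have e2 := sum_II J' c (fun p => ∑ a : (Σ q, II J' c q), EnR (D.W a.1) (D.W p.2.1) (ty p a))
      rw [e2] at hty2
      exact hty2)
  have hfin : ∑ p, ∑ p', Fl (tb p p') (ty p p') ≤ εf * d := by
    rw [sum_II J' c]
    refine le_trans (le_of_eq ?_) key
    refine Finset.sum_congr rfl fun j _ => ?_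
    split_ifs with h
    · rfl
    · symm
      refine Finset.sum_eq_zero fun a _ => ?_
      simp [rtr_zero]
  -- compare
  have hcmp : ∀ p, ∑ p', Fl (b p p') (y p p') ≤ κ * ∑ p', Fl (tb p p') (ty p p') +
      κ * Y.N p * (lam + δ / lam + 3 * δ) := by
    intro p
    have h1 := Fl_transfer_sum (D.r_pos p.1) (D.r_pos p.2.1) (Y.u_contr p) hlam hδ0 hκ.le
      (Y.u_hs p) (fun p' => y p p') (hy p) (fun p' => b p p') (fun p' => hb p p')
      (fun p' => hbb p p')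
    have h2 : ∀ p', Fl (Y.u p * b p p' * (Y.u p)ᴴ) (y p p' * (Y.u p)ᴴ) =
        κ * Fl (tb p p') (ty p p') := by
      intro p'
      have h3 : Fl (tb p p') (ty p p') =
          (ν * ν) * Fl (Y.u p * b p p' * (Y.u p)ᴴ) (y p p' * (Y.u p)ᴴ) := by
        simp only [Fl, hty, htb, hs_smul, Matrix.conjTranspose_smul, star_trivial,
          Matrix.smul_mul, Matrix.mul_smul, smul_smul, rtr_smul]
        ring
      rw [h3, hν2]
      field_simp
    simp only [h2] at h1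
    rw [← Finset.mul_sum] at h1
    exact h1
  calc ∑ p, ∑ p', Fl (b p p') (y p p') ≤ ∑ p, (κ * ∑ p', Fl (tb p p') (ty p p') +
      κ * Y.N p * (lam + δ / lam + 3 * δ)) := Finset.sum_le_sum fun p _ => hcmp p
    _ = κ * ∑ p, ∑ p', Fl (tb p p') (ty p p') +
        κ * (∑ p, Y.N p) * (lam + δ / lam + 3 * δ) := by
      rw [Finset.sum_add_distrib, ← Finset.mul_sum, ← Finset.sum_mul, ← Finset.mul_sum]
    _ ≤ κ * (εf * d) + κ * (4 * d) * (lam + δ / lam + 3 * δ) := by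
      refine add_le_add (mul_le_mul_of_nonneg_left hfin hκ.le)
        (mul_le_mul_of_nonneg_right (mul_le_mul_of_nonneg_left (Y.sum_N hδ hε) hκ.le) ?_)
      positivity
    _ = κ * (εf + 4 * (lam + δ / lam + 3 * δ)) * d := by ring

end

end Pool.Agent.H51K.Asm
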