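import Pool.Agent.H51K.Iface

/-!
Tools for the assembly part: convexity, unitary invariance, Cayley transform.
-/

set_option autoImplicit false
set_option linter.unusedSectionVars false
open Matrix
open scoped ComplexOrder MatrixOrder

namespace Pool.Agent.H51K.Asm

variable {m n l k : Type*} [Fintype m] [Fintype n] [Fintype l] [Fintype k]

theorem hs_unitary_mul [DecidableEq m] {g : Matrix m m ℂ} (hg : g ∈ Matrix.unitaryGroup m ℂ)
    (A : Matrix m n ℂ) : hs (g * A) = hs A := by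
  have h : gᴴ * g = 1 := (Matrix.mem_unitaryGroup_iff'.1 hg)
  unfold hs
  rw [Matrix.conjTranspose_mul, Matrix.mul_assoc, ← Matrix.mul_assoc gᴴ, h, Matrix.one_mul]

theorem hs_mul_unitary [DecidableEq n] {g : Matrix n n ℂ} (hg : g ∈ Matrix.unitaryGroup n ℂ)
    (A : Matrix m n ℂ) : hs (A * g) = hs A := by
  have h : g * gᴴ = 1 := (Matrix.mem_unitaryGroup_iff.1 hg)
  rw [hs_eq', hs_eq', Matrix.conjTranspose_mul, Matrix.mul_assoc, ← Matrix.mul_assoc g, h,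
    Matrix.one_mul]

theorem EnR_nonneg {S : Type} [Fintype S] {n l : Type*} [Fintype n] [Fintype l]
    (g' : S → Matrix l l ℂ) (g : S → Matrix n n ℂ) (y : Matrix l n ℂ) : 0 ≤ EnR g' g y :=
  Finset.sum_nonneg fun _ _ => hs_nonneg _

theorem hs_adj [DecidableEq l] [DecidableEq n] {g' : Matrix l l ℂ} {g : Matrix n n ℂ}
    (hg' : g' ∈ Matrix.unitaryGroup l ℂ) (hg : g ∈ Matrix.unitaryGroup n ℂ) (y : Matrix l n ℂ) :
    hs (g * yᴴ - yᴴ * g') = hs (g' * y - y * g) := by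
  have h1 : g'ᴴ * g' = 1 := (Matrix.mem_unitaryGroup_iff'.1 hg')
  have h2 : g * gᴴ = 1 := (Matrix.mem_unitaryGroup_iff.1 hg)
  have e : g * yᴴ - yᴴ * g' = g * (g' * y - y * g)ᴴ * g' := by
    simp only [Matrix.conjTranspose_sub, Matrix.conjTranspose_mul, Matrix.mul_sub, Matrix.sub_mul]
    rw [← Matrix.mul_assoc g gᴴ yᴴ, h2, Matrix.one_mul, Matrix.mul_assoc g (yᴴ * g'ᴴ) g',
      Matrix.mul_assoc yᴴ g'ᴴ g', h1, Matrix.mul_one]
  rw [e, hs_mul_unitary hg', hs_unitary_mul hg, hs_conjTranspose]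

theorem EnR_adj {S : Type} [Fintype S] [DecidableEq l] [DecidableEq n] {g' : S → Matrix l l ℂ}
    {g : S → Matrix n n ℂ}
    (hg' : ∀ s, g' s ∈ Matrix.unitaryGroup l ℂ) (hg : ∀ s, g s ∈ Matrix.unitaryGroup n ℂ)
    (y : Matrix l n ℂ) : EnR g g' yᴴ = EnR g' g y :=
  Finset.sum_congr rfl fun s _ => hs_adj (hg' s) (hg s) y

/-- operator convexity of `X ↦ X* X` -/
theorem convex_contr {ι : Type*} [Fintype ι] (α : ι → ℝ) (X : ι → Matrix m n ℂ)
    (hα : ∀ i, 0 ≤ α i) (h1 : ∑ i, α i = 1) {B : Matrix n n ℂ} (hX : ∀ i, (X i)ᴴ * X i ≤ B) :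
    (∑ i, α i • X i)ᴴ * (∑ i, α i • X i) ≤ B := by
  set A := ∑ i, α i • X i with hA
  have hAs : Aᴴ = ∑ i, α i • (X i)ᴴ := by
    rw [hA, Matrix.conjTranspose_sum]
    refine Finset.sum_congr rfl fun i _ => ?_
    rw [Matrix.conjTranspose_smul, star_trivial]
  have hp : (∑ i, α i • ((X i - A)ᴴ * (X i - A))).PosSemidef :=
    Matrix.posSemidef_sum _ fun i _ =>
      (Matrix.posSemidef_conjTranspose_mul_self (X i - A)).smul (hα i)
  have hq : (∑ i, α i • (B - (X i)ᴴ * X i)).PosSemidef :=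
    Matrix.posSemidef_sum _ fun i _ => (Matrix.le_iff.1 (hX i)).smul (hα i)
  have e : ∑ i, α i • ((X i - A)ᴴ * (X i - A)) = ∑ i, α i • ((X i)ᴴ * X i) - Aᴴ * A := by
    have e1 : ∀ i, α i • ((X i - A)ᴴ * (X i - A)) =
        α i • ((X i)ᴴ * X i) - (α i • (X i)ᴴ) * A - Aᴴ * (α i • X i) + α i • (Aᴴ * A) := by
      intro i
      rw [Matrix.conjTranspose_sub, Matrix.sub_mul, Matrix.mul_sub, Matrix.mul_sub,
        Matrix.smul_mul, Matrix.mul_smul, smul_sub, smul_sub, smul_sub]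
      abel
    simp only [e1]
    rw [Finset.sum_add_distrib, Finset.sum_sub_distrib, Finset.sum_sub_distrib,
      ← Matrix.sum_mul, ← Matrix.mul_sum, ← Finset.sum_smul, h1, one_smul, ← hAs, ← hA]
    abel
  have e2 : ∑ i, α i • (B - (X i)ᴴ * X i) = B - ∑ i, α i • ((X i)ᴴ * X i) := by
    simp only [smul_sub]
    rw [Finset.sum_sub_distrib, ← Finset.sum_smul, h1, one_smul]
  rw [e] at hp
  rw [e2] at hq
  rw [Matrix.le_iff]
  have := hq.add hp
  rwa [sub_add_sub_cancel] at this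

theorem le_smul_one_mono [DecidableEq n] {a b : ℝ} (h : a ≤ b) {A : Matrix n n ℂ}
    (hA : A ≤ a • (1 : Matrix n n ℂ)) : A ≤ b • (1 : Matrix n n ℂ) := by
  rw [Matrix.le_iff] at *
  have := hA.add ((Matrix.PosSemidef.one (n := n) (R := ℂ)).smul (sub_nonneg.2 h))
  rw [sub_smul] at this
  convert this using 1
  abel

/-- the averaged conjugation preserves operator bounds -/
theorem avg_ap_contr {d : ℕ} (Φ : Avg d) {κ : ℝ} {c : Matrix (Fin d) (Fin d) ℂ}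
    (hc : cᴴ * c ≤ κ • (1 : Matrix (Fin d) (Fin d) ℂ)) :
    (Φ.ap c)ᴴ * Φ.ap c ≤ κ • (1 : Matrix (Fin d) (Fin d) ℂ) := by
  refine convex_contr Φ.α _ Φ.nonneg Φ.sum_one fun i => ?_
  have h : (Φ.u i)ᴴ * Φ.u i = 1 := (Matrix.mem_unitaryGroup_iff'.1 (Φ.unitary i))
  have h' : Φ.u i * (Φ.u i)ᴴ = 1 := (Matrix.mem_unitaryGroup_iff.1 (Φ.unitary i))
  have e : (Φ.u i * c * (Φ.u i)ᴴ)ᴴ * (Φ.u i * c * (Φ.u i)ᴴ) = Φ.u i * (cᴴ * c) * (Φ.u i)ᴴ := by
    simp only [Matrix.conjTranspose_mul, Matrix.conjTranspose_conjTranspose, Matrix.mul_assoc]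
    rw [← Matrix.mul_assoc (Φ.u i)ᴴ (Φ.u i), h, Matrix.one_mul]
  have h2 := conj_mono' hc (Φ.u i)
  rw [Matrix.mul_smul, Matrix.smul_mul, Matrix.mul_one, h'] at h2
  rwa [e]

theorem smul_le_one_iff {κ : ℝ} (hκ : 0 < κ) [DecidableEq n] {A : Matrix n n ℂ}
    (hA : A ≤ κ • (1 : Matrix n n ℂ)) : κ⁻¹ • A ≤ 1 := by
  rw [Matrix.le_iff] at *
  have := hA.smul (inv_nonneg.2 hκ.le)
  rwa [smul_sub, smul_smul, inv_mul_cancel₀ hκ.ne', one_smul] at this

theorem hasT_one {S : Type} [Fintype S] {d : ℕ} {g : S → Matrix (Fin d) (Fin d) ℂ} {C t : ℝ}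
    (h : HasT g C t) : ∃ Φ : Avg d, ∀ κ : ℝ, 0 < κ → ∀ c : Matrix (Fin d) (Fin d) ℂ,
      cᴴ * c ≤ κ • (1 : Matrix (Fin d) (Fin d) ℂ) →
      En g (Φ.ap c) ≤ κ * (t * d) ∧ hs (c - Φ.ap c) ≤ C * En g c + κ * (t * d) := by
  obtain ⟨Φ, h⟩ := h
  refine ⟨Φ, fun κ hκ c hc => ?_⟩
  obtain ⟨h1, h2⟩ := h 1 (fun _ => κ⁻¹) (fun _ => c) (fun _ => inv_nonneg.2 hκ.le)
    (by simpa using smul_le_one_iff hκ (swap_bound hκ hc)) (by simpa using smul_le_one_iff hκ hc)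
  simp only [Finset.univ_unique, Finset.sum_singleton] at h1 h2
  constructor
  · rw [inv_mul_le_iff₀ hκ] at h1
    exact h1
  · have : κ⁻¹ * hs (c - Φ.ap c) ≤ κ⁻¹ * (C * En g c + κ * (t * d)) := by
      refine h2.trans (le_of_eq ?_)
      field_simp
    exact le_of_mul_le_mul_left this (inv_pos.2 hκ)

/-! ### the Cayley transform -/

/-- the resolvent `X = t (t + y* y)⁻¹` -/
theorem resolvent [DecidableEq n] (a : Matrix n n ℂ) (ha : a.PosSemidef) {t : ℝ} (ht : 0 < t) :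
    ∃ X : Matrix n n ℂ, X.PosSemidef ∧ (1 - X).PosSemidef ∧ X * a = t • (1 - X) ∧
      a * X = t • (1 - X) := by
  have hT : (t • (1 : Matrix n n ℂ) + a).PosDef :=
    (Matrix.PosDef.one.smul ht).add_posSemidef ha
  have hu : IsUnit (t • (1 : Matrix n n ℂ) + a) := hT.isUnit
  set T := t • (1 : Matrix n n ℂ) + a with hTd
  have h1 : T * T⁻¹ = 1 := Matrix.mul_nonsing_inv T ((Matrix.isUnit_iff_isUnit_det T).1 hu)
  have h2 : T⁻¹ * T = 1 := Matrix.nonsing_inv_mul T ((Matrix.isUnit_iff_isUnit_det T).1 hu)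
  have hR : T⁻¹.PosSemidef := hT.inv.posSemidef
  set R := T⁻¹ with hRd
  have h3 : a * R = 1 - t • R := by
    rw [← h1, hTd, Matrix.add_mul, Matrix.smul_mul, Matrix.one_mul]
    abel
  have h4 : R * a = 1 - t • R := by
    rw [← h2, hTd, Matrix.mul_add, Matrix.mul_smul, Matrix.mul_one]
    abel
  have ha' : aᴴ = a := ha.1
  have hR' : Rᴴ = R := hR.1
  have h5 : (1 - t • R).PosSemidef := by
    have p1 : (Rᴴ * a * R).PosSemidef := psd_conj ha R
    have p2 : ((a * R)ᴴ * (a * R)).PosSemidef := Matrix.posSemidef_conjTranspose_mul_self _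
    have p3 := (p1.smul ht.le).add p2
    have e : t • (Rᴴ * a * R) + (a * R)ᴴ * (a * R) = 1 - t • R := by
      have e1 : t • (Rᴴ * a * R) + (a * R)ᴴ * (a * R) = R * a * (T * R) := by
        rw [hTd, Matrix.conjTranspose_mul, ha', hR', Matrix.add_mul, Matrix.mul_add,
          Matrix.smul_mul, Matrix.mul_smul, Matrix.one_mul]
      rw [e1, h1, Matrix.mul_one, h4]
    rwa [e] at p3
  refine ⟨t • R, hR.smul ht.le, h5, ?_, ?_⟩
  · rw [Matrix.smul_mul, h4]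
  · rw [Matrix.mul_smul, h3]

theorem psd_le_one_sq [DecidableEq n] {X : Matrix n n ℂ} (hX : X.PosSemidef)
    (h1 : (1 - X).PosSemidef) : (X - X * X).PosSemidef := by
  have hX' : Xᴴ = X := hX.1
  have e : X - X * X = Xᴴ * (1 - X) * X + (1 - X)ᴴ * X * (1 - X) := by
    rw [Matrix.conjTranspose_sub, Matrix.conjTranspose_one, hX']
    noncomm_ring
  rw [e]
  exact (psd_conj h1 X).add (psd_conj hX (1 - X))

end Pool.Agent.H51K.Asm
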