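import Pool.Agent.H51K.AsmImprove

/-!
Transfer of flatness through near-unitary near-intertwiners.
-/

set_option autoImplicit false
set_option linter.unusedSectionVars false
open Matrix
open scoped ComplexOrder MatrixOrder

namespace Pool.Agent.H51K.Asm

theorem ip_amgm {m n : Type*} [Fintype m] [Fintype n] {a : ℝ} (ha : 0 < a) (A B : Matrix m n ℂ) :
    ip A B ≤ a / 2 * hs A + (1 / (2 * a)) * hs B := by
  have h := hs_nonneg (a • A - B)
  rw [hs_sub, hs_smul] at h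
  have h1 : ip (a • A) B = a * ip A B := by
    rw [ip_comm, ip_smul_right, ip_comm]
  rw [h1] at h
  have h2 : 2 * a * ip A B ≤ a ^ 2 * hs A + hs B := by linarith
  have h3 : ip A B ≤ (a ^ 2 * hs A + hs B) / (2 * a) := by
    rw [le_div_iff₀ (by positivity)]
    linarith
  refine h3.trans (le_of_eq ?_)
  field_simp

theorem herm_contr_le {n : Type*} [Fintype n] [DecidableEq n] {b : Matrix n n ℂ} (hb : bᴴ = b)
    (hbb : bᴴ * b ≤ 1) : b ≤ 1 := by
  rw [Matrix.le_iff] at *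
  have h1 : ((1 - b)ᴴ * (1 - b)).PosSemidef := Matrix.posSemidef_conjTranspose_mul_self _
  have h2 := (h1.add hbb).smul (by norm_num : (0 : ℝ) ≤ 1 / 2)
  refine psd_of_eq h2 ?_
  have : (1 - b)ᴴ * (1 - b) + (1 - bᴴ * b) = (1 - b) + (1 - b) := by
    rw [Matrix.conjTranspose_sub, Matrix.conjTranspose_one, hb]
    noncomm_ring
  rw [this, ← two_smul ℝ (1 - b), smul_smul]
  norm_num

theorem rtr_herm_contr_mul_le {n : Type*} [Fintype n] [DecidableEq n] {b Z : Matrix n n ℂ}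
    (hb : bᴴ = b) (hbb : bᴴ * b ≤ 1) (hZ : Z.PosSemidef) : rtr (b * Z) ≤ rtr Z := by
  have := rtr_mul_mono (herm_contr_le hb hbb) hZ
  rwa [Matrix.one_mul] at this

theorem abs_rtr_herm_contr_mul_le {n : Type*} [Fintype n] [DecidableEq n] {b Z : Matrix n n ℂ}
    (hb : bᴴ = b) (hbb : bᴴ * b ≤ 1) (hZ : Z.PosSemidef) : |rtr (b * Z)| ≤ rtr Z := by
  rw [abs_le]
  constructor
  · have := rtr_herm_contr_mul_le (b := -b) (by rw [Matrix.conjTranspose_neg, hb])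
      (by rw [Matrix.conjTranspose_neg, Matrix.neg_mul, Matrix.mul_neg, neg_neg]; exact hbb) hZ
    rw [Matrix.neg_mul, rtr_neg] at this
    linarith
  · exact rtr_herm_contr_mul_le hb hbb hZ

theorem Fl_transfer {T : Type*} [Fintype T] {r₁ r₂ : ℕ} (h₁ : 0 < r₁) (h₂ : 0 < r₂)
    {u : Matrix (Fin r₂) (Fin r₁) ℂ} (hu : uᴴ * u ≤ 1) {δ lam : ℝ} (hlam : 0 < lam)
    (hhs : (1 - δ) * max (r₁ : ℝ) r₂ ≤ hs u) (y : Matrix T (Fin r₁) ℂ)
    (b : Matrix (Fin r₁) (Fin r₁) ℂ) (hb : bᴴ = b) (hbb : bᴴ * b ≤ 1) :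
    Fl b y ≤ Fl (u * b * uᴴ) (y * uᴴ) + (lam + δ) * hs y +
      (1 / lam + 1) * rtr ((yᴴ * y) * (1 - uᴴ * u)) + hs y / r₁ * rtr (1 - uᴴ * u) := by
  have hr₁ : (0 : ℝ) < r₁ := Nat.cast_pos.2 h₁
  have hr₂ : (0 : ℝ) < r₂ := Nat.cast_pos.2 h₂
  set G := uᴴ * u with hG
  set Z := 1 - G with hZdef
  set a := yᴴ * y with ha
  have hZ : Z.PosSemidef := Matrix.le_iff.1 hu
  have hGp : G.PosSemidef := Matrix.posSemidef_conjTranspose_mul_self u
  have hZ' : Zᴴ = Z := hZ.1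
  have hG' : Gᴴ = G := hGp.1
  have hap : a.PosSemidef := Matrix.posSemidef_conjTranspose_mul_self y
  have hGZ : G = 1 - Z := by rw [hZdef]; abel
  -- elementary bounds
  have hy0 := hs_nonneg y
  have hb1 : b * bᴴ ≤ (1 : ℝ) • (1 : Matrix (Fin r₁) (Fin r₁) ℂ) := by
    rw [one_smul, hb]; rwa [hb] at hbb
  have hG1 : Gᴴ * G ≤ 1 := psd_le_one_sq' hGp (by rwa [hGZ, sub_sub_cancel])
  have hGb : G * Gᴴ ≤ (1 : ℝ) • (1 : Matrix (Fin r₁) (Fin r₁) ℂ) := by
    rw [one_smul, hG']; rwa [hG'] at hG1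
  have hyb : hs (y * b) ≤ hs y := by
    have := hs_mul_le' hb1 y; linarith
  have hyG : hs (y * G) ≤ hs y := by
    have := hs_mul_le' hGb y; linarith
  have hyZb : hs (y * Z * b) ≤ hs (y * Z) := by
    have := hs_mul_le' hb1 (y * Z); linarith
  have hyZ : hs (y * Z) ≤ rtr (a * Z) := by
    have e1 : hs (y * Z) = rtr (a * (Z * Z)) := by
      unfold hs
      rw [Matrix.conjTranspose_mul, hZ', Matrix.mul_assoc, rtr_mul_comm, ha]
      simp only [Matrix.mul_assoc]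
    rw [e1]
    refine rtr_mul_mono_right ?_ hap
    rw [Matrix.le_iff]
    exact psd_le_one_sq hZ (by rwa [hZdef, sub_sub_cancel])
  -- first part
  have hD1 : rtr (b * a) - rtr ((u * b * uᴴ) * ((y * uᴴ)ᴴ * (y * uᴴ))) ≤
      lam * hs y + (1 / lam) * rtr (a * Z) := by
    have e1 : rtr ((u * b * uᴴ) * ((y * uᴴ)ᴴ * (y * uᴴ))) = rtr (b * (G * a * G)) := by
      rw [Matrix.conjTranspose_mul, Matrix.conjTranspose_conjTranspose]
      have : (u * b * uᴴ) * (u * yᴴ * (y * uᴴ)) = u * (b * G * a * uᴴ) := by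
        rw [hG, ha]; simp only [Matrix.mul_assoc]
      rw [this, rtr_mul_comm, hG, ha]
      simp only [Matrix.mul_assoc]
    have e2 : b * a - b * (G * a * G) = b * Z * a + b * G * a * Z := by
      have : Z = 1 - G := hZdef
      rw [this]
      noncomm_ring
    have e3 : rtr (b * Z * a) = ip (y * Z) (y * b) := by
      unfold ip
      rw [Matrix.conjTranspose_mul, hZ', ha]
      have : b * Z * (yᴴ * y) = b * (Z * yᴴ * y) := by simp only [Matrix.mul_assoc]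
      rw [this, rtr_mul_comm]
      simp only [Matrix.mul_assoc]
    have e4 : rtr (b * G * a * Z) = ip (y * G) (y * Z * b) := by
      unfold ip
      rw [Matrix.conjTranspose_mul, hG', ha]
      have : b * G * (yᴴ * y) * Z = b * (G * yᴴ * (y * Z)) := by simp only [Matrix.mul_assoc]
      rw [this, rtr_mul_comm]
      simp only [Matrix.mul_assoc]
    rw [e1, ← rtr_sub, e2, rtr_add, e3, e4]
    have f1 := ip_amgm hlam (y * b) (y * Z)
    rw [ip_comm] at f1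
    have f2 := ip_amgm hlam (y * G) (y * Z * b)
    have f3 : (1 / (2 * lam)) * hs (y * Z) ≤ (1 / (2 * lam)) * rtr (a * Z) :=
      mul_le_mul_of_nonneg_left hyZ (by positivity)
    have f4 : (1 / (2 * lam)) * hs (y * Z * b) ≤ (1 / (2 * lam)) * rtr (a * Z) :=
      mul_le_mul_of_nonneg_left (hyZb.trans hyZ) (by positivity)
    have f5 : lam / 2 * hs (y * b) ≤ lam / 2 * hs y :=
      mul_le_mul_of_nonneg_left hyb (by positivity)
    have f6 : lam / 2 * hs (y * G) ≤ lam / 2 * hs y :=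
      mul_le_mul_of_nonneg_left hyG (by positivity)
    have f7 : (1 / lam) * rtr (a * Z) = (1 / (2 * lam)) * rtr (a * Z) +
        (1 / (2 * lam)) * rtr (a * Z) := by
      field_simp
      ring
    linarith
  -- second part
  have hhu1 : hs u ≤ r₁ := by
    have := rtr_mono hu
    rw [rtr_one, Fintype.card_fin] at this
    exact this
  have hhu2 : hs u ≤ r₂ := by
    have := rtr_mono (swap_contr hu)
    rw [rtr_one, Fintype.card_fin, ← hs_eq'] at this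
    exact this
  have hhu0 := hs_nonneg u
  have hyu : hs (y * uᴴ) = hs y - rtr (a * Z) := by
    have e1 : hs (y * uᴴ) = rtr (a * G) := by
      unfold hs
      rw [Matrix.conjTranspose_mul, Matrix.conjTranspose_conjTranspose, Matrix.mul_assoc,
        rtr_mul_comm, hG, ha]
      simp only [Matrix.mul_assoc]
    rw [e1, hGZ, Matrix.mul_sub, Matrix.mul_one, rtr_sub]
    rfl
  have haZ : 0 ≤ rtr (a * Z) := rtr_mul_nonneg hap hZ
  have hyu0 := hs_nonneg (y * uᴴ)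
  have ebG : rtr (u * b * uᴴ) = rtr b - rtr (b * Z) := by
    rw [Matrix.mul_assoc, rtr_mul_comm, Matrix.mul_assoc, ← hG, hGZ, Matrix.mul_sub,
      Matrix.mul_one, rtr_sub]
  have hbG : |rtr (b * G)| ≤ hs u := abs_rtr_herm_contr_mul_le hb hbb hGp
  have ebG' : rtr (u * b * uᴴ) = rtr (b * G) := by
    rw [Matrix.mul_assoc, rtr_mul_comm, Matrix.mul_assoc]
  have hbZ := abs_rtr_herm_contr_mul_le hb hbb hZ
  have hD2 : -(hs y / r₁ * rtr b - hs (y * uᴴ) / r₂ * rtr (u * b * uᴴ)) ≤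
      hs y / r₁ * rtr Z + rtr (a * Z) + δ * hs y := by
    have e1 : hs y / r₁ * rtr b - hs (y * uᴴ) / r₂ * rtr (u * b * uᴴ) =
        hs y / r₁ * rtr (b * Z) + (rtr (a * Z) / r₁) * rtr (b * G) +
          hs (y * uᴴ) * ((1 / r₁ - 1 / r₂) * rtr (b * G)) := by
      have e2 : rtr b = rtr (b * G) + rtr (b * Z) := by
        rw [← ebG', ebG]; ring
      rw [ebG', e2]
      have e3 : hs y = hs (y * uᴴ) + rtr (a * Z) := by rw [hyu]; ring
      rw [e3]
      field_simp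
      ring
    rw [e1]
    have f1 : -(hs y / r₁ * rtr (b * Z)) ≤ hs y / r₁ * rtr Z := by
      have h4 : 0 ≤ hs y / r₁ := by positivity
      have h3 := (abs_le.1 hbZ).1
      have h5 := mul_le_mul_of_nonneg_left (neg_le.1 h3) h4
      rwa [mul_neg] at h5
    have f2 : -((rtr (a * Z) / r₁) * rtr (b * G)) ≤ rtr (a * Z) := by
      have h3 := (abs_le.1 hbG).1
      have h4 : 0 ≤ rtr (a * Z) / r₁ := by positivity
      have h6 : -rtr (b * G) ≤ r₁ := by linarith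
      have h5 := mul_le_mul_of_nonneg_left h6 h4
      rw [mul_neg] at h5
      rwa [div_mul_cancel₀ _ hr₁.ne'] at h5
    have f3 : |(1 / (r₁ : ℝ) - 1 / r₂) * rtr (b * G)| ≤ δ := by
      rw [abs_mul]
      have h6 : |(1 / (r₁ : ℝ) - 1 / r₂)| = |(r₂ : ℝ) - r₁| / (r₁ * r₂) := by
        rw [div_sub_div _ _ hr₁.ne' hr₂.ne', abs_div, abs_of_pos (mul_pos hr₁ hr₂)]
        congr 2
        ring
      rw [h6]
      have h7 : |(r₂ : ℝ) - r₁| / (r₁ * r₂) * |rtr (b * G)| ≤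
          |(r₂ : ℝ) - r₁| / (r₁ * r₂) * hs u := mul_le_mul_of_nonneg_left hbG (by positivity)
      refine h7.trans ?_
      rw [div_mul_eq_mul_div, div_le_iff₀ (by positivity)]
      rcases le_total (r₁ : ℝ) r₂ with h8 | h8
      · rw [max_eq_right h8] at hhs
        rw [abs_of_nonneg (by linarith)]
        have h9 : (r₂ : ℝ) - r₁ ≤ δ * r₂ := by rw [sub_mul, one_mul] at hhs; linarith
        have h10 : 0 ≤ (r₂ : ℝ) - r₁ := by linarith
        calc ((r₂ : ℝ) - r₁) * hs u ≤ ((r₂ : ℝ) - r₁) * r₁ := mul_le_mul_of_nonneg_left hhu1 h10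
          _ ≤ (δ * r₂) * r₁ := mul_le_mul_of_nonneg_right h9 hr₁.le
          _ = δ * (r₁ * r₂) := by ring
      · rw [max_eq_left h8] at hhs
        rw [abs_of_nonpos (by linarith)]
        have h9 : (r₁ : ℝ) - r₂ ≤ δ * r₁ := by rw [sub_mul, one_mul] at hhs; linarith
        have h10 : 0 ≤ (r₁ : ℝ) - r₂ := by linarith
        calc -((r₂ : ℝ) - r₁) * hs u = ((r₁ : ℝ) - r₂) * hs u := by ring
          _ ≤ ((r₁ : ℝ) - r₂) * r₂ := mul_le_mul_of_nonneg_left hhu2 h10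
          _ ≤ (δ * r₁) * r₂ := mul_le_mul_of_nonneg_right h9 hr₂.le
          _ = δ * (r₁ * r₂) := by ring
    have f4 : -(hs (y * uᴴ) * ((1 / r₁ - 1 / r₂) * rtr (b * G))) ≤ δ * hs y := by
      have h3 := (abs_le.1 f3).1
      have h4 : hs (y * uᴴ) ≤ hs y := by linarith
      have hδ : 0 ≤ δ := (abs_nonneg _).trans f3
      have h5 := mul_le_mul_of_nonneg_left (neg_le.1 h3) hyu0
      have h6 := mul_le_mul_of_nonneg_right h4 hδ
      rw [mul_neg] at h5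
      rw [mul_comm δ]
      exact h5.trans h6
    linarith
  have e5 : Fl b y - Fl (u * b * uᴴ) (y * uᴴ) =
      (rtr (b * a) - rtr ((u * b * uᴴ) * ((y * uᴴ)ᴴ * (y * uᴴ)))) -
        (hs y / r₁ * rtr b - hs (y * uᴴ) / r₂ * rtr (u * b * uᴴ)) := by
    simp only [Fl]
    ring
  have e6 : (1 / lam + 1) * rtr (a * Z) = (1 / lam) * rtr (a * Z) + rtr (a * Z) := by ring
  rw [e6]
  linarith

/-- summed over a bounded family -/
theorem Fl_transfer_sum {Λ : Type*} [Fintype Λ] {T : Λ → Type*} [∀ a, Fintype (T a)] {r₁ r₂ : ℕ}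
    (h₁ : 0 < r₁) (h₂ : 0 < r₂)
    {u : Matrix (Fin r₂) (Fin r₁) ℂ} (hu : uᴴ * u ≤ 1) {δ lam κ : ℝ} (hlam : 0 < lam) (hδ : 0 ≤ δ)
    (hκ : 0 ≤ κ)
    (hhs : (1 - δ) * max (r₁ : ℝ) r₂ ≤ hs u) (y : ∀ a, Matrix (T a) (Fin r₁) ℂ)
    (hy : ∑ a, (y a)ᴴ * y a ≤ κ • (1 : Matrix (Fin r₁) (Fin r₁) ℂ))
    (b : Λ → Matrix (Fin r₁) (Fin r₁) ℂ) (hb : ∀ a, (b a)ᴴ = b a) (hbb : ∀ a, (b a)ᴴ * b a ≤ 1) :
    ∑ a, Fl (b a) (y a) ≤ ∑ a, Fl (u * b a * uᴴ) (y a * uᴴ) +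
      κ * max (r₁ : ℝ) r₂ * (lam + δ / lam + 3 * δ) := by
  have hr₁ : (0 : ℝ) < r₁ := Nat.cast_pos.2 h₁
  have hZ : (1 - uᴴ * u).PosSemidef := Matrix.le_iff.1 hu
  have hZt : rtr (1 - uᴴ * u) = r₁ - hs u := by
    rw [rtr_sub, rtr_one, Fintype.card_fin]; rfl
  have hN1 : (r₁ : ℝ) ≤ max (r₁ : ℝ) r₂ := le_max_left _ _
  have hZle : rtr (1 - uᴴ * u) ≤ δ * max (r₁ : ℝ) r₂ := by
    rw [hZt]; linarith
  have hZ0 := rtr_nonneg hZ
  have s1 : ∑ a, hs (y a) ≤ κ * r₁ := by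
    have := rtr_mono hy
    rw [rtr_sum, rtr_smul, rtr_one, Fintype.card_fin] at this
    exact this
  have s2 : ∑ a, rtr (((y a)ᴴ * y a) * (1 - uᴴ * u)) ≤ κ * (δ * max (r₁ : ℝ) r₂) := by
    rw [← rtr_sum, ← Matrix.sum_mul]
    have := rtr_mul_mono hy hZ
    rw [Matrix.smul_mul, Matrix.one_mul, rtr_smul] at this
    exact this.trans (mul_le_mul_of_nonneg_left hZle hκ)
  calc ∑ a, Fl (b a) (y a) ≤ ∑ a, (Fl (u * b a * uᴴ) (y a * uᴴ) + (lam + δ) * hs (y a) +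
      (1 / lam + 1) * rtr (((y a)ᴴ * y a) * (1 - uᴴ * u)) + hs (y a) / r₁ * rtr (1 - uᴴ * u)) :=
        Finset.sum_le_sum fun a _ => Fl_transfer h₁ h₂ hu hlam hhs (y a) (b a) (hb a) (hbb a)
    _ = ∑ a, Fl (u * b a * uᴴ) (y a * uᴴ) + (lam + δ) * ∑ a, hs (y a) +
      (1 / lam + 1) * ∑ a, rtr (((y a)ᴴ * y a) * (1 - uᴴ * u)) +
        (∑ a, hs (y a)) / r₁ * rtr (1 - uᴴ * u) := by
        simp only [Finset.sum_add_distrib, Finset.mul_sum, Finset.sum_div, Finset.sum_mul]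
    _ ≤ ∑ a, Fl (u * b a * uᴴ) (y a * uᴴ) + (lam + δ) * (κ * max (r₁ : ℝ) r₂) +
      (1 / lam + 1) * (κ * (δ * max (r₁ : ℝ) r₂)) + κ * (δ * max (r₁ : ℝ) r₂) := by
        have f1 : (lam + δ) * ∑ a, hs (y a) ≤ (lam + δ) * (κ * max (r₁ : ℝ) r₂) :=
          mul_le_mul_of_nonneg_left (s1.trans (mul_le_mul_of_nonneg_left hN1 hκ)) (by positivity)
        have f2 : (1 / lam + 1) * ∑ a, rtr (((y a)ᴴ * y a) * (1 - uᴴ * u)) ≤
            (1 / lam + 1) * (κ * (δ * max (r₁ : ℝ) r₂)) :=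
          mul_le_mul_of_nonneg_left s2 (by positivity)
        have f3 : (∑ a, hs (y a)) / r₁ * rtr (1 - uᴴ * u) ≤ κ * (δ * max (r₁ : ℝ) r₂) := by
          have h5 : (∑ a, hs (y a)) / r₁ ≤ κ := by
            rw [div_le_iff₀ hr₁]; exact s1
          exact mul_le_mul h5 hZle hZ0 hκ
        linarith
    _ = ∑ a, Fl (u * b a * uᴴ) (y a * uᴴ) +
      κ * max (r₁ : ℝ) r₂ * (lam + δ / lam + 3 * δ) := by
        field_simp
        ring

end Pool.Agent.H51K.Asm
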