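import Mathlib

/-!
Basic Hilbert-Schmidt / positivity toolbox for complex matrices (unnormalised trace).
-/

set_option autoImplicit false
open Matrix
open scoped ComplexOrder MatrixOrder

namespace Pool.Agent.H51K

variable {m n l k : Type*} [Fintype m] [Fintype n] [Fintype l] [Fintype k]

/-- real part of the trace -/
noncomputable def rtr (A : Matrix n n ℂ) : ℝ := (Matrix.trace A).re

/-- squared Hilbert-Schmidt norm -/
noncomputable def hs (A : Matrix m n ℂ) : ℝ := rtr (Aᴴ * A)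

theorem rtr_add (A B : Matrix n n ℂ) : rtr (A + B) = rtr A + rtr B := by
  simp [rtr, Matrix.trace_add]

theorem rtr_sub (A B : Matrix n n ℂ) : rtr (A - B) = rtr A - rtr B := by
  simp [rtr, Matrix.trace_sub]

theorem rtr_neg (A : Matrix n n ℂ) : rtr (-A) = -rtr A := by
  simp [rtr, Matrix.trace_neg]

theorem rtr_zero : rtr (0 : Matrix n n ℂ) = 0 := by
  simp [rtr]

theorem rtr_smul (c : ℝ) (A : Matrix n n ℂ) : rtr (c • A) = c * rtr A := by
  simp [rtr, Matrix.trace_smul]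

theorem rtr_sum {ι : Type*} (s : Finset ι) (f : ι → Matrix n n ℂ) :
    rtr (∑ i ∈ s, f i) = ∑ i ∈ s, rtr (f i) := by
  simp [rtr, Matrix.trace_sum]

theorem rtr_mul_comm (A : Matrix m n ℂ) (B : Matrix n m ℂ) : rtr (A * B) = rtr (B * A) := by
  simp [rtr, Matrix.trace_mul_comm A B]

theorem rtr_conjTranspose (A : Matrix n n ℂ) : rtr Aᴴ = rtr A := by
  simp [rtr, Matrix.trace_conjTranspose]

theorem rtr_one [DecidableEq n] : rtr (1 : Matrix n n ℂ) = Fintype.card n := by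
  simp [rtr]

theorem hs_eq_sum (A : Matrix m n ℂ) : hs A = ∑ j, ∑ i, ‖A i j‖ ^ 2 := by
  unfold hs rtr
  simp only [Matrix.trace, Matrix.diag, Matrix.mul_apply, Matrix.conjTranspose_apply,
    Complex.re_sum]
  refine Finset.sum_congr rfl fun j _ => Finset.sum_congr rfl fun i _ => ?_
  rw [Complex.star_def, ← Complex.normSq_eq_conj_mul_self, Complex.ofReal_re,
    Complex.normSq_eq_norm_sq]

theorem hs_nonneg (A : Matrix m n ℂ) : 0 ≤ hs A := by
  rw [hs_eq_sum]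
  positivity

theorem hs_eq' (A : Matrix m n ℂ) : hs A = rtr (A * Aᴴ) := by
  unfold hs
  rw [rtr_mul_comm]

theorem hs_conjTranspose (A : Matrix m n ℂ) : hs Aᴴ = hs A := by
  rw [hs_eq' A, hs, Matrix.conjTranspose_conjTranspose]

theorem hs_neg (A : Matrix m n ℂ) : hs (-A) = hs A := by
  simp [hs]

theorem hs_zero : hs (0 : Matrix m n ℂ) = 0 := by
  simp [hs, rtr_zero]

theorem hs_sub_comm (A B : Matrix m n ℂ) : hs (A - B) = hs (B - A) := by
  rw [← hs_neg (A - B), neg_sub]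

theorem hs_smul (c : ℝ) (A : Matrix m n ℂ) : hs (c • A) = c ^ 2 * hs A := by
  rw [hs_eq_sum, hs_eq_sum, Finset.mul_sum]
  refine Finset.sum_congr rfl fun j _ => ?_
  rw [Finset.mul_sum]
  refine Finset.sum_congr rfl fun i _ => ?_
  simp only [Matrix.smul_apply, norm_smul, Real.norm_eq_abs]
  rw [mul_pow, sq_abs]

theorem hs_eq_zero {A : Matrix m n ℂ} (h : hs A = 0) : A = 0 := by
  rw [hs_eq_sum] at h
  ext i j
  have h1 := (Finset.sum_eq_zero_iff_of_nonneg (fun j _ => by positivity)).1 h j (Finset.mem_univ _)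
  have h2 := (Finset.sum_eq_zero_iff_of_nonneg (fun i _ => by positivity)).1 h1 i
    (Finset.mem_univ _)
  simpa using h2

/-- real inner product -/
noncomputable def ip (A B : Matrix m n ℂ) : ℝ := rtr (Aᴴ * B)

theorem ip_self (A : Matrix m n ℂ) : ip A A = hs A := rfl

theorem ip_comm (A B : Matrix m n ℂ) : ip A B = ip B A := by
  unfold ip
  rw [← rtr_conjTranspose, Matrix.conjTranspose_mul, Matrix.conjTranspose_conjTranspose]

theorem ip_add_right (A B C : Matrix m n ℂ) : ip A (B + C) = ip A B + ip A C := by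
  simp [ip, Matrix.mul_add, rtr_add]

theorem ip_sub_right (A B C : Matrix m n ℂ) : ip A (B - C) = ip A B - ip A C := by
  simp [ip, Matrix.mul_sub, rtr_sub]

theorem ip_add_left (A B C : Matrix m n ℂ) : ip (A + B) C = ip A C + ip B C := by
  rw [ip_comm, ip_add_right, ip_comm C A, ip_comm C B]

theorem ip_sub_left (A B C : Matrix m n ℂ) : ip (A - B) C = ip A C - ip B C := by
  rw [ip_comm, ip_sub_right, ip_comm C A, ip_comm C B]

theorem ip_smul_right (c : ℝ) (A B : Matrix m n ℂ) : ip A (c • B) = c * ip A B := by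
  simp [ip, rtr_smul]

theorem hs_add (A B : Matrix m n ℂ) : hs (A + B) = hs A + 2 * ip A B + hs B := by
  rw [← ip_self (A + B), ip_add_left, ip_add_right, ip_add_right, ip_self, ip_self, ip_comm B A]
  ring

theorem hs_sub (A B : Matrix m n ℂ) : hs (A - B) = hs A - 2 * ip A B + hs B := by
  rw [← ip_self (A - B), ip_sub_left, ip_sub_right, ip_sub_right, ip_self, ip_self, ip_comm B A]
  ring

theorem hs_add_le (A B : Matrix m n ℂ) : hs (A + B) ≤ 2 * hs A + 2 * hs B := by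
  have h := hs_nonneg (A - B)
  rw [hs_sub] at h
  rw [hs_add]
  linarith

theorem hs_sub_le (A B : Matrix m n ℂ) : hs (A - B) ≤ 2 * hs A + 2 * hs B := by
  have h := hs_nonneg (A + B)
  rw [hs_add] at h
  rw [hs_sub]
  linarith

theorem hs_add3_le (A B C : Matrix m n ℂ) : hs (A + B + C) ≤ 3 * hs A + 3 * hs B + 3 * hs C := by
  have h1 := hs_nonneg (A - B)
  have h2 := hs_nonneg (A - C)
  have h3 := hs_nonneg (B - C)
  rw [hs_sub] at h1 h2 h3
  rw [hs_add, hs_add, ip_add_left]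
  linarith

theorem ip_sq_le (A B : Matrix m n ℂ) : ip A B ^ 2 ≤ hs A * hs B := by
  by_cases hB : hs B = 0
  · have := hs_eq_zero hB
    subst this
    simp [ip, rtr_zero, hs_zero]
  · have hB' : 0 < hs B := lt_of_le_of_ne (hs_nonneg B) (Ne.symm hB)
    have h := hs_nonneg (A - (ip A B / hs B) • B)
    rw [hs_sub, ip_smul_right, hs_smul] at h
    have h2 : hs A - 2 * (ip A B / hs B * ip A B) + (ip A B / hs B) ^ 2 * hs B =
        hs A - ip A B ^ 2 / hs B := by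
      field_simp
      ring
    rw [h2] at h
    have h3 : ip A B ^ 2 / hs B ≤ hs A := by linarith
    rwa [div_le_iff₀ hB'] at h3

theorem abs_ip_le (A B : Matrix m n ℂ) : |ip A B| ≤ Real.sqrt (hs A) * Real.sqrt (hs B) := by
  rw [← Real.sqrt_mul (hs_nonneg A)]
  exact Real.abs_le_sqrt (ip_sq_le A B)

theorem ip_le (A B : Matrix m n ℂ) : ip A B ≤ Real.sqrt (hs A) * Real.sqrt (hs B) :=
  (le_abs_self _).trans (abs_ip_le A B)

theorem sqrt_hs_add_le (A B : Matrix m n ℂ) :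
    Real.sqrt (hs (A + B)) ≤ Real.sqrt (hs A) + Real.sqrt (hs B) := by
  rw [Real.sqrt_le_left (by positivity), hs_add]
  have h := ip_le A B
  have hA := Real.sq_sqrt (hs_nonneg A)
  have hB := Real.sq_sqrt (hs_nonneg B)
  nlinarith

theorem sqrt_hs_sub_le (A B : Matrix m n ℂ) :
    Real.sqrt (hs (A - B)) ≤ Real.sqrt (hs A) + Real.sqrt (hs B) := by
  have := sqrt_hs_add_le A (-B)
  rwa [hs_neg, ← sub_eq_add_neg] at this

/-! ### positivity -/

theorem rtr_nonneg {A : Matrix n n ℂ} (h : A.PosSemidef) : 0 ≤ rtr A := by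
  have := h.trace_nonneg
  exact (Complex.le_def.1 this).1

theorem rtr_mono {A B : Matrix n n ℂ} (h : A ≤ B) : rtr A ≤ rtr B := by
  have := rtr_nonneg (Matrix.le_iff.1 h)
  rw [rtr_sub] at this
  linarith

theorem psd_conj {A : Matrix n n ℂ} (h : A.PosSemidef) (X : Matrix n m ℂ) :
    (Xᴴ * A * X).PosSemidef := h.conjTranspose_mul_mul_same X

theorem psd_conj' {A : Matrix n n ℂ} (h : A.PosSemidef) (X : Matrix m n ℂ) :
    (X * A * Xᴴ).PosSemidef := h.mul_mul_conjTranspose_same X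

theorem conj_mono {A B : Matrix n n ℂ} (h : A ≤ B) (X : Matrix n m ℂ) :
    Xᴴ * A * X ≤ Xᴴ * B * X := by
  rw [Matrix.le_iff] at *
  have := psd_conj h X
  rwa [Matrix.mul_sub, Matrix.sub_mul] at this

theorem conj_mono' {A B : Matrix n n ℂ} (h : A ≤ B) (X : Matrix m n ℂ) :
    X * A * Xᴴ ≤ X * B * Xᴴ := by
  rw [Matrix.le_iff] at *
  have := psd_conj' h X
  rwa [Matrix.mul_sub, Matrix.sub_mul] at this

variable [DecidableEq m] [DecidableEq n] [DecidableEq l]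

omit [DecidableEq m] [DecidableEq l] in
theorem exists_sqrt {A : Matrix n n ℂ} (h : A.PosSemidef) :
    ∃ B : Matrix n n ℂ, Bᴴ * B = A ∧ B.PosSemidef := by
  classical
  refine ⟨CFC.sqrt A, ?_, ?_⟩
  · have h0 : (0 : Matrix n n ℂ) ≤ A := Matrix.nonneg_iff_posSemidef.2 h
    have h1 : (0 : Matrix n n ℂ) ≤ CFC.sqrt A := CFC.sqrt_nonneg A
    have h2 : (CFC.sqrt A)ᴴ = CFC.sqrt A := (Matrix.nonneg_iff_posSemidef.1 h1).1
    rw [h2]
    exact CFC.sqrt_mul_sqrt_self A h0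
  · exact Matrix.nonneg_iff_posSemidef.1 (CFC.sqrt_nonneg A)

omit [DecidableEq m] [DecidableEq l] in
theorem rtr_mul_nonneg {A B : Matrix n n ℂ} (hA : A.PosSemidef) (hB : B.PosSemidef) :
    0 ≤ rtr (A * B) := by
  obtain ⟨C, hC, -⟩ := exists_sqrt hB
  rw [← hC, ← Matrix.mul_assoc, rtr_mul_comm, ← Matrix.mul_assoc]
  exact rtr_nonneg (psd_conj' hA C)

omit [DecidableEq m] [DecidableEq l] in
theorem rtr_mul_mono {A B C : Matrix n n ℂ} (h : A ≤ B) (hC : C.PosSemidef) :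
    rtr (A * C) ≤ rtr (B * C) := by
  have := rtr_mul_nonneg (Matrix.le_iff.1 h) hC
  rw [Matrix.sub_mul, rtr_sub] at this
  linarith

omit [DecidableEq m] [DecidableEq l] in
theorem rtr_mul_mono_right {A B C : Matrix n n ℂ} (h : A ≤ B) (hC : C.PosSemidef) :
    rtr (C * A) ≤ rtr (C * B) := by
  rw [rtr_mul_comm C A, rtr_mul_comm C B]
  exact rtr_mul_mono h hC

omit [DecidableEq m] [Fintype l] [DecidableEq l] in
/-- `hs (A B) ≤ κ hs B` if `A* A ≤ κ`. -/
theorem hs_mul_le {κ : ℝ} {A : Matrix m n ℂ} (hA : Aᴴ * A ≤ κ • (1 : Matrix n n ℂ))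
    [Fintype l] (B : Matrix n l ℂ) : hs (A * B) ≤ κ * hs B := by
  have h := rtr_mono (conj_mono hA B)
  have h1 : Bᴴ * (Aᴴ * A) * B = (A * B)ᴴ * (A * B) := by
    rw [Matrix.conjTranspose_mul]
    simp only [Matrix.mul_assoc]
  have h2 : Bᴴ * (κ • (1 : Matrix n n ℂ)) * B = κ • (Bᴴ * B) := by
    rw [Matrix.mul_smul, Matrix.smul_mul, Matrix.mul_one]
  rw [h1, h2, rtr_smul] at h
  exact h

omit [DecidableEq m] [DecidableEq l] in
/-- `hs (A B) ≤ κ hs A` if `B B* ≤ κ`. -/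
theorem hs_mul_le' {κ : ℝ} {B : Matrix n l ℂ} (hB : B * Bᴴ ≤ κ • (1 : Matrix n n ℂ))
    (A : Matrix m n ℂ) : hs (A * B) ≤ κ * hs A := by
  rw [← hs_conjTranspose (A * B), Matrix.conjTranspose_mul, ← hs_conjTranspose A]
  refine hs_mul_le ?_ Aᴴ
  rwa [Matrix.conjTranspose_conjTranspose]

omit [DecidableEq n] in
/-- `A A* ≤ 1` from `A* A ≤ 1`. -/
theorem swap_contr {A : Matrix m n ℂ} [DecidableEq n] (hA : Aᴴ * A ≤ 1) : A * Aᴴ ≤ 1 := by
  rw [Matrix.le_iff] at *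
  have h1 : (A * (1 - Aᴴ * A) * Aᴴ).PosSemidef := psd_conj' hA A
  have h2 : ((1 - A * Aᴴ)ᴴ * (1 - A * Aᴴ)).PosSemidef :=
    Matrix.posSemidef_conjTranspose_mul_self _
  have h3 : (1 - A * Aᴴ)ᴴ = 1 - A * Aᴴ := by
    simp [Matrix.conjTranspose_sub, Matrix.conjTranspose_mul]
  have h4 := h1.add h2
  rw [h3] at h4
  have h5 : A * (1 - Aᴴ * A) * Aᴴ + (1 - A * Aᴴ) * (1 - A * Aᴴ) = 1 - A * Aᴴ := by
    simp only [Matrix.mul_sub, Matrix.sub_mul, Matrix.mul_one, Matrix.one_mul, Matrix.mul_assoc]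
    abel
  rwa [h5] at h4

omit [DecidableEq n] in
theorem swap_bound {κ : ℝ} (hκ : 0 < κ) {A : Matrix m n ℂ} [DecidableEq n]
    (hA : Aᴴ * A ≤ κ • (1 : Matrix n n ℂ)) : A * Aᴴ ≤ κ • (1 : Matrix m m ℂ) := by
  have h0 : (((Real.sqrt κ)⁻¹ • A)ᴴ * ((Real.sqrt κ)⁻¹ • A)) ≤ 1 := by
    have hs : (Real.sqrt κ)⁻¹ * (Real.sqrt κ)⁻¹ = κ⁻¹ := by
      rw [← mul_inv, Real.mul_self_sqrt hκ.le]
    have e : (((Real.sqrt κ)⁻¹ • A)ᴴ * ((Real.sqrt κ)⁻¹ • A)) = κ⁻¹ • (Aᴴ * A) := by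
      rw [Matrix.conjTranspose_smul, Matrix.smul_mul, Matrix.mul_smul, smul_smul, star_trivial, hs]
    rw [e, Matrix.le_iff]
    have := (Matrix.le_iff.1 hA).smul (inv_nonneg.2 hκ.le)
    rw [smul_sub, smul_smul, inv_mul_cancel₀ hκ.ne', one_smul] at this
    exact this
  have h1 := swap_contr h0
  have hs : (Real.sqrt κ)⁻¹ * (Real.sqrt κ)⁻¹ = κ⁻¹ := by
    rw [← mul_inv, Real.mul_self_sqrt hκ.le]
  have e : (((Real.sqrt κ)⁻¹ • A) * ((Real.sqrt κ)⁻¹ • A)ᴴ) = κ⁻¹ • (A * Aᴴ) := by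
    rw [Matrix.conjTranspose_smul, Matrix.smul_mul, Matrix.mul_smul, smul_smul, star_trivial, hs]
  rw [e, Matrix.le_iff] at h1
  rw [Matrix.le_iff]
  have := h1.smul hκ.le
  rw [smul_sub, smul_smul, mul_inv_cancel₀ hκ.ne', one_smul] at this
  exact this

end Pool.Agent.H51K
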