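import Pool.Agent.H51K.P1Iface

/-!
More basic lemmas.
-/

set_option autoImplicit false
open Matrix
open scoped ComplexOrder MatrixOrder

namespace Pool.Agent.H51K

variable {m n l : Type*} [Fintype m] [Fintype n] [Fintype l]

/-- Cauchy–Schwarz for a sum of products, right factors bounded -/
theorem hs_sum_mul_le {ι : Type*} (s : Finset ι) [DecidableEq n] {κ : ℝ} (hκ : 0 ≤ κ)
    (A : ι → Matrix m l ℂ) (B : ι → Matrix l n ℂ)
    (hB : ∑ i ∈ s, (B i)ᴴ * B i ≤ κ • (1 : Matrix n n ℂ)) :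
    hs (∑ i ∈ s, A i * B i) ≤ κ * ∑ i ∈ s, hs (A i) := by
  set Y := ∑ i ∈ s, A i * B i with hY
  have h1 : hs Y = ∑ i ∈ s, ip (Y * (B i)ᴴ) (A i) := by
    have : ∀ i, ip (Y * (B i)ᴴ) (A i) = ip Y (A i * B i) := by
      intro i
      unfold ip
      rw [Matrix.conjTranspose_mul, Matrix.conjTranspose_conjTranspose, Matrix.mul_assoc,
        rtr_mul_comm, Matrix.mul_assoc]
    simp only [this]
    rw [← ip_self Y]
    unfold ip
    rw [← rtr_sum, ← Matrix.mul_sum]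
  have h2 : ∑ i ∈ s, hs (Y * (B i)ᴴ) ≤ κ * hs Y := by
    have h3 : ∑ i ∈ s, hs (Y * (B i)ᴴ) = rtr (Y * (∑ i ∈ s, (B i)ᴴ * B i) * Yᴴ) := by
      rw [Matrix.mul_sum, Matrix.sum_mul, rtr_sum]
      refine Finset.sum_congr rfl fun i _ => ?_
      rw [hs_eq', Matrix.conjTranspose_mul, Matrix.conjTranspose_conjTranspose]
      simp only [Matrix.mul_assoc]
    rw [h3]
    refine (rtr_mono (conj_mono' hB Y)).trans (le_of_eq ?_)
    rw [Matrix.mul_smul, Matrix.mul_one, Matrix.smul_mul, rtr_smul, ← hs_eq']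
  have h4 : hs Y ^ 2 ≤ (∑ i ∈ s, hs (Y * (B i)ᴴ)) * ∑ i ∈ s, hs (A i) := by
    have h5 : |hs Y| ≤ ∑ i ∈ s, Real.sqrt (hs (Y * (B i)ᴴ)) * Real.sqrt (hs (A i)) := by
      rw [h1]
      refine (Finset.abs_sum_le_sum_abs _ _).trans ?_
      exact Finset.sum_le_sum fun i _ => abs_ip_le _ _
    have h6 := Finset.sum_mul_sq_le_sq_mul_sq s (fun i => Real.sqrt (hs (Y * (B i)ᴴ)))
      (fun i => Real.sqrt (hs (A i)))
    have h7 : ∀ i, Real.sqrt (hs (Y * (B i)ᴴ)) ^ 2 = hs (Y * (B i)ᴴ) := fun i =>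
      Real.sq_sqrt (hs_nonneg _)
    have h8 : ∀ i, Real.sqrt (hs (A i)) ^ 2 = hs (A i) := fun i => Real.sq_sqrt (hs_nonneg _)
    simp only [h7, h8] at h6
    calc hs Y ^ 2 = |hs Y| ^ 2 := (sq_abs _).symm
      _ ≤ (∑ i ∈ s, Real.sqrt (hs (Y * (B i)ᴴ)) * Real.sqrt (hs (A i))) ^ 2 :=
          pow_le_pow_left₀ (abs_nonneg _) h5 2
      _ ≤ _ := h6
  have hA : 0 ≤ ∑ i ∈ s, hs (A i) := Finset.sum_nonneg fun i _ => hs_nonneg _
  have h9 : hs Y ^ 2 ≤ (κ * hs Y) * ∑ i ∈ s, hs (A i) :=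
    h4.trans (mul_le_mul_of_nonneg_right h2 hA)
  by_cases h0 : hs Y = 0
  · rw [h0]
    positivity
  · have hpos : 0 < hs Y := lt_of_le_of_ne (hs_nonneg _) (Ne.symm h0)
    have : hs Y * hs Y ≤ hs Y * (κ * ∑ i ∈ s, hs (A i)) := by nlinarith
    exact le_of_mul_le_mul_left this hpos

/-- Cauchy–Schwarz for a sum of products, left factors bounded -/
theorem hs_sum_mul_le' {ι : Type*} (s : Finset ι) [DecidableEq m] {κ : ℝ} (hκ : 0 ≤ κ)
    (A : ι → Matrix m l ℂ) (B : ι → Matrix l n ℂ)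
    (hA : ∑ i ∈ s, A i * (A i)ᴴ ≤ κ • (1 : Matrix m m ℂ)) :
    hs (∑ i ∈ s, A i * B i) ≤ κ * ∑ i ∈ s, hs (B i) := by
  have h := hs_sum_mul_le s hκ (fun i => (B i)ᴴ) (fun i => (A i)ᴴ)
    (by simpa only [Matrix.conjTranspose_conjTranspose] using hA)
  have e : ∑ i ∈ s, (B i)ᴴ * (A i)ᴴ = (∑ i ∈ s, A i * B i)ᴴ := by
    rw [Matrix.conjTranspose_sum]
    exact Finset.sum_congr rfl fun i _ => (Matrix.conjTranspose_mul _ _).symm
  rw [e, hs_conjTranspose] at h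
  simpa only [hs_conjTranspose] using h

theorem IsProj.psd {p : Matrix n n ℂ} (h : IsProj p) : p.PosSemidef := by
  have : p = pᴴ * p := by rw [h.1, h.2]
  rw [this]
  exact Matrix.posSemidef_conjTranspose_mul_self p

theorem IsProj.nonneg {p : Matrix n n ℂ} (h : IsProj p) : 0 ≤ p :=
  Matrix.nonneg_iff_posSemidef.2 h.psd

theorem IsProj.one_sub [DecidableEq n] {p : Matrix n n ℂ} (h : IsProj p) : IsProj (1 - p) := by
  refine ⟨by rw [Matrix.conjTranspose_sub, Matrix.conjTranspose_one, h.1], ?_⟩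
  rw [Matrix.mul_sub, Matrix.sub_mul, Matrix.sub_mul, h.2]
  simp

theorem IsProj.le_one [DecidableEq n] {p : Matrix n n ℂ} (h : IsProj p) : p ≤ 1 := by
  rw [Matrix.le_iff]
  exact h.one_sub.psd

theorem IsProj.hs_eq {p : Matrix n n ℂ} (h : IsProj p) : hs p = rtr p := by
  unfold hs
  rw [h.1, h.2]

theorem hs_unitary_mul [DecidableEq m] {g : Matrix m m ℂ} (hg : g ∈ Matrix.unitaryGroup m ℂ)
    (A : Matrix m n ℂ) : hs (g * A) = hs A := by
  unfold hs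
  rw [Matrix.conjTranspose_mul, Matrix.mul_assoc, ← Matrix.mul_assoc gᴴ]
  have : gᴴ * g = 1 := Matrix.mem_unitaryGroup_iff'.1 hg
  rw [this, Matrix.one_mul]

theorem hs_mul_unitary [DecidableEq n] {g : Matrix n n ℂ} (hg : g ∈ Matrix.unitaryGroup n ℂ)
    (A : Matrix m n ℂ) : hs (A * g) = hs A := by
  rw [hs_eq', hs_eq', Matrix.conjTranspose_mul, Matrix.mul_assoc, ← Matrix.mul_assoc g]
  have : g * gᴴ = 1 := Matrix.mem_unitaryGroup_iff.1 hg
  rw [this, Matrix.one_mul]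

theorem inv_anti [DecidableEq n] {A B a b : Matrix n n ℂ} (haA : a * A = 1)
    (hbB : b * B = 1) (hBb : B * b = 1) (ha : aᴴ = a) (hb : bᴴ = b)
    (hB : B.PosSemidef) (hle : B ≤ A) : a ≤ b := by
  rw [Matrix.le_iff]
  have h1 : (aᴴ * (A - B) * a).PosSemidef := psd_conj (Matrix.le_iff.1 hle) a
  have h2 : ((a - b)ᴴ * B * (a - b)).PosSemidef := psd_conj hB _
  have h3 := h1.add h2
  have e : aᴴ * (A - B) * a + (a - b)ᴴ * B * (a - b) = b - a := by
    rw [Matrix.conjTranspose_sub, ha, hb]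
    have e1 : a * (A - B) * a = a - a * B * a := by
      rw [Matrix.mul_sub, Matrix.sub_mul, haA, Matrix.one_mul]
    have e2 : (a - b) * B * (a - b) = a * B * a - a - a + b := by
      rw [Matrix.sub_mul, hbB, Matrix.mul_sub, Matrix.sub_mul, Matrix.sub_mul, Matrix.one_mul,
        Matrix.one_mul, Matrix.mul_assoc a B b, hBb, Matrix.mul_one]
      abel
    rw [e1, e2]
    abel
  rwa [e] at h3

end Pool.Agent.H51K
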