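import Pool.Agent.H51K.Basic2

/-!
Spectral toolbox: `Dg V f = V diag(f) V*`, layer decompositions.
-/

set_option autoImplicit false
set_option linter.unusedSectionVars false
open Matrix
open scoped ComplexOrder MatrixOrder

namespace Pool.Agent.H51K

section

variable {n : Type*} [Fintype n] [DecidableEq n]

/-- `V diag(f) V*` -/
noncomputable def Dg (V : Matrix n n ℂ) (f : n → ℝ) : Matrix n n ℂ :=
  V * diagonal (fun i => (f i : ℂ)) * Vᴴ

variable {V : Matrix n n ℂ}

theorem Dg_conj (V : Matrix n n ℂ) (f : n → ℝ) : (Dg V f)ᴴ = Dg V f := by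
  unfold Dg
  rw [conjTranspose_mul, conjTranspose_mul, conjTranspose_conjTranspose, diagonal_conjTranspose,
    Matrix.mul_assoc]
  congr 3
  ext i
  simp

theorem Dg_mul (hV : V ∈ unitaryGroup n ℂ) (f g : n → ℝ) :
    Dg V f * Dg V g = Dg V (fun i => f i * g i) := by
  have h : Vᴴ * V = 1 := mem_unitaryGroup_iff'.1 hV
  unfold Dg
  have e : V * diagonal (fun i => (f i : ℂ)) * Vᴴ * (V * diagonal (fun i => (g i : ℂ)) * Vᴴ) =
      V * diagonal (fun i => (f i : ℂ)) * (Vᴴ * V) * diagonal (fun i => (g i : ℂ)) * Vᴴ := by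
    simp only [Matrix.mul_assoc]
  rw [e, h, Matrix.mul_one, Matrix.mul_assoc V, diagonal_mul_diagonal]
  simp only [Complex.ofReal_mul]

theorem Dg_add (f g : n → ℝ) : Dg V f + Dg V g = Dg V (fun i => f i + g i) := by
  unfold Dg
  rw [← Matrix.add_mul, ← Matrix.mul_add, diagonal_add]
  simp only [Complex.ofReal_add]

theorem Dg_sub (f g : n → ℝ) : Dg V f - Dg V g = Dg V (fun i => f i - g i) := by
  unfold Dg
  rw [← Matrix.sub_mul, ← Matrix.mul_sub, diagonal_sub]
  simp only [Complex.ofReal_sub]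

theorem Dg_smul (c : ℝ) (f : n → ℝ) : c • Dg V f = Dg V (fun i => c * f i) := by
  unfold Dg
  rw [← Matrix.smul_mul, ← Matrix.mul_smul]
  congr 2
  ext i j
  by_cases h : i = j
  · subst h
    simp
  · simp [h]

theorem Dg_zero : Dg V (fun _ => (0 : ℝ)) = 0 := by
  unfold Dg
  simp

theorem Dg_sum {ι : Type*} (s : Finset ι) (f : ι → n → ℝ) :
    ∑ k ∈ s, Dg V (f k) = Dg V (fun i => ∑ k ∈ s, f k i) := by
  classical
  induction s using Finset.induction_on with
  | empty => simp [Dg_zero]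
  | insert a s ha ih =>
    rw [Finset.sum_insert ha, ih, Dg_add]
    congr 1
    ext i
    rw [Finset.sum_insert ha]

theorem Dg_one (hV : V ∈ unitaryGroup n ℂ) : Dg V (fun _ => (1 : ℝ)) = 1 := by
  have h : V * Vᴴ = 1 := mem_unitaryGroup_iff.1 hV
  unfold Dg
  simp [h]

theorem rtr_Dg (hV : V ∈ unitaryGroup n ℂ) (f : n → ℝ) : rtr (Dg V f) = ∑ i, f i := by
  have h : Vᴴ * V = 1 := mem_unitaryGroup_iff'.1 hV
  unfold Dg
  rw [rtr_mul_comm, ← Matrix.mul_assoc, h, Matrix.one_mul]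
  simp [rtr, Matrix.trace]

theorem hs_Dg (hV : V ∈ unitaryGroup n ℂ) (f : n → ℝ) : hs (Dg V f) = ∑ i, f i ^ 2 := by
  unfold hs
  rw [Dg_conj, Dg_mul hV, rtr_Dg hV]
  exact Finset.sum_congr rfl fun i _ => (sq _).symm

theorem Dg_proj (hV : V ∈ unitaryGroup n ℂ) {f : n → ℝ} (hf : ∀ i, f i = 0 ∨ f i = 1) :
    IsProj (Dg V f) := by
  refine ⟨Dg_conj V f, ?_⟩
  rw [Dg_mul hV]
  congr 1
  ext i
  rcases hf i with h | h <;> rw [h] <;> norm_num

theorem Dg_psd (V : Matrix n n ℂ) {f : n → ℝ} (hf : ∀ i, 0 ≤ f i) : (Dg V f).PosSemidef := by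
  unfold Dg
  refine psd_conj' ?_ V
  rw [posSemidef_diagonal_iff]
  intro i
  exact_mod_cast hf i

theorem Dg_le (V : Matrix n n ℂ) {f g : n → ℝ} (h : ∀ i, f i ≤ g i) : Dg V f ≤ Dg V g := by
  rw [Matrix.le_iff, Dg_sub]
  exact Dg_psd V fun i => sub_nonneg.2 (h i)

theorem nonneg_of_Dg_psd (hV : V ∈ unitaryGroup n ℂ) {f : n → ℝ} (h : (Dg V f).PosSemidef)
    (i : n) : 0 ≤ f i := by
  have hV' : Vᴴ * V = 1 := mem_unitaryGroup_iff'.1 hV
  have h1 := psd_conj h V
  have e : Vᴴ * Dg V f * V = diagonal (fun i => (f i : ℂ)) := by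
    unfold Dg
    have : Vᴴ * (V * diagonal (fun i => (f i : ℂ)) * Vᴴ) * V =
        (Vᴴ * V) * diagonal (fun i => (f i : ℂ)) * (Vᴴ * V) := by
      simp only [Matrix.mul_assoc]
    rw [this, hV', Matrix.one_mul, Matrix.mul_one]
  rw [e, posSemidef_diagonal_iff] at h1
  exact_mod_cast h1 i

theorem exists_Dg {A : Matrix n n ℂ} (hA : Aᴴ = A) :
    ∃ V ∈ unitaryGroup n ℂ, ∃ f : n → ℝ, A = Dg V f ∧
      A.rank = Fintype.card {i // f i ≠ 0} := by
  have hA' : A.IsHermitian := hA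
  refine ⟨hA'.eigenvectorUnitary, hA'.eigenvectorUnitary.2, hA'.eigenvalues, ?_,
    hA'.rank_eq_card_non_zero_eigs⟩
  have h := hA'.spectral_theorem
  rw [Unitary.conjStarAlgAut_apply] at h
  exact h

/-- rows of a unitary matrix have norm one -/
theorem unitary_row {x : Matrix n n ℂ} (hx : x ∈ unitaryGroup n ℂ) (a : n) :
    ∑ b, ‖x a b‖ ^ 2 = 1 := by
  have h : x * xᴴ = 1 := mem_unitaryGroup_iff.1 hx
  have h1 := congrArg (fun M : Matrix n n ℂ => (M a a).re) h
  simp only [Matrix.mul_apply, conjTranspose_apply, Matrix.one_apply_eq, Complex.one_re,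
    Complex.re_sum] at h1
  rw [← h1]
  refine Finset.sum_congr rfl fun b _ => ?_
  rw [Complex.star_def, Complex.mul_conj, Complex.ofReal_re, Complex.normSq_eq_norm_sq]

theorem unitary_col {x : Matrix n n ℂ} (hx : x ∈ unitaryGroup n ℂ) (b : n) :
    ∑ a, ‖x a b‖ ^ 2 = 1 := by
  have h : xᴴ * x = 1 := mem_unitaryGroup_iff'.1 hx
  have h1 := congrArg (fun M : Matrix n n ℂ => (M b b).re) h
  simp only [Matrix.mul_apply, conjTranspose_apply, Matrix.one_apply_eq, Complex.one_re,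
    Complex.re_sum] at h1
  rw [← h1]
  refine Finset.sum_congr rfl fun a _ => ?_
  rw [Complex.star_def, ← Complex.normSq_eq_conj_mul_self, Complex.ofReal_re,
    Complex.normSq_eq_norm_sq]

theorem conj_unitary {g : Matrix n n ℂ} (hV : V ∈ unitaryGroup n ℂ) (hg : g ∈ unitaryGroup n ℂ) :
    Vᴴ * g * V ∈ unitaryGroup n ℂ :=
  mul_mem (mul_mem (Unitary.star_mem hV) hg) hV

/-- conjugating a commutator into the eigenbasis -/
theorem comm_Dg_apply (hV : V ∈ unitaryGroup n ℂ) (g : Matrix n n ℂ) (f : n → ℝ) (a b : n) :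
    (Vᴴ * (g * Dg V f - Dg V f * g) * V) a b = (Vᴴ * g * V) a b * ((f b - f a : ℝ) : ℂ) := by
  have hV' : Vᴴ * V = 1 := mem_unitaryGroup_iff'.1 hV
  have e : Vᴴ * (g * Dg V f - Dg V f * g) * V =
      (Vᴴ * g * V) * diagonal (fun i => (f i : ℂ)) * (Vᴴ * V) -
        (Vᴴ * V) * diagonal (fun i => (f i : ℂ)) * (Vᴴ * g * V) := by
    unfold Dg
    simp only [Matrix.mul_sub, Matrix.sub_mul, Matrix.mul_assoc]
  rw [e, hV', Matrix.mul_one, Matrix.one_mul, Matrix.sub_apply, mul_diagonal, diagonal_mul]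
  push_cast
  ring

theorem hs_conj_unitary (hV : V ∈ unitaryGroup n ℂ) (A : Matrix n n ℂ) :
    hs (Vᴴ * A * V) = hs A := by
  rw [hs_mul_unitary hV]
  exact hs_unitary_mul (Unitary.star_mem hV) A

theorem hs_eq_sum' {m : Type*} [Fintype m] (A : Matrix m n ℂ) : hs A = ∑ i, ∑ j, ‖A i j‖ ^ 2 := by
  rw [hs_eq_sum, Finset.sum_comm]

theorem hs_comm_Dg (hV : V ∈ unitaryGroup n ℂ) (g : Matrix n n ℂ) (f : n → ℝ) :
    hs (g * Dg V f - Dg V f * g) =
      ∑ a, ∑ b, ‖(Vᴴ * g * V) a b‖ ^ 2 * (f a - f b) ^ 2 := by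
  rw [← hs_conj_unitary hV, hs_eq_sum']
  refine Finset.sum_congr rfl fun a _ => Finset.sum_congr rfl fun b _ => ?_
  rw [comm_Dg_apply hV, norm_mul, mul_pow, Complex.norm_real, Real.norm_eq_abs, sq_abs]
  ring

end

/-! ### thresholds -/

theorem thresholds (s : Finset ℝ) : (∀ x ∈ s, 0 < x) →
    ∃ (K : ℕ) (w t : Fin K → ℝ), (∀ k, 0 ≤ w k) ∧ (∀ k, 0 ≤ t k) ∧ (∀ k, t k < ∑ k, w k) ∧
      (∀ x ∈ s, x ≤ ∑ k, w k) ∧ (∑ k, w k = 0 ∨ ∑ k, w k ∈ s) ∧
      (∀ x ∈ s, ∑ k, w k * (if t k < x then 1 else 0) = x) := by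
  induction s using Finset.induction_on_max with
  | empty =>
    intro _
    exact ⟨0, Fin.elim0, Fin.elim0, fun k => k.elim0, fun k => k.elim0, fun k => k.elim0,
      by simp, by simp, by simp⟩
  | insert a s ha ih =>
    intro hpos
    obtain ⟨K, w, t, h1, h2, h3, h4, h5, h6⟩ := ih fun x hx => hpos x (Finset.mem_insert_of_mem hx)
    set M := ∑ k, w k with hM
    have ha0 : 0 < a := hpos a (Finset.mem_insert_self _ _)
    have hMa : M < a := by
      rcases h5 with h | h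
      · rw [h]; exact ha0
      · exact ha M h
    have hM0 : 0 ≤ M := Finset.sum_nonneg fun k _ => h1 k
    refine ⟨K + 1, Fin.cons (a - M) w, Fin.cons M t, ?_, ?_, ?_, ?_, ?_, ?_⟩
    · intro k
      refine Fin.cases ?_ (fun k => ?_) k
      · simpa using hMa.le
      · simpa using h1 k
    · intro k
      refine Fin.cases ?_ (fun k => ?_) k
      · simpa using hM0
      · simpa using h2 k
    · have hs : ∑ k : Fin (K + 1), (Fin.cons (a - M) w : Fin (K + 1) → ℝ) k = a := by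
        rw [Fin.sum_univ_succ]
        simp only [Fin.cons_zero, Fin.cons_succ]
        rw [← hM]; ring
      intro k
      rw [hs]
      refine Fin.cases ?_ (fun k => ?_) k
      · simpa using hMa
      · simpa using (h3 k).trans hMa
    · have hs : ∑ k : Fin (K + 1), (Fin.cons (a - M) w : Fin (K + 1) → ℝ) k = a := by
        rw [Fin.sum_univ_succ]
        simp only [Fin.cons_zero, Fin.cons_succ]
        rw [← hM]; ring
      intro x hx
      rw [hs]
      rcases Finset.mem_insert.1 hx with rfl | hx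
      · exact le_rfl
      · exact (ha x hx).le
    · right
      rw [Fin.sum_univ_succ]
      simp only [Fin.cons_zero, Fin.cons_succ]
      rw [← hM, sub_add_cancel]
      exact Finset.mem_insert_self _ _
    · intro x hx
      rw [Fin.sum_univ_succ]
      simp only [Fin.cons_zero, Fin.cons_succ]
      rcases Finset.mem_insert.1 hx with rfl | hx
      · rw [if_pos hMa]
        have : ∑ k, w k * (if t k < x then 1 else 0) = M := by
          rw [hM]
          refine Finset.sum_congr rfl fun k _ => ?_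
          rw [if_pos ((h3 k).trans hMa), mul_one]
        rw [this]; ring
      · rw [if_neg (not_lt.2 (h4 x hx)), h6 x hx]; ring

/-- indicator -/
noncomputable def ind (t x : ℝ) : ℝ := if t < x then 1 else 0

theorem ind_01 (t x : ℝ) : ind t x = 0 ∨ ind t x = 1 := by
  unfold ind
  split_ifs <;> simp

/-- layers of a nonnegative function on a finite set -/
theorem layers {n : Type*} [Fintype n] (f : n → ℝ) (hf : ∀ i, 0 ≤ f i) :
    ∃ (K : ℕ) (w t : Fin K → ℝ), (∀ k, 0 ≤ w k) ∧ (∀ k, 0 ≤ t k) ∧ (∀ k, t k < ∑ k, w k) ∧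
      (∀ i, f i ≤ ∑ k, w k) ∧ (∑ k, w k = 0 ∨ ∃ i, f i = ∑ k, w k) ∧
      (∀ i, ∑ k, w k * ind (t k) (f i) = f i) ∧
      (∀ i j, ∑ k, w k * (ind (t k) (f i) - ind (t k) (f j)) ^ 2 = |f i - f j|) := by
  classical
  obtain ⟨K, w, t, h1, h2, h3, h4, h5, h6⟩ := thresholds ((Finset.univ.image f).filter (0 < ·))
    (fun x hx => (Finset.mem_filter.1 hx).2)
  have h7 : ∀ i, ∑ k, w k * ind (t k) (f i) = f i := by
    intro i
    rcases (hf i).eq_or_lt with h | h
    · rw [← h]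
      refine Finset.sum_eq_zero fun k _ => ?_
      rw [ind, if_neg (not_lt.2 (h2 k)), mul_zero]
    · exact h6 _ (Finset.mem_filter.2 ⟨Finset.mem_image_of_mem f (Finset.mem_univ i), h⟩)
  refine ⟨K, w, t, h1, h2, h3, ?_, ?_, h7, ?_⟩
  · intro i
    rcases (hf i).eq_or_lt with h | h
    · rw [← h]; exact Finset.sum_nonneg fun k _ => h1 k
    · exact h4 _ (Finset.mem_filter.2 ⟨Finset.mem_image_of_mem f (Finset.mem_univ i), h⟩)
  · rcases h5 with h | h
    · exact Or.inl h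
    · obtain ⟨i, -, hi⟩ := Finset.mem_image.1 (Finset.mem_filter.1 h).1
      exact Or.inr ⟨i, hi⟩
  · have key : ∀ i j, f j ≤ f i → ∑ k, w k * (ind (t k) (f i) - ind (t k) (f j)) ^ 2 =
        f i - f j := by
      intro i j hij
      conv_rhs => rw [← h7 i, ← h7 j, ← Finset.sum_sub_distrib]
      refine Finset.sum_congr rfl fun k _ => ?_
      unfold ind
      by_cases a : t k < f i <;> by_cases b : t k < f j
      · rw [if_pos a, if_pos b]; ring
      · rw [if_pos a, if_neg b]; ring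
      · exact absurd (b.trans_le hij) a
      · rw [if_neg a, if_neg b]; ring
    intro i j
    rcases le_total (f j) (f i) with h | h
    · rw [key i j h, abs_of_nonneg (sub_nonneg.2 h)]
    · rw [abs_sub_comm, abs_of_nonneg (sub_nonneg.2 h), ← key j i h]
      refine Finset.sum_congr rfl fun k _ => ?_
      ring

/-- coarea formula -/
theorem coarea {n : Type*} [Fintype n] [DecidableEq n] {V : Matrix n n ℂ}
    (hV : V ∈ unitaryGroup n ℂ) (f : n → ℝ) {K : ℕ} (w t : Fin K → ℝ)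
    (h : ∀ i j, ∑ k, w k * (ind (t k) (f i) - ind (t k) (f j)) ^ 2 = |f i - f j|)
    (g : Matrix n n ℂ) :
    ∑ k, w k * hs (g * Dg V (fun i => ind (t k) (f i)) - Dg V (fun i => ind (t k) (f i)) * g) =
      ∑ a, ∑ b, ‖(Vᴴ * g * V) a b‖ ^ 2 * |f a - f b| := by
  simp only [hs_comm_Dg hV, Finset.mul_sum]
  rw [Finset.sum_comm]
  refine Finset.sum_congr rfl fun a _ => ?_
  rw [Finset.sum_comm]
  refine Finset.sum_congr rfl fun b _ => ?_
  rw [← h a b, Finset.mul_sum]
  refine Finset.sum_congr rfl fun k _ => ?_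
  ring

end Pool.Agent.H51K
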