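import Pool.Agent.H51K.Ov2

/-!
OverlapTheorem.
-/

set_option autoImplicit false
set_option linter.unusedSectionVars false
open Matrix
open scoped ComplexOrder MatrixOrder

namespace Pool.Agent.H51K.Ov

/-- total energy of a greedy system -/
theorem sum_en {S : Type} [Fintype S] {d : ℕ} {g : S → Matrix (Fin d) (Fin d) ℂ} {h : ℝ}
    (hh : 0 ≤ h) (X : Sys g h) :
    ∑ j ∈ Finset.range X.m, En g (X.p j) ≤ 3 * h * d := by
  have h1 : ∑ j ∈ Finset.range X.m, En g (X.p j) ≤ ∑ j ∈ Finset.range X.m, h * rtr (X.p j) :=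
    Finset.sum_le_sum fun j hj => X.en j (Finset.mem_range.1 hj)
  have h2 := mass_le X.proj X.ov
  rw [Fintype.card_fin] at h2
  rw [← Finset.mul_sum] at h1
  have h3 := mul_le_mul_of_nonneg_left h2 hh
  linarith

/-- step 1 -/
theorem step1 {S : Type} [Fintype S] {d : ℕ} {g : S → Matrix (Fin d) (Fin d) ℂ} {h : ℝ}
    (X : Sys g h) {γ ε₂ : ℝ} (hγ : 0 ≤ γ)
    (hG : ∑ a : Fin X.m, (rtr (X.p a * Rs X.p a) / rtr (X.p a) - 2 * γ) *
        hs (X.p a * Ns X.p a) ≤
      ∑ a : Fin X.m, rtr ((X.p a * Ns X.p a)ᴴ * (X.p a * Ns X.p a) * Rs X.p a) + ε₂ * d) :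
    7 / 8 * ∑ j ∈ Finset.range X.m,
      hs (Ns X.p j * X.p j - (1 - rtr (X.p j * Rs X.p j) / rtr (X.p j)) • X.p j) ≤
      (4 * γ + ε₂) * d := by
  set p := X.p with hp
  set m := X.m with hm
  have hproj := X.proj
  rw [← hp, ← hm] at hproj
  set o : ℕ → ℝ := fun j => rtr (p j * Rs p j) / rtr (p j) with ho
  rw [Fin.sum_univ_eq_sum_range (fun a => (rtr (p a * Rs p a) / rtr (p a) - 2 * γ) *
        hs (p a * Ns p a)), Fin.sum_univ_eq_sum_range (fun a =>
          rtr ((p a * Ns p a)ᴴ * (p a * Ns p a) * Rs p a))] at hG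
  have h1 : ∀ j ∈ Finset.range m, rtr ((p j * Ns p j)ᴴ * (p j * Ns p j) * Rs p j) ≤
      o j * hs (p j * Ns p j) - 7 / 8 * hs (Ns p j * p j - (1 - o j) • p j) := by
    intro j hj
    have hj' := Finset.mem_range.1 hj
    have hpos := X.pos j hj'
    rw [← hp] at hpos
    have hov := X.ov j hj'
    rw [← hp] at hov
    have e1 : o j * rtr (p j) = rtr (p j * Rs p j) := div_mul_cancel₀ _ hpos.ne'
    have e2 : rtr (p j * Ns p j) = (1 - o j) * rtr (p j) := by
      rw [sub_mul, e1, one_mul, Rs, Matrix.mul_sub, Matrix.mul_one, rtr_sub]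
      ring
    have h2 := near_diag hproj hj' e2
    have h3 : o j ≤ 1 / 8 := by
      rw [ho]
      exact (div_le_iff₀ hpos).2 hov
    have h4 := hs_nonneg (Ns p j * p j - (1 - o j) • p j)
    have h5 : 7 / 8 * hs (Ns p j * p j - (1 - o j) • p j) ≤
        (1 - o j) * hs (Ns p j * p j - (1 - o j) • p j) :=
      mul_le_mul_of_nonneg_right (by linarith) h4
    have h6 : 1 - (1 - o j) = o j := by ring
    rw [h6] at h2
    linarith
  have h2 := Finset.sum_le_sum h1
  rw [Finset.sum_sub_distrib, ← Finset.mul_sum] at h2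
  have h3 : ∑ j ∈ Finset.range m, (o j - 2 * γ) * hs (p j * Ns p j) =
      ∑ j ∈ Finset.range m, o j * hs (p j * Ns p j) -
        2 * γ * ∑ j ∈ Finset.range m, hs (p j * Ns p j) := by
    rw [Finset.mul_sum, ← Finset.sum_sub_distrib]
    exact Finset.sum_congr rfl fun j _ => by ring
  have h4 : ∑ j ∈ Finset.range m, hs (p j * Ns p j) ≤ 2 * d := by
    have e : ∑ j ∈ Finset.range m, hs (p j * Ns p j) =
        rtr (∑ j ∈ Finset.range m, Ns p j * p j * Ns p j) := by
      rw [rtr_sum]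
      refine Finset.sum_congr rfl fun j hj => ?_
      unfold hs
      rw [yy hproj (Finset.mem_range.1 hj)]
    rw [e]
    have h5 := rtr_mono (sum_NpN_le hproj (le_refl m))
    have h6 := rtr_mono (Rs_le_one hproj (le_refl m))
    rw [rtr_one, Fintype.card_fin] at h6
    rw [rtr_smul] at h5
    linarith
  have h5 : 2 * γ * ∑ j ∈ Finset.range m, hs (p j * Ns p j) ≤ 2 * γ * (2 * d) :=
    mul_le_mul_of_nonneg_left h4 (by linarith)
  rw [h3] at hG
  have h6 : ∑ j ∈ Finset.range m, hs (Ns p j * p j - (1 - rtr (p j * Rs p j) / rtr (p j)) • p j) =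
    ∑ j ∈ Finset.range m, hs (Ns p j * p j - (1 - o j) • p j) := rfl
  rw [h6]
  linarith

/-- step 2 -/
theorem step2 {S : Type} [Fintype S] {d : ℕ} {g : S → Matrix (Fin d) (Fin d) ℂ} {h : ℝ}
    (X : Sys g h) {η : ℝ} (hη : 0 < η)
    (hβ : ∑ j ∈ Finset.range X.m,
      hs (Ns X.p j * X.p j - (1 - rtr (X.p j * Rs X.p j) / rtr (X.p j)) • X.p j) ≤ η ^ 2 * d) :
    1 / 4 * ∑ j ∈ Finset.range X.m, rtr (X.p j * Rs X.p j) + Th (Ns X.p X.m) ≤ 424 * η * d := by
  set p := X.p with hp
  set m := X.m with hm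
  have hproj := X.proj
  rw [← hp, ← hm] at hproj
  set o : ℕ → ℝ := fun j => rtr (p j * Rs p j) / rtr (p j) with ho
  have h1 : ∀ j ∈ Finset.range m, 1 / 4 * rtr (p j * Rs p j) ≤
      (Th (Ns p j) - Th (Ns p (j + 1))) +
        (106 * η * rtr (p j) + 106 / η * hs (Ns p j * p j - (1 - o j) • p j)) := by
    intro j hj
    have hj' := Finset.mem_range.1 hj
    have hpos := X.pos j hj'
    rw [← hp] at hpos
    have hov := X.ov j hj'
    rw [← hp] at hov
    have e1 : o j * rtr (p j) = rtr (p j * Rs p j) := div_mul_cancel₀ _ hpos.ne'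
    have h3 : o j ≤ 1 / 8 := (div_le_iff₀ hpos).2 hov
    have h4 : 0 ≤ o j :=
      div_nonneg (rtr_mul_nonneg (hproj j hj').psd (Rs_psd hproj hj'.le)) hpos.le
    have h5 := potential_step hproj hj' h4 h3
    have h6 : 212 * (Real.sqrt (rtr (p j)) * Real.sqrt (hs (Ns p j * p j - (1 - o j) • p j))) ≤
        106 * η * rtr (p j) + 106 / η * hs (Ns p j * p j - (1 - o j) • p j) := by
      set a := Real.sqrt (rtr (p j)) with ha
      set b := Real.sqrt (hs (Ns p j * p j - (1 - o j) • p j)) with hb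
      have ha2 : a ^ 2 = rtr (p j) := Real.sq_sqrt hpos.le
      have hb2 : b ^ 2 = hs (Ns p j * p j - (1 - o j) • p j) := Real.sq_sqrt (hs_nonneg _)
      rw [← ha2, ← hb2]
      have h7 : 0 ≤ 106 / η * (η * a - b) ^ 2 := by positivity
      have h8 : 106 / η * (η * a - b) ^ 2 = 106 * η * a ^ 2 + 106 / η * b ^ 2 - 212 * (a * b) := by
        field_simp
        ring
      rw [h8] at h7
      linarith
    have e2 : o j / 4 * rtr (p j) = 1 / 4 * rtr (p j * Rs p j) := by rw [← e1]; ring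
    rw [e2] at h5
    linarith
  have h2 := Finset.sum_le_sum h1
  rw [← Finset.mul_sum, Finset.sum_add_distrib, Finset.sum_range_sub', Finset.sum_add_distrib,
    ← Finset.mul_sum, ← Finset.mul_sum, Ns_zero, Th_one] at h2
  have h3 := mass_le X.proj X.ov
  rw [Fintype.card_fin, ← hp, ← hm] at h3
  have h4 : 106 * η * ∑ j ∈ Finset.range m, rtr (p j) ≤ 106 * η * (3 * d) :=
    mul_le_mul_of_nonneg_left h3 (by positivity)
  have h5 : 106 / η * ∑ j ∈ Finset.range m, hs (Ns p j * p j - (1 - o j) • p j) ≤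
      106 / η * (η ^ 2 * d) :=
    mul_le_mul_of_nonneg_left hβ (by positivity)
  have h6 : 106 / η * (η ^ 2 * d) = 106 * η * d := by
    field_simp
  rw [h6] at h5
  linarith

end Pool.Agent.H51K.Ov

namespace Pool.Agent.H51K
open Ov

theorem overlapTheorem (h1 : GilTheorem) (h2 : GilStopTheorem) : OverlapTheorem := by
  intro S _ C hC ε hε
  set η : ℝ := ε / 20000 with hη
  have hη0 : 0 < η := by positivity
  set γ : ℝ := min (η ^ 2 / 16) (1 / 4) with hγ
  have hγ0 : 0 < γ := lt_min (by positivity) (by norm_num)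
  have hγ1 : γ ≤ η ^ 2 / 16 := min_le_left _ _
  have hγ2 : γ ≤ 1 / 4 := min_le_right _ _
  obtain ⟨εE, hεE, h₀, hh₀, H1⟩ := h1 S C hC γ hγ0 (η ^ 2 / 4) (by positivity)
  obtain ⟨εE', hεE', h₀', hh₀', H2⟩ := h2 S C hC (1 / 16) (by norm_num) (ε / 32) (by positivity)
  refine ⟨min (min h₀ h₀') (min (εE / 84) (εE' / 12)), by positivity, ?_⟩
  intro h hh hle
  have hle1 : h ≤ h₀ := hle.trans ((min_le_left _ _).trans (min_le_left _ _))
  have hle2 : h ≤ h₀' := hle.trans ((min_le_left _ _).trans (min_le_right _ _))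
  have hle3 : h ≤ εE / 84 := hle.trans ((min_le_right _ _).trans (min_le_left _ _))
  have hle4 : h ≤ εE' / 12 := hle.trans ((min_le_right _ _).trans (min_le_right _ _))
  obtain ⟨t1, ht1, K1⟩ := H1 h hh hle1
  obtain ⟨t2, ht2, K2⟩ := H2 h hh hle2
  refine ⟨min t1 t2, lt_min ht1 ht2, ?_⟩
  intro d g hd hg hT X
  have hT1 : HasT g C t1 := hT.mono (min_le_left _ _)
  have hT2 : HasT g C t2 := hT.mono (min_le_right _ _)
  have hd0 : (0 : ℝ) < d := by exact_mod_cast hd
  have hEn := sum_en hh.le X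
  have hproj := X.proj
  -- step 1
  have G1 := K1 d g hd hg hT1 X (Fin X.m) (fun _ => Fin d) (fun _ => g)
    (fun a => X.p a * Ns X.p a) (fun a => (a : ℕ))
    (fun a => rtr (X.p a * Rs X.p a) / rtr (X.p a) - 2 * γ)
    (fun _ s => hg s) (fun a => a.2)
    (by
      rw [Fin.sum_univ_eq_sum_range (fun a => (X.p a * Ns X.p a)ᴴ * (X.p a * Ns X.p a))]
      refine (le_of_eq (Finset.sum_congr rfl fun j hj =>
        yy hproj (Finset.mem_range.1 hj))).trans ((sum_NpN_le hproj le_rfl).trans ?_)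
      rw [Matrix.le_iff, ← smul_sub]
      exact (Matrix.le_iff.1 (Rs_le_one hproj le_rfl)).smul (by norm_num))
    (by
      rw [Fin.sum_univ_eq_sum_range (fun a => EnR g g (X.p a * Ns X.p a))]
      unfold EnR
      rw [Finset.sum_comm]
      have k1 : ∀ s ∈ (Finset.univ : Finset S), ∑ j ∈ Finset.range X.m,
          hs (g s * (X.p j * Ns X.p j) - X.p j * Ns X.p j * g s) ≤
          28 * ∑ j ∈ Finset.range X.m, hs (g s * X.p j - X.p j * g s) :=
        fun s _ => en_pN hproj (g s)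
      refine (Finset.sum_le_sum k1).trans ?_
      rw [← Finset.mul_sum, Finset.sum_comm]
      have k2 : ∑ j ∈ Finset.range X.m, ∑ s, hs (g s * X.p j - X.p j * g s) =
        ∑ j ∈ Finset.range X.m, En g (X.p j) := rfl
      rw [k2]
      have k3 : 28 * (3 * h * d) ≤ εE * d := by
        have : 28 * (3 * h * d) = (84 * h) * d := by ring
        rw [this]
        exact mul_le_mul_of_nonneg_right (by linarith) hd0.le
      linarith)
    (fun a => by
      have h3 : rtr (X.p a * Rs X.p a) / rtr (X.p a) ≤ 1 / 8 :=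
        (div_le_iff₀ (X.pos a a.2)).2 (X.ov a a.2)
      show rtr (X.p a * Rs X.p a) / rtr (X.p a) - 2 * γ ≤ 1 / 8 - γ
      linarith)
    (fun a => by
      have hpos := X.pos a a.2
      have hov := X.ov a a.2
      set r := rtr (X.p a) with hr
      set o := rtr (X.p a * Rs X.p a) / r with ho
      have e1 : o * r = rtr (X.p a * Rs X.p a) := div_mul_cancel₀ _ hpos.ne'
      have h3 : o ≤ 1 / 8 := (div_le_iff₀ hpos).2 hov
      have h4 : 0 ≤ o :=
        div_nonneg (rtr_mul_nonneg (hproj a a.2).psd (Rs_psd hproj a.2.le)) hpos.le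
      have h5 : ((X.p a * Ns X.p a).rank : ℝ) ≤ r := by
        rw [hr, ← rank_proj (hproj a a.2)]
        exact_mod_cast Matrix.rank_mul_le_left _ _
      show (1 + (o - 2 * γ)) * ((X.p a * Ns X.p a).rank : ℝ) ≤ _
      have h6 : rtr (X.p a * (1 + Rs X.p a)) = (1 + o) * r := by
        rw [Matrix.mul_add, Matrix.mul_one, rtr_add, ← e1]
        ring
      rw [h6]
      have h7 : (1 + (o - 2 * γ)) * ((X.p a * Ns X.p a).rank : ℝ) ≤ (1 + (o - 2 * γ)) * r :=
        mul_le_mul_of_nonneg_left h5 (by linarith)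
      have h8 : (1 + (o - 2 * γ)) * r ≤ (1 - γ) * (1 + o) * r := by
        refine mul_le_mul_of_nonneg_right ?_ hpos.le
        nlinarith
      linarith)
  have s1 := step1 X hγ0.le G1
  have s1' : ∑ j ∈ Finset.range X.m,
      hs (Ns X.p j * X.p j - (1 - rtr (X.p j * Rs X.p j) / rtr (X.p j)) • X.p j) ≤ η ^ 2 * d := by
    have : (4 * γ + η ^ 2 / 4) * d ≤ (7 / 8 * η ^ 2) * d :=
      mul_le_mul_of_nonneg_right (by nlinarith [sq_nonneg η]) hd0.le
    linarith
  have s2 := step2 X hη0 s1'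
  have hov0 : 0 ≤ ∑ j ∈ Finset.range X.m, rtr (X.p j * Rs X.p j) :=
    Finset.sum_nonneg fun j hj => rtr_mul_nonneg (hproj j (Finset.mem_range.1 hj)).psd
      (Rs_psd hproj (Finset.mem_range.1 hj).le)
  -- the final potential is nonneg
  have hNh : (Ns X.p X.m)ᴴ = Ns X.p X.m := Ns_herm hproj le_rfl
  set N := Ns X.p X.m with hN
  set y : Matrix (Fin d) (Fin d) ℂ := (2 : ℝ) • N - 1 with hy
  have hyh : yᴴ = y := by
    rw [hy, Matrix.conjTranspose_sub, Matrix.conjTranspose_smul, hNh, Matrix.conjTranspose_one]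
    simp
  have hTh : Th N = rtr (yᴴ * y * Rs X.p X.m) := by
    rw [Th_eq, hyh]
    rfl
  have hTh0 : 0 ≤ Th N := by
    rw [hTh]
    exact rtr_mul_nonneg (Matrix.posSemidef_conjTranspose_mul_self y) (Rs_psd hproj le_rfl)
  have hyy : yᴴ * y ≤ 1 := by
    rw [hyh]
    have e : (1 : Matrix (Fin d) (Fin d) ℂ) - y * y = (4 : ℝ) • (N - N * N) := by
      rw [hy, Matrix.sub_mul, Matrix.mul_sub, Matrix.one_mul, Matrix.mul_one, Matrix.smul_mul,
        Matrix.mul_smul, smul_smul]
      module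
    have e2 : N - N * N = N * Xs X.p X.m * N := by
      have h1 : N * (1 + Xs X.p X.m) = 1 := Ns_mul hproj le_rfl
      have : N * Xs X.p X.m = 1 - N := by
        rw [Matrix.mul_add, Matrix.mul_one] at h1
        rw [eq_sub_iff_add_eq, add_comm]
        exact h1
      rw [this, Matrix.sub_mul, Matrix.one_mul]
    rw [Matrix.le_iff, e, e2]
    have h3 := psd_conj (Xs_psd hproj le_rfl) N
    rw [hNh] at h3
    exact h3.smul (by norm_num)
  have G2 := K2 d g hd hg hT2 X Unit (fun _ => Fin d) (fun _ => g) (fun _ => y)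
    (fun _ => 1 / 16) (fun _ s => hg s)
    (by
      rw [Fintype.sum_unique]
      refine hyy.trans ?_
      rw [Matrix.le_iff]
      have : (2 : ℝ) • (1 : Matrix (Fin d) (Fin d) ℂ) - 1 = 1 := by
        rw [two_smul]
        abel
      rw [this]
      exact Matrix.PosSemidef.one)
    (by
      rw [Fintype.sum_unique]
      unfold EnR
      have k1 : ∀ s ∈ (Finset.univ : Finset S), hs (g s * y - y * g s) ≤
          4 * ∑ j ∈ Finset.range X.m, hs (g s * X.p j - X.p j * g s) := by
        intro s _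
        have e : g s * y - y * g s = (2 : ℝ) • (g s * N - N * g s) := by
          rw [hy, Matrix.mul_sub, Matrix.sub_mul, Matrix.mul_smul, Matrix.smul_mul, smul_sub,
            Matrix.mul_one, Matrix.one_mul]
          abel
        rw [e, hs_smul]
        have := comm_Ns_le hproj (le_refl X.m) (g s)
        rw [← hN] at this
        linarith
      refine (Finset.sum_le_sum k1).trans ?_
      rw [← Finset.mul_sum, Finset.sum_comm]
      have k2 : ∑ j ∈ Finset.range X.m, ∑ s, hs (g s * X.p j - X.p j * g s) =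
        ∑ j ∈ Finset.range X.m, En g (X.p j) := rfl
      rw [k2]
      have k3 : 4 * (3 * h * d) ≤ εE' * d := by
        have : 4 * (3 * h * d) = (12 * h) * d := by ring
        rw [this]
        exact mul_le_mul_of_nonneg_right (by linarith) hd0.le
      linarith)
    (fun _ => by norm_num)
  rw [Fintype.sum_unique, Fintype.sum_unique, ← hTh] at G2
  have hηd : 424 * η * d = 424 / 20000 * (ε * d) := by rw [hη]; ring
  have hεd : 0 < ε * d := by positivity
  have hεd' : ε / 32 * d = 1 / 32 * (ε * d) := by ring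
  rw [hηd] at s2
  rw [hεd'] at G2
  constructor
  · linarith
  · linarith

end Pool.Agent.H51K
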