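import Pool.Agent.H51K.Basic

/-!
Approximate polar decomposition.
-/

set_option autoImplicit false
open Matrix Filter Topology
open scoped ComplexOrder MatrixOrder

namespace Pool.Agent.H51K

variable {n : Type*} [Fintype n] [DecidableEq n]

/-- invertible case -/
theorem polar_of_isUnit {A : Matrix n n ℂ} (hA : IsUnit A) :
    ∃ V ∈ Matrix.unitaryGroup n ℂ, hs (A - V) ≤ hs (Aᴴ * A - 1) := by
  obtain ⟨P, hP, hP0⟩ := exists_sqrt (Matrix.posSemidef_conjTranspose_mul_self A)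
  have hPH : Pᴴ = P := hP0.1
  rw [hPH] at hP
  have hdet : IsUnit A.det := (Matrix.isUnit_iff_isUnit_det A).1 hA
  have hPd : IsUnit P.det := by
    have h1 : P.det * P.det = star A.det * A.det := by
      rw [← Matrix.det_mul, hP, Matrix.det_mul, Matrix.det_conjTranspose]
    have h2 : IsUnit (P.det * P.det) := by
      rw [h1]
      exact hdet.star.mul hdet
    exact isUnit_of_mul_isUnit_left h2
  have hPu : P⁻¹ * P = 1 := Matrix.nonsing_inv_mul P hPd
  have hPu' : P * P⁻¹ = 1 := Matrix.mul_nonsing_inv P hPd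
  have hPi : (P⁻¹)ᴴ = P⁻¹ := by rw [Matrix.conjTranspose_nonsing_inv, hPH]
  refine ⟨A * P⁻¹, ?_, ?_⟩
  · rw [Matrix.mem_unitaryGroup_iff']
    show (A * P⁻¹)ᴴ * (A * P⁻¹) = 1
    rw [Matrix.conjTranspose_mul, hPi]
    calc P⁻¹ * Aᴴ * (A * P⁻¹) = P⁻¹ * (Aᴴ * A) * P⁻¹ := by simp only [Matrix.mul_assoc]
      _ = (P⁻¹ * P) * (P * P⁻¹) := by rw [← hP]; simp only [Matrix.mul_assoc]
      _ = 1 := by rw [hPu, hPu', Matrix.mul_one]
  · have hV : (A * P⁻¹)ᴴ * (A * P⁻¹) = 1 := by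
      rw [Matrix.conjTranspose_mul, hPi]
      calc P⁻¹ * Aᴴ * (A * P⁻¹) = P⁻¹ * (Aᴴ * A) * P⁻¹ := by simp only [Matrix.mul_assoc]
        _ = (P⁻¹ * P) * (P * P⁻¹) := by rw [← hP]; simp only [Matrix.mul_assoc]
        _ = 1 := by rw [hPu, hPu', Matrix.mul_one]
    have e : A - A * P⁻¹ = (A * P⁻¹) * (P - 1) := by
      rw [Matrix.mul_sub, Matrix.mul_one, Matrix.mul_assoc, hPu, Matrix.mul_one]
    have h1 : hs (A - A * P⁻¹) ≤ hs (P - 1) := by
      rw [e]
      have := hs_mul_le (κ := 1) (A := A * P⁻¹) (by rw [hV, one_smul]) (P - 1)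
      linarith
    refine h1.trans ?_
    rw [← hP]
    -- `P² - 1 = (P + 1) (P - 1)` and `(P + 1)² ≥ 1`
    have e2 : P * P - 1 = (P + 1) * (P - 1) := by
      simp only [Matrix.mul_sub, Matrix.add_mul, Matrix.mul_one, Matrix.one_mul]
      abel
    rw [e2]
    have h3 : (1 : Matrix n n ℂ) ≤ (P + 1) * (P + 1) := by
      rw [Matrix.le_iff]
      have e3 : (P + 1) * (P + 1) - 1 = Pᴴ * P + (P + P) := by
        rw [hPH]
        simp only [Matrix.mul_add, Matrix.add_mul, Matrix.mul_one, Matrix.one_mul]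
        abel
      rw [e3]
      exact (Matrix.posSemidef_conjTranspose_mul_self P).add (hP0.add hP0)
    have h4 := rtr_mono (conj_mono h3 (P - 1))
    have e4 : (P - 1)ᴴ * ((P + 1) * (P + 1)) * (P - 1) =
        ((P + 1) * (P - 1))ᴴ * ((P + 1) * (P - 1)) := by
      rw [Matrix.conjTranspose_mul, Matrix.conjTranspose_add, Matrix.conjTranspose_one, hPH]
      simp only [Matrix.mul_assoc]
    rw [e4, Matrix.mul_one] at h4
    exact h4

omit [DecidableEq n] in
theorem continuous_hs {X : Type*} [TopologicalSpace X] {f : X → Matrix n n ℂ}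
    (hf : Continuous f) : Continuous (fun x => hs (f x)) := by
  simp only [hs_eq_sum]
  refine continuous_finsetSum _ (fun j _ => continuous_finsetSum _ (fun i _ => ?_))
  exact (hf.matrix_elem i j).norm.pow 2

/-- every square matrix is near a unitary, in terms of `hs (A* A - 1)` -/
theorem exists_unitary_near (A : Matrix n n ℂ) {η : ℝ} (hη : 0 < η) :
    ∃ V ∈ Matrix.unitaryGroup n ℂ, hs (A - V) ≤ 2 * hs (Aᴴ * A - 1) + η := by
  obtain ⟨B, hBd⟩ : ∃ B : ℝ → Matrix n n ℂ, ∀ t, B t = A + t • (1 : Matrix n n ℂ) :=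
    ⟨_, fun _ => rfl⟩
  have hB : Continuous B := by
    have : B = fun t => A + t • (1 : Matrix n n ℂ) := funext hBd
    rw [this]
    exact continuous_const.add (continuous_id.smul continuous_const)
  obtain ⟨f, hfd⟩ : ∃ f : ℝ → ℝ, ∀ t, f t =
      2 * hs ((B t)ᴴ * B t - 1) + 2 * hs (t • (1 : Matrix n n ℂ)) := ⟨_, fun _ => rfl⟩
  have hf : Continuous f := by
    have : f = fun t => 2 * hs ((B t)ᴴ * B t - 1) + 2 * hs (t • (1 : Matrix n n ℂ)) := funext hfd
    rw [this]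
    have h1 : Continuous fun t : ℝ => hs ((B t)ᴴ * B t - 1) :=
      continuous_hs (((hB.matrix_conjTranspose).matrix_mul hB).sub continuous_const)
    have h2 : Continuous fun t : ℝ => hs (t • (1 : Matrix n n ℂ)) :=
      continuous_hs (continuous_id.smul continuous_const)
    exact (h1.const_mul 2).add (h2.const_mul 2)
  have hB0 : B 0 = A := by rw [hBd, zero_smul, add_zero]
  have hf0 : f 0 = 2 * hs (Aᴴ * A - 1) := by
    rw [hfd, hB0, zero_smul, hs_zero, mul_zero, add_zero]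
  have h1 : ∀ᶠ t in 𝓝 (0 : ℝ), f t < 2 * hs (Aᴴ * A - 1) + η := by
    have h0 : Tendsto f (𝓝 0) (𝓝 (f 0)) := hf.tendsto 0
    exact h0.eventually_lt_const (by rw [hf0]; linarith)
  have h2 : ∀ᶠ t in 𝓝[≠] (0 : ℝ), IsUnit (B t) := by
    have hfin : (spectrum ℝ A).Finite := A.finite_real_spectrum
    have hfin2 : ((fun t : ℝ => -t) ⁻¹' (spectrum ℝ A)).Finite :=
      hfin.preimage neg_injective.injOn
    have h4 : IsClosed (((fun t : ℝ => -t) ⁻¹' (spectrum ℝ A)) \ {0}) :=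
      (hfin2.subset Set.sdiff_subset).isClosed
    have h5 : (((fun t : ℝ => -t) ⁻¹' (spectrum ℝ A)) \ {0})ᶜ ∈ 𝓝 (0 : ℝ) :=
      h4.isOpen_compl.mem_nhds (by simp)
    have h3 : (((fun t : ℝ => -t) ⁻¹' (spectrum ℝ A)) \ {0})ᶜ ∈ 𝓝[≠] (0 : ℝ) :=
      mem_nhdsWithin_of_mem_nhds h5
    filter_upwards [h3, self_mem_nhdsWithin] with t ht ht0
    have h6 : -t ∉ spectrum ℝ A := fun h => ht ⟨h, ht0⟩
    rw [spectrum.notMem_iff] at h6
    have h7 : B t = -(algebraMap ℝ (Matrix n n ℂ) (-t) - A) := by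
      rw [hBd, Algebra.algebraMap_eq_smul_one, neg_smul]
      abel
    rw [h7]
    exact h6.neg
  obtain ⟨t, ht1, ht2⟩ := ((h1.filter_mono nhdsWithin_le_nhds).and h2).exists
  obtain ⟨V, hV, hV2⟩ := polar_of_isUnit ht2
  refine ⟨V, hV, ?_⟩
  have e : A - V = (B t - V) - t • (1 : Matrix n n ℂ) := by
    rw [hBd]; abel
  rw [e]
  have h9 := hs_sub_le (B t - V) (t • (1 : Matrix n n ℂ))
  have h10 := hfd t
  linarith

end Pool.Agent.H51K
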