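import Pool.Agent.H51K.DecDefs
import Pool.Agent.H51K.Ov3
import Pool.Agent.H51K.UPolar
import Pool.Agent.H51K.LayA

/-!
Existence of block data and the energy of the blocks.
-/

set_option autoImplicit false
set_option linter.unusedSectionVars false
open Matrix
open scoped ComplexOrder MatrixOrder

namespace Pool.Agent.H51K.DecP

section
variable {n : Type} [Fintype n] [DecidableEq n]

theorem exists_iota {p : Matrix n n ℂ} (hp : IsProj p) :
    ∃ (r : ℕ) (ι : Matrix n (Fin r) ℂ), ιᴴ * ι = 1 ∧ ι * ιᴴ = p := by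
  obtain ⟨V, hV, f, hf, -⟩ := exists_Dg hp.1
  have hV' : Vᴴ * V = 1 := mem_unitaryGroup_iff'.1 hV
  have h1 : ∀ i, f i * f i = f i := by
    intro i
    have h2 : Dg V f * Dg V f = Dg V f := by rw [← hf, hp.2]
    rw [Dg_mul hV] at h2
    have h3 : ∀ g : n → ℝ, Vᴴ * Dg V g * V = diagonal (fun i => (g i : ℂ)) := by
      intro g
      unfold Dg
      have : Vᴴ * (V * diagonal (fun i => (g i : ℂ)) * Vᴴ) * V =
          (Vᴴ * V) * diagonal (fun i => (g i : ℂ)) * (Vᴴ * V) := by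
        simp only [Matrix.mul_assoc]
      rw [this, hV', Matrix.one_mul, Matrix.mul_one]
    have h4 := h3 (fun i => f i * f i)
    rw [h2, h3 f] at h4
    have h5 := congrFun (congrFun h4 i) i
    rw [diagonal_apply_eq, diagonal_apply_eq] at h5
    exact_mod_cast h5.symm
  have h01 : ∀ i, f i = 0 ∨ f i = 1 := by
    intro i
    have h2 : f i * (f i - 1) = 0 := by have := h1 i; linarith
    rcases mul_eq_zero.1 h2 with h | h
    · exact Or.inl h
    · exact Or.inr (by linarith)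
  obtain ⟨e⟩ : Nonempty (Fin (Fintype.card {i // f i = 1}) ≃ {i // f i = 1}) :=
    ⟨(Fintype.equivFin _).symm⟩
  obtain ⟨ι, hι⟩ : ∃ ι : Matrix n (Fin (Fintype.card {i // f i = 1})) ℂ,
      ∀ a k, ι a k = V a (e k).1 := ⟨Matrix.of fun a k => V a (e k).1, fun _ _ => rfl⟩
  refine ⟨Fintype.card {i // f i = 1}, ι, ?_, ?_⟩
  · ext k l
    have h2 : (Vᴴ * V) (e k).1 (e l).1 = (1 : Matrix n n ℂ) (e k).1 (e l).1 := by rw [hV']
    rw [Matrix.mul_apply] at h2 ⊢
    rw [Matrix.one_apply] at h2 ⊢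
    simp only [Matrix.conjTranspose_apply, hι] at h2 ⊢
    rw [h2]
    by_cases hkl : k = l
    · subst hkl
      simp
    · have hne : (e k).1 ≠ (e l).1 := fun h => hkl (e.injective (Subtype.ext h))
      rw [if_neg hne, if_neg hkl]
  · rw [hf]
    ext a b
    unfold Dg
    rw [Matrix.mul_apply, Matrix.mul_apply]
    have h2 : ∀ i, (V * diagonal (fun i => (f i : ℂ))) a i * Vᴴ i b =
        if f i = 1 then V a i * star (V b i) else 0 := by
      intro i
      rw [Matrix.mul_diagonal, Matrix.conjTranspose_apply]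
      rcases h01 i with h | h
      · rw [h]; simp
      · rw [h]; simp
    rw [Finset.sum_congr rfl fun i _ => h2 i]
    rw [← Finset.sum_filter]
    have h3 : ∑ i ∈ Finset.univ.filter (fun i => f i = 1), V a i * star (V b i) =
        ∑ i : {i // f i = 1}, V a i.1 * star (V b i.1) := by
      refine (Finset.sum_subtype _ ?_ _)
      intro x
      simp
    rw [h3]
    refine Fintype.sum_equiv e _ _ (fun k => ?_)
    rw [Matrix.conjTranspose_apply, hι, hι]

theorem psd_hs_le {A : Matrix n n ℂ} (h0 : A.PosSemidef) (h1 : A ≤ 1) : hs A ≤ rtr A := by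
  unfold hs
  have hA : Aᴴ = A := h0.1
  rw [hA]
  have := rtr_mul_mono h1 h0
  rwa [Matrix.one_mul] at this

/-- one block -/
theorem block_near {p g : Matrix n n ℂ} (hp : IsProj p) (hg : g ∈ unitaryGroup n ℂ) {r : ℕ}
    {ι : Matrix n (Fin r) ℂ} (h1 : ιᴴ * ι = 1) (h2 : ι * ιᴴ = p) {η : ℝ} (hη : 0 < η) :
    ∃ W ∈ unitaryGroup (Fin r) ℂ, hs (g * ι - ι * W) ≤ 6 * hs (g * p - p * g) + η := by
  have hg' : gᴴ * g = 1 := mem_unitaryGroup_iff'.1 hg
  set B : Matrix (Fin r) (Fin r) ℂ := ιᴴ * g * ι with hB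
  obtain ⟨W, hW, hW2⟩ := exists_unitary_near B (η := η / 2) (by positivity)
  refine ⟨W, hW, ?_⟩
  -- `(1-p) g ι`
  have hιp : p * ι = ι := by
    rw [← h2, Matrix.mul_assoc, h1, Matrix.mul_one]
  have hιp' : ιᴴ * p = ιᴴ := by
    rw [← h2, ← Matrix.mul_assoc, h1, Matrix.one_mul]
  have e1 : hs ((1 - p) * g * ι) = hs ((1 - p) * g * p) := by
    rw [hs_eq', hs_eq']
    congr 1
    rw [Matrix.conjTranspose_mul ((1 - p) * g) ι, Matrix.conjTranspose_mul ((1 - p) * g) p, hp.1]
    have : (1 - p) * g * p * (p * ((1 - p) * g)ᴴ) = (1 - p) * g * (p * p) * ((1 - p) * g)ᴴ := by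
      simp only [Matrix.mul_assoc]
    rw [this, hp.2, ← h2]
    simp only [Matrix.mul_assoc]
  have e2 : hs ((1 - p) * g * p) ≤ hs (g * p - p * g) := by
    have e3 : (1 - p) * g * p = (1 - p) * (g * p - p * g) := by
      have : (1 - p) * p = 0 := by rw [Matrix.sub_mul, Matrix.one_mul, hp.2, sub_self]
      rw [Matrix.mul_sub, ← Matrix.mul_assoc (1 - p) p g, this, Matrix.zero_mul, sub_zero,
        Matrix.mul_assoc]
    rw [e3]
    have h3 : (1 - p)ᴴ * (1 - p) ≤ (1 : ℝ) • (1 : Matrix n n ℂ) := by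
      rw [hp.one_sub.1, hp.one_sub.2, one_smul]
      exact hp.one_sub.le_one
    have := hs_mul_le h3 (g * p - p * g)
    rwa [one_mul] at this
  -- `1 - B* B`
  have e4 : 1 - Bᴴ * B = ((1 - p) * g * ι)ᴴ * ((1 - p) * g * ι) := by
    have h3 : (1 - p)ᴴ * (1 - p) = 1 - p := by rw [hp.one_sub.1, hp.one_sub.2]
    have h4 : ((1 - p) * g * ι)ᴴ * ((1 - p) * g * ι) =
        ιᴴ * gᴴ * ((1 - p)ᴴ * (1 - p)) * (g * ι) := by
      rw [Matrix.conjTranspose_mul, Matrix.conjTranspose_mul]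
      simp only [Matrix.mul_assoc]
    rw [h4, h3, hB, Matrix.conjTranspose_mul, Matrix.conjTranspose_mul,
      Matrix.conjTranspose_conjTranspose, Matrix.mul_sub, Matrix.sub_mul, Matrix.mul_one]
    have h5 : ιᴴ * gᴴ * (g * ι) = 1 := by
      have : ιᴴ * gᴴ * (g * ι) = ιᴴ * (gᴴ * g) * ι := by simp only [Matrix.mul_assoc]
      rw [this, hg', Matrix.mul_one, h1]
    rw [h5, ← h2]
    simp only [Matrix.mul_assoc]
  have e5 : hs (Bᴴ * B - 1) ≤ hs ((1 - p) * g * ι) := by
    rw [hs_sub_comm]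
    have h3 : (1 - Bᴴ * B).PosSemidef := by
      rw [e4]; exact posSemidef_conjTranspose_mul_self _
    have h4 : 1 - Bᴴ * B ≤ 1 := by
      rw [Matrix.le_iff]
      have : 1 - (1 - Bᴴ * B) = Bᴴ * B := by abel
      rw [this]; exact posSemidef_conjTranspose_mul_self _
    have h5 := psd_hs_le h3 h4
    refine h5.trans (le_of_eq ?_)
    rw [e4]
    rfl
  have e6 : g * ι - ι * W = (1 - p) * g * ι + ι * (B - W) := by
    have : ι * B = p * g * ι := by
      rw [hB, ← h2]
      simp only [Matrix.mul_assoc]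
    rw [Matrix.mul_sub, this, Matrix.sub_mul, Matrix.sub_mul, Matrix.one_mul]
    abel
  have e7 : hs (ι * (B - W)) ≤ hs (B - W) := by
    have := hs_mul_le (κ := 1) (A := ι) (by rw [h1, one_smul]) (B - W)
    rwa [one_mul] at this
  -- the two summands are orthogonal, but we do not need it
  have e8 : ip ((1 - p) * g * ι) (ι * (B - W)) = 0 := by
    unfold ip
    have h3 : ((1 - p) * g * ι)ᴴ * (ι * (B - W)) = ((g * ι)ᴴ * ((1 - p) * p)) * (ι * (B - W)) := by
      have h4 : ((1 - p) * g * ι)ᴴ = (g * ι)ᴴ * (1 - p) := by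
        rw [Matrix.mul_assoc, Matrix.conjTranspose_mul, hp.one_sub.1]
      rw [h4]
      have h5 : p * (ι * (B - W)) = ι * (B - W) := by rw [← Matrix.mul_assoc, hιp]
      calc (g * ι)ᴴ * (1 - p) * (ι * (B - W)) = (g * ι)ᴴ * (1 - p) * (p * (ι * (B - W))) := by
            rw [h5]
        _ = _ := by simp only [Matrix.mul_assoc]
    rw [h3, Matrix.sub_mul, Matrix.one_mul, hp.2, sub_self, Matrix.mul_zero, Matrix.zero_mul,
      rtr_zero]
  rw [e6, hs_add, e8]
  have h9 := hs_nonneg (g * p - p * g)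
  nlinarith [e1, e2, e5, e7, hW2, h9]

end

theorem bdExists : BDExists := by
  intro S _ h hh d g hg X
  have hch : ∀ j : Fin X.m, ∃ (r : ℕ) (ι : Matrix (Fin d) (Fin r) ℂ), ιᴴ * ι = 1 ∧
      ι * ιᴴ = X.p j := fun j => exists_iota (X.proj j j.2)
  choose r ι h1 h2 using hch
  obtain ⟨cS, hcS⟩ : ∃ cS : ℝ, cS = Fintype.card S := ⟨_, rfl⟩
  have hcS0 : 0 ≤ cS := by rw [hcS]; positivity
  have hp1 : ∀ j : Fin X.m, 1 ≤ rtr (X.p j) := fun j =>
    (X.proj j j.2).one_le_rtr (X.pos j j.2)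
  have hW : ∀ (j : Fin X.m) (s : S), ∃ W ∈ unitaryGroup (Fin (r j)) ℂ,
      hs (g s * ι j - ι j * W) ≤ 6 * hs (g s * X.p j - X.p j * g s) + h / (cS + 1) := fun j s =>
    block_near (X.proj j j.2) (hg s) (h1 j) (h2 j) (by positivity)
  choose W hW1 hW2 using hW
  refine ⟨⟨r, ?_, ι, h1, h2, W, hW1, ?_⟩⟩
  · intro j
    rcases Nat.eq_zero_or_pos (r j) with h0 | h0
    · exfalso
      have h3 := hp1 j
      have h4 : rtr (X.p j) = rtr ((ι j)ᴴ * ι j) := by rw [← h2 j, rtr_mul_comm]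
      rw [h1 j, rtr_one, Fintype.card_fin, h0] at h4
      norm_num at h4
      linarith
    · exact h0
  · intro j
    unfold EnR
    have h3 := Finset.sum_le_sum (fun s (_ : s ∈ Finset.univ) => hW2 j s)
    refine h3.trans ?_
    rw [Finset.sum_add_distrib, ← Finset.mul_sum, Finset.sum_const, Finset.card_univ,
      nsmul_eq_mul, ← hcS]
    have h4 := X.en j j.2
    unfold En EnR at h4
    have h5 : cS * (h / (cS + 1)) ≤ h := by
      rw [mul_div_assoc', div_le_iff₀ (by positivity)]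
      nlinarith
    have h6 : h ≤ h * rtr (X.p j) := by
      have := mul_le_mul_of_nonneg_left (hp1 j) hh.le
      linarith
    linarith

end Pool.Agent.H51K.DecP
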