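import Pool.Agent.H51K.P1Iface

/-!
Interface of the flatness part of DecTheorem.
-/

set_option autoImplicit false
open Matrix
open scoped ComplexOrder MatrixOrder

namespace Pool.Agent.H51K

/-- PART 1h (flatness).  `ι j : ℂ^{r_j} → ℂ^d` isometry onto the range of `p_j`,
`v_j = N_j ι_j`. -/
def FlatTheorem : Prop :=
  ∀ (S : Type) [Fintype S] (C : ℝ), 0 < C → ∀ εf > 0, ∃ tf > 0, ∃ e₀ > 0, ∃ h₀ > 0,
    ∀ h > 0, h ≤ h₀ → ∃ t > 0,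
    ∀ (d : ℕ) (g : S → Matrix (Fin d) (Fin d) ℂ), 0 < d →
      (∀ s, g s ∈ Matrix.unitaryGroup (Fin d) ℂ) → HasT g C t →
    ∀ (X : Sys g h) (r : Fin X.m → ℕ) (ι : ∀ j : Fin X.m, Matrix (Fin d) (Fin (r j)) ℂ)
      (W : ∀ j : Fin X.m, S → Matrix (Fin (r j)) (Fin (r j)) ℂ),
      (∀ j s, W j s ∈ Matrix.unitaryGroup (Fin (r j)) ℂ) →
      (∀ j, (ι j)ᴴ * ι j = 1) → (∀ j : Fin X.m, ι j * (ι j)ᴴ = X.p j) →
      (∑ j : Fin X.m, EnR g (W j) (Ns X.p j * ι j) ≤ e₀ * d) →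
      (∑ j ∈ Finset.range X.m, rtr (X.p j * Rs X.p j) ≤ e₀ * d) →
    ∀ (Λ : Type) [Fintype Λ] (T : Fin X.m → Λ → Type) [∀ j a, Fintype (T j a)]
      [∀ j a, DecidableEq (T j a)]
      (W' : ∀ j a, S → Matrix (T j a) (T j a) ℂ) (y : ∀ j a, Matrix (T j a) (Fin (r j)) ℂ)
      (b : ∀ j, Λ → Matrix (Fin (r j)) (Fin (r j)) ℂ),
      (∀ j a s, W' j a s ∈ Matrix.unitaryGroup (T j a) ℂ) →
      (∀ j a, (b j a)ᴴ = b j a) → (∀ j a, (b j a)ᴴ * b j a ≤ 1) →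
      (∀ j, ∑ a, (y j a)ᴴ * y j a ≤ 1) →
      (∑ j, ∑ a, EnR (W' j a) (W j) (y j a) ≤ tf * d) →
      ∑ j, ∑ a, (rtr (b j a * ((y j a)ᴴ * y j a)) - hs (y j a) / r j * rtr (b j a)) ≤ εf * d

end Pool.Agent.H51K
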