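import Pool.Agent.H51K.DecA
import Pool.Agent.H51K.FlatIface

/-!
Energy of the blocks; all fields of `Dec` except flatness.
-/

set_option autoImplicit false
set_option linter.unusedSectionVars false
open Matrix
open scoped ComplexOrder MatrixOrder

namespace Pool.Agent.H51K.DecP

section
variable {S : Type} [Fintype S] {d : ℕ} {g : S → Matrix (Fin d) (Fin d) ℂ} {h : ℝ} {X : Sys g h}

theorem hs_mul_iota (B : BD X) (j : Fin X.m) (A : Matrix (Fin d) (Fin d) ℂ) :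
    hs (A * B.iota j) = hs (A * X.p j) := by
  have hp := X.proj j j.2
  rw [hs_eq', hs_eq', Matrix.conjTranspose_mul, Matrix.conjTranspose_mul, hp.1]
  have e : A * X.p j * (X.p j * Aᴴ) = A * (X.p j * X.p j) * Aᴴ := by
    simp only [Matrix.mul_assoc]
  rw [e, hp.2, ← B.rng j]
  simp only [Matrix.mul_assoc]

theorem Ns_contr (X : Sys g h) {j : ℕ} (hj : j ≤ X.m) :
    (Ns X.p j)ᴴ * Ns X.p j ≤ (1 : ℝ) • (1 : Matrix (Fin d) (Fin d) ℂ) := by
  rw [one_smul, Ns_herm X.proj hj]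
  exact trace_step_aux X.proj hj

theorem v_contr (B : BD X) (j : Fin X.m) :
    (B.v j)ᴴ * B.v j ≤ (1 : Matrix (Fin (B.r j)) (Fin (B.r j)) ℂ) := by
  have h1 := conj_mono (Ns_contr X j.2.le) (B.iota j)
  have h2 : (B.v j)ᴴ * B.v j = (B.iota j)ᴴ * ((Ns X.p j)ᴴ * Ns X.p j) * B.iota j := by
    unfold BD.v
    rw [Matrix.conjTranspose_mul]
    simp only [Matrix.mul_assoc]
  rw [h2]
  rwa [one_smul, Matrix.mul_one, B.iso j] at h1

theorem v_vH (B : BD X) (j : Fin X.m) :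
    B.v j * (B.v j)ᴴ = Ns X.p j * X.p j * Ns X.p j := by
  unfold BD.v
  rw [Matrix.conjTranspose_mul, Ns_herm X.proj j.2.le, ← B.rng j]
  simp only [Matrix.mul_assoc]

theorem sum_v (B : BD X) :
    ∑ j, B.v j * (B.v j)ᴴ = ∑ j ∈ Finset.range X.m, Ns X.p j * X.p j * Ns X.p j := by
  rw [← Fin.sum_univ_eq_sum_range (fun j => Ns X.p j * X.p j * Ns X.p j)]
  exact Finset.sum_congr rfl fun j _ => v_vH B j

theorem v_sum (B : BD X) :
    ∑ j, B.v j * (B.v j)ᴴ ≤ (2 : ℝ) • (1 : Matrix (Fin d) (Fin d) ℂ) := by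
  rw [sum_v]
  refine (sum_NpN_le X.proj le_rfl).trans ?_
  rw [Matrix.le_iff, ← smul_sub]
  exact (Matrix.le_iff.1 (Rs_le_one X.proj le_rfl)).smul (by norm_num)

theorem r_eq (B : BD X) (j : Fin X.m) : (B.r j : ℝ) = rtr (X.p j) := by
  rw [← B.rng j, rtr_mul_comm, B.iso j, rtr_one, Fintype.card_fin]

theorem hs_v (B : BD X) (j : Fin X.m) : hs (B.v j) = hs (Ns X.p j * X.p j) :=
  hs_mul_iota B j _

theorem mass (X : Sys g h) : ∑ j : Fin X.m, rtr (X.p j) ≤ 3 * d := by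
  have h2 := mass_le X.proj X.ov
  rw [Fintype.card_fin] at h2
  rwa [Fin.sum_univ_eq_sum_range (fun j => rtr (X.p j))]

theorem energy (hh : 0 < h) (hg : ∀ s, g s ∈ unitaryGroup (Fin d) ℂ) (B : BD X) :
    ∑ j, EnR g (B.W j) (B.v j) ≤ 200 * h * d := by
  have h1 : ∀ (j : Fin X.m) (s : S), hs (g s * B.v j - B.v j * B.W j s) ≤
      2 * hs ((g s * Ns X.p j - Ns X.p j * g s) * X.p j) +
      2 * hs (g s * B.iota j - B.iota j * B.W j s) := by
    intro j s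
    have e : g s * B.v j - B.v j * B.W j s =
        (g s * Ns X.p j - Ns X.p j * g s) * B.iota j +
        Ns X.p j * (g s * B.iota j - B.iota j * B.W j s) := by
      unfold BD.v
      rw [Matrix.sub_mul, Matrix.mul_sub]
      simp only [Matrix.mul_assoc]
      abel
    rw [e]
    refine (hs_add_le _ _).trans ?_
    rw [hs_mul_iota]
    have k1 := hs_mul_le (Ns_contr X j.2.le) (g s * B.iota j - B.iota j * B.W j s)
    linarith
  have h2 : ∑ j, EnR g (B.W j) (B.v j) ≤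
      ∑ j : Fin X.m, ∑ s, (2 * hs ((g s * Ns X.p j - Ns X.p j * g s) * X.p j) +
      2 * hs (g s * B.iota j - B.iota j * B.W j s)) :=
    Finset.sum_le_sum fun j _ => Finset.sum_le_sum fun s _ => h1 j s
  refine h2.trans ?_
  have h3 : ∑ j : Fin X.m, ∑ s, (2 * hs ((g s * Ns X.p j - Ns X.p j * g s) * X.p j) +
      2 * hs (g s * B.iota j - B.iota j * B.W j s)) =
      2 * (∑ s, ∑ j : Fin X.m, hs ((g s * Ns X.p j - Ns X.p j * g s) * X.p j)) +
      2 * ∑ j : Fin X.m, EnR g (B.W j) (B.iota j) := by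
    rw [Finset.sum_comm (s := (Finset.univ : Finset S)), Finset.mul_sum, Finset.mul_sum,
      ← Finset.sum_add_distrib]
    refine Finset.sum_congr rfl fun j _ => ?_
    unfold EnR
    rw [Finset.sum_add_distrib, Finset.mul_sum, Finset.mul_sum]
  rw [h3]
  have h4 : ∑ s, ∑ j : Fin X.m, hs ((g s * Ns X.p j - Ns X.p j * g s) * X.p j) ≤
      13 * (3 * h * d) := by
    have h5 : ∀ s, ∑ j : Fin X.m, hs ((g s * Ns X.p j - Ns X.p j * g s) * X.p j) ≤
        13 * ∑ j ∈ Finset.range X.m, hs (g s * X.p j - X.p j * g s) := by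
      intro s
      rw [Fin.sum_univ_eq_sum_range (fun j => hs ((g s * Ns X.p j - Ns X.p j * g s) * X.p j))]
      exact (resolventTheorem (Fin d) X.p X.m X.proj).2.2.2.1 (g s) (hg s)
    have h6 := Finset.sum_le_sum (fun s (_ : s ∈ (Finset.univ : Finset S)) => h5 s)
    refine h6.trans ?_
    rw [← Finset.mul_sum, Finset.sum_comm]
    exact mul_le_mul_of_nonneg_left (Ov.sum_en hh.le X) (by norm_num)
  have h5 : ∑ j : Fin X.m, EnR g (B.W j) (B.iota j) ≤ 10 * h * (3 * d) := by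
    refine (Finset.sum_le_sum fun j _ => B.near j).trans ?_
    rw [← Finset.mul_sum]
    exact mul_le_mul_of_nonneg_left (mass X) (by positivity)
  have hd : 0 ≤ h * d := by positivity
  nlinarith

theorem v_def_one (B : BD X) (j : Fin X.m) :
    (B.r j : ℝ) - hs (B.v j) ≤ 2 * rtr (X.p j * Rs X.p j) := by
  rw [r_eq, hs_v]
  have hp := X.proj j j.2
  have hN := Ns_herm X.proj (j := j) j.2.le
  have h1 : hs (Ns X.p j * X.p j) = rtr (X.p j * (Ns X.p j * Ns X.p j)) := by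
    unfold hs
    rw [Matrix.conjTranspose_mul, hN, hp.1]
    have : X.p j * Ns X.p j * (Ns X.p j * X.p j) = (X.p j * (Ns X.p j * Ns X.p j)) * X.p j := by
      simp only [Matrix.mul_assoc]
    rw [this, rtr_mul_comm, ← Matrix.mul_assoc, hp.2]
  have h2 : Ns X.p j = 1 - Rs X.p j := by unfold Rs; abel
  have h3 : Ns X.p j * Ns X.p j = 1 - (2 : ℝ) • Rs X.p j + Rs X.p j * Rs X.p j := by
    rw [h2, Matrix.mul_sub, Matrix.sub_mul, Matrix.sub_mul, Matrix.one_mul, Matrix.one_mul,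
      Matrix.mul_one, two_smul]
    abel
  have hR := Rs_herm X.proj (j := j) j.2.le
  have h4 : 0 ≤ rtr (X.p j * (Rs X.p j * Rs X.p j)) := by
    refine rtr_mul_nonneg hp.psd ?_
    have : Rs X.p j * Rs X.p j = (Rs X.p j)ᴴ * Rs X.p j := by rw [hR]
    rw [this]
    exact posSemidef_conjTranspose_mul_self _
  rw [h1, h3, Matrix.mul_add, Matrix.mul_sub, Matrix.mul_one, Matrix.mul_smul, rtr_add, rtr_sub,
    rtr_smul]
  linarith

theorem v_def_nonneg (B : BD X) (j : Fin X.m) : 0 ≤ (B.r j : ℝ) - hs (B.v j) := by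
  have h1 := rtr_mono (v_contr B j)
  rw [rtr_one, Fintype.card_fin] at h1
  unfold hs
  linarith

theorem v_def (B : BD X) {ε : ℝ}
    (hov : ∑ j ∈ Finset.range X.m, rtr (X.p j * Rs X.p j) ≤ ε * d) :
    ∑ j, ((B.r j : ℝ) - hs (B.v j)) ≤ 2 * ε * d := by
  refine (Finset.sum_le_sum fun j _ => v_def_one B j).trans ?_
  rw [← Finset.mul_sum, Fin.sum_univ_eq_sum_range (fun j => rtr (X.p j * Rs X.p j))]
  linarith

theorem v_hs (B : BD X) {ε : ℝ}
    (hov : ∑ j ∈ Finset.range X.m, rtr (X.p j * Rs X.p j) ≤ ε * d)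
    (hN : hs ((2 : ℝ) • Ns X.p X.m - 1) ≤ ε * d) :
    hs (∑ j, B.v j * (B.v j)ᴴ - 1) ≤ 6 * ε * d := by
  obtain ⟨P, hP⟩ : ∃ P, P = (2 : ℝ) • Rs X.p X.m - ∑ j, B.v j * (B.v j)ᴴ := ⟨_, rfl⟩
  have hP0 : P.PosSemidef := by
    rw [hP, sum_v]
    exact Matrix.le_iff.1 (sum_NpN_le X.proj le_rfl)
  have hPt : rtr P ≤ ε * d := by
    have h1 := (resolventTheorem (Fin d) X.p X.m X.proj).2.2.1
    have h2 : rtr (∑ j, B.v j * (B.v j)ᴴ) =
        ∑ j ∈ Finset.range X.m, hs (Ns X.p j * X.p j) := by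
      rw [rtr_sum, ← Fin.sum_univ_eq_sum_range (fun j => hs (Ns X.p j * X.p j))]
      refine Finset.sum_congr rfl fun j _ => ?_
      rw [← hs_eq', hs_v]
    rw [hP, rtr_sub, rtr_smul, h2]
    linarith
  have hP2 : P ≤ (2 : ℝ) • (1 : Matrix (Fin d) (Fin d) ℂ) := by
    have h1 : P ≤ (2 : ℝ) • Rs X.p X.m := by
      rw [Matrix.le_iff, hP]
      have : (2 : ℝ) • Rs X.p X.m - ((2 : ℝ) • Rs X.p X.m - ∑ j, B.v j * (B.v j)ᴴ) =
          ∑ j, B.v j * (B.v j)ᴴ := by abel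
      rw [this]
      exact Matrix.posSemidef_sum _ fun j _ => Matrix.posSemidef_self_mul_conjTranspose _
    refine h1.trans ?_
    rw [Matrix.le_iff, ← smul_sub]
    exact (Matrix.le_iff.1 (Rs_le_one X.proj le_rfl)).smul (by norm_num)
  have hPhs : hs P ≤ 2 * (ε * d) := by
    unfold hs
    rw [hP0.1]
    have h1 := rtr_mul_mono hP2 hP0
    rw [Matrix.smul_mul, Matrix.one_mul, rtr_smul] at h1
    linarith
  have e : ∑ j, B.v j * (B.v j)ᴴ - 1 = -((2 : ℝ) • Ns X.p X.m - 1) - P := by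
    rw [hP]
    unfold Rs
    rw [smul_sub, two_smul ℝ (1 : Matrix (Fin d) (Fin d) ℂ)]
    abel
  rw [e]
  refine (hs_sub_le _ _).trans ?_
  rw [hs_neg]
  linarith

theorem abs_rtr_le (A : Matrix (Fin d) (Fin d) ℂ) {ε : ℝ} (hε : 0 ≤ ε) (hA : hs A ≤ ε ^ 2 * d) :
    |rtr A| ≤ ε * d := by
  have h1 := abs_ip_le (1 : Matrix (Fin d) (Fin d) ℂ) A
  have h2 : ip (1 : Matrix (Fin d) (Fin d) ℂ) A = rtr A := by
    unfold ip
    rw [Matrix.conjTranspose_one, Matrix.one_mul]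
  have h3 : hs (1 : Matrix (Fin d) (Fin d) ℂ) = d := by
    unfold hs
    rw [Matrix.conjTranspose_one, Matrix.one_mul, rtr_one, Fintype.card_fin]
  rw [h2, h3] at h1
  refine h1.trans ?_
  have h4 : Real.sqrt (hs A) ≤ ε * Real.sqrt d := by
    rw [Real.sqrt_le_left (by positivity), mul_pow, Real.sq_sqrt (Nat.cast_nonneg _)]
    exact hA
  have h5 := mul_le_mul_of_nonneg_left h4 (Real.sqrt_nonneg (d : ℝ))
  refine h5.trans (le_of_eq ?_)
  have := Real.mul_self_sqrt (Nat.cast_nonneg (α := ℝ) d)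
  calc Real.sqrt d * (ε * Real.sqrt d) = ε * (Real.sqrt d * Real.sqrt d) := by ring
    _ = ε * d := by rw [this]

end

theorem bdEnergy : BDEnergy := by
  intro S _ h hh d g hg X B
  exact energy hh hg B

/-- all of `DecTheorem` except flatness -/
theorem decTheorem_of (hF : FlatTheorem) (h3 : OverlapTheorem) : DecTheorem := by
  intro S _ C hC εf hεf
  obtain ⟨tf, htf, e₀, he₀, h₀, hh₀, H1⟩ := hF S C hC εf hεf
  refine ⟨tf, htf, fun ε hε => ?_⟩
  -- the overlap parameter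
  obtain ⟨ε₁, hε₁, hε₁a, hε₁b, hε₁c⟩ : ∃ ε₁ : ℝ, 0 < ε₁ ∧ 6 * ε₁ ≤ ε / 2 ∧
      6 * ε₁ ≤ (ε / 2) ^ 2 ∧ ε₁ ≤ e₀ := by
    refine ⟨min (min (ε / 12) ((ε / 2) ^ 2 / 6)) e₀, by positivity, ?_, ?_, min_le_right _ _⟩
    · have := min_le_left (ε / 12) ((ε / 2) ^ 2 / 6)
      have := min_le_left (min (ε / 12) ((ε / 2) ^ 2 / 6)) e₀
      linarith
    · have := min_le_right (ε / 12) ((ε / 2) ^ 2 / 6)
      have := min_le_left (min (ε / 12) ((ε / 2) ^ 2 / 6)) e₀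
      linarith
  obtain ⟨h₁, hh₁, H2⟩ := h3 S C hC ε₁ hε₁
  obtain ⟨h, hh, hle0, hle1, hle2, hle3⟩ : ∃ h : ℝ, 0 < h ∧ h ≤ h₀ ∧ h ≤ h₁ ∧ 200 * h ≤ ε ∧
      200 * h ≤ e₀ := by
    refine ⟨min (min h₀ h₁) (min (ε / 200) (e₀ / 200)), by positivity, ?_, ?_, ?_, ?_⟩
    · exact (min_le_left _ _).trans (min_le_left _ _)
    · exact (min_le_left _ _).trans (min_le_right _ _)
    · have := (min_le_right (min h₀ h₁) (min (ε / 200) (e₀ / 200))).trans (min_le_left _ _)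
      linarith
    · have := (min_le_right (min h₀ h₁) (min (ε / 200) (e₀ / 200))).trans (min_le_right _ _)
      linarith
  obtain ⟨t1, ht1, K1⟩ := H1 h hh hle0
  obtain ⟨t2, ht2, K2⟩ := H2 h hh hle1
  refine ⟨min t1 t2, lt_min ht1 ht2, fun d g hd hg hT => ?_⟩
  obtain ⟨X⟩ := sysTheorem S h hh d g hd
  obtain ⟨B⟩ := bdExists S h hh d g hg X
  have hd0 : (0 : ℝ) ≤ d := Nat.cast_nonneg _
  obtain ⟨hov, hNm⟩ := K2 d g hd hg (hT.mono (min_le_right _ _)) X
  have hen := energy hh hg B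
  have hF' := K1 d g hd hg (hT.mono (min_le_left _ _)) X B.r B.iota B.W B.W_unitary B.iso B.rng
    (hen.trans (mul_le_mul_of_nonneg_right hle3 hd0))
    (hov.trans (mul_le_mul_of_nonneg_right hε₁c hd0))
  have hvh := v_hs B hov hNm
  have hvd := v_def B hov
  have hvd0 : 0 ≤ ∑ j, ((B.r j : ℝ) - hs (B.v j)) := Finset.sum_nonneg fun j _ => v_def_nonneg B j
  have hdd : 6 * ε₁ * d ≤ (ε / 2) ^ 2 * d := mul_le_mul_of_nonneg_right hε₁b hd0
  have hdd' : 6 * ε₁ * d ≤ ε / 2 * d := mul_le_mul_of_nonneg_right hε₁a hd0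
  have hεd : 0 ≤ ε * d := by positivity
  have hε1d : 0 ≤ ε₁ * d := by positivity
  refine ⟨⟨X.m, B.r, B.r_pos, B.W, B.W_unitary, B.v, v_contr B, v_sum B, ?_, ?_, ?_, ?_, ?_⟩⟩
  · linarith
  · have h5 := abs_rtr_le (∑ j, B.v j * (B.v j)ᴴ - 1) (ε := ε / 2) (by positivity)
      (hvh.trans hdd)
    have h6 : rtr (∑ j, B.v j * (B.v j)ᴴ - 1) = ∑ j, hs (B.v j) - d := by
      rw [rtr_sub, rtr_sum, rtr_one, Fintype.card_fin]
      congr 1
      exact Finset.sum_congr rfl fun j _ => (hs_eq' _).symm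
    rw [h6] at h5
    rw [Finset.sum_sub_distrib] at hvd hvd0
    rw [abs_le] at h5 ⊢
    constructor <;> linarith [h5.1, h5.2]
  · linarith
  · exact hen.trans (mul_le_mul_of_nonneg_right hle2 hd0)
  · exact hF'

end Pool.Agent.H51K.DecP

namespace Pool.Agent.H51K

theorem decTheorem (h1 : FlatTheorem) (h2 : OverlapTheorem) : DecTheorem :=
  DecP.decTheorem_of h1 h2

end Pool.Agent.H51K
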