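import Pool.Agent.H51K.P1Iface

/-!
Block data attached to a greedy system (used for `DecTheorem`).
-/

set_option autoImplicit false
open Matrix
open scoped ComplexOrder MatrixOrder

namespace Pool.Agent.H51K

variable {S : Type} [Fintype S]

/-- block data attached to a greedy system: isometries onto the ranges of the projections and
unitaries on the blocks which nearly intertwine. -/
structure BD {d : ℕ} {g : S → Matrix (Fin d) (Fin d) ℂ} {h : ℝ} (X : Sys g h) where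
  r : Fin X.m → ℕ
  r_pos : ∀ j, 0 < r j
  iota : ∀ j : Fin X.m, Matrix (Fin d) (Fin (r j)) ℂ
  iso : ∀ j, (iota j)ᴴ * iota j = 1
  rng : ∀ j, iota j * (iota j)ᴴ = X.p j
  W : ∀ j, S → Matrix (Fin (r j)) (Fin (r j)) ℂ
  W_unitary : ∀ j s, W j s ∈ Matrix.unitaryGroup (Fin (r j)) ℂ
  near : ∀ j, EnR g (W j) (iota j) ≤ 10 * h * rtr (X.p j)

/-- the maps of the blocks -/
noncomputable def BD.v {d : ℕ} {g : S → Matrix (Fin d) (Fin d) ℂ} {h : ℝ} {X : Sys g h}
    (B : BD X) (j : Fin X.m) : Matrix (Fin d) (Fin (B.r j)) ℂ := Ns X.p j * B.iota j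

/-- existence of block data -/
def BDExists : Prop :=
  ∀ (S : Type) [Fintype S] (h : ℝ), 0 < h → ∀ (d : ℕ) (g : S → Matrix (Fin d) (Fin d) ℂ),
    (∀ s, g s ∈ Matrix.unitaryGroup (Fin d) ℂ) → ∀ (X : Sys g h), Nonempty (BD X)

/-- energy of the blocks -/
def BDEnergy : Prop :=
  ∀ (S : Type) [Fintype S] (h : ℝ), 0 < h → ∀ (d : ℕ) (g : S → Matrix (Fin d) (Fin d) ℂ),
    (∀ s, g s ∈ Matrix.unitaryGroup (Fin d) ℂ) → ∀ (X : Sys g h) (B : BD X),
    ∑ j, EnR g (B.W j) (B.v j) ≤ 200 * h * d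

end Pool.Agent.H51K
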