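import Pool.Agent.H51K.Basic

/-!
Energies, averaged conjugations, and the finite-dimensional shadow `HasT` of property (T).
-/

set_option autoImplicit false
open Matrix
open scoped ComplexOrder MatrixOrder

namespace Pool.Agent.H51K

variable {S : Type} [Fintype S]

/-- intertwining energy of a rectangular matrix `y : ℂ^n → ℂ^l` between two families of matrices -/
noncomputable def EnR {n l : Type*} [Fintype n] [Fintype l]
    (g' : S → Matrix l l ℂ) (g : S → Matrix n n ℂ) (y : Matrix l n ℂ) : ℝ :=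
  ∑ s, hs (g' s * y - y * g s)

/-- commutator energy -/
noncomputable def En {n : Type*} [Fintype n] (g : S → Matrix n n ℂ) (a : Matrix n n ℂ) : ℝ :=
  EnR g g a

/-- a finite convex combination of unitary conjugations -/
structure Avg (d : ℕ) where
  N : ℕ
  α : Fin N → ℝ
  u : Fin N → Matrix (Fin d) (Fin d) ℂ
  nonneg : ∀ i, 0 ≤ α i
  sum_one : ∑ i, α i = 1
  unitary : ∀ i, u i ∈ Matrix.unitaryGroup (Fin d) ℂ

/-- the action of an averaged conjugation -/
noncomputable def Avg.ap {d : ℕ} (Φ : Avg d) (x : Matrix (Fin d) (Fin d) ℂ) :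
    Matrix (Fin d) (Fin d) ℂ := ∑ i, Φ.α i • (Φ.u i * x * (Φ.u i)ᴴ)

/-- finite-dimensional shadow of property (T): there is an averaged conjugation `Φ` which on all
finite weighted families `(w, c)` with `∑ w c c* ≤ 1` and `∑ w c* c ≤ 1` gives total energy
`≤ ε d` and moves the family by at most `C` times its energy plus `ε d`. -/
def HasT {d : ℕ} (g : S → Matrix (Fin d) (Fin d) ℂ) (C ε : ℝ) : Prop :=
  ∃ Φ : Avg d, ∀ (L : ℕ) (w : Fin L → ℝ) (c : Fin L → Matrix (Fin d) (Fin d) ℂ),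
    (∀ i, 0 ≤ w i) →
    (∑ i, w i • (c i * (c i)ᴴ) ≤ (1 : Matrix (Fin d) (Fin d) ℂ)) →
    (∑ i, w i • ((c i)ᴴ * c i) ≤ (1 : Matrix (Fin d) (Fin d) ℂ)) →
    (∑ i, w i * En g (Φ.ap (c i)) ≤ ε * d) ∧
    (∑ i, w i * hs (c i - Φ.ap (c i)) ≤ C * ∑ i, w i * En g (c i) + ε * d)

end Pool.Agent.H51K
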