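import Pool.Agent.H51K.Basic2

/-!
Resolvent estimates (ResolventTheorem).
-/

set_option autoImplicit false
set_option linter.unusedSectionVars false
open Matrix
open scoped ComplexOrder MatrixOrder

namespace Pool.Agent.H51K

variable {n : Type} [Fintype n] [DecidableEq n]

theorem Xs_succ (p : ℕ → Matrix n n ℂ) (j : ℕ) : Xs p (j + 1) = Xs p j + p j := by
  simp [Xs, Finset.sum_range_succ]

theorem Xs_zero (p : ℕ → Matrix n n ℂ) : Xs p 0 = 0 := by
  simp [Xs]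

section
variable {p : ℕ → Matrix n n ℂ} {m : ℕ}

theorem Xs_psd (hp : ∀ j < m, IsProj (p j)) {j : ℕ} (hj : j ≤ m) : (Xs p j).PosSemidef := by
  rw [← Matrix.nonneg_iff_posSemidef]
  exact Finset.sum_nonneg fun i hi => (hp i (lt_of_lt_of_le (Finset.mem_range.1 hi) hj)).nonneg

theorem posDef_one_add {X : Matrix n n ℂ} (hX : X.PosSemidef) : (1 + X).PosDef :=
  Matrix.PosDef.one.add_posSemidef hX

theorem Ns_mul (hp : ∀ j < m, IsProj (p j)) {j : ℕ} (hj : j ≤ m) :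
    Ns p j * (1 + Xs p j) = 1 := by
  have h := (posDef_one_add (Xs_psd hp hj)).isUnit
  exact Matrix.nonsing_inv_mul _ ((Matrix.isUnit_iff_isUnit_det _).1 h)

theorem mul_Ns (hp : ∀ j < m, IsProj (p j)) {j : ℕ} (hj : j ≤ m) :
    (1 + Xs p j) * Ns p j = 1 := by
  have h := (posDef_one_add (Xs_psd hp hj)).isUnit
  exact Matrix.mul_nonsing_inv _ ((Matrix.isUnit_iff_isUnit_det _).1 h)

theorem Ns_herm (hp : ∀ j < m, IsProj (p j)) {j : ℕ} (hj : j ≤ m) : (Ns p j)ᴴ = Ns p j := by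
  have h := (posDef_one_add (Xs_psd hp hj)).isHermitian
  rw [Ns, Matrix.conjTranspose_nonsing_inv, h.eq]

theorem Ns_psd (hp : ∀ j < m, IsProj (p j)) {j : ℕ} (hj : j ≤ m) : (Ns p j).PosSemidef :=
  (posDef_one_add (Xs_psd hp hj)).inv.posSemidef

theorem Ns_le_one (hp : ∀ j < m, IsProj (p j)) {j : ℕ} (hj : j ≤ m) : Ns p j ≤ 1 := by
  refine inv_anti (A := 1 + Xs p j) (B := 1) (Ns_mul hp hj) (by simp) (by simp)
    (Ns_herm hp hj) (by simp) Matrix.PosSemidef.one ?_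
  rw [Matrix.le_iff]
  simpa using Xs_psd hp hj

theorem Rs_psd (hp : ∀ j < m, IsProj (p j)) {j : ℕ} (hj : j ≤ m) : (Rs p j).PosSemidef :=
  Matrix.le_iff.1 (Ns_le_one hp hj)

theorem Rs_le_one (hp : ∀ j < m, IsProj (p j)) {j : ℕ} (hj : j ≤ m) : Rs p j ≤ 1 := by
  rw [Matrix.le_iff, Rs]
  simpa using Ns_psd hp hj

theorem Rs_herm (hp : ∀ j < m, IsProj (p j)) {j : ℕ} (hj : j ≤ m) : (Rs p j)ᴴ = Rs p j := by
  rw [Rs, Matrix.conjTranspose_sub, Ns_herm hp hj, Matrix.conjTranspose_one]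

theorem Ns_zero (p : ℕ → Matrix n n ℂ) : Ns p 0 = 1 := by
  simp [Ns, Xs_zero]

/-- `N' = N - N p N'` -/
theorem Ns_succ (hp : ∀ j < m, IsProj (p j)) {j : ℕ} (hj : j < m) :
    Ns p (j + 1) = Ns p j - Ns p j * p j * Ns p (j + 1) := by
  have h1 := Ns_mul hp hj.le
  have h2 := mul_Ns hp (Nat.succ_le_of_lt hj)
  rw [Nat.succ_eq_add_one, Xs_succ, ← add_assoc] at h2
  have h3 : Ns p j * ((1 + Xs p j + p j) * Ns p (j + 1)) = Ns p j := by
    rw [h2, Matrix.mul_one]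
  rw [Matrix.add_mul, Matrix.mul_add, ← Matrix.mul_assoc, h1, Matrix.one_mul,
    ← Matrix.mul_assoc] at h3
  rw [eq_sub_iff_add_eq]
  exact h3

/-- `N' = N - N' p N` -/
theorem Ns_succ' (hp : ∀ j < m, IsProj (p j)) {j : ℕ} (hj : j < m) :
    Ns p (j + 1) = Ns p j - Ns p (j + 1) * p j * Ns p j := by
  have h := congrArg Matrix.conjTranspose (Ns_succ hp hj)
  rw [Matrix.conjTranspose_sub, Matrix.conjTranspose_mul, Matrix.conjTranspose_mul,
    Ns_herm hp hj.le, Ns_herm hp (Nat.succ_le_of_lt hj), (hp j hj).1, ← Matrix.mul_assoc] at h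
  exact h

/-- `p N' p ≤ p / 2` -/
theorem pNp_le_half (hp : ∀ j < m, IsProj (p j)) {j : ℕ} (hj : j < m) :
    p j * Ns p (j + 1) * p j ≤ (1 / 2 : ℝ) • p j := by
  have hpj := hp j hj
  have hh : (1 / 2 : ℝ) • p j + (1 / 2 : ℝ) • p j = p j := by
    rw [← add_smul]
    norm_num
  have hinv1 : (1 - (1 / 2 : ℝ) • p j) * (1 + p j) = 1 := by
    have e : (1 - (1 / 2 : ℝ) • p j) * (1 + p j) =
        1 + p j - ((1 / 2 : ℝ) • p j + (1 / 2 : ℝ) • (p j * p j)) := by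
      rw [Matrix.sub_mul, Matrix.one_mul, Matrix.smul_mul, Matrix.mul_add, Matrix.mul_one,
        smul_add]
    rw [e, hpj.2, hh]
    abel
  have hinv2 : (1 + p j) * (1 - (1 / 2 : ℝ) • p j) = 1 := by
    have e : (1 + p j) * (1 - (1 / 2 : ℝ) • p j) =
        1 + p j - ((1 / 2 : ℝ) • p j + (1 / 2 : ℝ) • (p j * p j)) := by
      rw [Matrix.mul_sub, Matrix.mul_one, Matrix.mul_smul, Matrix.add_mul, Matrix.one_mul,
        smul_add]
    rw [e, hpj.2, hh]
    abel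
  have h1 : Ns p (j + 1) ≤ 1 - (1 / 2 : ℝ) • p j := by
    refine inv_anti (A := 1 + Xs p (j + 1)) (B := 1 + p j) (Ns_mul hp (Nat.succ_le_of_lt hj))
      hinv1 hinv2 (Ns_herm hp (Nat.succ_le_of_lt hj)) ?_ (posDef_one_add hpj.psd).posSemidef ?_
    · rw [Matrix.conjTranspose_sub, Matrix.conjTranspose_one, Matrix.conjTranspose_smul, hpj.1]
      simp
    · rw [Matrix.le_iff, Xs_succ]
      have : 1 + (Xs p j + p j) - (1 + p j) = Xs p j := by abel
      rw [this]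
      exact Xs_psd hp hj.le
  have h2 := conj_mono h1 (p j)
  rw [hpj.1] at h2
  refine h2.trans (le_of_eq ?_)
  rw [Matrix.mul_sub, Matrix.sub_mul, Matrix.mul_one, Matrix.mul_smul, Matrix.smul_mul, hpj.2,
    hpj.2]
  have : p j - (1 / 2 : ℝ) • p j = (1 - 1 / 2 : ℝ) • p j := by
    rw [sub_smul, one_smul]
  rw [this]
  norm_num

theorem sub_Ns (hp : ∀ j < m, IsProj (p j)) {j : ℕ} (hj : j < m) :
    Ns p j - Ns p (j + 1) = Ns p j * p j * Ns p (j + 1) :=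
  sub_eq_of_eq_add' (eq_sub_iff_add_eq.1 (Ns_succ hp hj)).symm

theorem sub_Ns' (hp : ∀ j < m, IsProj (p j)) {j : ℕ} (hj : j < m) :
    Ns p j - Ns p (j + 1) = Ns p (j + 1) * p j * Ns p j :=
  sub_eq_of_eq_add' (eq_sub_iff_add_eq.1 (Ns_succ' hp hj)).symm

/-- `N p N = (N - N') + N (p N' p) N` -/
theorem NpN_eq (hp : ∀ j < m, IsProj (p j)) {j : ℕ} (hj : j < m) :
    Ns p j * p j * Ns p j = (Ns p j - Ns p (j + 1)) +
      Ns p j * (p j * Ns p (j + 1) * p j) * Ns p j := by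
  have h5 : Ns p j * (p j * Ns p (j + 1) * p j) * Ns p j =
      Ns p j * p j * (Ns p (j + 1) * p j * Ns p j) := by
    simp only [Matrix.mul_assoc]
  rw [h5, ← sub_Ns' hp hj, Matrix.mul_sub, ← sub_Ns hp hj]
  abel

/-- `N p N ≤ 2 (N - N')` -/
theorem NpN_le (hp : ∀ j < m, IsProj (p j)) {j : ℕ} (hj : j < m) :
    Ns p j * p j * Ns p j ≤ (2 : ℝ) • (Ns p j - Ns p (j + 1)) := by
  have h1 := NpN_eq hp hj
  have h2 := conj_mono (pNp_le_half hp hj) (Ns p j)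
  rw [Ns_herm hp hj.le, Matrix.mul_smul, Matrix.smul_mul] at h2
  have h3 : Ns p j * p j * Ns p j ≤ (Ns p j - Ns p (j + 1)) +
      (1 / 2 : ℝ) • (Ns p j * p j * Ns p j) := by
    have h4 := add_le_add_right h2 (Ns p j - Ns p (j + 1))
    rw [← h1] at h4
    exact h4
  rw [Matrix.le_iff] at h3 ⊢
  have h4 := h3.smul (show (0 : ℝ) ≤ 2 by norm_num)
  have e : (2 : ℝ) • (Ns p j - Ns p (j + 1) + (1 / 2 : ℝ) • (Ns p j * p j * Ns p j) -
      Ns p j * p j * Ns p j) = (2 : ℝ) • (Ns p j - Ns p (j + 1)) - Ns p j * p j * Ns p j := by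
    rw [smul_sub, smul_add, smul_smul]
    norm_num
    have : (2 : ℝ) • (Ns p j * p j * Ns p j) = Ns p j * p j * Ns p j + Ns p j * p j * Ns p j :=
      two_smul _ _
    rw [this]
    abel
  rwa [e] at h4

theorem sum_NpN_le (hp : ∀ j < m, IsProj (p j)) {k : ℕ} (hk : k ≤ m) :
    ∑ j ∈ Finset.range k, Ns p j * p j * Ns p j ≤ (2 : ℝ) • Rs p k := by
  have h1 : ∑ j ∈ Finset.range k, (2 : ℝ) • (Ns p j - Ns p (j + 1)) = (2 : ℝ) • Rs p k := by
    rw [← Finset.smul_sum, Finset.sum_range_sub', Ns_zero]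
    rfl
  rw [← h1]
  exact Finset.sum_le_sum fun j hj =>
    NpN_le hp (lt_of_lt_of_le (Finset.mem_range.1 hj) hk)

/-- `rtr (p N) ≤ 2 rtr (p N')` -/
theorem rtr_pN_le (hp : ∀ j < m, IsProj (p j)) {j : ℕ} (hj : j < m) :
    rtr (p j * Ns p j) ≤ 2 * rtr (p j * Ns p (j + 1)) := by
  have hpj := hp j hj
  have h1 : (p j * Rs p j * p j).PosSemidef := by
    have := psd_conj (Rs_psd hp hj.le) (p j)
    rwa [hpj.1] at this
  have h2 : (Ns p (j + 1)).PosSemidef := Ns_psd hp (Nat.succ_le_of_lt hj)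
  have h3 := rtr_mul_nonneg h1 h2
  -- p R p N' = p N' - p N p N'
  have h4 : p j * Rs p j * p j * Ns p (j + 1) = p j * Ns p (j + 1) -
      p j * (Ns p j * p j * Ns p (j + 1)) := by
    rw [Rs, Matrix.mul_sub, Matrix.mul_one, Matrix.sub_mul, Matrix.sub_mul, hpj.2]
    simp only [Matrix.mul_assoc]
  rw [h4, ← sub_Ns hp hj, Matrix.mul_sub, rtr_sub, rtr_sub] at h3
  linarith

/-- `N² ≤ 1` -/
theorem trace_step_aux (hp : ∀ j < m, IsProj (p j)) {j : ℕ} (hj : j ≤ m) :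
    Ns p j * Ns p j ≤ 1 := by
  have e1 : Ns p j ≤ 1 := Ns_le_one hp hj
  have e2 : Ns p j * Ns p j ≤ Ns p j := by
    rw [Matrix.le_iff]
    obtain ⟨B, hB, hB'⟩ := exists_sqrt (Ns_psd hp hj)
    have hBh : Bᴴ = B := hB'.1
    have e3 : Ns p j - Ns p j * Ns p j = Bᴴ * (1 - Ns p j) * B := by
      rw [Matrix.mul_sub, Matrix.sub_mul, Matrix.mul_one, hB]
      have e4 : Ns p j = B * B := by rw [← hB, hBh]
      have e5 : Bᴴ * Ns p j * B = Ns p j * Ns p j := by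
        rw [hBh]
        nth_rewrite 1 [e4]
        have : B * (B * B) * B = (B * B) * (B * B) := by simp only [Matrix.mul_assoc]
        rw [this, ← e4]
      rw [e5]
    rw [e3]
    exact psd_conj (Matrix.le_iff.1 e1) B
  exact e2.trans e1

/-- trace comparison per step -/
theorem trace_step (hp : ∀ j < m, IsProj (p j)) {j : ℕ} (hj : j < m) :
    2 * rtr (Ns p j - Ns p (j + 1)) ≤ hs (Ns p j * p j) + rtr (p j * Rs p j) := by
  have hpj := hp j hj
  have h0 : hs (Ns p j * p j) = rtr (Ns p j * p j * Ns p j) := by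
    unfold hs
    rw [Matrix.conjTranspose_mul, Ns_herm hp hj.le, hpj.1, rtr_mul_comm]
    have : Ns p j * p j * (p j * Ns p j) = Ns p j * (p j * p j) * Ns p j := by
      simp only [Matrix.mul_assoc]
    rw [this, hpj.2]
  have h1 := NpN_eq hp hj
  -- D = p - 2 p N' p psd
  have hD : (p j - (2 : ℝ) • (p j * Ns p (j + 1) * p j)).PosSemidef := by
    have h := (Matrix.le_iff.1 (pNp_le_half hp hj)).smul (show (0 : ℝ) ≤ 2 by norm_num)
    rwa [smul_sub, smul_smul, show (2 : ℝ) * (1 / 2) = 1 by norm_num, one_smul] at h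
  have hN2 : Ns p j * Ns p j ≤ 1 := trace_step_aux hp hj.le
  have h2 : rtr ((p j - (2 : ℝ) • (p j * Ns p (j + 1) * p j)) * (Ns p j * Ns p j)) ≤
      rtr (p j - (2 : ℝ) • (p j * Ns p (j + 1) * p j)) := by
    have := rtr_mul_mono_right hN2 hD
    rwa [Matrix.mul_one] at this
  have h3 : rtr ((p j - (2 : ℝ) • (p j * Ns p (j + 1) * p j)) * (Ns p j * Ns p j)) =
      rtr (Ns p j * p j * Ns p j) -
        2 * rtr (Ns p j * (p j * Ns p (j + 1) * p j) * Ns p j) := by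
    rw [Matrix.sub_mul, rtr_sub, Matrix.smul_mul, rtr_smul]
    congr 1
    · rw [← Matrix.mul_assoc, rtr_mul_comm, ← Matrix.mul_assoc]
    · congr 1
      rw [← Matrix.mul_assoc, rtr_mul_comm, ← Matrix.mul_assoc]
  have h4 : rtr (p j * Ns p (j + 1) * p j) = rtr (p j * Ns p (j + 1)) := by
    rw [rtr_mul_comm, ← Matrix.mul_assoc, hpj.2]
  have h5 := rtr_pN_le hp hj
  have h6 : rtr (p j * Rs p j) = rtr (p j) - rtr (p j * Ns p j) := by
    rw [Rs, Matrix.mul_sub, Matrix.mul_one, rtr_sub]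
  have h7 := congrArg rtr h1
  rw [rtr_add] at h7
  rw [rtr_sub, rtr_smul, h4] at h2
  rw [h3] at h2
  rw [h0, h6]
  linarith

/-- (A') -/
theorem trace_sum (hp : ∀ j < m, IsProj (p j)) :
    2 * rtr (Rs p m) ≤ ∑ j ∈ Finset.range m, hs (Ns p j * p j) +
      ∑ j ∈ Finset.range m, rtr (p j * Rs p j) := by
  have h1 : ∑ j ∈ Finset.range m, 2 * rtr (Ns p j - Ns p (j + 1)) = 2 * rtr (Rs p m) := by
    rw [← Finset.mul_sum, ← rtr_sum, Finset.sum_range_sub', Ns_zero]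
    rfl
  rw [← h1, ← Finset.sum_add_distrib]
  exact Finset.sum_le_sum fun j hj => trace_step hp (Finset.mem_range.1 hj)

end

end Pool.Agent.H51K
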