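import Pool.Agent.H51K.GilB
import Pool.Agent.H51K.Res

/-!
The greedy improvement lemma.
-/

set_option autoImplicit false
set_option linter.unusedSectionVars false
open Matrix
open scoped ComplexOrder MatrixOrder

namespace Pool.Agent.H51K

section

variable {n : Type*} [Fintype n] [DecidableEq n]

theorem sq_le_one_of_psd {R : Matrix n n ℂ} (h0 : R.PosSemidef) (h1 : R ≤ 1) : Rᴴ * R ≤ 1 := by
  obtain ⟨B, hB, -⟩ := exists_sqrt h0
  have h2 : B * Bᴴ ≤ 1 := swap_contr (by rw [hB]; exact h1)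
  have h3 := conj_mono h2 B
  have e1 : Bᴴ * (B * Bᴴ) * B = Rᴴ * R := by
    rw [h0.1.eq, ← hB]
    simp only [Matrix.mul_assoc]
  have e2 : Bᴴ * 1 * B = R := by rw [Matrix.mul_one, hB]
  rw [e1, e2] at h3
  exact h3.trans h1

theorem rtr_diff_le {q z R : Matrix n n ℂ} (hq : IsProj q) (hz : IsProj z)
    (h0 : R.PosSemidef) (h1 : R ≤ 1) :
    rtr (q * R) ≤ rtr (z * R) +
      Real.sqrt (hs (q - z)) * (Real.sqrt (rtr q) + Real.sqrt (rtr z)) := by
  have hRR := sq_le_one_of_psd h0 h1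
  have e1 : rtr (q * R) = rtr (z * R) + (ip (q - z) (R * q) + ip (q - z) (z * R)) := by
    have e2 : ip (q - z) (R * q) = rtr (q * (q - z) * R) := by
      unfold ip
      rw [conjTranspose_sub, hq.1, hz.1, ← Matrix.mul_assoc, rtr_mul_comm, Matrix.mul_assoc]
    have e3 : ip (q - z) (z * R) = rtr ((q - z) * z * R) := by
      unfold ip
      rw [conjTranspose_sub, hq.1, hz.1, Matrix.mul_assoc]
    rw [e2, e3, ← rtr_add, ← rtr_add, ← Matrix.add_mul, ← Matrix.add_mul]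
    congr 2
    rw [Matrix.mul_sub, Matrix.sub_mul, hq.2, hz.2]
    abel
  have e4 : hs (R * q) ≤ rtr q := by
    have := hs_mul_le (κ := 1) (A := R) (by rw [one_smul]; exact hRR) q
    rwa [one_mul, hq.hs_eq] at this
  have e5 : hs (z * R) ≤ rtr z := by
    have e6 : hs (z * R) = hs (R * z) := by
      rw [← hs_conjTranspose, conjTranspose_mul, hz.1, h0.1.eq]
    rw [e6]
    have := hs_mul_le (κ := 1) (A := R) (by rw [one_smul]; exact hRR) z
    rwa [one_mul, hz.hs_eq] at this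
  have e7 := ip_le (q - z) (R * q)
  have e8 := ip_le (q - z) (z * R)
  have e9 : Real.sqrt (hs (q - z)) * Real.sqrt (hs (R * q)) ≤
      Real.sqrt (hs (q - z)) * Real.sqrt (rtr q) :=
    mul_le_mul_of_nonneg_left (Real.sqrt_le_sqrt e4) (Real.sqrt_nonneg _)
  have e10 : Real.sqrt (hs (q - z)) * Real.sqrt (hs (z * R)) ≤
      Real.sqrt (hs (q - z)) * Real.sqrt (rtr z) :=
    mul_le_mul_of_nonneg_left (Real.sqrt_le_sqrt e5) (Real.sqrt_nonneg _)
  rw [e1]
  linarith

theorem energy_sum {S Λ : Type} [Fintype S] [Fintype Λ] (A : Λ → ℝ) (B : Λ → S → ℝ)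
    (hA : ∀ a, 0 ≤ A a) (hB : ∀ a s, 0 ≤ B a s) :
    ∑ a, ∑ s, 2 * Real.sqrt (A a) * Real.sqrt (B a s) ≤
      2 * Real.sqrt (Fintype.card S * ∑ a, A a) * Real.sqrt (∑ a, ∑ s, B a s) := by
  have e1 : ∑ a, ∑ s, 2 * Real.sqrt (A a) * Real.sqrt (B a s) =
      2 * ∑ x : Λ × S, Real.sqrt (A x.1) * Real.sqrt (B x.1 x.2) := by
    rw [Fintype.sum_prod_type, Finset.mul_sum]
    refine Finset.sum_congr rfl fun a _ => ?_
    rw [Finset.mul_sum]
    refine Finset.sum_congr rfl fun s _ => ?_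
    ring
  have e2 : ∑ x : Λ × S, Real.sqrt (A x.1) ^ 2 = Fintype.card S * ∑ a, A a := by
    rw [Fintype.sum_prod_type, Finset.mul_sum]
    refine Finset.sum_congr rfl fun a _ => ?_
    simp only [Real.sq_sqrt (hA a), Finset.sum_const, Finset.card_univ, nsmul_eq_mul]
  have e3 : ∑ x : Λ × S, Real.sqrt (B x.1 x.2) ^ 2 = ∑ a, ∑ s, B a s := by
    rw [Fintype.sum_prod_type]
    refine Finset.sum_congr rfl fun a _ => Finset.sum_congr rfl fun s _ => ?_
    exact Real.sq_sqrt (hB a s)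
  have h := Real.sum_mul_le_sqrt_mul_sqrt Finset.univ (fun x : Λ × S => Real.sqrt (A x.1))
    (fun x => Real.sqrt (B x.1 x.2))
  rw [e2, e3] at h
  rw [e1, mul_assoc]
  exact mul_le_mul_of_nonneg_left h (by norm_num)

end

theorem gil_common (S : Type) [Fintype S] (C : ℝ) (hC : 0 < C) (γ : ℝ) (hγ : 0 < γ)
    (hγ1 : γ ≤ 1 / 8) (ε : ℝ) (hε : 0 < ε) :
    ∃ εE > 0, ∀ h > 0, ∃ t > 0,
    ∀ (d : ℕ) (g : S → Matrix (Fin d) (Fin d) ℂ), 0 < d →
      (∀ s, g s ∈ Matrix.unitaryGroup (Fin d) ℂ) → HasT g C t →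
    ∀ (Λ : Type) [Fintype Λ] (T : Λ → Type) [∀ a, Fintype (T a)] [∀ a, DecidableEq (T a)]
      (W' : ∀ a, S → Matrix (T a) (T a) ℂ) (y : ∀ a, Matrix (T a) (Fin d) ℂ)
      (R : Λ → Matrix (Fin d) (Fin d) ℂ) (κ : Λ → ℝ),
      (∀ a s, W' a s ∈ Matrix.unitaryGroup (T a) ℂ) →
      (∑ a, (y a)ᴴ * y a ≤ (2 : ℝ) • (1 : Matrix (Fin d) (Fin d) ℂ)) →
      (∑ a, EnR (W' a) g (y a) ≤ εE * d) →
      (∀ a, κ a ≤ 1 / 8 - γ) → (∀ a, (R a).PosSemidef) → (∀ a, R a ≤ 1) →
      (∑ a, κ a * hs (y a) ≤ ∑ a, rtr ((y a)ᴴ * y a * R a) + ε * d) ∨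
      ∃ (a : Λ) (r : ℝ) (q : Matrix (Fin d) (Fin d) ℂ), 0 ≤ κ a ∧ 0 < r ∧ r ≤ (y a).rank ∧
        IsProj q ∧ 0 < rtr q ∧ En g q ≤ h * rtr q ∧ rtr (q * R a) ≤ 1 / 8 * rtr q ∧
        rtr (q * (1 + R a)) ≤ (1 + γ / 4) * ((1 + κ a) * r) := by
  classical
  obtain ⟨εE', hεE', H⟩ := improve S C hC ((γ / 16) ^ 2) (by positivity) ε hε
  set cS : ℝ := (Fintype.card S : ℝ) with hcS
  have hcS0 : 0 ≤ cS := Nat.cast_nonneg _
  refine ⟨εE' ^ 2 / (8 * (cS + 1)), by positivity, fun h hh => ?_⟩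
  obtain ⟨t, ht, H⟩ := H h hh
  refine ⟨t, ht, ?_⟩
  intro d g hd hg hT Λ _ T _ _ W' y R κ hW hsum hen hκ hR0 hR1
  have hd' : (0 : ℝ) < d := Nat.cast_pos.2 hd
  choose K w z hw hz hrk hyy hco using fun a => layerTheorem (Fin d) (T a) (y a)
  -- the good set
  let G : (Σ a, Fin (K a)) → Prop := fun l =>
    0 < rtr (z l.1 l.2) ∧ rtr (z l.1 l.2 * R l.1) ≤ κ l.1 * rtr (z l.1 l.2)
  let w' : (Σ a, Fin (K a)) → ℝ := fun l => if G l then w l.1 l.2 else 0
  have hw'0 : ∀ l, 0 ≤ w' l := by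
    intro l
    change 0 ≤ (if G l then w l.1 l.2 else 0)
    split_ifs
    · exact hw _ _
    · exact le_rfl
  have hw'1 : ∀ l, w' l ≤ w l.1 l.2 := by
    intro l
    change (if G l then w l.1 l.2 else 0) ≤ _
    split_ifs
    · exact le_rfl
    · exact hw _ _
  by_cases hmass : ε * d < ∑ l, w' l * rtr (z l.1 l.2)
  · right
    have s1 : ∑ l, w' l • z l.1 l.2 ≤ (2 : ℝ) • (1 : Matrix (Fin d) (Fin d) ℂ) := by
      refine le_trans ?_ hsum
      rw [Fintype.sum_sigma]
      refine Finset.sum_le_sum fun a _ => ?_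
      rw [hyy a]
      refine Finset.sum_le_sum fun k _ => ?_
      rw [Matrix.le_iff, ← sub_smul]
      exact (hz a k).psd.smul (sub_nonneg.2 (hw'1 ⟨a, k⟩))
    have hys : ∑ a, hs (y a) ≤ 2 * d := by
      have := rtr_mono hsum
      rw [rtr_sum, rtr_smul, rtr_one, Fintype.card_fin] at this
      exact this
    have s2 : ∑ l, w' l * En g (z l.1 l.2) ≤ εE' * d := by
      rw [Fintype.sum_sigma]
      have e1 : ∀ a, ∑ k, w' ⟨a, k⟩ * En g (z a k) ≤
          ∑ s, 2 * Real.sqrt (hs (y a)) * Real.sqrt (hs (W' a s * y a - y a * g s)) := by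
        intro a
        have e2 : ∑ k, w' ⟨a, k⟩ * En g (z a k) ≤ ∑ k, w a k * En g (z a k) :=
          Finset.sum_le_sum fun k _ => mul_le_mul_of_nonneg_right (hw'1 ⟨a, k⟩) (En_nonneg _ _)
        refine e2.trans ?_
        have e3 : ∑ k, w a k * En g (z a k) =
            ∑ s, ∑ k, w a k * hs (g s * z a k - z a k * g s) := by
          rw [Finset.sum_comm]
          refine Finset.sum_congr rfl fun k _ => ?_
          rw [← Finset.mul_sum]
          rfl
        rw [e3]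
        exact Finset.sum_le_sum fun s _ => hco a (W' a s) (g s) (hW a s) (hg s)
      refine (Finset.sum_le_sum fun a _ => e1 a).trans ?_
      refine (energy_sum (fun a => hs (y a)) (fun a s => hs (W' a s * y a - y a * g s))
        (fun a => hs_nonneg _) (fun a s => hs_nonneg _)).trans ?_
      have e4 : Real.sqrt (cS * ∑ a, hs (y a)) ≤ Real.sqrt (cS * (2 * d)) :=
        Real.sqrt_le_sqrt (mul_le_mul_of_nonneg_left hys hcS0)
      have e5 : Real.sqrt (∑ a, ∑ s, hs (W' a s * y a - y a * g s)) ≤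
          Real.sqrt (εE' ^ 2 / (8 * (cS + 1)) * d) := Real.sqrt_le_sqrt hen
      have e6 : Real.sqrt (cS * (2 * d)) * Real.sqrt (εE' ^ 2 / (8 * (cS + 1)) * d) ≤
          εE' / 2 * d := by
        rw [← Real.sqrt_mul (by positivity), Real.sqrt_le_left (by positivity)]
        have e7 : cS * (2 * d) * (εE' ^ 2 / (8 * (cS + 1)) * d) =
            (cS / (cS + 1)) * ((εE' / 2 * d) ^ 2) := by
          field_simp
          ring
        rw [e7]
        have e8 : cS / (cS + 1) ≤ 1 := by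
          rw [div_le_one (by positivity)]
          linarith
        have := mul_le_mul_of_nonneg_right e8 (sq_nonneg (εE' / 2 * d))
        rwa [one_mul] at this
      have e9 : Real.sqrt (cS * ∑ a, hs (y a)) *
          Real.sqrt (∑ a, ∑ s, hs (W' a s * y a - y a * g s)) ≤ εE' / 2 * d :=
        (mul_le_mul e4 e5 (Real.sqrt_nonneg _) (Real.sqrt_nonneg _)).trans e6
      have e10 : 2 * Real.sqrt (cS * ∑ a, hs (y a)) *
          Real.sqrt (∑ a, ∑ s, hs (W' a s * y a - y a * g s)) =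
          2 * (Real.sqrt (cS * ∑ a, hs (y a)) *
          Real.sqrt (∑ a, ∑ s, hs (W' a s * y a - y a * g s))) := by ring
      rw [e10]
      linarith
    obtain ⟨⟨a, k⟩, hwl, hrl, q, q1, q2, q3, q4, q5⟩ := H d g hd hg hT (Σ a, Fin (K a)) w'
      (fun l => z l.1 l.2) hw'0 (fun l => hz _ _) s1 s2 hmass
    simp only at hrl q4 q5
    have hG : G ⟨a, k⟩ := by
      by_contra hc
      have : w' ⟨a, k⟩ = 0 := if_neg hc
      rw [this] at hwl
      exact lt_irrefl _ hwl
    have hG2 : rtr (z a k * R a) ≤ κ a * rtr (z a k) := hG.2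
    set r : ℝ := rtr (z a k) with hr
    have hzR : 0 ≤ rtr (z a k * R a) := rtr_mul_nonneg (hz a k).psd (hR0 a)
    have hκ0 : 0 ≤ κ a := by
      by_contra hc
      push Not at hc
      nlinarith
    refine ⟨a, r, q, hκ0, hrl, hrk a k, q1, q2, q3, ?_⟩
    have hsr : Real.sqrt r * Real.sqrt r = r := Real.mul_self_sqrt hrl.le
    have hsr0 : 0 ≤ Real.sqrt r := Real.sqrt_nonneg _
    have f1 : Real.sqrt (hs (q - z a k)) ≤ γ / 16 * Real.sqrt r := by
      refine (Real.sqrt_le_sqrt q4).trans (le_of_eq ?_)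
      rw [Real.sqrt_mul (sq_nonneg _), Real.sqrt_sq (by positivity)]
    have f2 : Real.sqrt (rtr q) ≤ 2 * Real.sqrt r := by
      rw [Real.sqrt_le_left (by positivity)]
      have : (2 * Real.sqrt r) ^ 2 = 4 * r := by
        rw [mul_pow, Real.sq_sqrt hrl.le]
        norm_num
      rw [this]
      have : (γ / 16) ^ 2 ≤ 1 := by nlinarith
      nlinarith
    have f3 : rtr (q * R a) ≤ (κ a + 3 * γ / 16) * r := by
      have f4 := rtr_diff_le q1 (hz a k) (hR0 a) (hR1 a)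
      have f5 : Real.sqrt (hs (q - z a k)) * (Real.sqrt (rtr q) + Real.sqrt (rtr (z a k))) ≤
          γ / 16 * Real.sqrt r * (2 * Real.sqrt r + Real.sqrt r) := by
        refine mul_le_mul f1 ?_ (by positivity) (by positivity)
        rw [← hr]
        linarith
      have f6 : γ / 16 * Real.sqrt r * (2 * Real.sqrt r + Real.sqrt r) = 3 * γ / 16 * r := by
        calc γ / 16 * Real.sqrt r * (2 * Real.sqrt r + Real.sqrt r) =
            3 * γ / 16 * (Real.sqrt r * Real.sqrt r) := by ring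
          _ = _ := by rw [hsr]
      linarith
    have f7 : (1 - γ / 8) * r ≤ rtr q := by
      have e1 : Real.sqrt (hs (z a k)) ≤ Real.sqrt (hs q) + Real.sqrt (hs (q - z a k)) := by
        have := sqrt_hs_sub_le q (q - z a k)
        rwa [sub_sub_cancel] at this
      rw [(hz a k).hs_eq, q1.hs_eq, ← hr] at e1
      have e3 : (1 - γ / 16) * Real.sqrt r ≤ Real.sqrt (rtr q) := by linarith
      have e4 := mul_self_le_mul_self (mul_nonneg (by linarith) hsr0) e3
      rw [Real.mul_self_sqrt q2.le] at e4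
      have e5 : (1 - γ / 16) * Real.sqrt r * ((1 - γ / 16) * Real.sqrt r) =
          (1 - γ / 16) ^ 2 * r := by
        calc (1 - γ / 16) * Real.sqrt r * ((1 - γ / 16) * Real.sqrt r) =
            (1 - γ / 16) ^ 2 * (Real.sqrt r * Real.sqrt r) := by ring
          _ = _ := by rw [hsr]
      rw [e5] at e4
      nlinarith [sq_nonneg γ]
    have hκa := hκ a
    constructor
    · have e1 : (κ a + 3 * γ / 16) * r ≤ 1 / 8 * ((1 - γ / 8) * r) := by
        have : κ a + 3 * γ / 16 ≤ 1 / 8 * (1 - γ / 8) := by linarith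
        nlinarith
      linarith
    · rw [Matrix.mul_add, Matrix.mul_one, rtr_add]
      have e1 : rtr q + rtr (q * R a) ≤ (1 + (γ / 16) ^ 2) * r + (κ a + 3 * γ / 16) * r :=
        add_le_add q5 f3
      refine e1.trans ?_
      have e2 : (1 + (γ / 16) ^ 2) + (κ a + 3 * γ / 16) ≤ (1 + γ / 4) * (1 + κ a) := by
        nlinarith [mul_nonneg hγ.le hκ0]
      have e3 := mul_le_mul_of_nonneg_right e2 hrl.le
      calc (1 + (γ / 16) ^ 2) * r + (κ a + 3 * γ / 16) * r =
          ((1 + (γ / 16) ^ 2) + (κ a + 3 * γ / 16)) * r := by ring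
        _ ≤ _ := e3
        _ = _ := by ring
  · left
    push Not at hmass
    have e1 : ∑ a, κ a * hs (y a) = ∑ l : (Σ a, Fin (K a)), w l.1 l.2 * (κ l.1 * rtr (z l.1 l.2)) := by
      rw [Fintype.sum_sigma]
      refine Finset.sum_congr rfl fun a _ => ?_
      have : hs (y a) = ∑ k, w a k * rtr (z a k) := by
        unfold hs
        rw [hyy a, rtr_sum]
        exact Finset.sum_congr rfl fun k _ => rtr_smul _ _
      rw [this, Finset.mul_sum]
      refine Finset.sum_congr rfl fun k _ => ?_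
      ring
    have e2 : ∑ a, rtr ((y a)ᴴ * y a * R a) =
        ∑ l : (Σ a, Fin (K a)), w l.1 l.2 * rtr (z l.1 l.2 * R l.1) := by
      rw [Fintype.sum_sigma]
      refine Finset.sum_congr rfl fun a _ => ?_
      rw [hyy a, Matrix.sum_mul, rtr_sum]
      refine Finset.sum_congr rfl fun k _ => ?_
      rw [Matrix.smul_mul, rtr_smul]
    rw [e1, e2]
    have e3 : ∑ l : (Σ a, Fin (K a)), w l.1 l.2 * (κ l.1 * rtr (z l.1 l.2)) ≤
        ∑ l : (Σ a, Fin (K a)), (w l.1 l.2 * rtr (z l.1 l.2 * R l.1) + w' l * rtr (z l.1 l.2)) := by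
      refine Finset.sum_le_sum fun l _ => ?_
      have hr0 : 0 ≤ rtr (z l.1 l.2) := rtr_nonneg (hz l.1 l.2).psd
      have hzR : 0 ≤ rtr (z l.1 l.2 * R l.1) := rtr_mul_nonneg (hz l.1 l.2).psd (hR0 l.1)
      have hw0 := hw l.1 l.2
      have hκl := hκ l.1
      by_cases hG : G l
      · have h5 : w' l = w l.1 l.2 := if_pos hG
        rw [h5]
        have : κ l.1 * rtr (z l.1 l.2) ≤ rtr (z l.1 l.2 * R l.1) + rtr (z l.1 l.2) := by nlinarith
        nlinarith
      · have h5 : w' l = 0 := if_neg hG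
        rw [h5, zero_mul, add_zero]
        refine mul_le_mul_of_nonneg_left ?_ hw0
        rcases hr0.eq_or_lt with h6 | h6
        · rw [← h6, mul_zero]; exact hzR
        · by_contra hc
          exact hG ⟨h6, (not_le.1 hc).le⟩
    rw [Finset.sum_add_distrib] at e3
    linarith

/-- PART 1b -/
theorem gilTheorem : GilTheorem := by
  intro S _ C hC γ hγ ε hε
  set γ' : ℝ := min γ (1 / 8) with hγ'
  have hγ'0 : 0 < γ' := lt_min hγ (by norm_num)
  have hγ'1 : γ' ≤ γ := min_le_left _ _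
  have hγ'2 : γ' ≤ 1 / 8 := min_le_right _ _
  obtain ⟨εE, hεE, H⟩ := gil_common S C hC γ' hγ'0 hγ'2 ε hε
  refine ⟨εE, hεE, γ' / 4, by positivity, fun h hh hh0 => ?_⟩
  obtain ⟨t, ht, H⟩ := H h hh
  refine ⟨t, ht, ?_⟩
  intro d g hd hg hT X Λ _ T _ _ W' y i κ hW hi hsum hen hκ hrank
  rcases H d g hd hg hT Λ T W' y (fun a => Rs X.p (i a)) κ hW hsum hen
    (fun a => (hκ a).trans (by linarith)) (fun a => Rs_psd X.proj (hi a).le)
    (fun a => Rs_le_one X.proj (hi a).le) with h1 | ⟨a, r, q, hκ0, hr, hrr, q1, q2, q3, q4, q5⟩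
  · exact h1
  · exfalso
    have hnear := X.near (i a) (hi a) q q1 q2 q3 q4
    have hrk := hrank a
    set A : ℝ := rtr (X.p (i a) * (1 + Rs X.p (i a))) with hA
    have hA0 : 0 < A := by
      rw [hA, Matrix.mul_add, Matrix.mul_one, rtr_add]
      have h1 := X.pos (i a) (hi a)
      have h2 := rtr_mul_nonneg (X.proj (i a) (hi a)).psd (Rs_psd X.proj (hi a).le)
      linarith
    have h1 : (1 + κ a) * r ≤ (1 - γ') * A := by
      have h2 : (1 + κ a) * r ≤ (1 + κ a) * (y a).rank :=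
        mul_le_mul_of_nonneg_left hrr (by linarith)
      have h3 : (1 - γ) * A ≤ (1 - γ') * A := mul_le_mul_of_nonneg_right (by linarith) hA0.le
      linarith
    have h2 : A ≤ (1 + h) * ((1 + γ' / 4) * ((1 - γ') * A)) := by
      refine hnear.trans (mul_le_mul_of_nonneg_left (q5.trans ?_) (by linarith))
      exact mul_le_mul_of_nonneg_left h1 (by linarith)
    have h3 : (1 + h) * ((1 + γ' / 4) * ((1 - γ') * A)) ≤
        (1 + γ' / 4) * ((1 + γ' / 4) * ((1 - γ') * A)) := by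
      refine mul_le_mul_of_nonneg_right (by linarith) ?_
      have : 0 ≤ 1 - γ' := by linarith
      positivity
    have h4 : (1 + γ' / 4) * ((1 + γ' / 4) * ((1 - γ') * A)) < A := by
      have h5 : (1 + γ' / 4) * (1 + γ' / 4) * (1 - γ') < 1 := by nlinarith [sq_nonneg γ']
      nlinarith
    linarith

/-- PART 1b' -/
theorem gilStopTheorem : GilStopTheorem := by
  intro S _ C hC γ hγ ε hε
  set γ' : ℝ := min γ (1 / 8) with hγ'
  have hγ'0 : 0 < γ' := lt_min hγ (by norm_num)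
  have hγ'1 : γ' ≤ γ := min_le_left _ _
  have hγ'2 : γ' ≤ 1 / 8 := min_le_right _ _
  obtain ⟨εE, hεE, H⟩ := gil_common S C hC γ' hγ'0 hγ'2 ε hε
  refine ⟨εE, hεE, 1, one_pos, fun h hh _ => ?_⟩
  obtain ⟨t, ht, H⟩ := H h hh
  refine ⟨t, ht, ?_⟩
  intro d g hd hg hT X Λ _ T _ _ W' y κ hW hsum hen hκ
  rcases H d g hd hg hT Λ T W' y (fun a => Rs X.p X.m) κ hW hsum hen
    (fun a => (hκ a).trans (by linarith)) (fun a => Rs_psd X.proj le_rfl)
    (fun a => Rs_le_one X.proj le_rfl) with h1 | ⟨a, r, q, hκ0, hr, hrr, q1, q2, q3, q4, q5⟩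
  · exact h1
  · exact absurd q4 (X.stop q q1 q2 q3)

end Pool.Agent.H51K
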