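import Pool.Agent.H51K.LayA

/-!
The layer theorem.
-/

set_option autoImplicit false
set_option linter.unusedSectionVars false
open Matrix
open scoped ComplexOrder MatrixOrder

namespace Pool.Agent.H51K

theorem cs2 {n : Type*} [Fintype n] (A B : n → n → ℝ) :
    ∑ a, ∑ b, A a b * B a b ≤
      Real.sqrt (∑ a, ∑ b, A a b ^ 2) * Real.sqrt (∑ a, ∑ b, B a b ^ 2) := by
  rw [← Fintype.sum_prod_type' (f := fun a b => A a b * B a b),
    ← Fintype.sum_prod_type' (f := fun a b => A a b ^ 2),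
    ← Fintype.sum_prod_type' (f := fun a b => B a b ^ 2)]
  exact Real.sum_mul_le_sqrt_mul_sqrt _ _ _

theorem layer_main {n l : Type*} [Fintype n] [Fintype l] [DecidableEq n] [DecidableEq l]
    (y : Matrix l n ℂ) {V : Matrix n n ℂ} (hV : V ∈ unitaryGroup n ℂ) (f : n → ℝ)
    (hf : ∀ i, 0 ≤ f i) (hy : yᴴ * y = Dg V f) (g' : Matrix l l ℂ) (g : Matrix n n ℂ)
    (hg' : g' ∈ unitaryGroup l ℂ) (hg : g ∈ unitaryGroup n ℂ) :
    ∑ a, ∑ b, ‖(Vᴴ * g * V) a b‖ ^ 2 * |f a - f b| ≤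
      2 * Real.sqrt (hs y) * Real.sqrt (hs (g' * y - y * g)) := by
  have hV' : Vᴴ * V = 1 := mem_unitaryGroup_iff'.1 hV
  have hg1 : gᴴ * g = 1 := mem_unitaryGroup_iff'.1 hg
  have hg2 : g * gᴴ = 1 := mem_unitaryGroup_iff.1 hg
  have hg3 : g'ᴴ * g' = 1 := mem_unitaryGroup_iff'.1 hg'
  set s : n → ℝ := fun i => Real.sqrt (f i) with hs_def
  have hss : ∀ i, s i * s i = f i := fun i => Real.mul_self_sqrt (hf i)
  have hs0 : ∀ i, 0 ≤ s i := fun i => Real.sqrt_nonneg _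
  set Ds : Matrix n n ℂ := diagonal (fun i => (s i : ℂ)) with hDs
  set Di : Matrix n n ℂ := diagonal (fun i => (((s i)⁻¹ : ℝ) : ℂ)) with hDi
  have hDsc : Dsᴴ = Ds := by
    rw [hDs, diagonal_conjTranspose]
    congr 1
    ext i
    simp
  have hDic : Diᴴ = Di := by
    rw [hDi, diagonal_conjTranspose]
    congr 1
    ext i
    simp
  set Lm : Matrix l n ℂ := y * V * Di with hLm
  set D : Matrix l n ℂ := g' * y - y * g with hD
  have hVyyV : Vᴴ * (yᴴ * y) * V = diagonal (fun i => (f i : ℂ)) := by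
    rw [hy]
    unfold Dg
    have : Vᴴ * (V * diagonal (fun i => (f i : ℂ)) * Vᴴ) * V =
        (Vᴴ * V) * diagonal (fun i => (f i : ℂ)) * (Vᴴ * V) := by
      simp only [Matrix.mul_assoc]
    rw [this, hV', Matrix.one_mul, Matrix.mul_one]
  -- `y V = L D_s`
  have hyV : y * V = Lm * Ds := by
    have h0 : hs (y * V - Lm * Ds) = 0 := by
      have e1 : y * V - Lm * Ds = y * V * (1 - Di * Ds) := by
        rw [hLm, Matrix.mul_sub, Matrix.mul_one, Matrix.mul_assoc]
      have e2 : (1 - Di * Ds : Matrix n n ℂ) =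
          diagonal (fun i => ((1 - (s i)⁻¹ * s i : ℝ) : ℂ)) := by
        rw [hDi, hDs, diagonal_mul_diagonal, ← diagonal_one, diagonal_sub]
        congr 1
        ext i
        push_cast
        rfl
      rw [e1, e2]
      unfold hs
      have e3 : (y * V * diagonal (fun i => ((1 - (s i)⁻¹ * s i : ℝ) : ℂ)))ᴴ *
          (y * V * diagonal (fun i => ((1 - (s i)⁻¹ * s i : ℝ) : ℂ))) =
          diagonal (fun i => ((1 - (s i)⁻¹ * s i : ℝ) : ℂ)) * (Vᴴ * (yᴴ * y) * V) *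
            diagonal (fun i => ((1 - (s i)⁻¹ * s i : ℝ) : ℂ)) := by
        have e4 : (diagonal (fun i => ((1 - (s i)⁻¹ * s i : ℝ) : ℂ)) : Matrix n n ℂ)ᴴ =
            diagonal (fun i => ((1 - (s i)⁻¹ * s i : ℝ) : ℂ)) := by
          rw [diagonal_conjTranspose]
          congr 1
          ext i
          simp
        rw [conjTranspose_mul, conjTranspose_mul, e4]
        simp only [Matrix.mul_assoc]
      rw [e3, hVyyV, diagonal_mul_diagonal, diagonal_mul_diagonal]
      have e5 : (fun i => ((1 - (s i)⁻¹ * s i : ℝ) : ℂ) * (f i : ℂ) *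
          ((1 - (s i)⁻¹ * s i : ℝ) : ℂ)) = fun _ => (0 : ℂ) := by
        ext i
        by_cases h : s i = 0
        · rw [← hss i, h]; simp
        · rw [inv_mul_cancel₀ h]; simp
      rw [e5]
      simp [rtr_zero]
    exact sub_eq_zero.1 (hs_eq_zero h0)
  -- `L* L ≤ 1`
  have hLL : Lmᴴ * Lm ≤ 1 := by
    have e1 : Lmᴴ * Lm = Di * (Vᴴ * (yᴴ * y) * V) * Di := by
      rw [hLm, conjTranspose_mul, conjTranspose_mul, hDic]
      simp only [Matrix.mul_assoc]
    rw [e1, hVyyV, hDi, diagonal_mul_diagonal, diagonal_mul_diagonal, Matrix.le_iff,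
      ← diagonal_one, diagonal_sub, posSemidef_diagonal_iff]
    intro i
    have e2 : (1 : ℂ) - (((s i)⁻¹ : ℝ) : ℂ) * (f i : ℂ) * (((s i)⁻¹ : ℝ) : ℂ) =
        ((1 - (s i)⁻¹ * f i * (s i)⁻¹ : ℝ) : ℂ) := by
      push_cast
      rfl
    rw [e2]
    have e3 : (0 : ℝ) ≤ 1 - (s i)⁻¹ * f i * (s i)⁻¹ := by
      by_cases h : s i = 0
      · rw [h]; simp
      · rw [← hss i]
        have : (s i)⁻¹ * (s i * s i) * (s i)⁻¹ = 1 := by field_simp
        rw [this]; simp
    exact_mod_cast e3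
  have hLL' : Lm * Lmᴴ ≤ 1 := swap_contr hLL
  -- the two matrices
  set α : Matrix n n ℂ := Lmᴴ * D * V with hα
  set β : Matrix n n ℂ := Vᴴ * g * Dᴴ * g' * Lm with hβ
  have hαs : hs α ≤ hs D := by
    rw [hα, hs_mul_unitary hV]
    have h := hs_mul_le (κ := 1) (A := Lmᴴ) (by
      rw [conjTranspose_conjTranspose, one_smul]; exact hLL') D
    rwa [one_mul] at h
  have hβs : hs β ≤ hs D := by
    have h := hs_mul_le' (κ := 1) (B := Lm) (by rw [one_smul]; exact hLL')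
      (Vᴴ * g * Dᴴ * g')
    rw [one_mul] at h
    refine h.trans (le_of_eq ?_)
    rw [hs_mul_unitary hg', Matrix.mul_assoc]
    have h1 : hs (Vᴴ * (g * Dᴴ)) = hs (g * Dᴴ) := hs_unitary_mul (Unitary.star_mem hV) _
    rw [h1, hs_unitary_mul hg, hs_conjTranspose]
  -- the identity
  have hid : ∀ a b, (Vᴴ * g * V) a b * ((f b - f a : ℝ) : ℂ) =
      (s a : ℂ) * α a b + β a b * (s b : ℂ) := by
    intro a b
    rw [← comm_Dg_apply hV g f a b, ← hy]
    have e1 : g * (yᴴ * y) - yᴴ * y * g = yᴴ * D + g * Dᴴ * g' * y := by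
      rw [hD, conjTranspose_sub, conjTranspose_mul, conjTranspose_mul]
      have e2 : g * (yᴴ * g'ᴴ - gᴴ * yᴴ) * g' * y =
          g * yᴴ * (g'ᴴ * g') * y - (g * gᴴ) * yᴴ * g' * y := by
        simp only [Matrix.mul_sub, Matrix.sub_mul, Matrix.mul_assoc]
      rw [e2, hg3, hg2, Matrix.mul_one, Matrix.one_mul, Matrix.mul_sub]
      simp only [Matrix.mul_assoc]
      abel
    have e3 : Vᴴ * (yᴴ * D + g * Dᴴ * g' * y) * V = Ds * α + β * Ds := by
      have e4 : Vᴴ * (yᴴ * D + g * Dᴴ * g' * y) * V =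
          (y * V)ᴴ * D * V + Vᴴ * g * Dᴴ * g' * (y * V) := by
        rw [conjTranspose_mul]
        simp only [Matrix.mul_add, Matrix.add_mul, Matrix.mul_assoc]
      rw [e4, hyV, conjTranspose_mul, hDsc, hα, hβ]
      simp only [Matrix.mul_assoc]
    rw [e1, e3, Matrix.add_apply, hDs, diagonal_mul, mul_diagonal]
  -- the estimate
  set x : Matrix n n ℂ := Vᴴ * g * V with hx
  have hxu : x ∈ unitaryGroup n ℂ := conj_unitary hV hg
  have hsumf : ∑ i, f i = hs y := by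
    unfold hs
    rw [hy, rtr_Dg hV]
  have hpt : ∀ a b, ‖x a b‖ ^ 2 * |f a - f b| ≤
      (‖x a b‖ * s a) * ‖α a b‖ + (‖x a b‖ * s b) * ‖β a b‖ := by
    intro a b
    have h1 : ‖x a b‖ * |f a - f b| ≤ s a * ‖α a b‖ + ‖β a b‖ * s b := by
      have h2 := congrArg norm (hid a b)
      rw [norm_mul, Complex.norm_real, Real.norm_eq_abs, abs_sub_comm] at h2
      rw [h2]
      refine (norm_add_le _ _).trans ?_
      rw [norm_mul, norm_mul, Complex.norm_real, Complex.norm_real, Real.norm_eq_abs,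
        Real.norm_eq_abs, abs_of_nonneg (hs0 a), abs_of_nonneg (hs0 b)]
    have h3 := mul_le_mul_of_nonneg_left h1 (norm_nonneg (x a b))
    calc ‖x a b‖ ^ 2 * |f a - f b| = ‖x a b‖ * (‖x a b‖ * |f a - f b|) := by ring
      _ ≤ _ := h3
      _ = _ := by ring
  have hA : ∑ a, ∑ b, (‖x a b‖ * s a) ^ 2 = hs y := by
    rw [← hsumf]
    refine Finset.sum_congr rfl fun a _ => ?_
    have : ∀ b, (‖x a b‖ * s a) ^ 2 = ‖x a b‖ ^ 2 * f a := by
      intro b; rw [mul_pow, sq (s a), hss]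
    simp only [this]
    rw [← Finset.sum_mul, unitary_row hxu, one_mul]
  have hB : ∑ a, ∑ b, (‖x a b‖ * s b) ^ 2 = hs y := by
    rw [← hsumf, Finset.sum_comm]
    refine Finset.sum_congr rfl fun b _ => ?_
    have : ∀ a, (‖x a b‖ * s b) ^ 2 = ‖x a b‖ ^ 2 * f b := by
      intro a; rw [mul_pow, sq (s b), hss]
    simp only [this]
    rw [← Finset.sum_mul, unitary_col hxu, one_mul]
  calc ∑ a, ∑ b, ‖x a b‖ ^ 2 * |f a - f b|
      ≤ ∑ a, ∑ b, ((‖x a b‖ * s a) * ‖α a b‖ + (‖x a b‖ * s b) * ‖β a b‖) :=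
        Finset.sum_le_sum fun a _ => Finset.sum_le_sum fun b _ => hpt a b
    _ = ∑ a, ∑ b, (‖x a b‖ * s a) * ‖α a b‖ + ∑ a, ∑ b, (‖x a b‖ * s b) * ‖β a b‖ := by
        simp only [Finset.sum_add_distrib]
    _ ≤ Real.sqrt (hs y) * Real.sqrt (hs α) + Real.sqrt (hs y) * Real.sqrt (hs β) := by
        refine add_le_add ?_ ?_
        · refine (cs2 _ _).trans (le_of_eq ?_)
          rw [hA, ← hs_eq_sum' α]
        · refine (cs2 _ _).trans (le_of_eq ?_)
          rw [hB, ← hs_eq_sum' β]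
    _ ≤ Real.sqrt (hs y) * Real.sqrt (hs D) + Real.sqrt (hs y) * Real.sqrt (hs D) := by
        refine add_le_add ?_ ?_
        · exact mul_le_mul_of_nonneg_left (Real.sqrt_le_sqrt hαs) (Real.sqrt_nonneg _)
        · exact mul_le_mul_of_nonneg_left (Real.sqrt_le_sqrt hβs) (Real.sqrt_nonneg _)
    _ = _ := by ring

/-- PART 1a -/
theorem layerTheorem : LayerTheorem := by
  intro n l _ _ _ _ y
  have hherm : (yᴴ * y)ᴴ = yᴴ * y := by
    rw [conjTranspose_mul, conjTranspose_conjTranspose]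
  obtain ⟨V, hV, f, hy, hrank⟩ := exists_Dg hherm
  have hpsd : (Dg V f).PosSemidef := by
    rw [← hy]
    exact posSemidef_conjTranspose_mul_self y
  have hf : ∀ i, 0 ≤ f i := nonneg_of_Dg_psd hV hpsd
  obtain ⟨K, w, t, h1, h2, h3, h4, h5, h6, h7⟩ := layers f hf
  refine ⟨K, w, fun k => Dg V (fun i => ind (t k) (f i)), h1,
    fun k => Dg_proj hV fun i => ind_01 _ _, ?_, ?_, ?_⟩
  · intro k
    rw [rtr_Dg hV, ← rank_conjTranspose_mul_self y, hrank, Fintype.card_subtype]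
    have e : ((Finset.univ.filter fun i => f i ≠ 0).card : ℝ) =
        ∑ i, (if f i ≠ 0 then (1 : ℝ) else 0) := by
      rw [Finset.sum_boole]
    rw [e]
    refine Finset.sum_le_sum fun i _ => ?_
    unfold ind
    by_cases a : t k < f i
    · rw [if_pos a, if_pos ((h2 k).trans_lt a).ne']
    · rw [if_neg a]
      split_ifs <;> norm_num
  · rw [hy]
    simp only [Dg_smul]
    rw [Dg_sum]
    congr 1
    ext i
    exact (h6 i).symm
  · intro g' g hg' hg
    rw [coarea hV f w t h7]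
    exact layer_main y hV f hf hy g' g hg' hg

end Pool.Agent.H51K
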