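import Pool.Agent.H51K.Flat3
import Pool.Agent.H51K.GilC
import Pool.Agent.H51K.LayB

/-!
`flatTheorem` and `overlap'` unconditionally.
-/

set_option autoImplicit false

namespace Pool.Agent.H51K

theorem flatTheorem : FlatTheorem := flatTheorem_of layerTheorem gilTheorem

theorem overlapTheorem' : OverlapTheorem := overlapTheorem gilTheorem gilStopTheorem

end Pool.Agent.H51K
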