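import Pool.Agent.H51K.FlatIface
import Pool.Agent.H51K.Ov3

/-!
Flatness, part 1: lemmas on one block.
-/

set_option autoImplicit false
set_option linter.unusedSectionVars false
open Matrix
open scoped ComplexOrder MatrixOrder

namespace Pool.Agent.H51K.Fl

variable {S : Type} [Fintype S] {d r : ℕ}

/-- the transported layers -/
noncomputable def yt (w : ℝ) (z : Matrix (Fin r) (Fin r) ℂ) (v : Matrix (Fin d) (Fin r) ℂ) :
    Matrix (Fin r) (Fin d) ℂ := Real.sqrt w • (z * vᴴ)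

theorem yt_conj (w : ℝ) {z : Matrix (Fin r) (Fin r) ℂ} (hz : IsProj z)
    (v : Matrix (Fin d) (Fin r) ℂ) : (yt w z v)ᴴ = Real.sqrt w • (v * z) := by
  rw [yt, Matrix.conjTranspose_smul, Matrix.conjTranspose_mul, Matrix.conjTranspose_conjTranspose,
    hz.1, star_trivial]

theorem yt_sq {w : ℝ} (hw : 0 ≤ w) {z : Matrix (Fin r) (Fin r) ℂ} (hz : IsProj z)
    (v : Matrix (Fin d) (Fin r) ℂ) : (yt w z v)ᴴ * yt w z v = w • (v * z * vᴴ) := by
  rw [yt_conj w hz, yt, Matrix.smul_mul, Matrix.mul_smul, smul_smul, Real.mul_self_sqrt hw]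
  congr 1
  have : v * z * (z * vᴴ) = v * (z * z) * vᴴ := by simp only [Matrix.mul_assoc]
  rw [this, hz.2]

theorem hs_yt {w : ℝ} (hw : 0 ≤ w) {z : Matrix (Fin r) (Fin r) ℂ} (hz : IsProj z)
    (v : Matrix (Fin d) (Fin r) ℂ) : hs (yt w z v) = w * rtr (z * (vᴴ * v)) := by
  unfold hs
  rw [yt_sq hw hz, rtr_smul]
  congr 1
  rw [Matrix.mul_assoc, rtr_mul_comm, Matrix.mul_assoc]

theorem rank_yt (w : ℝ) {z : Matrix (Fin r) (Fin r) ℂ} (hz : IsProj z)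
    (v : Matrix (Fin d) (Fin r) ℂ) : ((yt w z v).rank : ℝ) ≤ rtr z := by
  have h1 : yt w z v = z * (Real.sqrt w • vᴴ) := by
    rw [yt, Matrix.mul_smul]
  have h2 : (z * (Real.sqrt w • vᴴ)).rank ≤ z.rank := Matrix.rank_mul_le_left z _
  rw [h1, ← Ov.rank_proj hz]
  exact Nat.cast_le.2 h2

theorem en_yt {w : ℝ} (hw : 0 ≤ w) {z W : Matrix (Fin r) (Fin r) ℂ} (hz : IsProj z)
    {v : Matrix (Fin d) (Fin r) ℂ} (hv : vᴴ * v ≤ 1) (g : Matrix (Fin d) (Fin d) ℂ) :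
    hs (W * yt w z v - yt w z v * g) ≤
      2 * (w * hs (W * z - z * W)) + 2 * (w * rtr ((W * vᴴ - vᴴ * g)ᴴ * z * (W * vᴴ - vᴴ * g))) := by
  have e0 : (W * z - z * W) * vᴴ + z * (W * vᴴ - vᴴ * g) = W * (z * vᴴ) - z * vᴴ * g := by
    rw [Matrix.sub_mul, Matrix.mul_sub, Matrix.mul_assoc, Matrix.mul_assoc z W,
      ← Matrix.mul_assoc z vᴴ]
    abel
  have e : W * yt w z v - yt w z v * g =
      Real.sqrt w • ((W * z - z * W) * vᴴ + z * (W * vᴴ - vᴴ * g)) := by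
    rw [e0, yt, Matrix.mul_smul, Matrix.smul_mul, ← smul_sub]
  rw [e, hs_smul, Real.sq_sqrt hw]
  have h1 := hs_add_le ((W * z - z * W) * vᴴ) (z * (W * vᴴ - vᴴ * g))
  have h2 : hs ((W * z - z * W) * vᴴ) ≤ hs (W * z - z * W) := by
    have := hs_mul_le' (κ := 1) (B := vᴴ) (by
      rw [one_smul, Matrix.conjTranspose_conjTranspose]; exact hv) (W * z - z * W)
    rwa [one_mul] at this
  have h3 : hs (z * (W * vᴴ - vᴴ * g)) =
      rtr ((W * vᴴ - vᴴ * g)ᴴ * z * (W * vᴴ - vᴴ * g)) := by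
    unfold hs
    rw [Matrix.conjTranspose_mul, hz.1]
    rw [← Matrix.mul_assoc, Matrix.mul_assoc _ z z, hz.2]
  rw [h3] at h1
  have h4 := mul_le_mul_of_nonneg_left h1 hw
  have h5 := mul_le_mul_of_nonneg_left h2 hw
  linarith

theorem hs_flip {W : Matrix (Fin r) (Fin r) ℂ} {g : Matrix (Fin d) (Fin d) ℂ}
    (hW : W ∈ Matrix.unitaryGroup (Fin r) ℂ) (hg : g ∈ Matrix.unitaryGroup (Fin d) ℂ)
    (v : Matrix (Fin d) (Fin r) ℂ) : hs (W * vᴴ - vᴴ * g) = hs (g * v - v * W) := by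
  have h1 : g * (W * vᴴ - vᴴ * g)ᴴ * W = g * v - v * W := by
    rw [Matrix.conjTranspose_sub, Matrix.conjTranspose_mul, Matrix.conjTranspose_mul,
      Matrix.conjTranspose_conjTranspose, Matrix.mul_sub, Matrix.sub_mul]
    have a1 : g * (v * Wᴴ) * W = g * v := by
      have : g * (v * Wᴴ) * W = g * v * (Wᴴ * W) := by simp only [Matrix.mul_assoc]
      have hW' : Wᴴ * W = 1 := Matrix.mem_unitaryGroup_iff'.1 hW
      rw [this, hW', Matrix.mul_one]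
    have a2 : g * (gᴴ * v) * W = v * W := by
      have hg' : g * gᴴ = 1 := Matrix.mem_unitaryGroup_iff.1 hg
      rw [← Matrix.mul_assoc, hg', Matrix.one_mul]
    rw [a1, a2]
  rw [← h1, hs_mul_unitary hW, hs_unitary_mul hg, hs_conjTranspose]

variable {ι : Type} [Fintype ι]

/-- sums over the layers of one block -/
theorem sum_yt_sq {w : ι → ℝ} (hw : ∀ i, 0 ≤ w i) {z : ι → Matrix (Fin r) (Fin r) ℂ}
    (hz : ∀ i, IsProj (z i)) (hs1 : ∑ i, w i • z i ≤ 1) (v : Matrix (Fin d) (Fin r) ℂ) :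
    ∑ i, (yt (w i) (z i) v)ᴴ * yt (w i) (z i) v ≤ v * vᴴ := by
  have h1 : ∑ i, (yt (w i) (z i) v)ᴴ * yt (w i) (z i) v = v * (∑ i, w i • z i) * vᴴ := by
    rw [Matrix.mul_sum, Matrix.sum_mul]
    refine Finset.sum_congr rfl fun i _ => ?_
    rw [yt_sq (hw i) (hz i), Matrix.mul_smul, Matrix.smul_mul]
  rw [h1]
  have h2 := conj_mono' hs1 v
  rwa [Matrix.mul_one] at h2

theorem sum_yt_en {w : ι → ℝ} (hw : ∀ i, 0 ≤ w i) {z : ι → Matrix (Fin r) (Fin r) ℂ}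
    (hz : ∀ i, IsProj (z i)) (hs1 : ∑ i, w i • z i ≤ 1) {v : Matrix (Fin d) (Fin r) ℂ}
    (hv : vᴴ * v ≤ 1) {W : S → Matrix (Fin r) (Fin r) ℂ} {g : S → Matrix (Fin d) (Fin d) ℂ}
    (hW : ∀ s, W s ∈ Matrix.unitaryGroup (Fin r) ℂ)
    (hg : ∀ s, g s ∈ Matrix.unitaryGroup (Fin d) ℂ) :
    ∑ i, EnR W g (yt (w i) (z i) v) ≤ 2 * ∑ i, w i * En W (z i) + 2 * EnR g W v := by
  have h1 : ∀ s, ∑ i, hs (W s * yt (w i) (z i) v - yt (w i) (z i) v * g s) ≤
      2 * ∑ i, w i * hs (W s * z i - z i * W s) + 2 * hs (g s * v - v * W s) := by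
    intro s
    have h2 := Finset.sum_le_sum fun i (_ : i ∈ Finset.univ) =>
      en_yt (hw i) (W := W s) (hz i) hv (g s)
    rw [Finset.sum_add_distrib, ← Finset.mul_sum, ← Finset.mul_sum] at h2
    set D := W s * vᴴ - vᴴ * g s with hD
    have h3 : ∑ i, w i * rtr (Dᴴ * z i * D) = rtr (Dᴴ * (∑ i, w i • z i) * D) := by
      rw [Matrix.mul_sum, Matrix.sum_mul, rtr_sum]
      refine Finset.sum_congr rfl fun i _ => ?_
      rw [Matrix.mul_smul, Matrix.smul_mul, rtr_smul]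
    have h4 : rtr (Dᴴ * (∑ i, w i • z i) * D) ≤ hs D := by
      have := rtr_mono (conj_mono hs1 D)
      rwa [Matrix.mul_one] at this
    rw [h3] at h2
    rw [← hs_flip (hW s) (hg s) v]
    linarith
  have h2 := Finset.sum_le_sum fun s (_ : s ∈ Finset.univ) => h1 s
  rw [Finset.sum_add_distrib, ← Finset.mul_sum, ← Finset.mul_sum] at h2
  have e1 : ∑ i, EnR W g (yt (w i) (z i) v) =
      ∑ s, ∑ i, hs (W s * yt (w i) (z i) v - yt (w i) (z i) v * g s) := by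
    unfold EnR
    rw [Finset.sum_comm]
  have e2 : ∑ s, ∑ i, w i * hs (W s * z i - z i * W s) = ∑ i, w i * En W (z i) := by
    rw [Finset.sum_comm]
    refine Finset.sum_congr rfl fun i _ => ?_
    rw [← Finset.mul_sum]
    rfl
  rw [e1, ← e2]
  exact h2

theorem sum_yt_ov {w : ι → ℝ} (hw : ∀ i, 0 ≤ w i) {z : ι → Matrix (Fin r) (Fin r) ℂ}
    (hz : ∀ i, IsProj (z i)) (hs1 : ∑ i, w i • z i ≤ 1) (v : Matrix (Fin d) (Fin r) ℂ)
    {R : Matrix (Fin d) (Fin d) ℂ} (hR : R.PosSemidef) :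
    ∑ i, rtr ((yt (w i) (z i) v)ᴴ * yt (w i) (z i) v * R) ≤ rtr (v * vᴴ * R) := by
  rw [← rtr_sum, ← Finset.sum_mul]
  exact rtr_mul_mono (sum_yt_sq hw hz hs1 v) hR

theorem sum_yt_hs {w : ι → ℝ} (hw : ∀ i, 0 ≤ w i) {z : ι → Matrix (Fin r) (Fin r) ℂ}
    (hz : ∀ i, IsProj (z i)) (hs1 : ∑ i, w i • z i ≤ 1) {v : Matrix (Fin d) (Fin r) ℂ}
    (hv : vᴴ * v ≤ 1) :
    ∑ i, w i * rtr (z i) ≤ ∑ i, hs (yt (w i) (z i) v) + (r - hs v) := by
  have h1 : ∀ i, w i * rtr (z i) = hs (yt (w i) (z i) v) + rtr ((w i • z i) * (1 - vᴴ * v)) := by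
    intro i
    rw [hs_yt (hw i) (hz i), Matrix.mul_sub, Matrix.mul_one, rtr_sub, Matrix.smul_mul, rtr_smul,
      rtr_smul]
    ring
  have h2 : ∑ i, w i * rtr (z i) = ∑ i, hs (yt (w i) (z i) v) +
      rtr ((∑ i, w i • z i) * (1 - vᴴ * v)) := by
    rw [Finset.sum_mul, rtr_sum, ← Finset.sum_add_distrib]
    exact Finset.sum_congr rfl fun i _ => h1 i
  have h3 : rtr ((∑ i, w i • z i) * (1 - vᴴ * v)) ≤ rtr (1 * (1 - vᴴ * v)) :=
    rtr_mul_mono hs1 (Matrix.le_iff.1 hv)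
  rw [Matrix.one_mul, rtr_sub, rtr_one, Fintype.card_fin] at h3
  rw [h2]
  unfold hs at *
  linarith

/-- one layer tested against a contraction -/
theorem layer_flat {b z : Matrix (Fin r) (Fin r) ℂ} (hb : bᴴ = b) (hb1 : bᴴ * b ≤ 1)
    (hz : IsProj z) (hr : 0 < r) :
    rtr (b * z) - rtr z / r * rtr b ≤ 2 * (1 - rtr z / r) * rtr z := by
  have hr' : (0 : ℝ) < r := by exact_mod_cast hr
  have hble : b ≤ 1 := by
    have h1 : ((1 - b)ᴴ * (1 - b)).PosSemidef := Matrix.posSemidef_conjTranspose_mul_self _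
    have h2 := Matrix.le_iff.1 hb1
    have h3 := (h1.add h2).smul (show (0 : ℝ) ≤ 1 / 2 by norm_num)
    rw [Matrix.le_iff]
    have e : (1 / 2 : ℝ) • ((1 - b)ᴴ * (1 - b) + (1 - bᴴ * b)) = 1 - b := by
      rw [Matrix.conjTranspose_sub, Matrix.conjTranspose_one, hb, Matrix.sub_mul, Matrix.one_mul,
        Matrix.mul_sub, Matrix.mul_one]
      module
    rwa [e] at h3
  have hble' : -b ≤ 1 := by
    have h1 : ((1 + b)ᴴ * (1 + b)).PosSemidef := Matrix.posSemidef_conjTranspose_mul_self _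
    have h2 := Matrix.le_iff.1 hb1
    have h3 := (h1.add h2).smul (show (0 : ℝ) ≤ 1 / 2 by norm_num)
    rw [Matrix.le_iff]
    have e : (1 / 2 : ℝ) • ((1 + b)ᴴ * (1 + b) + (1 - bᴴ * b)) = 1 - -b := by
      rw [Matrix.conjTranspose_add, Matrix.conjTranspose_one, hb, Matrix.add_mul, Matrix.one_mul,
        Matrix.mul_add, Matrix.mul_one]
      module
    rwa [e] at h3
  have h1 : rtr (b * z) ≤ rtr z := by
    have := rtr_mul_mono hble hz.psd
    rwa [Matrix.one_mul] at this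
  have h2 : rtr (-b * (1 - z)) ≤ rtr (1 - z) := by
    have := rtr_mul_mono hble' hz.one_sub.psd
    rwa [Matrix.one_mul] at this
  rw [Matrix.mul_sub, Matrix.mul_one, Matrix.neg_mul, rtr_sub, rtr_sub, rtr_neg, rtr_neg,
    rtr_one, Fintype.card_fin] at h2
  have h3 : 0 ≤ rtr z := rtr_nonneg hz.psd
  have h4 : rtr z ≤ r := by
    have := rtr_mono hz.le_one
    rwa [rtr_one, Fintype.card_fin] at this
  set ρ := rtr z / r with hρ
  have hρ0 : 0 ≤ ρ := div_nonneg h3 hr'.le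
  have hρ1 : ρ ≤ 1 := (div_le_one hr').2 h4
  have e1 : ρ * r = rtr z := div_mul_cancel₀ _ hr'.ne'
  have h5 : (1 - ρ) * rtr (b * z) ≤ (1 - ρ) * rtr z :=
    mul_le_mul_of_nonneg_left h1 (by linarith)
  have h6 : ρ * (-rtr b + rtr (b * z)) ≤ ρ * (r - rtr z) :=
    mul_le_mul_of_nonneg_left (by linarith) hρ0
  have e2 : ρ * (r - rtr z) = (1 - ρ) * rtr z := by
    rw [mul_sub, e1]
    ring
  rw [e2] at h6
  nlinarith

end Pool.Agent.H51K.Fl
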