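import Pool.Agent.H51K.Flat1

/-!
Flatness, part 2: layers of one block.
-/

set_option autoImplicit false
set_option linter.unusedSectionVars false
open Matrix
open scoped ComplexOrder MatrixOrder

namespace Pool.Agent.H51K.Fl

variable {S : Type} [Fintype S] {d r : ℕ} {Λ : Type} [Fintype Λ]

section
variable {T : Λ → Type} [∀ a, Fintype (T a)] [∀ a, DecidableEq (T a)]
  {y : ∀ a, Matrix (T a) (Fin r) ℂ} {K : Λ → ℕ} {w : ∀ a, Fin (K a) → ℝ}
  {z : ∀ a, Fin (K a) → Matrix (Fin r) (Fin r) ℂ}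

/-- total weight of the layers -/
theorem layers_le_one (hsum : ∀ a, (y a)ᴴ * y a = ∑ k, w a k • z a k)
    (hy : ∑ a, (y a)ᴴ * y a ≤ 1) :
    ∑ i : (Σ a, Fin (K a)), w i.1 i.2 • z i.1 i.2 ≤ 1 := by
  rw [Fintype.sum_sigma]
  refine (le_of_eq ?_).trans hy
  exact Finset.sum_congr rfl fun a _ => (hsum a).symm

theorem layers_rtr (hsum : ∀ a, (y a)ᴴ * y a = ∑ k, w a k • z a k) :
    ∑ i : (Σ a, Fin (K a)), w i.1 i.2 * rtr (z i.1 i.2) = ∑ a, hs (y a) := by
  rw [Fintype.sum_sigma]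
  refine Finset.sum_congr rfl fun a _ => ?_
  unfold hs
  rw [hsum a, rtr_sum]
  exact Finset.sum_congr rfl fun k _ => (rtr_smul _ _).symm

theorem layers_energy (W : S → Matrix (Fin r) (Fin r) ℂ)
    (W' : ∀ a, S → Matrix (T a) (T a) ℂ)
    (hW : ∀ s, W s ∈ Matrix.unitaryGroup (Fin r) ℂ)
    (hW' : ∀ a s, W' a s ∈ Matrix.unitaryGroup (T a) ℂ)
    (hco : ∀ a, ∀ (g' : Matrix (T a) (T a) ℂ) (g : Matrix (Fin r) (Fin r) ℂ),
      g' ∈ Matrix.unitaryGroup (T a) ℂ → g ∈ Matrix.unitaryGroup (Fin r) ℂ →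
        ∑ k, w a k * hs (g * z a k - z a k * g) ≤
          2 * Real.sqrt (hs (y a)) * Real.sqrt (hs (g' * y a - y a * g)))
    {η : ℝ} (hη : 0 < η) :
    ∑ i : (Σ a, Fin (K a)), w i.1 i.2 * En W (z i.1 i.2) ≤
      η * Fintype.card S * ∑ a, hs (y a) + 1 / η * ∑ a, EnR (W' a) W (y a) := by
  rw [Fintype.sum_sigma, Finset.mul_sum, Finset.mul_sum, ← Finset.sum_add_distrib]
  refine Finset.sum_le_sum fun a _ => ?_
  have h1 : ∀ s, ∑ k, w a k * hs (W s * z a k - z a k * W s) ≤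
      η * hs (y a) + 1 / η * hs (W' a s * y a - y a * W s) := by
    intro s
    refine (hco a (W' a s) (W s) (hW' a s) (hW s)).trans ?_
    set x := Real.sqrt (hs (y a)) with hx
    set u := Real.sqrt (hs (W' a s * y a - y a * W s)) with hu
    have hx2 : x ^ 2 = hs (y a) := Real.sq_sqrt (hs_nonneg _)
    have hu2 : u ^ 2 = hs (W' a s * y a - y a * W s) := Real.sq_sqrt (hs_nonneg _)
    rw [← hx2, ← hu2]
    have h7 : 0 ≤ 1 / η * (η * x - u) ^ 2 := by positivity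
    have h8 : 1 / η * (η * x - u) ^ 2 = η * x ^ 2 + 1 / η * u ^ 2 - 2 * x * u := by
      field_simp
      ring
    rw [h8] at h7
    linarith
  have h2 := Finset.sum_le_sum fun s (_ : s ∈ Finset.univ) => h1 s
  rw [Finset.sum_add_distrib, Finset.sum_const, ← Finset.mul_sum, Finset.card_univ,
    nsmul_eq_mul] at h2
  have e : ∑ k, w a k * En W (z a k) = ∑ s, ∑ k, w a k * hs (W s * z a k - z a k * W s) := by
    rw [Finset.sum_comm]
    refine Finset.sum_congr rfl fun k _ => ?_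
    rw [← Finset.mul_sum]
    rfl
  show ∑ k, w a k * En W (z a k) ≤ _
  rw [e]
  refine h2.trans (le_of_eq ?_)
  unfold EnR
  ring

/-- the weights of the bad layers -/
noncomputable def wb (δ : ℝ) (r : ℕ) (w : ℝ) (z : Matrix (Fin r) (Fin r) ℂ) : ℝ :=
  if rtr z < (1 - δ) * r then w else 0

theorem wb_nonneg {δ w : ℝ} (hw : 0 ≤ w) (z : Matrix (Fin r) (Fin r) ℂ) : 0 ≤ wb δ r w z := by
  unfold wb
  split_ifs
  · exact hw
  · exact le_rfl

theorem wb_le {δ w : ℝ} (hw : 0 ≤ w) (z : Matrix (Fin r) (Fin r) ℂ) : wb δ r w z ≤ w := by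
  unfold wb
  split_ifs
  · exact le_rfl
  · exact hw

theorem layers_wb (δ : ℝ) (hw : ∀ a k, 0 ≤ w a k) (hz : ∀ a k, IsProj (z a k))
    (hsum : ∀ a, (y a)ᴴ * y a = ∑ k, w a k • z a k) (hy : ∑ a, (y a)ᴴ * y a ≤ 1) :
    ∑ i : (Σ a, Fin (K a)), wb δ r (w i.1 i.2) (z i.1 i.2) • z i.1 i.2 ≤ 1 := by
  refine le_trans (Finset.sum_le_sum fun i _ => ?_) (layers_le_one hsum hy)
  rw [Matrix.le_iff, ← sub_smul]
  exact (hz i.1 i.2).psd.smul (sub_nonneg.2 (wb_le (hw i.1 i.2) _))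

theorem layers_final {δ : ℝ} (hδ : 0 ≤ δ) (hr : 0 < r)
    (hw : ∀ a k, 0 ≤ w a k) (hz : ∀ a k, IsProj (z a k))
    (hsum : ∀ a, (y a)ᴴ * y a = ∑ k, w a k • z a k)
    (b : Λ → Matrix (Fin r) (Fin r) ℂ) (hb : ∀ a, (b a)ᴴ = b a)
    (hb1 : ∀ a, (b a)ᴴ * b a ≤ 1) :
    ∑ a, (rtr (b a * ((y a)ᴴ * y a)) - hs (y a) / r * rtr (b a)) ≤
      2 * δ * ∑ a, hs (y a) +
        2 * ∑ i : (Σ a, Fin (K a)), wb δ r (w i.1 i.2) (z i.1 i.2) * rtr (z i.1 i.2) := by
  have hr' : (0 : ℝ) < r := by exact_mod_cast hr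
  rw [← layers_rtr hsum, Finset.mul_sum, Finset.mul_sum, ← Finset.sum_add_distrib,
    Fintype.sum_sigma]
  refine Finset.sum_le_sum fun a _ => ?_
  have e : rtr (b a * ((y a)ᴴ * y a)) - hs (y a) / r * rtr (b a) =
      ∑ k, w a k * (rtr (b a * z a k) - rtr (z a k) / r * rtr (b a)) := by
    have e1 : rtr (b a * ((y a)ᴴ * y a)) = ∑ k, w a k * rtr (b a * z a k) := by
      rw [hsum a, Finset.mul_sum, rtr_sum]
      refine Finset.sum_congr rfl fun k _ => ?_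
      rw [Matrix.mul_smul, rtr_smul]
    have e2 : hs (y a) = ∑ k, w a k * rtr (z a k) := by
      unfold hs
      rw [hsum a, rtr_sum]
      exact Finset.sum_congr rfl fun k _ => rtr_smul _ _
    rw [e1, e2, Finset.sum_div, Finset.sum_mul, ← Finset.sum_sub_distrib]
    refine Finset.sum_congr rfl fun k _ => ?_
    ring
  rw [e]
  refine Finset.sum_le_sum fun k _ => ?_
  show _ ≤ 2 * δ * (w a k * rtr (z a k)) + 2 * (wb δ r (w a k) (z a k) * rtr (z a k))
  have h1 := layer_flat (hb a) (hb1 a) (hz a k) hr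
  have h2 : 0 ≤ rtr (z a k) := rtr_nonneg (hz a k).psd
  have h3 := mul_le_mul_of_nonneg_left h1 (hw a k)
  refine h3.trans ?_
  set ρ := rtr (z a k) / r with hρ
  have hwz : 0 ≤ w a k * rtr (z a k) := mul_nonneg (hw a k) h2
  have hρ0 : 0 ≤ ρ := div_nonneg h2 hr'.le
  unfold wb
  split_ifs with hbad
  · have h4 : (1 - ρ) * (w a k * rtr (z a k)) ≤ 1 * (w a k * rtr (z a k)) :=
      mul_le_mul_of_nonneg_right (by linarith) hwz
    have h5 : 0 ≤ 2 * δ * (w a k * rtr (z a k)) := by positivity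
    linarith
  · have h4 : 1 - ρ ≤ δ := by
      have : 1 - δ ≤ ρ := by
        rw [hρ, le_div_iff₀ hr']
        exact not_lt.1 hbad
      linarith
    have h5 : (1 - ρ) * (w a k * rtr (z a k)) ≤ δ * (w a k * rtr (z a k)) :=
      mul_le_mul_of_nonneg_right h4 hwz
    linarith

end

/-- facts on `v = N ι` -/
theorem v_facts {p : ℕ → Matrix (Fin d) (Fin d) ℂ} {m : ℕ} (hp : ∀ j < m, IsProj (p j)) {j : ℕ}
    (hj : j < m) {ι : Matrix (Fin d) (Fin r) ℂ} (h1 : ιᴴ * ι = 1) (h2 : ι * ιᴴ = p j) :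
    (Ns p j * ι)ᴴ * (Ns p j * ι) ≤ 1 ∧
    rtr ((Ns p j * ι) * (Ns p j * ι)ᴴ * Rs p j) ≤ rtr (p j * Rs p j) ∧
    (r : ℝ) - hs (Ns p j * ι) ≤ 2 * rtr (p j * Rs p j) ∧ (r : ℝ) = rtr (p j) ∧
    (Ns p j * ι) * (Ns p j * ι)ᴴ = Ns p j * p j * Ns p j := by
  set N := Ns p j with hN
  have hNh : Nᴴ = N := Ns_herm hp hj.le
  have e0 : (N * ι) * (N * ι)ᴴ = N * p j * N := by
    rw [Matrix.conjTranspose_mul, hNh, ← h2]
    simp only [Matrix.mul_assoc]
  have e1 : (N * ι)ᴴ * (N * ι) = ιᴴ * (N * N) * ι := by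
    rw [Matrix.conjTranspose_mul, hNh]
    simp only [Matrix.mul_assoc]
  have hR : Rs p j = 1 - N := rfl
  have hrr : (r : ℝ) = rtr (p j) := by
    rw [← h2, rtr_mul_comm, h1, rtr_one, Fintype.card_fin]
  have hNsub : N = 1 - Rs p j := by rw [hR]; abel
  refine ⟨?_, ?_, ?_, hrr, e0⟩
  · rw [e1]
    have := conj_mono (trace_step_aux hp hj.le) ι
    rwa [Matrix.mul_one, h1] at this
  · rw [e0]
    have a1 : rtr (N * p j * N * Rs p j) = rtr (p j * (N * Rs p j * N)) := by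
      have : N * p j * N * Rs p j = N * (p j * (N * Rs p j)) := by simp only [Matrix.mul_assoc]
      rw [this, rtr_mul_comm]
      simp only [Matrix.mul_assoc]
    rw [a1]
    refine rtr_mul_mono_right ?_ (hp j hj).psd
    rw [Matrix.le_iff]
    have a2 : Rs p j - N * Rs p j * N = (Rs p j)ᴴ * (1 + N) * Rs p j := by
      rw [Rs_herm hp hj.le, hR]
      simp only [Matrix.mul_sub, Matrix.sub_mul, Matrix.mul_add, Matrix.add_mul, Matrix.mul_one,
        Matrix.one_mul, Matrix.mul_assoc]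
      abel
    rw [a2]
    exact psd_conj (Matrix.PosSemidef.one.add (Ns_psd hp hj.le)) _
  · have a1 : hs (N * ι) = rtr (p j * (N * N)) := by
      rw [hs_eq', e0, Matrix.mul_assoc, rtr_mul_comm, Matrix.mul_assoc]
    have a2 : rtr (p j * (N * N)) = rtr (p j) - 2 * rtr (p j * Rs p j) +
        rtr (p j * (Rs p j * Rs p j)) := by
      have : p j * (N * N) = p j - (2 : ℝ) • (p j * Rs p j) + p j * (Rs p j * Rs p j) := by
        rw [hNsub]
        simp only [Matrix.mul_sub, Matrix.sub_mul, Matrix.mul_one, Matrix.one_mul]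
        module
      rw [this, rtr_add, rtr_sub, rtr_smul]
    have a3 : 0 ≤ rtr (p j * (Rs p j * Rs p j)) := by
      refine rtr_mul_nonneg (hp j hj).psd ?_
      have := Matrix.posSemidef_conjTranspose_mul_self (Rs p j)
      rwa [Rs_herm hp hj.le] at this
    rw [a1, a2, ← hrr]
    linarith

end Pool.Agent.H51K.Fl
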