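import Pool.Agent.H51K.Flat2

/-!
Flatness, part 3: assembly.
-/

set_option autoImplicit false
set_option linter.unusedSectionVars false
open Matrix
open scoped ComplexOrder MatrixOrder

namespace Pool.Agent.H51K

open Fl

theorem flatTheorem_of (hL : LayerTheorem) (hG : GilTheorem) : FlatTheorem := by
  intro S _ C hC εf hεf
  set δ : ℝ := min (εf / 24) (1 / 8) with hδ
  have hδ0 : 0 < δ := lt_min (by positivity) (by norm_num)
  have hδ1 : δ ≤ εf / 24 := min_le_left _ _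
  have hδ2 : δ ≤ 1 / 8 := min_le_right _ _
  obtain ⟨εE, hεE, h₀, hh₀, H⟩ := hG S C hC (δ / 2) (by positivity) (δ * εf / 32) (by positivity)
  set nS : ℝ := (Fintype.card S : ℝ) with hnS
  have hnS0 : 0 ≤ nS := Nat.cast_nonneg _
  set η : ℝ := εE / (4 * (3 * nS + 1)) with hη
  have hη0 : 0 < η := by positivity
  have hη1 : η * (3 * nS + 1) = εE / 4 := by
    rw [hη]
    field_simp
  refine ⟨η ^ 2, by positivity, min (δ * εf / 32) (εE / 4), lt_min (by positivity) (by positivity),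
    h₀, hh₀, ?_⟩
  intro h hh hle
  obtain ⟨t, ht, K⟩ := H h hh hle
  refine ⟨t, ht, ?_⟩
  intro d g hd hg hT X r ι W hW hι1 hι2 hEn hOv Λ _ T _ _ W' y b hW' hb hb1 hy hE
  have hd0 : (0 : ℝ) < d := by exact_mod_cast hd
  have hproj := X.proj
  have hvf := fun j : Fin X.m => v_facts hproj j.2 (hι1 j) (hι2 j)
  have hrpos : ∀ j : Fin X.m, 0 < r j := by
    intro j
    have h1 := X.pos j j.2
    rw [← (hvf j).2.2.2.1] at h1
    exact_mod_cast h1
  -- layers
  choose K' w z hw hz hrk hsum hco using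
    fun (j : Fin X.m) (a : Λ) => hL (Fin (r j)) (T j a) (y j a)
  -- masses
  have hmass : ∑ j : Fin X.m, ∑ a, hs (y j a) ≤ 3 * d := by
    have h1 : ∀ j : Fin X.m, ∑ a, hs (y j a) ≤ rtr (X.p j) := by
      intro j
      have h2 := rtr_mono (hy j)
      rw [rtr_sum, rtr_one, Fintype.card_fin, (hvf j).2.2.2.1] at h2
      exact h2
    refine (Finset.sum_le_sum fun j _ => h1 j).trans ?_
    rw [Fin.sum_univ_eq_sum_range (fun j => rtr (X.p j))]
    have := mass_le hproj X.ov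
    rwa [Fintype.card_fin] at this
  have hmass0 : 0 ≤ ∑ j : Fin X.m, ∑ a, hs (y j a) :=
    Finset.sum_nonneg fun j _ => Finset.sum_nonneg fun a _ => hs_nonneg _
  have hOv' : ∑ j : Fin X.m, rtr (X.p j * Rs X.p j) ≤ min (δ * εf / 32) (εE / 4) * d := by
    rw [Fin.sum_univ_eq_sum_range (fun j => rtr (X.p j * Rs X.p j))]
    exact hOv
  have hOv1 : ∑ j : Fin X.m, rtr (X.p j * Rs X.p j) ≤ δ * εf / 32 * d :=
    hOv'.trans (mul_le_mul_of_nonneg_right (min_le_left _ _) hd0.le)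
  have hEn1 : ∑ j : Fin X.m, EnR g (W j) (Ns X.p j * ι j) ≤ εE / 4 * d :=
    hEn.trans (mul_le_mul_of_nonneg_right (min_le_right _ _) hd0.le)
  -- energies of layers
  have hlayE : ∑ j : Fin X.m, ∑ i : (Σ a, Fin (K' j a)), w j i.1 i.2 * En (W j) (z j i.1 i.2) ≤
      εE / 4 * d := by
    have h1 : ∀ j : Fin X.m, ∑ i : (Σ a, Fin (K' j a)), w j i.1 i.2 * En (W j) (z j i.1 i.2) ≤
        η * nS * ∑ a, hs (y j a) + 1 / η * ∑ a, EnR (W' j a) (W j) (y j a) := fun j =>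
      layers_energy (W j) (W' j) (hW j) (hW' j) (hco j) hη0
    refine (Finset.sum_le_sum fun j _ => h1 j).trans ?_
    rw [Finset.sum_add_distrib, ← Finset.mul_sum, ← Finset.mul_sum]
    have h2 : η * nS * ∑ j : Fin X.m, ∑ a, hs (y j a) ≤ η * nS * (3 * d) :=
      mul_le_mul_of_nonneg_left hmass (by positivity)
    have h3 : 1 / η * ∑ j : Fin X.m, ∑ a, EnR (W' j a) (W j) (y j a) ≤ 1 / η * (η ^ 2 * d) :=
      mul_le_mul_of_nonneg_left hE (by positivity)
    have h4 : 1 / η * (η ^ 2 * d) = η * d := by field_simp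
    have h5 : η * nS * (3 * d) + η * d = (η * (3 * nS + 1)) * d := by ring
    rw [hη1] at h5
    linarith
  -- transported bad layers
  have hwbs : ∀ j : Fin X.m, ∑ i : (Σ a, Fin (K' j a)),
      wb δ (r j) (w j i.1 i.2) (z j i.1 i.2) • z j i.1 i.2 ≤ 1 := fun j =>
    layers_wb δ (hw j) (hz j) (hsum j) (hy j)
  have hwb0 : ∀ (j : Fin X.m) (i : Σ a, Fin (K' j a)),
      0 ≤ wb δ (r j) (w j i.1 i.2) (z j i.1 i.2) := fun j i => wb_nonneg (hw j i.1 i.2) _
  have hG1 := K d g hd hg hT X (Σ j : Fin X.m, Σ a, Fin (K' j a)) (fun x => Fin (r x.1))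
    (fun x => W x.1)
    (fun x => yt (wb δ (r x.1) (w x.1 x.2.1 x.2.2) (z x.1 x.2.1 x.2.2)) (z x.1 x.2.1 x.2.2)
      (Ns X.p x.1 * ι x.1))
    (fun x => (x.1 : ℕ)) (fun _ => δ / 2) (fun x s => hW x.1 s) (fun x => x.1.2)
    (by
      rw [Fintype.sum_sigma]
      have h1 : ∀ j : Fin X.m, ∑ i : (Σ a, Fin (K' j a)),
          (yt (wb δ (r j) (w j i.1 i.2) (z j i.1 i.2)) (z j i.1 i.2) (Ns X.p j * ι j))ᴴ *
            yt (wb δ (r j) (w j i.1 i.2) (z j i.1 i.2)) (z j i.1 i.2) (Ns X.p j * ι j) ≤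
          Ns X.p j * X.p j * Ns X.p j := by
        intro j
        have h2 := sum_yt_sq (hwb0 j) (fun i => hz j i.1 i.2) (hwbs j) (Ns X.p j * ι j)
        rwa [(hvf j).2.2.2.2] at h2
      refine (Finset.sum_le_sum fun j _ => h1 j).trans ?_
      rw [Fin.sum_univ_eq_sum_range (fun j => Ns X.p j * X.p j * Ns X.p j)]
      refine (sum_NpN_le hproj le_rfl).trans ?_
      rw [Matrix.le_iff, ← smul_sub]
      exact (Matrix.le_iff.1 (Rs_le_one hproj le_rfl)).smul (by norm_num))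
    (by
      rw [Fintype.sum_sigma]
      have h1 : ∀ j : Fin X.m, ∑ i : (Σ a, Fin (K' j a)), EnR (W j) g
          (yt (wb δ (r j) (w j i.1 i.2) (z j i.1 i.2)) (z j i.1 i.2) (Ns X.p j * ι j)) ≤
          2 * ∑ i : (Σ a, Fin (K' j a)), w j i.1 i.2 * En (W j) (z j i.1 i.2) +
            2 * EnR g (W j) (Ns X.p j * ι j) := by
        intro j
        refine (sum_yt_en (hwb0 j) (fun i => hz j i.1 i.2) (hwbs j) (hvf j).1 (hW j) hg).trans ?_
        have h2 : ∑ i : (Σ a, Fin (K' j a)),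
            wb δ (r j) (w j i.1 i.2) (z j i.1 i.2) * En (W j) (z j i.1 i.2) ≤
            ∑ i : (Σ a, Fin (K' j a)), w j i.1 i.2 * En (W j) (z j i.1 i.2) := by
          refine Finset.sum_le_sum fun i _ => ?_
          refine mul_le_mul_of_nonneg_right (wb_le (hw j i.1 i.2) _) ?_
          exact Finset.sum_nonneg fun s _ => hs_nonneg _
        linarith
      refine (Finset.sum_le_sum fun j _ => h1 j).trans ?_
      rw [Finset.sum_add_distrib, ← Finset.mul_sum, ← Finset.mul_sum]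
      have h3 : 2 * (εE / 4 * d) + 2 * (εE / 4 * d) = εE * d := by ring
      linarith)
    (fun x => by
      show δ / 2 ≤ 1 / 8 - δ / 2
      linarith)
    (fun x => by
      obtain ⟨j, a, k⟩ := x
      show (1 + δ / 2) * ((yt (wb δ (r j) (w j a k) (z j a k)) (z j a k)
        (Ns X.p j * ι j)).rank : ℝ) ≤ (1 - δ / 2) * rtr (X.p j * (1 + Rs X.p j))
      have hr := (hvf j).2.2.2.1
      have h1 : (r j : ℝ) ≤ rtr (X.p j * (1 + Rs X.p j)) := by
        rw [Matrix.mul_add, Matrix.mul_one, rtr_add, ← hr]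
        have := rtr_mul_nonneg (hproj j j.2).psd (Rs_psd hproj j.2.le)
        linarith
      have h2 : (1 - δ / 2) * (r j : ℝ) ≤ (1 - δ / 2) * rtr (X.p j * (1 + Rs X.p j)) :=
        mul_le_mul_of_nonneg_left h1 (by linarith)
      refine le_trans ?_ h2
      have hr0 : (0 : ℝ) ≤ r j := Nat.cast_nonneg _
      by_cases hbad : rtr (z j a k) < (1 - δ) * r j
      · have h3 := rank_yt (wb δ (r j) (w j a k) (z j a k)) (hz j a k) (Ns X.p j * ι j)
        have h4 : (1 + δ / 2) * ((yt (wb δ (r j) (w j a k) (z j a k)) (z j a k)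
            (Ns X.p j * ι j)).rank : ℝ) ≤ (1 + δ / 2) * ((1 - δ) * r j) :=
          mul_le_mul_of_nonneg_left (h3.trans hbad.le) (by linarith)
        refine h4.trans ?_
        have h5 : (1 + δ / 2) * (1 - δ) ≤ 1 - δ / 2 := by nlinarith
        calc (1 + δ / 2) * ((1 - δ) * (r j : ℝ)) = ((1 + δ / 2) * (1 - δ)) * r j := by ring
          _ ≤ (1 - δ / 2) * r j := mul_le_mul_of_nonneg_right h5 hr0
      · have h3 : wb δ (r j) (w j a k) (z j a k) = 0 := if_neg hbad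
        have h4 : yt (wb δ (r j) (w j a k) (z j a k)) (z j a k) (Ns X.p j * ι j) = 0 := by
          rw [h3, yt, Real.sqrt_zero, zero_smul]
        rw [h4, Matrix.rank_zero, Nat.cast_zero, mul_zero]
        exact mul_nonneg (by linarith) hr0)
  rw [Fintype.sum_sigma, Fintype.sum_sigma] at hG1
  -- overlaps of the transported layers
  have hov2 : ∑ j : Fin X.m, ∑ i : (Σ a, Fin (K' j a)),
      rtr ((yt (wb δ (r j) (w j i.1 i.2) (z j i.1 i.2)) (z j i.1 i.2) (Ns X.p j * ι j))ᴴ *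
        yt (wb δ (r j) (w j i.1 i.2) (z j i.1 i.2)) (z j i.1 i.2) (Ns X.p j * ι j) * Rs X.p j) ≤
      δ * εf / 32 * d := by
    refine le_trans (Finset.sum_le_sum fun j _ => ?_) hOv1
    exact (sum_yt_ov (hwb0 j) (fun i => hz j i.1 i.2) (hwbs j) _ (Rs_psd hproj j.2.le)).trans
      (hvf j).2.1
  have hG2 : δ / 2 * ∑ j : Fin X.m, ∑ i : (Σ a, Fin (K' j a)),
      hs (yt (wb δ (r j) (w j i.1 i.2) (z j i.1 i.2)) (z j i.1 i.2) (Ns X.p j * ι j)) ≤
      δ * εf / 16 * d := by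
    have e1 : δ / 2 * ∑ j : Fin X.m, ∑ i : (Σ a, Fin (K' j a)),
        hs (yt (wb δ (r j) (w j i.1 i.2) (z j i.1 i.2)) (z j i.1 i.2) (Ns X.p j * ι j)) =
        ∑ j : Fin X.m, ∑ i : (Σ a, Fin (K' j a)), δ / 2 *
        hs (yt (wb δ (r j) (w j i.1 i.2) (z j i.1 i.2)) (z j i.1 i.2) (Ns X.p j * ι j)) := by
      rw [Finset.mul_sum]
      exact Finset.sum_congr rfl fun j _ => Finset.mul_sum _ _ _
    rw [e1]
    refine hG1.trans ?_
    have h3 : δ * εf / 32 * d + δ * εf / 32 * d = δ * εf / 16 * d := by ring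
    linarith
  have hG3 : ∑ j : Fin X.m, ∑ i : (Σ a, Fin (K' j a)),
      hs (yt (wb δ (r j) (w j i.1 i.2) (z j i.1 i.2)) (z j i.1 i.2) (Ns X.p j * ι j)) ≤
      εf / 8 * d := by
    have h3 : δ * εf / 16 * d = δ / 2 * (εf / 8 * d) := by ring
    rw [h3] at hG2
    exact le_of_mul_le_mul_left hG2 (by positivity)
  -- bad mass
  have hbadm : ∑ j : Fin X.m, ∑ i : (Σ a, Fin (K' j a)),
      wb δ (r j) (w j i.1 i.2) (z j i.1 i.2) * rtr (z j i.1 i.2) ≤
      εf / 8 * d + 2 * (δ * εf / 32 * d) := by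
    have h1 : ∀ j : Fin X.m, ∑ i : (Σ a, Fin (K' j a)),
        wb δ (r j) (w j i.1 i.2) (z j i.1 i.2) * rtr (z j i.1 i.2) ≤
        ∑ i : (Σ a, Fin (K' j a)),
          hs (yt (wb δ (r j) (w j i.1 i.2) (z j i.1 i.2)) (z j i.1 i.2) (Ns X.p j * ι j)) +
          2 * rtr (X.p j * Rs X.p j) := by
      intro j
      have h2 := sum_yt_hs (hwb0 j) (fun i => hz j i.1 i.2) (hwbs j) (hvf j).1
      have h3 := (hvf j).2.2.1
      linarith
    refine (Finset.sum_le_sum fun j _ => h1 j).trans ?_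
    rw [Finset.sum_add_distrib, ← Finset.mul_sum]
    linarith
  -- conclusion
  have hfin : ∀ j : Fin X.m,
      ∑ a, (rtr (b j a * ((y j a)ᴴ * y j a)) - hs (y j a) / r j * rtr (b j a)) ≤
      2 * δ * ∑ a, hs (y j a) + 2 * ∑ i : (Σ a, Fin (K' j a)),
        wb δ (r j) (w j i.1 i.2) (z j i.1 i.2) * rtr (z j i.1 i.2) := fun j =>
    layers_final hδ0.le (hrpos j) (hw j) (hz j) (hsum j) (b j) (hb j) (hb1 j)
  refine (Finset.sum_le_sum fun j _ => hfin j).trans ?_
  rw [Finset.sum_add_distrib, ← Finset.mul_sum, ← Finset.mul_sum]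
  have h1 : 2 * δ * ∑ j : Fin X.m, ∑ a, hs (y j a) ≤ 2 * δ * (3 * d) :=
    mul_le_mul_of_nonneg_left hmass (by positivity)
  have h2 : 2 * δ * (3 * d) ≤ εf / 4 * d := by
    have : 2 * δ * (3 * d) = 6 * δ * d := by ring
    rw [this]
    exact mul_le_mul_of_nonneg_right (by linarith) hd0.le
  have h3 : 2 * (δ * εf / 32 * d) ≤ εf / 8 * d := by
    have : 2 * (δ * εf / 32 * d) = δ / 16 * (εf * d) := by ring
    rw [this]
    have h4 : δ / 16 * (εf * d) ≤ 1 / 8 * (εf * d) :=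
      mul_le_mul_of_nonneg_right (by linarith) (by positivity)
    linarith
  have h5 : εf / 4 * d + 2 * (εf / 8 * d + εf / 8 * d) ≤ εf * d := by
    have : 0 ≤ εf * d := by positivity
    linarith
  linarith

end Pool.Agent.H51K
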