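import Pool.Agent.H51K.LayB

/-!
Level set improvement.
-/

set_option autoImplicit false
set_option linter.unusedSectionVars false
open Matrix
open scoped ComplexOrder MatrixOrder

namespace Pool.Agent.H51K

section

variable {S : Type} [Fintype S] {n : Type*} [Fintype n] [DecidableEq n]

/-- the cutoff function -/
noncomputable def cut (σ x : ℝ) : ℝ := max 0 (min 1 ((x - (1 - 2 * σ)) / σ))

theorem cut_nonneg (σ x : ℝ) : 0 ≤ cut σ x := le_max_left _ _

theorem cut_le_one (σ x : ℝ) : cut σ x ≤ 1 := max_le zero_le_one (min_le_left _ _)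

theorem cut_lip {σ : ℝ} (hσ : 0 < σ) (x y : ℝ) : |cut σ x - cut σ y| ≤ 1 / σ * |x - y| := by
  unfold cut
  have h1 := abs_max_sub_max_le_abs (min 1 ((x - (1 - 2 * σ)) / σ))
    (min 1 ((y - (1 - 2 * σ)) / σ)) 0
  rw [max_comm _ (0 : ℝ), max_comm _ (0 : ℝ)] at h1
  have h2 := abs_min_sub_min_le_max 1 ((x - (1 - 2 * σ)) / σ) 1 ((y - (1 - 2 * σ)) / σ)
  rw [sub_self, abs_zero, max_eq_right (abs_nonneg _)] at h2
  refine h1.trans (h2.trans (le_of_eq ?_))
  rw [← sub_div, abs_div, abs_of_pos hσ]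
  have : x - (1 - 2 * σ) - (y - (1 - 2 * σ)) = x - y := by ring
  rw [this]
  ring

theorem cut_pos {σ x : ℝ} (hσ : 0 < σ) (h : 0 < cut σ x) : 1 - 2 * σ < x := by
  unfold cut at h
  rcases lt_max_iff.1 h with h | h
  · exact absurd h (lt_irrefl _)
  · have h2 := (lt_min_iff.1 h).2
    have h3 : 0 < x - (1 - 2 * σ) := by
      by_contra hc
      exact absurd h2 (not_lt.2 (div_nonpos_of_nonpos_of_nonneg (not_lt.1 hc) hσ.le))
    linarith

theorem cut_lt_one {σ x : ℝ} (hσ : 0 < σ) (h : cut σ x < 1) : x < 1 - σ := by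
  by_contra hc
  push Not at hc
  have h1 : 1 ≤ (x - (1 - 2 * σ)) / σ := by
    rw [le_div_iff₀ hσ]
    linarith
  unfold cut at h
  rw [min_eq_left h1, max_eq_right zero_le_one] at h
  exact lt_irrefl _ h

theorem cut_eq_one {σ x : ℝ} (hσ : 0 < σ) (h : 1 - σ ≤ x) : cut σ x = 1 := by
  refine le_antisymm (cut_le_one _ _) ?_
  by_contra hc
  exact absurd (cut_lt_one hσ (not_le.1 hc)) (not_lt.2 h)

/-- level sets of `cut (Y^2)` : energy -/
theorem lsi_energy {V : Matrix n n ℂ} (hV : V ∈ unitaryGroup n ℂ) (y : n → ℝ)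
    (hy0 : ∀ i, 0 ≤ y i) (hy1 : ∀ i, y i ≤ 1) {σ : ℝ} (hσ : 0 < σ) (g : Matrix n n ℂ)
    (hg : g ∈ unitaryGroup n ℂ) :
    ∑ a, ∑ b, ‖(Vᴴ * g * V) a b‖ ^ 2 * |cut σ (y a ^ 2) - cut σ (y b ^ 2)| ≤
      2 / σ * Real.sqrt (rtr (Dg V y)) * Real.sqrt (hs (g * Dg V y - Dg V y * g)) := by
  set x : Matrix n n ℂ := Vᴴ * g * V with hx
  have hxu : x ∈ unitaryGroup n ℂ := conj_unitary hV hg
  have hpt : ∀ a b, ‖x a b‖ ^ 2 * |cut σ (y a ^ 2) - cut σ (y b ^ 2)| ≤
      1 / σ * ((‖x a b‖ * (y a + y b)) * (‖x a b‖ * |y a - y b|)) := by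
    intro a b
    have h1 := cut_lip hσ (y a ^ 2) (y b ^ 2)
    have h2 : |y a ^ 2 - y b ^ 2| = (y a + y b) * |y a - y b| := by
      rw [← abs_of_nonneg (add_nonneg (hy0 a) (hy0 b)), ← abs_mul]
      congr 1
      ring
    rw [h2] at h1
    calc ‖x a b‖ ^ 2 * |cut σ (y a ^ 2) - cut σ (y b ^ 2)| ≤
        ‖x a b‖ ^ 2 * (1 / σ * ((y a + y b) * |y a - y b|)) :=
          mul_le_mul_of_nonneg_left h1 (sq_nonneg _)
      _ = _ := by ring
  have h3 : ∑ a, ∑ b, (‖x a b‖ * |y a - y b|) ^ 2 = hs (g * Dg V y - Dg V y * g) := by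
    rw [hs_comm_Dg hV]
    refine Finset.sum_congr rfl fun a _ => Finset.sum_congr rfl fun b _ => ?_
    rw [mul_pow, sq_abs]
  have h4 : ∑ a, ∑ b, (‖x a b‖ * (y a + y b)) ^ 2 ≤ 4 * rtr (Dg V y) := by
    rw [rtr_Dg hV]
    have e1 : ∀ a b, (‖x a b‖ * (y a + y b)) ^ 2 ≤
        2 * (‖x a b‖ ^ 2 * y a) + 2 * (‖x a b‖ ^ 2 * y b) := by
      intro a b
      have e2 : (y a + y b) ^ 2 ≤ 2 * y a + 2 * y b := by
        have := hy0 a
        have := hy1 a
        have := hy0 b
        have := hy1 b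
        nlinarith [sq_nonneg (y a - y b)]
      calc (‖x a b‖ * (y a + y b)) ^ 2 = ‖x a b‖ ^ 2 * (y a + y b) ^ 2 := by ring
        _ ≤ ‖x a b‖ ^ 2 * (2 * y a + 2 * y b) := mul_le_mul_of_nonneg_left e2 (sq_nonneg _)
        _ = _ := by ring
    refine (Finset.sum_le_sum fun a _ => Finset.sum_le_sum fun b _ => e1 a b).trans ?_
    simp only [Finset.sum_add_distrib, ← Finset.mul_sum]
    have e3 : ∑ a, ∑ b, ‖x a b‖ ^ 2 * y a = ∑ a, y a := by
      refine Finset.sum_congr rfl fun a _ => ?_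
      rw [← Finset.sum_mul, unitary_row hxu, one_mul]
    have e4 : ∑ a, ∑ b, ‖x a b‖ ^ 2 * y b = ∑ a, y a := by
      rw [Finset.sum_comm]
      refine Finset.sum_congr rfl fun b _ => ?_
      rw [← Finset.sum_mul, unitary_col hxu, one_mul]
    rw [e3, e4]
    linarith
  calc ∑ a, ∑ b, ‖x a b‖ ^ 2 * |cut σ (y a ^ 2) - cut σ (y b ^ 2)|
      ≤ ∑ a, ∑ b, 1 / σ * ((‖x a b‖ * (y a + y b)) * (‖x a b‖ * |y a - y b|)) :=
        Finset.sum_le_sum fun a _ => Finset.sum_le_sum fun b _ => hpt a b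
    _ = 1 / σ * ∑ a, ∑ b, (‖x a b‖ * (y a + y b)) * (‖x a b‖ * |y a - y b|) := by
        simp only [Finset.mul_sum]
    _ ≤ 1 / σ * (Real.sqrt (4 * rtr (Dg V y)) *
          Real.sqrt (hs (g * Dg V y - Dg V y * g))) := by
        refine mul_le_mul_of_nonneg_left ?_ (by positivity)
        refine (cs2 _ _).trans ?_
        rw [h3]
        exact mul_le_mul_of_nonneg_right (Real.sqrt_le_sqrt h4) (Real.sqrt_nonneg _)
    _ = _ := by
        rw [Real.sqrt_mul (by norm_num : (0 : ℝ) ≤ 4)]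
        have : Real.sqrt 4 = 2 := by
          rw [show (4 : ℝ) = 2 ^ 2 by norm_num]
          exact Real.sqrt_sq (by norm_num)
        rw [this]
        ring

theorem sum_sqrt_le {S : Type} [Fintype S] (a : S → ℝ) (ha : ∀ s, 0 ≤ a s) :
    ∑ s, Real.sqrt (a s) ≤ Real.sqrt (Fintype.card S * ∑ s, a s) := by
  have h := Real.sum_mul_le_sqrt_mul_sqrt Finset.univ (fun _ : S => (1 : ℝ))
    (fun s => Real.sqrt (a s))
  simp only [one_mul, one_pow, Finset.sum_const, Finset.card_univ, nsmul_eq_mul, mul_one] at h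
  have h2 : ∑ s, Real.sqrt (a s) ^ 2 = ∑ s, a s :=
    Finset.sum_congr rfl fun s _ => Real.sq_sqrt (ha s)
  rw [h2] at h
  rwa [Real.sqrt_mul (Nat.cast_nonneg _)]

/-- Level set improvement -/
theorem lsi (g : S → Matrix n n ℂ) (hg : ∀ s, g s ∈ unitaryGroup n ℂ) {z Y : Matrix n n ℂ}
    (hz : IsProj z) {r e η σ : ℝ} (hr : 0 < r) (hzr : rtr z = r) (hYh : Yᴴ = Y)
    (hY0 : 0 ≤ Y) (hY1 : Y ≤ 1) (hYr : rtr Y = r) (he : 0 ≤ e) (hYz : hs (Y - z) ≤ e * r)
    (hη : 0 ≤ η) (hEn : En g Y ≤ η * r) (hσ : 0 < σ) (hσ' : σ ≤ 1 / 4)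
    (h2e : 2 * Real.sqrt e ≤ σ) :
    ∃ q, IsProj q ∧ 0 < rtr q ∧ En g q ≤ 2 / σ * Real.sqrt (Fintype.card S * η) * r ∧
      rtr q ≤ (1 + 4 * σ) * r ∧ hs (q - z) ≤ 10 * Real.sqrt e / σ * r := by
  classical
  obtain ⟨V, hV, y, hY, -⟩ := exists_Dg hYh
  have hy0 : ∀ i, 0 ≤ y i := by
    refine nonneg_of_Dg_psd hV ?_
    rw [← hY]
    exact Matrix.nonneg_iff_posSemidef.1 hY0
  have hy1 : ∀ i, y i ≤ 1 := by
    have h1 : (Dg V (fun i => 1 - y i)).PosSemidef := by
      rw [← Dg_sub, Dg_one hV, ← hY]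
      exact Matrix.le_iff.1 hY1
    intro i
    have := nonneg_of_Dg_psd hV h1 i
    linarith
  have hsumy : ∑ i, y i = r := by rw [← rtr_Dg hV, ← hY, hYr]
  have hse0 : 0 ≤ Real.sqrt e := Real.sqrt_nonneg _
  have hsee : Real.sqrt e * Real.sqrt e = e := Real.mul_self_sqrt he
  -- Cauchy-Schwarz
  have hcs : |ip z (Y - z)| ≤ Real.sqrt e * r := by
    refine (abs_ip_le _ _).trans ?_
    rw [hz.hs_eq, hzr]
    have h1 : Real.sqrt (hs (Y - z)) ≤ Real.sqrt (e * r) := Real.sqrt_le_sqrt hYz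
    have h2 : Real.sqrt r * Real.sqrt (e * r) = Real.sqrt e * r := by
      rw [Real.sqrt_mul he]
      calc Real.sqrt r * (Real.sqrt e * Real.sqrt r) =
          Real.sqrt e * (Real.sqrt r * Real.sqrt r) := by ring
        _ = _ := by rw [Real.mul_self_sqrt hr.le]
    rw [← h2]
    exact mul_le_mul_of_nonneg_left h1 (Real.sqrt_nonneg _)
  have hne : Nonempty n := by
    by_contra hne
    rw [not_nonempty_iff] at hne
    rw [Finset.univ_eq_empty, Finset.sum_empty] at hsumy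
    linarith
  -- the largest eigenvalue
  obtain ⟨i0, -, hi0⟩ := Finset.exists_max_image Finset.univ y Finset.univ_nonempty
  have hmax : 1 - Real.sqrt e ≤ y i0 := by
    have h1 : Y ≤ Dg V (fun _ => y i0) := by
      rw [hY]
      exact Dg_le V fun i => hi0 i (Finset.mem_univ i)
    have h2 : Dg V (fun _ => y i0) = y i0 • (1 : Matrix n n ℂ) := by
      rw [← Dg_one hV, Dg_smul]
      simp
    rw [h2] at h1
    have h3 := rtr_mul_mono_right h1 hz.psd
    rw [Matrix.mul_smul, rtr_smul, Matrix.mul_one, hzr] at h3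
    have h4 : ip z (Y - z) = rtr (z * Y) - r := by
      rw [ip_sub_right, ip_self, hz.hs_eq, hzr]
      unfold ip
      rw [hz.1]
    rw [h4] at hcs
    have h5 := (abs_le.1 hcs).1
    have h6 : (1 - Real.sqrt e) * r ≤ y i0 * r := by linarith
    exact le_of_mul_le_mul_right h6 hr
  have hcut0 : cut σ (y i0 ^ 2) = 1 := by
    apply cut_eq_one hσ
    nlinarith
  -- layers
  obtain ⟨K, w, t, h1, h2, h3, h4, h5, h6, h7⟩ := layers (fun i => cut σ (y i ^ 2))
    (fun i => cut_nonneg _ _)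
  have hw1 : ∑ k, w k = 1 := by
    have h8 := h4 i0
    rw [hcut0] at h8
    rcases h5 with h | ⟨i, hi⟩
    · linarith
    · have := cut_le_one σ (y i ^ 2)
      linarith
  have hen : ∑ k, w k * En g (Dg V (fun i => ind (t k) (cut σ (y i ^ 2)))) ≤
      2 / σ * Real.sqrt (Fintype.card S * η) * r := by
    have e1 : ∑ k, w k * En g (Dg V (fun i => ind (t k) (cut σ (y i ^ 2)))) =
        ∑ s, ∑ k, w k * hs (g s * Dg V (fun i => ind (t k) (cut σ (y i ^ 2))) -
          Dg V (fun i => ind (t k) (cut σ (y i ^ 2))) * g s) := by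
      rw [Finset.sum_comm]
      refine Finset.sum_congr rfl fun k _ => ?_
      rw [← Finset.mul_sum]
      rfl
    rw [e1]
    have e2 : ∀ s, ∑ k, w k * hs (g s * Dg V (fun i => ind (t k) (cut σ (y i ^ 2))) -
          Dg V (fun i => ind (t k) (cut σ (y i ^ 2))) * g s) ≤
          2 / σ * Real.sqrt r * Real.sqrt (hs (g s * Y - Y * g s)) := by
      intro s
      have := lsi_energy hV y hy0 hy1 hσ (g s) (hg s)
      rw [rtr_Dg hV, hsumy, ← hY] at this
      rw [coarea hV (fun i => cut σ (y i ^ 2)) w t h7]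
      exact this
    refine (Finset.sum_le_sum fun s _ => e2 s).trans ?_
    rw [← Finset.mul_sum]
    have e3 : ∑ s, Real.sqrt (hs (g s * Y - Y * g s)) ≤
        Real.sqrt (Fintype.card S * (η * r)) := by
      refine (sum_sqrt_le _ fun s => hs_nonneg _).trans (Real.sqrt_le_sqrt ?_)
      exact mul_le_mul_of_nonneg_left hEn (Nat.cast_nonneg _)
    have e4 : Real.sqrt (Fintype.card S * (η * r)) =
        Real.sqrt (Fintype.card S * η) * Real.sqrt r := by
      rw [← mul_assoc, Real.sqrt_mul (by positivity)]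
    rw [e4] at e3
    calc 2 / σ * Real.sqrt r * ∑ s, Real.sqrt (hs (g s * Y - Y * g s)) ≤
        2 / σ * Real.sqrt r * (Real.sqrt (Fintype.card S * η) * Real.sqrt r) :=
          mul_le_mul_of_nonneg_left e3 (by positivity)
      _ = 2 / σ * Real.sqrt (Fintype.card S * η) * (Real.sqrt r * Real.sqrt r) := by ring
      _ = _ := by rw [Real.mul_self_sqrt hr.le]
  obtain ⟨k, hk⟩ : ∃ k, En g (Dg V (fun i => ind (t k) (cut σ (y i ^ 2)))) ≤
      2 / σ * Real.sqrt (Fintype.card S * η) * r := by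
    by_contra hc
    push Not at hc
    set B := 2 / σ * Real.sqrt (Fintype.card S * η) * r with hB
    have h8 : ∑ k, w k * (En g (Dg V (fun i => ind (t k) (cut σ (y i ^ 2)))) - B) ≤ 0 := by
      simp only [mul_sub, Finset.sum_sub_distrib, ← Finset.sum_mul, hw1, one_mul]
      linarith
    have h9 : ∀ k ∈ Finset.univ,
        0 ≤ w k * (En g (Dg V (fun i => ind (t k) (cut σ (y i ^ 2)))) - B) :=
      fun k _ => mul_nonneg (h1 k) (sub_nonneg.2 (hc k).le)
    have h10 := (Finset.sum_eq_zero_iff_of_nonneg h9).1 (le_antisymm h8 (Finset.sum_nonneg h9))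
    have h11 : ∑ k, w k = 0 := by
      refine Finset.sum_eq_zero fun k hk => ?_
      rcases mul_eq_zero.1 (h10 k hk) with h | h
      · exact h
      · exact absurd h (sub_pos.2 (hc k)).ne'
    rw [hw1] at h11
    exact one_ne_zero h11
  have htk0 := h2 k
  have htk1 := h3 k
  rw [hw1] at htk1
  set v : n → ℝ := fun i => ind (t k) (cut σ (y i ^ 2)) with hv
  have hv1 : ∀ i, v i = 1 ∧ 1 - 2 * σ < y i ^ 2 ∨ v i = 0 ∧ y i ^ 2 < 1 - σ := by
    intro i
    by_cases h : t k < cut σ (y i ^ 2)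
    · left
      refine ⟨?_, cut_pos hσ (htk0.trans_lt h)⟩
      rw [hv]
      change ind _ _ = 1
      rw [ind, if_pos h]
    · right
      refine ⟨?_, cut_lt_one hσ ((not_lt.1 h).trans_lt htk1)⟩
      rw [hv]
      change ind _ _ = 0
      rw [ind, if_neg h]
  have hq : IsProj (Dg V v) := Dg_proj hV fun i => ind_01 _ _
  have hv0 : ∀ i, 0 ≤ v i := by
    intro i
    rcases hv1 i with h | h <;> rw [h.1] <;> norm_num
  refine ⟨Dg V v, hq, ?_, hk, ?_, ?_⟩
  · rw [rtr_Dg hV]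
    have h8 : v i0 = 1 := by
      rw [hv]
      change ind _ _ = 1
      rw [hcut0, ind, if_pos htk1]
    have h9 := Finset.single_le_sum (f := v) (fun i _ => hv0 i) (Finset.mem_univ i0)
    linarith
  · rw [rtr_Dg hV]
    have h8 : ∀ i, (1 - 2 * σ) * v i ≤ y i := by
      intro i
      have h9 := hy0 i
      have h10 := hy1 i
      rcases hv1 i with h | h
      · rw [h.1]
        nlinarith [h.2]
      · rw [h.1]
        simpa using h9
    have h9 : (1 - 2 * σ) * ∑ i, v i ≤ r := by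
      rw [Finset.mul_sum, ← hsumy]
      exact Finset.sum_le_sum fun i _ => h8 i
    have h10 : 0 < 1 - 2 * σ := by linarith
    have h11 : (1 - 2 * σ) * ∑ i, v i ≤ (1 - 2 * σ) * ((1 + 4 * σ) * r) := by
      refine h9.trans ?_
      have : 1 ≤ (1 - 2 * σ) * (1 + 4 * σ) := by nlinarith
      nlinarith
    exact le_of_mul_le_mul_left h11 h10
  · have h8 : hs (Dg V v - Y) ≤ 2 / σ * (r - hs Y) := by
      rw [hY, Dg_sub, hs_Dg hV, hs_Dg hV, ← hsumy, ← Finset.sum_sub_distrib, Finset.mul_sum]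
      refine Finset.sum_le_sum fun i _ => ?_
      have h9 := hy0 i
      have h10 := hy1 i
      have h11 : 0 ≤ y i - y i ^ 2 := by nlinarith
      rcases hv1 i with h | h
      · rw [h.1]
        have h12 : (1 - y i) ^ 2 ≤ 2 * (y i - y i ^ 2) := by
          have h13 : 1 / 2 ≤ y i ^ 2 := by linarith [h.2]
          have h14 : 1 / 2 ≤ y i := by nlinarith
          nlinarith
        have h15 : (2 : ℝ) ≤ 2 / σ := by
          rw [le_div_iff₀ hσ]
          linarith
        exact h12.trans (mul_le_mul_of_nonneg_right h15 h11)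
      · rw [h.1]
        have h12 : σ * y i ≤ 2 * (1 - y i) := by
          have h13 : y i ^ 2 < 1 - σ := h.2
          have h14 : y i ≤ 1 - σ / 2 := by
            by_contra hc
            push Not at hc
            nlinarith
          nlinarith
        have h16 : y i ^ 2 ≤ 2 / σ * (y i - y i ^ 2) := by
          rw [div_mul_eq_mul_div, le_div_iff₀ hσ]
          nlinarith
        have : (0 - y i) ^ 2 = y i ^ 2 := by ring
        rw [this]
        exact h16
    have h9 : r - hs Y ≤ 2 * Real.sqrt e * r := by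
      have e1 : Y = z + (Y - z) := by abel
      have e2 : hs Y = hs z + 2 * ip z (Y - z) + hs (Y - z) := by
        conv_lhs => rw [e1]
        rw [hs_add]
      have e3 := hs_nonneg (Y - z)
      have e4 := (abs_le.1 hcs).1
      rw [e2, hz.hs_eq, hzr]
      linarith
    have h10 : Dg V v - z = (Dg V v - Y) + (Y - z) := by abel
    rw [h10]
    refine (hs_add_le _ _).trans ?_
    have h11 : hs (Dg V v - Y) ≤ 2 / σ * (2 * Real.sqrt e * r) :=
      h8.trans (mul_le_mul_of_nonneg_left h9 (by positivity))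
    have h12 : e * r ≤ Real.sqrt e / σ * r := by
      refine mul_le_mul_of_nonneg_right ?_ hr.le
      rw [le_div_iff₀ hσ]
      nlinarith
    have h13 : 10 * Real.sqrt e / σ * r = 2 * (2 / σ * (2 * Real.sqrt e * r)) +
        2 * (Real.sqrt e / σ * r) := by
      field_simp
      ring
    rw [h13]
    linarith

end

end Pool.Agent.H51K
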