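import Pool.Agent.H51K.GilA

/-!
Averages of projections and the improvement theorem.
-/

set_option autoImplicit false
set_option linter.unusedSectionVars false
open Matrix
open scoped ComplexOrder MatrixOrder

namespace Pool.Agent.H51K

section ap

variable {d : ℕ} (Φ : Avg d)

theorem ap_herm {x : Matrix (Fin d) (Fin d) ℂ} (hx : xᴴ = x) : (Φ.ap x)ᴴ = Φ.ap x := by
  unfold Avg.ap
  rw [conjTranspose_sum]
  refine Finset.sum_congr rfl fun i _ => ?_
  rw [conjTranspose_smul, conjTranspose_mul, conjTranspose_mul, conjTranspose_conjTranspose, hx,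
    star_trivial, Matrix.mul_assoc]

theorem ap_mono {x y : Matrix (Fin d) (Fin d) ℂ} (h : x ≤ y) : Φ.ap x ≤ Φ.ap y := by
  unfold Avg.ap
  refine Finset.sum_le_sum fun i _ => ?_
  have h1 := conj_mono' h (Φ.u i)
  rw [Matrix.le_iff] at h1 ⊢
  rw [← smul_sub]
  exact h1.smul (Φ.nonneg i)

theorem ap_zero : Φ.ap 0 = 0 := by
  unfold Avg.ap
  simp

theorem ap_one : Φ.ap 1 = 1 := by
  unfold Avg.ap
  have h : ∀ i, Φ.α i • (Φ.u i * 1 * (Φ.u i)ᴴ) = Φ.α i • (1 : Matrix (Fin d) (Fin d) ℂ) := by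
    intro i
    have : Φ.u i * (Φ.u i)ᴴ = 1 := mem_unitaryGroup_iff.1 (Φ.unitary i)
    rw [Matrix.mul_one, this]
  rw [Finset.sum_congr rfl fun i _ => h i, ← Finset.sum_smul, Φ.sum_one, one_smul]

theorem rtr_ap (x : Matrix (Fin d) (Fin d) ℂ) : rtr (Φ.ap x) = rtr x := by
  unfold Avg.ap
  rw [rtr_sum]
  have h : ∀ i, rtr (Φ.α i • (Φ.u i * x * (Φ.u i)ᴴ)) = Φ.α i * rtr x := by
    intro i
    have : (Φ.u i)ᴴ * Φ.u i = 1 := mem_unitaryGroup_iff'.1 (Φ.unitary i)
    rw [rtr_smul, rtr_mul_comm, ← Matrix.mul_assoc, this, Matrix.one_mul]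
  rw [Finset.sum_congr rfl fun i _ => h i, ← Finset.sum_mul, Φ.sum_one, one_mul]

end ap

theorem En_nonneg {S : Type} [Fintype S] {n : Type*} [Fintype n] (g : S → Matrix n n ℂ)
    (a : Matrix n n ℂ) : 0 ≤ En g a :=
  Finset.sum_nonneg fun _ _ => hs_nonneg _

/-- improvement of a family of almost invariant projections by property (T) -/
theorem improve (S : Type) [Fintype S] (C : ℝ) (hC : 0 < C) (γ : ℝ) (hγ : 0 < γ) (ε : ℝ)
    (hε : 0 < ε) :
    ∃ εE > 0, ∀ h > 0, ∃ t > 0, ∀ (d : ℕ) (g : S → Matrix (Fin d) (Fin d) ℂ), 0 < d →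
      (∀ s, g s ∈ Matrix.unitaryGroup (Fin d) ℂ) → HasT g C t →
      ∀ (I : Type) [Fintype I] (w : I → ℝ) (z : I → Matrix (Fin d) (Fin d) ℂ),
        (∀ l, 0 ≤ w l) → (∀ l, IsProj (z l)) →
        (∑ l, w l • z l ≤ (2 : ℝ) • (1 : Matrix (Fin d) (Fin d) ℂ)) →
        (∑ l, w l * En g (z l) ≤ εE * d) → (ε * d < ∑ l, w l * rtr (z l)) →
        ∃ l, 0 < w l ∧ 0 < rtr (z l) ∧ ∃ q, IsProj q ∧ 0 < rtr q ∧ En g q ≤ h * rtr q ∧
          hs (q - z l) ≤ γ * rtr (z l) ∧ rtr q ≤ (1 + γ) * rtr (z l) := by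
  set γ' : ℝ := min γ (1 / 4) with hγ'
  have hγ'0 : 0 < γ' := lt_min hγ (by norm_num)
  have hγ'1 : γ' ≤ γ := min_le_left _ _
  have hγ'2 : γ' ≤ 1 / 4 := min_le_right _ _
  set σ : ℝ := γ' / 4 with hσ
  have hσ0 : 0 < σ := by positivity
  have hσ1 : σ ≤ 1 / 4 := by rw [hσ]; linarith
  have hσ4 : 4 * σ ≤ γ := by rw [hσ]; linarith
  set se : ℝ := γ' * σ / 10 with hse
  have hse0 : 0 < se := by positivity
  set e : ℝ := se ^ 2 with he
  have he0 : 0 < e := by positivity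
  have hsqe : Real.sqrt e = se := Real.sqrt_sq hse0.le
  have h2e : 2 * Real.sqrt e ≤ σ := by
    rw [hsqe, hse]
    nlinarith
  have h10e : 10 * Real.sqrt e / σ = γ' := by
    rw [hsqe, hse]
    field_simp
  refine ⟨ε * e / (4 * C), by positivity, fun h hh => ?_⟩
  set cS : ℝ := (Fintype.card S : ℝ) with hcS
  have hcS0 : 0 ≤ cS := Nat.cast_nonneg _
  set η : ℝ := (h * σ / 8) ^ 2 / (cS + 1) with hη
  have hη0 : 0 < η := by positivity
  have hcη : Real.sqrt (cS * η) ≤ h * σ / 8 := by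
    rw [Real.sqrt_le_left (by positivity), hη, mul_div_assoc', div_le_iff₀ (by positivity)]
    have : 0 ≤ (h * σ / 8) ^ 2 := by positivity
    nlinarith
  set t : ℝ := min (ε * e / 8) (ε * η / 8) with ht
  have ht0 : 0 < t := lt_min (by positivity) (by positivity)
  refine ⟨t, ht0, ?_⟩
  intro d g hd hg hT I _ w z hw hz hsum hen hmass
  obtain ⟨Φ, hΦ⟩ := hT
  have hd' : (0 : ℝ) < d := Nat.cast_pos.2 hd
  -- reindex
  let ei := Fintype.equivFin I
  have hz1 : ∀ l, z l * (z l)ᴴ = z l := fun l => by rw [(hz l).1, (hz l).2]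
  have hz2 : ∀ l, (z l)ᴴ * z l = z l := fun l => by rw [(hz l).1, (hz l).2]
  have hsum' : ∑ l, (w l / 2) • z l ≤ (1 : Matrix (Fin d) (Fin d) ℂ) := by
    have e1 : ∑ l, (w l / 2) • z l = (1 / 2 : ℝ) • ∑ l, w l • z l := by
      rw [Finset.smul_sum]
      refine Finset.sum_congr rfl fun l _ => ?_
      rw [smul_smul]
      congr 1
      ring
    rw [e1, Matrix.le_iff]
    have h1 := (Matrix.le_iff.1 hsum).smul (by norm_num : (0 : ℝ) ≤ 1 / 2)
    rw [smul_sub, smul_smul] at h1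
    norm_num at h1 ⊢
    exact h1
  have key := hΦ (Fintype.card I) (fun i => w (ei.symm i) / 2) (fun i => z (ei.symm i))
    (fun i => div_nonneg (hw _) (by norm_num))
    (by
      simp only [hz1]
      rw [Equiv.sum_comp ei.symm (fun l => (w l / 2) • z l)]
      exact hsum')
    (by
      simp only [hz2]
      rw [Equiv.sum_comp ei.symm (fun l => (w l / 2) • z l)]
      exact hsum')
  rw [Equiv.sum_comp ei.symm (fun l => w l / 2 * En g (Φ.ap (z l))),
    Equiv.sum_comp ei.symm (fun l => w l / 2 * hs (z l - Φ.ap (z l))),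
    Equiv.sum_comp ei.symm (fun l => w l / 2 * En g (z l))] at key
  obtain ⟨k1, k2⟩ := key
  have h2 : ∀ f : I → ℝ, ∑ l, w l / 2 * f l = (∑ l, w l * f l) / 2 := by
    intro f
    rw [Finset.sum_div]
    refine Finset.sum_congr rfl fun l _ => ?_
    ring
  rw [h2] at k1
  rw [h2, h2] at k2
  -- pigeonhole
  obtain ⟨l, hwl, hrl, hl1, hl2⟩ : ∃ l, 0 < w l ∧ 0 < rtr (z l) ∧
      hs (z l - Φ.ap (z l)) ≤ e * rtr (z l) ∧ En g (Φ.ap (z l)) ≤ η * rtr (z l) := by
    by_contra hc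
    push Not at hc
    have h3 : ∀ l, w l * rtr (z l) ≤
        w l * hs (z l - Φ.ap (z l)) / e + w l * En g (Φ.ap (z l)) / η := by
      intro l
      have p1 : 0 ≤ w l * hs (z l - Φ.ap (z l)) / e :=
        div_nonneg (mul_nonneg (hw l) (hs_nonneg _)) he0.le
      have p2 : 0 ≤ w l * En g (Φ.ap (z l)) / η :=
        div_nonneg (mul_nonneg (hw l) (En_nonneg _ _)) hη0.le
      rcases (hw l).eq_or_lt with h0 | h0
      · rw [← h0]; simp
      · rcases (rtr_nonneg (hz l).psd).eq_or_lt with r0 | r0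
        · rw [← r0, mul_zero]
          linarith
        · by_cases h4 : hs (z l - Φ.ap (z l)) ≤ e * rtr (z l)
          · have h5 := hc l h0 r0 h4
            have h6 : w l * rtr (z l) ≤ w l * En g (Φ.ap (z l)) / η := by
              rw [le_div_iff₀ hη0]
              nlinarith
            linarith
          · push Not at h4
            have h6 : w l * rtr (z l) ≤ w l * hs (z l - Φ.ap (z l)) / e := by
              rw [le_div_iff₀ he0]
              nlinarith
            linarith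
    have h4 : ∑ l, w l * rtr (z l) ≤
        (∑ l, w l * hs (z l - Φ.ap (z l))) / e + (∑ l, w l * En g (Φ.ap (z l))) / η := by
      rw [Finset.sum_div, Finset.sum_div, ← Finset.sum_add_distrib]
      exact Finset.sum_le_sum fun l _ => h3 l
    have h5 : ∑ l, w l * En g (Φ.ap (z l)) ≤ 2 * (t * d) := by linarith
    have h6 : ∑ l, w l * hs (z l - Φ.ap (z l)) ≤ C * (ε * e / (4 * C) * d) + 2 * (t * d) := by
      have : C * ∑ l, w l * En g (z l) ≤ C * (ε * e / (4 * C) * d) :=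
        mul_le_mul_of_nonneg_left hen hC.le
      linarith
    have ht1 : t ≤ ε * e / 8 := min_le_left _ _
    have ht2 : t ≤ ε * η / 8 := min_le_right _ _
    have h7 : (∑ l, w l * En g (Φ.ap (z l))) / η ≤ ε * d / 4 := by
      rw [div_le_iff₀ hη0]
      nlinarith
    have h8 : (∑ l, w l * hs (z l - Φ.ap (z l))) / e ≤ ε * d / 2 := by
      rw [div_le_iff₀ he0]
      have e1 : C * (ε * e / (4 * C) * d) = ε * e * d / 4 := by
        field_simp
      rw [e1] at h6
      nlinarith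
    nlinarith
  refine ⟨l, hwl, hrl, ?_⟩
  have hY0 : (0 : Matrix (Fin d) (Fin d) ℂ) ≤ Φ.ap (z l) := by
    rw [← ap_zero Φ]
    exact ap_mono Φ (hz l).nonneg
  have hY1 : Φ.ap (z l) ≤ 1 := by
    rw [← ap_one Φ]
    exact ap_mono Φ (hz l).le_one
  obtain ⟨q, q1, q2, q3, q4, q5⟩ := lsi g hg (hz l) hrl rfl (ap_herm Φ (hz l).1) hY0 hY1
    (rtr_ap Φ _) he0.le (by rw [hs_sub_comm]; exact hl1) hη0.le hl2 hσ0 hσ1 h2e
  rw [h10e] at q5
  have q5' : hs (q - z l) ≤ 1 / 4 * rtr (z l) :=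
    q5.trans (mul_le_mul_of_nonneg_right hγ'2 hrl.le)
  -- lower bound for the trace of `q`
  have q6 : rtr (z l) ≤ 4 * rtr q := by
    have e1 : Real.sqrt (hs (z l)) ≤ Real.sqrt (hs q) + Real.sqrt (hs (q - z l)) := by
      have := sqrt_hs_sub_le q (q - z l)
      rwa [sub_sub_cancel] at this
    rw [(hz l).hs_eq, q1.hs_eq] at e1
    have e2 : Real.sqrt (hs (q - z l)) ≤ Real.sqrt (rtr (z l)) / 2 := by
      refine (Real.sqrt_le_sqrt q5').trans (le_of_eq ?_)
      rw [Real.sqrt_mul (by norm_num), show (1 / 4 : ℝ) = (1 / 2) ^ 2 by norm_num,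
        Real.sqrt_sq (by norm_num)]
      ring
    have e3 : Real.sqrt (rtr (z l)) ≤ 2 * Real.sqrt (rtr q) := by linarith
    have e4 := mul_self_le_mul_self (Real.sqrt_nonneg _) e3
    have e5 : 2 * Real.sqrt (rtr q) * (2 * Real.sqrt (rtr q)) =
        4 * (Real.sqrt (rtr q) * Real.sqrt (rtr q)) := by ring
    rw [e5, Real.mul_self_sqrt hrl.le, Real.mul_self_sqrt q2.le] at e4
    exact e4
  refine ⟨q, q1, q2, ?_, ?_, ?_⟩
  · refine q3.trans ?_
    have e1 : 2 / σ * Real.sqrt (cS * η) ≤ h / 4 := by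
      rw [div_mul_eq_mul_div, div_le_iff₀ hσ0]
      nlinarith
    calc 2 / σ * Real.sqrt (cS * η) * rtr (z l) ≤ h / 4 * rtr (z l) :=
          mul_le_mul_of_nonneg_right e1 hrl.le
      _ ≤ h / 4 * (4 * rtr q) := mul_le_mul_of_nonneg_left q6 (by positivity)
      _ = _ := by ring
  · exact q5.trans (mul_le_mul_of_nonneg_right hγ'1 hrl.le)
  · exact q4.trans (mul_le_mul_of_nonneg_right (by linarith) hrl.le)

end Pool.Agent.H51K
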