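import Pool.Agent.H51K.Defs

/-!
Interfaces between the parts of the finite-dimensional proof.
-/

set_option autoImplicit false
open Matrix
open scoped ComplexOrder MatrixOrder

namespace Pool.Agent.H51K

variable {S : Type} [Fintype S]

/-- Approximate decomposition into almost irreducible blocks.
`εf, tf` : flatness tolerance and its energy threshold; `ε` : tolerance of all the rest. -/
structure Dec {d : ℕ} (g : S → Matrix (Fin d) (Fin d) ℂ) (εf tf ε : ℝ) where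
  /-- number of blocks -/
  J : ℕ
  /-- dimensions of the blocks -/
  r : Fin J → ℕ
  r_pos : ∀ j, 0 < r j
  /-- the unitaries acting on the blocks -/
  W : ∀ j, S → Matrix (Fin (r j)) (Fin (r j)) ℂ
  W_unitary : ∀ j s, W j s ∈ Matrix.unitaryGroup (Fin (r j)) ℂ
  /-- the maps of the blocks into `ℂ^d` -/
  v : ∀ j, Matrix (Fin d) (Fin (r j)) ℂ
  v_contr : ∀ j, (v j)ᴴ * v j ≤ (1 : Matrix (Fin (r j)) (Fin (r j)) ℂ)
  v_sum : ∑ j, v j * (v j)ᴴ ≤ (2 : ℝ) • (1 : Matrix (Fin d) (Fin d) ℂ)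
  v_hs : hs (∑ j, v j * (v j)ᴴ - 1) ≤ ε * d
  r_sum : |∑ j, (r j : ℝ) - d| ≤ ε * d
  v_def : ∑ j, ((r j : ℝ) - hs (v j)) ≤ ε * d
  energy : ∑ j, EnR g (W j) (v j) ≤ ε * d
  /-- flatness (irreducibility of most blocks): for a family of operators `y j a` out of the blocks,
  bounded blockwise and of small total energy, `(y j a)* (y j a)` is nearly scalar. -/
  flat : ∀ (Λ : Type) [Fintype Λ] (T : Fin J → Λ → Type) [∀ j a, Fintype (T j a)]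
    [∀ j a, DecidableEq (T j a)]
    (W' : ∀ j a, S → Matrix (T j a) (T j a) ℂ) (y : ∀ j a, Matrix (T j a) (Fin (r j)) ℂ)
    (b : ∀ j, Λ → Matrix (Fin (r j)) (Fin (r j)) ℂ),
    (∀ j a s, W' j a s ∈ Matrix.unitaryGroup (T j a) ℂ) →
    (∀ j a, (b j a)ᴴ = b j a) → (∀ j a, (b j a)ᴴ * b j a ≤ 1) →
    (∀ j, ∑ a, (y j a)ᴴ * y j a ≤ 1) →
    (∑ j, ∑ a, EnR (W' j a) (W j) (y j a) ≤ tf * d) →
    ∑ j, ∑ a, (rtr (b j a * ((y j a)ᴴ * y j a)) - hs (y j a) / r j * rtr (b j a)) ≤ εf * d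

/-- The conclusion of the finite-dimensional theorem: there are exact unitaries `W` on `ℂ^m`,
nearly equivalent to `g`, such that every contraction is near the commutant of `W`, linearly in
terms of its energy. -/
def Core {d : ℕ} (g : S → Matrix (Fin d) (Fin d) ℂ) (C' ε : ℝ) : Prop :=
  ∃ (m : ℕ) (W : S → Matrix (Fin m) (Fin m) ℂ) (U : Matrix (Fin d) (Fin m) ℂ),
    (∀ s, W s ∈ Matrix.unitaryGroup (Fin m) ℂ) ∧
    |(m : ℝ) - d| ≤ ε * d ∧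
    Uᴴ * U ≤ (2 : ℝ) • (1 : Matrix (Fin m) (Fin m) ℂ) ∧
    hs (U * Uᴴ - 1) ≤ ε * d ∧
    hs (Uᴴ * U - 1) ≤ ε * d ∧
    EnR g W U ≤ ε * d ∧
    ∀ x : Matrix (Fin m) (Fin m) ℂ, xᴴ * x ≤ 1 →
      ∃ x' : Matrix (Fin m) (Fin m) ℂ, (∀ s, x' * W s = W s * x') ∧ x'ᴴ * x' ≤ 1 ∧
        hs (x - x') ≤ C' * En W x + ε * d

/-- PART 1 (decomposition theorem) -/
def DecTheorem : Prop :=
  ∀ (S : Type) [Fintype S] (C : ℝ), 0 < C → ∀ εf > 0, ∃ tf > 0, ∀ ε > 0, ∃ t > 0,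
    ∀ (d : ℕ) (g : S → Matrix (Fin d) (Fin d) ℂ), 0 < d →
      (∀ s, g s ∈ Matrix.unitaryGroup (Fin d) ℂ) → HasT g C t → Nonempty (Dec g εf tf ε)

/-- PART 2 (from blocks to the commutant) -/
def AssembleTheorem : Prop :=
  ∀ (S : Type) [Fintype S] (C : ℝ), 0 < C → ∃ C' > 0, ∀ ε > 0, ∃ εf > 0, ∀ tf > 0,
    ∃ ε₂ > 0, ∃ t > 0,
    ∀ (d : ℕ) (g : S → Matrix (Fin d) (Fin d) ℂ), 0 < d →
      (∀ s, g s ∈ Matrix.unitaryGroup (Fin d) ℂ) → HasT g C t → Nonempty (Dec g εf tf ε₂) →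
      Core g C' ε

/-- the finite-dimensional theorem -/
def CoreTheorem : Prop :=
  ∀ (S : Type) [Fintype S] (C : ℝ), 0 < C → ∃ C' > 0, ∀ ε > 0, ∃ t > 0,
    ∀ (d : ℕ) (g : S → Matrix (Fin d) (Fin d) ℂ), 0 < d →
      (∀ s, g s ∈ Matrix.unitaryGroup (Fin d) ℂ) → HasT g C t → Core g C' ε

theorem HasT.mono {d : ℕ} {g : S → Matrix (Fin d) (Fin d) ℂ} {C t t' : ℝ} (h : HasT g C t)
    (ht : t ≤ t') : HasT g C t' := by
  obtain ⟨Φ, h⟩ := h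
  refine ⟨Φ, fun L w c h0 h1 h2 => ?_⟩
  obtain ⟨h3, h4⟩ := h L w c h0 h1 h2
  have hd : (0 : ℝ) ≤ d := Nat.cast_nonneg _
  have h5 : t * d ≤ t' * d := mul_le_mul_of_nonneg_right ht hd
  exact ⟨h3.trans h5, h4.trans (by linarith)⟩

theorem coreTheorem_of (h1 : DecTheorem) (h2 : AssembleTheorem) : CoreTheorem := by
  intro S _ C hC
  obtain ⟨C', hC', H⟩ := h2 S C hC
  refine ⟨C', hC', fun ε hε => ?_⟩
  obtain ⟨εf, hεf, H⟩ := H ε hε
  obtain ⟨tf, htf, K⟩ := h1 S C hC εf hεf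
  obtain ⟨ε₂, hε₂, t, ht, H⟩ := H tf htf
  obtain ⟨t', ht', K⟩ := K ε₂ hε₂
  refine ⟨min t t', lt_min ht ht', fun d g hd hg hT => ?_⟩
  exact H d g hd hg (hT.mono (min_le_left _ _)) (K d g hd hg (hT.mono (min_le_right _ _)))

end Pool.Agent.H51K
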