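import Pool.Agent.H51K.KazMat

/-!
Proof of PART 3 (`KazTheorem`).
-/

set_option autoImplicit false
open Matrix Filter Topology
open scoped ComplexOrder MatrixOrder

namespace Pool.Agent.H51K

section Fam

/-- families of matrices as a Euclidean space -/
abbrev Fam (L d : ℕ) := EuclideanSpace ℂ (Fin L × Fin d × Fin d)

variable {L d : ℕ}

/-- family to vector -/
noncomputable def ofM (Y : Fin L → Matrix (Fin d) (Fin d) ℂ) : Fam L d :=
  WithLp.toLp 2 fun p => Y p.1 p.2.1 p.2.2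

/-- vector to family -/
def toM (X : Fam L d) (l : Fin L) : Matrix (Fin d) (Fin d) ℂ := Matrix.of fun i j => X (l, i, j)

theorem toM_ofM (Y : Fin L → Matrix (Fin d) (Fin d) ℂ) : toM (ofM Y) = Y := by
  ext l i j
  rfl

theorem ofM_toM (X : Fam L d) : ofM (toM X) = X := by
  ext ⟨l, i, j⟩
  rfl

theorem toM_add (X Y : Fam L d) (l : Fin L) : toM (X + Y) l = toM X l + toM Y l := rfl

theorem toM_smul (c : ℂ) (X : Fam L d) (l : Fin L) : toM (c • X) l = c • toM X l := rfl

theorem ofM_add (X Y : Fin L → Matrix (Fin d) (Fin d) ℂ) :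
    ofM (fun l => X l + Y l) = ofM X + ofM Y := rfl

theorem ofM_sub (X Y : Fin L → Matrix (Fin d) (Fin d) ℂ) :
    ofM (fun l => X l - Y l) = ofM X - ofM Y := rfl

theorem ofM_smul (c : ℂ) (X : Fin L → Matrix (Fin d) (Fin d) ℂ) :
    ofM (fun l => c • X l) = c • ofM X := rfl

theorem ofM_sum {S : Type} (t : Finset S) (X : S → Fin L → Matrix (Fin d) (Fin d) ℂ) :
    ofM (fun l => ∑ s ∈ t, X s l) = ∑ s ∈ t, ofM (X s) := by
  classical
  induction t using Finset.induction_on with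
  | empty => rfl
  | insert s t hs ih =>
    simp only [Finset.sum_insert hs]
    rw [← ih]
    rfl

theorem norm_ofM_sq (Y : Fin L → Matrix (Fin d) (Fin d) ℂ) : ‖ofM Y‖ ^ 2 = ∑ l, hs (Y l) := by
  rw [EuclideanSpace.norm_sq_eq, Fintype.sum_prod_type]
  refine Finset.sum_congr rfl fun l _ => ?_
  rw [Fintype.sum_prod_type, hs_eq_sum, Finset.sum_comm]
  rfl

/-- conjugation by a unitary as a linear isometry -/
noncomputable def cj (u : Matrix (Fin d) (Fin d) ℂ) (hu : u ∈ Matrix.unitaryGroup (Fin d) ℂ) :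
    Fam L d ≃ₗᵢ[ℂ] Fam L d where
  toFun X := ofM fun l => u * toM X l * uᴴ
  invFun X := ofM fun l => uᴴ * toM X l * u
  map_add' := by
    intro X Y
    rw [← ofM_add]
    congr 1
    ext1 l
    rw [toM_add, Matrix.mul_add, Matrix.add_mul]
  map_smul' := by
    intro c X
    rw [RingHom.id_apply, ← ofM_smul]
    congr 1
    ext1 l
    rw [toM_smul, Matrix.mul_smul, Matrix.smul_mul]
  left_inv := by
    intro X
    show (ofM fun l => uᴴ * toM (ofM fun l => u * toM X l * uᴴ) l * u) = X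
    rw [toM_ofM]
    conv_rhs => rw [← ofM_toM X]
    congr 1
    ext1 l
    have h : uᴴ * u = 1 := Matrix.mem_unitaryGroup_iff'.1 hu
    rw [show uᴴ * (u * toM X l * uᴴ) * u = (uᴴ * u) * toM X l * (uᴴ * u) by
      simp only [Matrix.mul_assoc], h, Matrix.one_mul, Matrix.mul_one]
  right_inv := by
    intro X
    show (ofM fun l => u * toM (ofM fun l => uᴴ * toM X l * u) l * uᴴ) = X
    rw [toM_ofM]
    conv_rhs => rw [← ofM_toM X]
    congr 1
    ext1 l
    have h : u * uᴴ = 1 := Matrix.mem_unitaryGroup_iff.1 hu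
    rw [show u * (uᴴ * toM X l * u) * uᴴ = (u * uᴴ) * toM X l * (u * uᴴ) by
      simp only [Matrix.mul_assoc], h, Matrix.one_mul, Matrix.mul_one]
  norm_map' := by
    intro X
    show ‖ofM fun l => u * toM X l * uᴴ‖ = ‖X‖
    have h1 : ‖ofM fun l => u * toM X l * uᴴ‖ ^ 2 = ‖X‖ ^ 2 := by
      rw [norm_ofM_sq]
      conv_rhs => rw [← ofM_toM X, norm_ofM_sq]
      exact Finset.sum_congr rfl fun l _ => kaz_hs_conj_unitary hu _
    exact (pow_left_inj₀ (norm_nonneg _) (norm_nonneg _) two_ne_zero).1 h1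

theorem cj_ofM (u : Matrix (Fin d) (Fin d) ℂ) (hu : u ∈ Matrix.unitaryGroup (Fin d) ℂ)
    (Y : Fin L → Matrix (Fin d) (Fin d) ℂ) : cj u hu (ofM Y) = ofM fun l => u * Y l * uᴴ := by
  show (ofM fun l => u * toM (ofM Y) l * uᴴ) = _
  rw [toM_ofM]

variable {S : Type} [Fintype S]

theorem TT_ofM (g : S → Matrix (Fin d) (Fin d) ℂ) (hg : ∀ s, g s ∈ Matrix.unitaryGroup (Fin d) ℂ)
    (Y : Fin L → Matrix (Fin d) (Fin d) ℂ) :
    TT (fun s => cj (g s) (hg s)) (ofM Y) = ofM fun l => Tm g (Y l) := by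
  unfold TT Tm
  rw [ofM_smul, ofM_sum]
  simp only [cj_ofM, ofM_add]

theorem TT_iter_ofM (g : S → Matrix (Fin d) (Fin d) ℂ)
    (hg : ∀ s, g s ∈ Matrix.unitaryGroup (Fin d) ℂ)
    (Y : Fin L → Matrix (Fin d) (Fin d) ℂ) (k : ℕ) :
    (TT fun s => cj (g s) (hg s))^[k] (ofM Y) = ofM fun l => (Tm g)^[k] (Y l) := by
  induction k with
  | zero => rfl
  | succ k ih =>
    rw [Function.iterate_succ_apply', ih, TT_ofM]
    simp only [Function.iterate_succ_apply']

theorem Tm_smul (g : S → Matrix (Fin d) (Fin d) ℂ) (c : ℝ) (y : Matrix (Fin d) (Fin d) ℂ) :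
    Tm g (c • y) = c • Tm g y := by
  unfold Tm
  have h : ∑ s, (c • y + g s * (c • y) * (g s)ᴴ) = c • ∑ s, (y + g s * y * (g s)ᴴ) := by
    rw [Finset.smul_sum]
    refine Finset.sum_congr rfl fun s _ => ?_
    rw [smul_add, Matrix.mul_smul, Matrix.smul_mul]
  rw [h, smul_comm]

theorem Tm_iter_smul (g : S → Matrix (Fin d) (Fin d) ℂ) (c : ℝ) (y : Matrix (Fin d) (Fin d) ℂ)
    (k : ℕ) : (Tm g)^[k] (c • y) = c • (Tm g)^[k] y := by
  induction k with
  | zero => rfl
  | succ k ih => rw [Function.iterate_succ_apply', ih, Tm_smul, Function.iterate_succ_apply']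

end Fam

theorem hasT_of_empty {d : ℕ} {S : Type} [Fintype S] (hS : Fintype.card S = 0)
    (g : S → Matrix (Fin d) (Fin d) ℂ) (C ε : ℝ) (hε : 0 ≤ ε) : HasT g C ε := by
  have hemp : IsEmpty S := Fintype.card_eq_zero_iff.1 hS
  obtain ⟨Φ, hΦ⟩ := avg_of_fintype (d := d) (ι := Unit) (fun _ => 1) (fun _ => 1)
    (fun _ => zero_le_one) (by simp) (fun _ => one_mem _)
  refine ⟨Φ, fun L w c hw _ _ => ?_⟩
  have h1 : ∀ x, Φ.ap x = x := by
    intro x
    rw [hΦ]
    simp
  have h2 : ∀ x : Matrix (Fin d) (Fin d) ℂ, En g x = 0 := by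
    intro x
    unfold En EnR
    simp
  have hd : (0 : ℝ) ≤ ε * d := mul_nonneg hε (Nat.cast_nonneg _)
  constructor
  · simp only [h1, h2, mul_zero, Finset.sum_const_zero]
    exact hd
  · simp only [h1, h2, sub_self, hs_zero, mul_zero, Finset.sum_const_zero, zero_add]
    exact hd

theorem kazTheorem : KazTheorem := by
  classical
  intro G _ hG S _ σ hσ
  rcases Nat.eq_zero_or_pos (Fintype.card S) with hS | hS
  · refine ⟨1, one_pos, ?_⟩
    intro 𝒰 d u _ _ _ ε hε
    exact Filter.Eventually.of_forall fun n =>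
      hasT_of_empty hS _ 1 ε hε.le
  obtain ⟨C, hC, hmain⟩ := hilb_main hG hS σ hσ
  refine ⟨C, hC, ?_⟩
  intro 𝒰 d u hd hu hmul ε hε
  obtain ⟨k, hk⟩ := hmain ε hε
  by_contra hcon
  have hcon' : ∀ᶠ n in (𝒰 : Filter ℕ), ¬ HasT (fun s => u (σ s) n) C ε :=
    Ultrafilter.eventually_not.2 hcon
  -- a violating family for every bad `n`
  have hfam : ∀ n, ∃ (L : ℕ) (w : Fin L → ℝ) (c : Fin L → Matrix (Fin (d n)) (Fin (d n)) ℂ),
      (∀ i, 0 ≤ w i) ∧
      (∑ i, w i • (c i * (c i)ᴴ) ≤ (1 : Matrix (Fin (d n)) (Fin (d n)) ℂ)) ∧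
      (∑ i, w i • ((c i)ᴴ * c i) ≤ (1 : Matrix (Fin (d n)) (Fin (d n)) ℂ)) ∧
      (¬ HasT (fun s => u (σ s) n) C ε →
        ¬ ((∑ i, w i * En (fun s => u (σ s) n) ((Tm fun s => u (σ s) n)^[k] (c i)) ≤ ε * d n) ∧
          (∑ i, w i * hs (c i - (Tm fun s => u (σ s) n)^[k] (c i)) ≤
            C * ∑ i, w i * En (fun s => u (σ s) n) (c i) + ε * d n))) := by
    intro n
    by_cases hT : HasT (fun s => u (σ s) n) C ε
    · refine ⟨0, Fin.elim0, Fin.elim0, fun i => i.elim0, ?_, ?_, fun h => absurd hT h⟩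
      · simp only [Finset.univ_eq_empty, Finset.sum_empty]
        exact Matrix.le_iff.2 (by simpa using Matrix.PosSemidef.one)
      · simp only [Finset.univ_eq_empty, Finset.sum_empty]
        exact Matrix.le_iff.2 (by simpa using Matrix.PosSemidef.one)
    · obtain ⟨Φ, hΦ⟩ := Tm_iter_avg (fun s => u (σ s) n) (fun s => hu (σ s) n) hS k
      by_contra hno
      apply hT
      refine ⟨Φ, fun L w c hw h1 h2 => ?_⟩
      by_contra hv
      apply hno
      refine ⟨L, w, c, hw, h1, h2, fun _ => ?_⟩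
      simpa only [hΦ] using hv
  choose L w c hw h1 h2 hbad using hfam
  -- the Hilbert space picture
  let A : ∀ n, G → (Fam (L n) (d n) ≃ₗᵢ[ℂ] Fam (L n) (d n)) := fun n a => cj (u a n) (hu a n)
  let x : ∀ n, Fam (L n) (d n) := fun n => ofM fun l => Real.sqrt (w n l / d n) • c n l
  have hdpos : ∀ n, (0 : ℝ) < d n := fun n => by exact_mod_cast hd n
  have hsq : ∀ n l, Real.sqrt (w n l / d n) ^ 2 = w n l / d n := fun n l =>
    Real.sq_sqrt (div_nonneg (hw n l) (hdpos n).le)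
  have hscale : ∀ n (f : Fin (L n) → ℝ),
      ∑ l, Real.sqrt (w n l / d n) ^ 2 * f l = (∑ l, w n l * f l) / d n := by
    intro n f
    rw [Finset.sum_div]
    refine Finset.sum_congr rfl fun l _ => ?_
    rw [hsq]
    ring
  have hx : ∀ n, ‖x n‖ ≤ 1 := by
    intro n
    have e1 : ‖x n‖ ^ 2 = (∑ l, w n l * hs (c n l)) / d n := by
      show ‖ofM _‖ ^ 2 = _
      rw [norm_ofM_sq, ← hscale]
      exact Finset.sum_congr rfl fun l _ => hs_smul _ _
    have e2 : ∑ l, w n l * hs (c n l) = rtr (∑ l, w n l • ((c n l)ᴴ * c n l)) := by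
      rw [rtr_sum]
      exact Finset.sum_congr rfl fun l _ => (rtr_smul _ _).symm
    have e3 : ∑ l, w n l * hs (c n l) ≤ d n := by
      rw [e2]
      refine (rtr_mono (h2 n)).trans (le_of_eq ?_)
      rw [rtr_one, Fintype.card_fin]
    have e4 : ‖x n‖ ^ 2 ≤ 1 := by
      rw [e1, div_le_one (hdpos n)]
      exact e3
    exact (sq_le_one_iff₀ (norm_nonneg _)).1 e4
  have hA : ∀ a b, Tendsto (fun n => ‖A n (a * b) (x n) - A n a (A n b (x n))‖) 𝒰 (𝓝 0) := by
    intro a b
    have t1 : Tendsto (fun n => 4 * (hs (u a n * u b n - u (a * b) n) / d n)) 𝒰 (𝓝 0) := by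
      have := (hmul a b).const_mul 4
      rwa [mul_zero] at this
    have t2 : Tendsto (fun n => ‖A n (a * b) (x n) - A n a (A n b (x n))‖ ^ 2) 𝒰 (𝓝 0) := by
      refine squeeze_zero (fun _ => sq_nonneg _) (fun n => ?_) t1
      have e1 : A n (a * b) (x n) - A n a (A n b (x n)) = ofM fun l =>
          Real.sqrt (w n l / d n) • (u (a * b) n * c n l * (u (a * b) n)ᴴ -
            (u a n * u b n) * c n l * (u a n * u b n)ᴴ) := by
        show cj _ _ (ofM _) - cj _ _ (cj _ _ (ofM _)) = _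
        rw [cj_ofM, cj_ofM, cj_ofM, ← ofM_sub]
        congr 1
        ext1 l
        rw [smul_sub, Matrix.conjTranspose_mul]
        simp only [Matrix.mul_smul, Matrix.smul_mul, Matrix.mul_assoc]
      rw [e1, norm_ofM_sq]
      simp only [hs_smul]
      rw [hscale n fun l => hs (u (a * b) n * c n l * (u (a * b) n)ᴴ -
            (u a n * u b n) * c n l * (u a n * u b n)ᴴ)]
      have e2 := sum_hs_conj_sub_le (w n) (c n) (hw n) (h1 n) (h2 n) (hu (a * b) n)
        (mul_mem (hu a n) (hu b n))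
      rw [hs_sub_comm] at e2
      calc (∑ l, w n l * hs (u (a * b) n * c n l * (u (a * b) n)ᴴ -
            (u a n * u b n) * c n l * (u a n * u b n)ᴴ)) / d n
          ≤ (4 * hs (u a n * u b n - u (a * b) n)) / d n :=
            div_le_div_of_nonneg_right e2 (hdpos n).le
        _ = 4 * (hs (u a n * u b n - u (a * b) n) / d n) := by ring
    have t3 : Tendsto (fun n => Real.sqrt (‖A n (a * b) (x n) - A n a (A n b (x n))‖ ^ 2)) 𝒰
        (𝓝 (Real.sqrt 0)) := (Real.continuous_sqrt.tendsto _).comp t2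
    rw [Real.sqrt_zero] at t3
    refine t3.congr fun n => ?_
    exact Real.sqrt_sq (norm_nonneg _)
  have hfin := hk 𝒰 (fun n => Fam (L n) (d n)) A x hx hA
  obtain ⟨n, hn1, hn2, hn3⟩ := (hcon'.and hfin).exists
  apply hbad n hn1
  -- translate back
  have hiter : (TT fun s => A n (σ s))^[k] (x n) = ofM fun l =>
      Real.sqrt (w n l / d n) • (Tm fun s => u (σ s) n)^[k] (c n l) := by
    show (TT fun s => cj (u (σ s) n) (hu (σ s) n))^[k] (ofM _) = _
    rw [TT_iter_ofM (fun s => u (σ s) n) (fun s => hu (σ s) n)]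
    simp only [Tm_iter_smul]
  have hener : ∀ Y : Fin (L n) → Matrix (Fin (d n)) (Fin (d n)) ℂ,
      ∑ s, ‖A n (σ s) (ofM fun l => Real.sqrt (w n l / d n) • Y l) -
        ofM (fun l => Real.sqrt (w n l / d n) • Y l)‖ ^ 2 =
      (∑ l, w n l * En (fun s => u (σ s) n) (Y l)) / d n := by
    intro Y
    have e1 : ∀ s, ‖A n (σ s) (ofM fun l => Real.sqrt (w n l / d n) • Y l) -
        ofM (fun l => Real.sqrt (w n l / d n) • Y l)‖ ^ 2 =
        (∑ l, w n l * hs (u (σ s) n * Y l - Y l * u (σ s) n)) / d n := by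
      intro s
      have e2 : A n (σ s) (ofM fun l => Real.sqrt (w n l / d n) • Y l) -
          ofM (fun l => Real.sqrt (w n l / d n) • Y l) = ofM fun l =>
          Real.sqrt (w n l / d n) • (u (σ s) n * Y l * (u (σ s) n)ᴴ - Y l) := by
        show cj _ _ (ofM _) - _ = _
        rw [cj_ofM, ← ofM_sub]
        congr 1
        ext1 l
        rw [smul_sub, Matrix.mul_smul, Matrix.smul_mul]
      rw [e2, norm_ofM_sq]
      simp only [hs_smul]
      rw [hscale n fun l => hs (u (σ s) n * Y l * (u (σ s) n)ᴴ - Y l)]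
      congr 1
      refine Finset.sum_congr rfl fun l _ => ?_
      rw [hs_comm_unitary (hu (σ s) n)]
    rw [Finset.sum_congr rfl fun s _ => e1 s, ← Finset.sum_div, Finset.sum_comm]
    congr 1
    refine Finset.sum_congr rfl fun l _ => ?_
    rw [← Finset.mul_sum]
    rfl
  rw [hiter] at hn2 hn3
  rw [hener] at hn2
  have hn3' : ‖x n - ofM (fun l => Real.sqrt (w n l / d n) •
      (Tm fun s => u (σ s) n)^[k] (c n l))‖ ^ 2 =
      (∑ l, w n l * hs (c n l - (Tm fun s => u (σ s) n)^[k] (c n l))) / d n := by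
    have e2 : x n - ofM (fun l => Real.sqrt (w n l / d n) •
        (Tm fun s => u (σ s) n)^[k] (c n l)) = ofM fun l =>
        Real.sqrt (w n l / d n) • (c n l - (Tm fun s => u (σ s) n)^[k] (c n l)) := by
      show ofM _ - _ = _
      rw [← ofM_sub]
      congr 1
      ext1 l
      rw [smul_sub]
    rw [e2, norm_ofM_sq]
    simp only [hs_smul]
    rw [hscale n fun l => hs (c n l - (Tm fun s => u (σ s) n)^[k] (c n l))]
  rw [hn3', hener] at hn3
  constructor
  · rwa [div_le_iff₀ (hdpos n)] at hn2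
  · have h3 : C * ((∑ l, w n l * En (fun s => u (σ s) n) (c n l)) / d n) + ε =
        (C * (∑ l, w n l * En (fun s => u (σ s) n) (c n l)) + ε * d n) / d n := by
      field_simp [(hdpos n).ne']
    rw [h3] at hn3
    exact (div_le_div_iff_of_pos_right (hdpos n)).1 hn3

end Pool.Agent.H51K
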