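import Pool.Agent.H51K.Defs

/-!
Kazhdan's property (T) and the statement of PART 3.
-/

set_option autoImplicit false
open Matrix Filter Topology
open scoped ComplexOrder MatrixOrder

namespace Pool.Agent.H51K

/-- Kazhdan's property (T) for a discrete group: there are a finite set `F` and `ε > 0` such that
every unitary representation with a nonzero `(F, ε)`-invariant vector has a nonzero invariant
vector. -/
def IsKazhdan (G : Type) [Group G] : Prop :=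
  ∃ (F : Finset G) (ε : ℝ), 0 < ε ∧
    ∀ (H : Type) [NormedAddCommGroup H] [InnerProductSpace ℂ H] [CompleteSpace H]
      (ρ : G →* (H ≃ₗᵢ[ℂ] H)),
      (∃ v : H, v ≠ 0 ∧ ∀ a ∈ F, ‖ρ a v - v‖ ≤ ε * ‖v‖) → ∃ v : H, v ≠ 0 ∧ ∀ a, ρ a v = v

/-- PART 3 -/
def KazTheorem : Prop :=
  ∀ (G : Type) [Group G], IsKazhdan G → ∀ (S : Type) [Fintype S] (σ : S → G),
    Subgroup.closure (Set.range σ) = ⊤ → ∃ C > 0,
    ∀ (𝒰 : Ultrafilter ℕ) (d : ℕ → ℕ) (u : G → ∀ n, Matrix (Fin (d n)) (Fin (d n)) ℂ),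
      (∀ n, 0 < d n) → (∀ a n, u a n ∈ Matrix.unitaryGroup (Fin (d n)) ℂ) →
      (∀ a b, Tendsto (fun n => hs (u a n * u b n - u (a * b) n) / d n) 𝒰 (𝓝 0)) →
      ∀ ε > 0, ∀ᶠ n in (𝒰 : Filter ℕ), HasT (fun s => u (σ s) n) C ε

end Pool.Agent.H51K
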