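import Pool.Agent.H51K.KazIter

/-!
A GNS-type limit of almost unitary orbits along an ultrafilter.
-/

set_option autoImplicit false
open Filter Topology

namespace Pool.Agent.H51K

theorem exists_hilbert (E : Type) [AddCommGroup E] [Module ℂ E]
    (c : PreInnerProductSpace.Core ℂ E) :
    ∃ (H : Type) (_ : NormedAddCommGroup H) (_ : InnerProductSpace ℂ H) (_ : CompleteSpace H)
      (e : E →ₗ[ℂ] H), DenseRange e ∧ ∀ x, ‖e x‖ ^ 2 = (c.inner x x).re := by
  let i1 : SeminormedAddCommGroup E :=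
    @InnerProductSpace.Core.toSeminormedAddCommGroup ℂ E _ _ _ c
  let i2 : InnerProductSpace ℂ E := InnerProductSpace.ofCore c
  refine ⟨UniformSpace.Completion E, inferInstance, inferInstance, inferInstance,
    (UniformSpace.Completion.toComplL : E →L[ℂ] UniformSpace.Completion E).toLinearMap, ?_, ?_⟩
  · exact UniformSpace.Completion.denseRange_coe
  · intro x
    show ‖(x : UniformSpace.Completion E)‖ ^ 2 = _
    rw [UniformSpace.Completion.norm_coe]
    exact norm_sq_eq_re_inner (𝕜 := ℂ) x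

section GNS

variable {G : Type} [Group G]

/-- translation on finitely supported functions -/
noncomputable def tr (h : G) : (G →₀ ℂ) ≃ₗ[ℂ] (G →₀ ℂ) := Finsupp.domLCongr (Equiv.mulLeft h)

theorem tr_single (h a : G) (z : ℂ) : tr h (Finsupp.single a z) = Finsupp.single (h * a) z := by
  simp [tr]

theorem tr_mul (h h' : G) (f : G →₀ ℂ) : tr (h * h') f = tr h (tr h' f) := by
  induction f using Finsupp.induction_linear with
  | zero => simp
  | add f g hf hg => rw [map_add, map_add, map_add, hf, hg]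
  | single a z => rw [tr_single, tr_single, tr_single, mul_assoc]

theorem tr_one (f : G →₀ ℂ) : tr 1 f = f := by
  induction f using Finsupp.induction_linear with
  | zero => simp
  | add f g hf hg => rw [map_add, hf, hg]
  | single a z => rw [tr_single, one_mul]

variable {W : ℕ → Type} [∀ n, NormedAddCommGroup (W n)] [∀ n, InnerProductSpace ℂ (W n)]

/-- the orbit map -/
noncomputable def orb (A : ∀ n, G → (W n ≃ₗᵢ[ℂ] W n)) (x : ∀ n, W n) (n : ℕ) :
    (G →₀ ℂ) →ₗ[ℂ] W n := Finsupp.linearCombination ℂ (fun a => A n a (x n))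

omit [Group G] in
theorem orb_single (A : ∀ n, G → (W n ≃ₗᵢ[ℂ] W n)) (x : ∀ n, W n) (n : ℕ) (a : G) (z : ℂ) :
    orb A x n (Finsupp.single a z) = z • A n a (x n) := by
  simp [orb]

omit [Group G] in
theorem orb_bound (A : ∀ n, G → (W n ≃ₗᵢ[ℂ] W n)) (x : ∀ n, W n) (hx : ∀ n, ‖x n‖ ≤ 1)
    (f : G →₀ ℂ) : ∃ M : ℝ, ∀ n, ‖orb A x n f‖ ≤ M := by
  induction f using Finsupp.induction_linear with
  | zero => exact ⟨0, fun n => by simp⟩
  | add f g hf hg =>
    obtain ⟨M, hM⟩ := hf
    obtain ⟨N, hN⟩ := hg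
    refine ⟨M + N, fun n => ?_⟩
    rw [map_add]
    exact (norm_add_le _ _).trans (add_le_add (hM n) (hN n))
  | single a z =>
    refine ⟨‖z‖ * 1, fun n => ?_⟩
    rw [orb_single, norm_smul, (A n a).norm_map]
    exact mul_le_mul_of_nonneg_left (hx n) (norm_nonneg _)

theorem orb_tr (𝒰 : Ultrafilter ℕ) (A : ∀ n, G → (W n ≃ₗᵢ[ℂ] W n)) (x : ∀ n, W n)
    (hA : ∀ a b, Tendsto (fun n => ‖A n (a * b) (x n) - A n a (A n b (x n))‖) 𝒰 (𝓝 0))
    (h : G) (f : G →₀ ℂ) :
    Tendsto (fun n => ‖orb A x n (tr h f) - A n h (orb A x n f)‖) 𝒰 (𝓝 0) := by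
  induction f using Finsupp.induction_linear with
  | zero => simp
  | add f g hf hg =>
    refine squeeze_zero (fun _ => norm_nonneg _) (fun n => ?_) (by simpa using hf.add hg)
    have e : orb A x n (tr h (f + g)) - A n h (orb A x n (f + g)) =
        (orb A x n (tr h f) - A n h (orb A x n f)) +
          (orb A x n (tr h g) - A n h (orb A x n g)) := by
      rw [map_add, map_add, map_add, map_add]
      abel
    rw [e]
    exact norm_add_le _ _
  | single a z =>
    have := (hA h a).const_mul ‖z‖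
    rw [mul_zero] at this
    refine this.congr fun n => ?_
    rw [tr_single, orb_single, orb_single, map_smul, ← smul_sub, norm_smul]

theorem gns (𝒰 : Ultrafilter ℕ) (A : ∀ n, G → (W n ≃ₗᵢ[ℂ] W n)) (x : ∀ n, W n)
    (hx : ∀ n, ‖x n‖ ≤ 1)
    (hA : ∀ a b, Tendsto (fun n => ‖A n (a * b) (x n) - A n a (A n b (x n))‖) 𝒰 (𝓝 0)) :
    ∃ (H : Type) (_ : NormedAddCommGroup H) (_ : InnerProductSpace ℂ H) (_ : CompleteSpace H)
      (ρ : G →* (H ≃ₗᵢ[ℂ] H)) (e : (G →₀ ℂ) →ₗ[ℂ] H),
      (∀ h f, ρ h (e f) = e (tr h f)) ∧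
      ∀ f, Tendsto (fun n => ‖orb A x n f‖) 𝒰 (𝓝 ‖e f‖) := by
  have hlim : ∀ f g : G →₀ ℂ, ∃ z : ℂ,
      Tendsto (fun n => inner ℂ (orb A x n f) (orb A x n g)) 𝒰 (𝓝 z) := by
    intro f g
    obtain ⟨M, hM⟩ := orb_bound A x hx f
    obtain ⟨N, hN⟩ := orb_bound A x hx g
    have hc : IsCompact (Metric.closedBall (0 : ℂ) (M * N)) := isCompact_closedBall _ _
    have hmem : ∀ n, inner ℂ (orb A x n f) (orb A x n g) ∈ Metric.closedBall (0 : ℂ) (M * N) := by
      intro n
      rw [mem_closedBall_zero_iff]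
      refine (norm_inner_le_norm _ _).trans ?_
      exact mul_le_mul (hM n) (hN n) (norm_nonneg _) ((norm_nonneg _).trans (hM n))
    obtain ⟨z, -, hz⟩ := hc.ultrafilter_le_nhds
      (𝒰.map fun n => inner ℂ (orb A x n f) (orb A x n g)) (by
        rw [le_principal_iff]
        exact Ultrafilter.mem_map.2 (Filter.Eventually.of_forall hmem))
    exact ⟨z, hz⟩
  choose B hB using hlim
  let c : PreInnerProductSpace.Core ℂ (G →₀ ℂ) :=
    { inner := B
      conj_inner_symm := by
        intro f g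
        have h1 : Tendsto (fun n => (starRingEnd ℂ) (inner ℂ (orb A x n g) (orb A x n f))) 𝒰
            (𝓝 ((starRingEnd ℂ) (B g f))) :=
          (Complex.continuous_conj.tendsto _).comp (hB g f)
        refine tendsto_nhds_unique (h1.congr fun n => ?_) (hB f g)
        exact inner_conj_symm _ _
      re_inner_nonneg := by
        intro f
        have h1 : Tendsto (fun n => (inner ℂ (orb A x n f) (orb A x n f)).re) 𝒰
            (𝓝 (B f f).re) := (Complex.continuous_re.tendsto _).comp (hB f f)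
        refine ge_of_tendsto' h1 fun n => ?_
        exact inner_self_nonneg (𝕜 := ℂ) (x := orb A x n f)
      add_left := by
        intro f g h
        refine tendsto_nhds_unique (hB (f + g) h) (((hB f h).add (hB g h)).congr fun n => ?_)
        rw [map_add, inner_add_left]
      smul_left := by
        intro f g r
        refine tendsto_nhds_unique (hB (r • f) g) (((hB f g).const_mul _).congr fun n => ?_)
        rw [map_smul, inner_smul_left] }
  obtain ⟨H, i1, i2, i3, e, hde, he⟩ := exists_hilbert (G →₀ ℂ) c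
  have hnorm : ∀ f, Tendsto (fun n => ‖orb A x n f‖) 𝒰 (𝓝 ‖e f‖) := by
    intro f
    have h1 : Tendsto (fun n => (inner ℂ (orb A x n f) (orb A x n f)).re) 𝒰
        (𝓝 (B f f).re) := (Complex.continuous_re.tendsto _).comp (hB f f)
    have h2 : Tendsto (fun n => Real.sqrt ((inner ℂ (orb A x n f) (orb A x n f)).re)) 𝒰
        (𝓝 (Real.sqrt (B f f).re)) := (Real.continuous_sqrt.tendsto _).comp h1
    have h3 : Real.sqrt (B f f).re = ‖e f‖ := by
      have h4 : (B f f).re = ‖e f‖ ^ 2 := (he f).symm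
      rw [h4, Real.sqrt_sq (norm_nonneg _)]
    rw [h3] at h2
    refine h2.congr fun n => ?_
    have h5 : (inner ℂ (orb A x n f) (orb A x n f)).re = ‖orb A x n f‖ ^ 2 := by
      exact (norm_sq_eq_re_inner (𝕜 := ℂ) (orb A x n f)).symm
    rw [h5, Real.sqrt_sq (norm_nonneg _)]
  have hiso : ∀ h f, ‖e (tr h f)‖ = ‖e f‖ := by
    intro h f
    have h1 := orb_tr 𝒰 A x hA h f
    have h2 : Tendsto (fun n => ‖orb A x n (tr h f)‖ - ‖orb A x n f‖) 𝒰 (𝓝 0) := by
      refine squeeze_zero_norm (fun n => ?_) h1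
      have h3 := abs_norm_sub_norm_le (orb A x n (tr h f)) (A n h (orb A x n f))
      rw [(A n h).norm_map] at h3
      exact h3
    have h3 := (hnorm (tr h f)).sub (hnorm f)
    have h4 := tendsto_nhds_unique h2 h3
    linarith
  let ρ0 : G → (H ≃ₗᵢ[ℂ] H) := fun h => (tr h).extendOfIsometry e e hde hde (hiso h)
  have hρ0 : ∀ h f, ρ0 h (e f) = e (tr h f) := fun h f =>
    LinearEquiv.extendOfIsometry_eq (tr h) e e hde hde (hiso h) f
  let ρ : G →* (H ≃ₗᵢ[ℂ] H) :=
    { toFun := ρ0
      map_one' := by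
        apply LinearIsometryEquiv.ext
        intro v
        show ρ0 1 v = v
        refine hde.induction_on (p := fun v => ρ0 1 v = v) v
          (isClosed_eq (ρ0 1).continuous continuous_id) fun f => ?_
        rw [hρ0, tr_one]
      map_mul' := by
        intro a b
        apply LinearIsometryEquiv.ext
        intro v
        show ρ0 (a * b) v = ρ0 a (ρ0 b v)
        refine hde.induction_on (p := fun v => ρ0 (a * b) v = ρ0 a (ρ0 b v)) v
          (isClosed_eq (ρ0 (a * b)).continuous ((ρ0 a).continuous.comp (ρ0 b).continuous))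
          fun f => ?_
        rw [hρ0, hρ0, hρ0, tr_mul] }
  exact ⟨H, i1, i2, i3, ρ, e, fun h f => hρ0 h f, hnorm⟩

end GNS

end Pool.Agent.H51K
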