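import Pool.Agent.H51K.KazDefs

/-!
Spectral gap from property (T), and contraction of the lazy averaging operator.
-/

set_option autoImplicit false
open Filter Topology

namespace Pool.Agent.H51K

variable {G : Type} [Group G]

section Inv

variable {H : Type} [NormedAddCommGroup H] [InnerProductSpace ℂ H]

theorem rho_mul (ρ : G →* (H ≃ₗᵢ[ℂ] H)) (a b : G) (v : H) : ρ (a * b) v = ρ a (ρ b v) := by
  rw [map_mul]
  rfl

theorem rho_one (ρ : G →* (H ≃ₗᵢ[ℂ] H)) (v : H) : ρ 1 v = v := by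
  rw [map_one]
  rfl

/-- the invariant vectors -/
def invS (ρ : G →* (H ≃ₗᵢ[ℂ] H)) : Submodule ℂ H where
  carrier := {v | ∀ a, ρ a v = v}
  add_mem' := by
    intro v w hv hw a
    rw [map_add, hv a, hw a]
  zero_mem' := by
    intro a
    rw [map_zero]
  smul_mem' := by
    intro c v hv a
    rw [map_smul, hv a]

theorem mem_invS (ρ : G →* (H ≃ₗᵢ[ℂ] H)) (v : H) : v ∈ invS ρ ↔ ∀ a, ρ a v = v := Iff.rfl

theorem rho_mem_orth (ρ : G →* (H ≃ₗᵢ[ℂ] H)) (a : G) {v : H} (hv : v ∈ (invS ρ)ᗮ) :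
    ρ a v ∈ (invS ρ)ᗮ := by
  rw [Submodule.mem_orthogonal] at *
  intro w hw
  have h1 : inner ℂ w (ρ a v) = inner ℂ (ρ a w) (ρ a v) := by
    rw [(mem_invS ρ w).1 hw a]
  rw [h1, LinearIsometryEquiv.inner_map_map]
  exact hv w hw

theorem isClosed_invS (ρ : G →* (H ≃ₗᵢ[ℂ] H)) : IsClosed (invS ρ : Set H) := by
  have : (invS ρ : Set H) = ⋂ a, {v | ρ a v = v} := by
    ext v
    simp [mem_invS]
  rw [this]
  exact isClosed_iInter fun a => isClosed_eq (ρ a).continuous continuous_id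

/-- the representation on the complement of the invariant vectors -/
noncomputable def orthRep (ρ : G →* (H ≃ₗᵢ[ℂ] H)) : G →* ((invS ρ)ᗮ ≃ₗᵢ[ℂ] (invS ρ)ᗮ) where
  toFun a :=
    { toFun := fun v => ⟨ρ a v, rho_mem_orth ρ a v.2⟩
      invFun := fun v => ⟨ρ a⁻¹ v, rho_mem_orth ρ a⁻¹ v.2⟩
      map_add' := by
        intro v w
        ext
        simp
      map_smul' := by
        intro c v
        ext
        simp
      left_inv := by
        intro v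
        ext
        show ρ a⁻¹ (ρ a v) = v
        rw [← rho_mul, inv_mul_cancel, rho_one]
      right_inv := by
        intro v
        ext
        show ρ a (ρ a⁻¹ v) = v
        rw [← rho_mul, mul_inv_cancel, rho_one]
      norm_map' := by
        intro v
        show ‖ρ a v‖ = ‖(v : H)‖
        exact (ρ a).norm_map v }
  map_one' := by
    ext v
    show ρ 1 v = v
    exact rho_one ρ v
  map_mul' := by
    intro a b
    ext v
    show ρ (a * b) v = ρ a (ρ b v)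
    exact rho_mul ρ a b v

end Inv

theorem word_bound {S : Type} [Fintype S] (σ : S → G)
    (hσ : Subgroup.closure (Set.range σ) = ⊤) (a : G) :
    ∃ M : ℝ, 0 ≤ M ∧ ∀ (H : Type) [NormedAddCommGroup H] [InnerProductSpace ℂ H]
      (ρ : G →* (H ≃ₗᵢ[ℂ] H)) (v : H), ‖ρ a v - v‖ ≤ M * ∑ s, ‖ρ (σ s) v - v‖ := by
  have ha : a ∈ Subgroup.closure (Set.range σ) := by
    rw [hσ]
    trivial
  induction ha using Subgroup.closure_induction with
  | mem x hx =>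
    obtain ⟨s, rfl⟩ := hx
    refine ⟨1, zero_le_one, ?_⟩
    intro H _ _ ρ v
    rw [one_mul]
    exact Finset.single_le_sum (f := fun s => ‖ρ (σ s) v - v‖) (fun _ _ => norm_nonneg _)
      (Finset.mem_univ s)
  | one =>
    refine ⟨0, le_rfl, ?_⟩
    intro H _ _ ρ v
    rw [rho_one]
    simp
  | mul x y _ _ hx hy =>
    obtain ⟨M, hM, h1⟩ := hx
    obtain ⟨N, hN, h2⟩ := hy
    refine ⟨M + N, add_nonneg hM hN, ?_⟩
    intro H _ _ ρ v
    rw [rho_mul]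
    have e : ρ x (ρ y v) - v = ρ x (ρ y v - v) + (ρ x v - v) := by
      rw [map_sub]
      abel
    rw [e]
    calc ‖ρ x (ρ y v - v) + (ρ x v - v)‖ ≤ ‖ρ x (ρ y v - v)‖ + ‖ρ x v - v‖ := norm_add_le _ _
      _ = ‖ρ y v - v‖ + ‖ρ x v - v‖ := by rw [(ρ x).norm_map]
      _ ≤ N * ∑ s, ‖ρ (σ s) v - v‖ + M * ∑ s, ‖ρ (σ s) v - v‖ := add_le_add (h2 H ρ v) (h1 H ρ v)
      _ = (M + N) * ∑ s, ‖ρ (σ s) v - v‖ := by ring
  | inv x _ hx =>
    obtain ⟨M, hM, h1⟩ := hx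
    refine ⟨M, hM, ?_⟩
    intro H _ _ ρ v
    have e : ‖ρ x⁻¹ v - v‖ = ‖ρ x v - v‖ := by
      have h2 : ρ x (ρ x⁻¹ v - v) = v - ρ x v := by
        rw [map_sub, ← rho_mul, mul_inv_cancel, rho_one]
      rw [← (ρ x).norm_map, h2, norm_sub_rev]
    rw [e]
    exact h1 H ρ v

/-- Spectral gap from property (T). -/
theorem gap (hG : IsKazhdan G) {S : Type} [Fintype S] (σ : S → G)
    (hσ : Subgroup.closure (Set.range σ) = ⊤) :
    ∃ κ : ℝ, 0 < κ ∧ ∀ (H : Type) [NormedAddCommGroup H] [InnerProductSpace ℂ H] [CompleteSpace H]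
      (ρ : G →* (H ≃ₗᵢ[ℂ] H)) (v : H), v ∈ (invS ρ)ᗮ →
        κ * ‖v‖ ^ 2 ≤ ∑ s, ‖ρ (σ s) v - v‖ ^ 2 := by
  classical
  obtain ⟨F, ε, hε, hT⟩ := hG
  choose M hM0 hM using word_bound σ hσ
  set N : ℝ := 1 + ∑ a ∈ F, M a with hN
  have hN1 : 0 < N := by
    have : 0 ≤ ∑ a ∈ F, M a := Finset.sum_nonneg fun a _ => hM0 a
    linarith
  refine ⟨(ε / N) ^ 2 / (Fintype.card S + 1), by positivity, ?_⟩
  intro H _ _ _ ρ v hv
  have hc : (0 : ℝ) < Fintype.card S + 1 := by positivity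
  rw [div_mul_eq_mul_div, div_le_iff₀ hc]
  have key : ε / N * ‖v‖ ≤ ∑ s, ‖ρ (σ s) v - v‖ := by
    by_contra hcon
    have hcon' := not_le.1 hcon
    have hv0 : v ≠ 0 := by
      rintro rfl
      have : (0 : ℝ) ≤ ∑ s, ‖ρ (σ s) (0 : H) - 0‖ := Finset.sum_nonneg fun _ _ => norm_nonneg _
      simp only [norm_zero, mul_zero] at hcon'
      linarith
    have h1 : ∃ w : (invS ρ)ᗮ, w ≠ 0 ∧ ∀ a, orthRep ρ a w = w := by
      apply hT ((invS ρ)ᗮ : Submodule ℂ H) (orthRep ρ)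
      refine ⟨⟨v, hv⟩, ?_, ?_⟩
      · intro h
        exact hv0 (congrArg Subtype.val h)
      · intro a ha
        show ‖ρ a v - v‖ ≤ ε * ‖v‖
        have h2 := hM a H ρ v
        have h3 : M a ≤ N := by
          have := Finset.single_le_sum (f := M) (fun a _ => hM0 a) ha
          linarith
        have h4 : (0 : ℝ) ≤ ∑ s, ‖ρ (σ s) v - v‖ := Finset.sum_nonneg fun _ _ => norm_nonneg _
        calc ‖ρ a v - v‖ ≤ M a * ∑ s, ‖ρ (σ s) v - v‖ := h2
          _ ≤ N * ∑ s, ‖ρ (σ s) v - v‖ := mul_le_mul_of_nonneg_right h3 h4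
          _ ≤ N * (ε / N * ‖v‖) := mul_le_mul_of_nonneg_left hcon'.le hN1.le
          _ = ε * ‖v‖ := by
            field_simp
    obtain ⟨w, hw0, hw⟩ := h1
    apply hw0
    have h5 : (w : H) ∈ invS ρ := by
      intro a
      exact congrArg Subtype.val (hw a)
    have h6 : inner ℂ (w : H) (w : H) = 0 := (Submodule.mem_orthogonal _ _).1 w.2 _ h5
    have h7 : (w : H) = 0 := inner_self_eq_zero.1 h6
    exact Subtype.ext h7
  have h1 : (ε / N * ‖v‖) ^ 2 ≤ (∑ s, ‖ρ (σ s) v - v‖) ^ 2 := by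
    have : 0 ≤ ε / N * ‖v‖ := by positivity
    exact pow_le_pow_left₀ this key 2
  have h2 : (∑ s, ‖ρ (σ s) v - v‖) ^ 2 ≤
      (Finset.univ : Finset S).card * ∑ s, ‖ρ (σ s) v - v‖ ^ 2 := sq_sum_le_card_mul_sum_sq
  rw [Finset.card_univ] at h2
  have h3 : (0 : ℝ) ≤ ∑ s, ‖ρ (σ s) v - v‖ ^ 2 := Finset.sum_nonneg fun _ _ => sq_nonneg _
  calc (ε / N) ^ 2 * ‖v‖ ^ 2 = (ε / N * ‖v‖) ^ 2 := by ring
    _ ≤ (Fintype.card S : ℝ) * ∑ s, ‖ρ (σ s) v - v‖ ^ 2 := h1.trans h2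
    _ ≤ (∑ s, ‖ρ (σ s) v - v‖ ^ 2) * (Fintype.card S + 1) := by nlinarith

end Pool.Agent.H51K
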