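import Pool.Agent.H51K.KazGNS

/-!
The averaging operator on almost unitary orbits along an ultrafilter.
-/

set_option autoImplicit false
open Filter Topology

namespace Pool.Agent.H51K

section Rep

variable {G : Type} [Group G]
variable {W : ℕ → Type} [∀ n, NormedAddCommGroup (W n)] [∀ n, InnerProductSpace ℂ (W n)]

/-- the sequence `y` is represented by `f` -/
def Rep (𝒰 : Ultrafilter ℕ) (A : ∀ n, G → (W n ≃ₗᵢ[ℂ] W n)) (x y : ∀ n, W n) (f : G →₀ ℂ) :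
    Prop := Tendsto (fun n => ‖y n - orb A x n f‖) 𝒰 (𝓝 0)

variable {𝒰 : Ultrafilter ℕ} {A : ∀ n, G → (W n ≃ₗᵢ[ℂ] W n)} {x : ∀ n, W n}

omit [Group G] in
theorem Rep.add {y y' : ∀ n, W n} {f f' : G →₀ ℂ} (h : Rep 𝒰 A x y f) (h' : Rep 𝒰 A x y' f') :
    Rep 𝒰 A x (fun n => y n + y' n) (f + f') := by
  refine squeeze_zero (fun _ => norm_nonneg _) (fun n => ?_) (by simpa using Tendsto.add h h')
  have e : y n + y' n - orb A x n (f + f') = (y n - orb A x n f) + (y' n - orb A x n f') := by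
    rw [map_add]
    abel
  rw [e]
  exact norm_add_le _ _

omit [Group G] in
theorem Rep.smul {y : ∀ n, W n} {f : G →₀ ℂ} (c : ℂ) (h : Rep 𝒰 A x y f) :
    Rep 𝒰 A x (fun n => c • y n) (c • f) := by
  have := Tendsto.const_mul ‖c‖ h
  rw [mul_zero] at this
  refine this.congr fun n => ?_
  rw [map_smul, ← smul_sub, norm_smul]

omit [Group G] in
theorem Rep.sub {y y' : ∀ n, W n} {f f' : G →₀ ℂ} (h : Rep 𝒰 A x y f) (h' : Rep 𝒰 A x y' f') :
    Rep 𝒰 A x (fun n => y n - y' n) (f - f') := by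
  have h1 := h.add (h'.smul (-1))
  simpa only [neg_smul, one_smul, ← sub_eq_add_neg] using h1

omit [Group G] in
theorem Rep.sum {S : Type} (t : Finset S) {y : S → ∀ n, W n} {f : S → G →₀ ℂ}
    (h : ∀ s, Rep 𝒰 A x (y s) (f s)) :
    Rep 𝒰 A x (fun n => ∑ s ∈ t, y s n) (∑ s ∈ t, f s) := by
  classical
  induction t using Finset.induction_on with
  | empty =>
    simp only [Finset.sum_empty]
    unfold Rep
    simp
  | insert s t hs ih =>
    simp only [Finset.sum_insert hs]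
    exact (h s).add ih

theorem Rep.act (hA : ∀ a b, Tendsto (fun n => ‖A n (a * b) (x n) - A n a (A n b (x n))‖) 𝒰 (𝓝 0))
    {y : ∀ n, W n} {f : G →₀ ℂ} (h : G) (hy : Rep 𝒰 A x y f) :
    Rep 𝒰 A x (fun n => A n h (y n)) (tr h f) := by
  have h1 := orb_tr 𝒰 A x hA h f
  refine squeeze_zero (fun _ => norm_nonneg _) (fun n => ?_) (by simpa using Tendsto.add hy h1)
  have e : A n h (y n) - orb A x n (tr h f) =
      A n h (y n - orb A x n f) - (orb A x n (tr h f) - A n h (orb A x n f)) := by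
    rw [map_sub]
    abel
  rw [e]
  refine (norm_sub_le _ _).trans ?_
  rw [(A n h).norm_map]

theorem Rep.base (hA : ∀ a b, Tendsto (fun n => ‖A n (a * b) (x n) - A n a (A n b (x n))‖) 𝒰 (𝓝 0)) :
    Rep 𝒰 A x x (Finsupp.single 1 1) := by
  refine (hA 1 1).congr fun n => ?_
  rw [orb_single, one_smul, mul_one, ← map_sub, (A n 1).norm_map]

theorem Rep.step (hA : ∀ a b, Tendsto (fun n => ‖A n (a * b) (x n) - A n a (A n b (x n))‖) 𝒰 (𝓝 0))
    {H : Type} [NormedAddCommGroup H] [InnerProductSpace ℂ H] (ρ : G →* (H ≃ₗᵢ[ℂ] H))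
    (e : (G →₀ ℂ) →ₗ[ℂ] H) (he : ∀ h f, ρ h (e f) = e (tr h f)) {S : Type} [Fintype S] (σ : S → G)
    (k : ℕ) :
    ∃ f : G →₀ ℂ, Rep 𝒰 A x (fun n => (TT fun s => A n (σ s))^[k] (x n)) f ∧
      e f = (TT fun s => ρ (σ s))^[k] (e (Finsupp.single 1 1)) := by
  induction k with
  | zero => exact ⟨Finsupp.single 1 1, Rep.base hA, rfl⟩
  | succ k ih =>
    obtain ⟨f, h1, h2⟩ := ih
    refine ⟨((2 * Fintype.card S : ℂ))⁻¹ • ∑ s, (f + tr (σ s) f), ?_, ?_⟩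
    · simp only [Function.iterate_succ_apply']
      exact (Rep.sum Finset.univ fun s => h1.add (h1.act hA (σ s))).smul _
    · rw [Function.iterate_succ_apply', ← h2, map_smul, map_sum]
      unfold TT
      congr 1
      refine Finset.sum_congr rfl fun s _ => ?_
      rw [map_add, he]

omit [Group G] in
theorem Rep.norm {H : Type} [NormedAddCommGroup H] {e : (G →₀ ℂ) → H}
    (hnorm : ∀ f, Tendsto (fun n => ‖orb A x n f‖) 𝒰 (𝓝 ‖e f‖)) {y : ∀ n, W n} {f : G →₀ ℂ}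
    (hy : Rep 𝒰 A x y f) : Tendsto (fun n => ‖y n‖) 𝒰 (𝓝 ‖e f‖) := by
  have h2 : Tendsto (fun n => ‖y n‖ - ‖orb A x n f‖) 𝒰 (𝓝 0) :=
    squeeze_zero_norm (fun n => abs_norm_sub_norm_le _ _) hy
  have h3 := h2.add (hnorm f)
  rw [zero_add] at h3
  exact h3.congr fun n => by ring

end Rep

/-- The Hilbert space form of PART 3. -/
theorem hilb_main {G : Type} [Group G] (hG : IsKazhdan G) {S : Type} [Fintype S]
    (hS : 0 < Fintype.card S) (σ : S → G) (hσ : Subgroup.closure (Set.range σ) = ⊤) :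
    ∃ C : ℝ, 0 < C ∧ ∀ ε : ℝ, 0 < ε → ∃ k : ℕ, ∀ (𝒰 : Ultrafilter ℕ) (W : ℕ → Type)
      [∀ n, NormedAddCommGroup (W n)] [∀ n, InnerProductSpace ℂ (W n)]
      (A : ∀ n, G → (W n ≃ₗᵢ[ℂ] W n)) (x : ∀ n, W n), (∀ n, ‖x n‖ ≤ 1) →
      (∀ a b, Tendsto (fun n => ‖A n (a * b) (x n) - A n a (A n b (x n))‖) 𝒰 (𝓝 0)) →
      ∀ᶠ n in (𝒰 : Filter ℕ),
        (∑ s, ‖A n (σ s) ((TT fun s => A n (σ s))^[k] (x n)) -
          (TT fun s => A n (σ s))^[k] (x n)‖ ^ 2 ≤ ε) ∧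
        (‖x n - (TT fun s => A n (σ s))^[k] (x n)‖ ^ 2 ≤
          C * ∑ s, ‖A n (σ s) (x n) - x n‖ ^ 2 + ε) := by
  obtain ⟨κ0, hκ0, hgap0⟩ := gap hG σ hσ
  have hc : (0 : ℝ) < Fintype.card S := by exact_mod_cast hS
  set κ : ℝ := min κ0 (Fintype.card S) with hκdef
  have hκ : 0 < κ := lt_min hκ0 hc
  have hκ1 : κ ≤ Fintype.card S := min_le_right _ _
  have hκ4 : κ ≤ 4 * Fintype.card S := by linarith
  have hq0 : 0 ≤ 1 - κ / (4 * Fintype.card S) := by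
    rw [sub_nonneg, div_le_one (by positivity)]
    exact hκ4
  have hq1 : 1 - κ / (4 * Fintype.card S) < 1 := by
    have : 0 < κ / (4 * Fintype.card S) := by positivity
    linarith
  refine ⟨4 / κ, by positivity, fun ε hε => ?_⟩
  have hlim : Tendsto (fun k : ℕ => 4 * (Fintype.card S : ℝ) *
      (1 - κ / (4 * Fintype.card S)) ^ k) atTop (𝓝 0) := by
    have := (tendsto_pow_atTop_nhds_zero_of_lt_one hq0 hq1).const_mul (4 * (Fintype.card S : ℝ))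
    rwa [mul_zero] at this
  obtain ⟨k, hk⟩ := (hlim.eventually (gt_mem_nhds hε)).exists
  refine ⟨k, ?_⟩
  intro 𝒰 W _ _ A x hx hA
  obtain ⟨H, i1, i2, i3, ρ, e, he, hnorm⟩ := gns 𝒰 A x hx hA
  have hgap : ∀ v ∈ (invS ρ)ᗮ, κ * ‖v‖ ^ 2 ≤ ∑ s, ‖ρ (σ s) v - v‖ ^ 2 := by
    intro v hv
    refine le_trans ?_ (hgap0 H ρ v hv)
    exact mul_le_mul_of_nonneg_right (min_le_left _ _) (sq_nonneg _)
  set ξ : H := e (Finsupp.single 1 1) with hξ
  obtain ⟨hb1, hb2⟩ := iter_bounds ρ σ hS hκ hκ4 hgap ξ k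
  have hξ1 : ‖ξ‖ ≤ 1 := by
    have h1 := Rep.norm hnorm (Rep.base hA)
    exact le_of_tendsto' h1 hx
  obtain ⟨f, hf1, hf2⟩ := Rep.step hA ρ e he σ k
  -- first inequality
  have t1 : Tendsto (fun n => ∑ s, ‖A n (σ s) ((TT fun s => A n (σ s))^[k] (x n)) -
      (TT fun s => A n (σ s))^[k] (x n)‖ ^ 2) 𝒰
      (𝓝 (∑ s, ‖ρ (σ s) ((TT fun s => ρ (σ s))^[k] ξ) - (TT fun s => ρ (σ s))^[k] ξ‖ ^ 2)) := by
    refine tendsto_finsetSum _ fun s _ => ?_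
    have h1 := Rep.norm hnorm ((hf1.act hA (σ s)).sub hf1)
    rw [map_sub, ← he, hf2] at h1
    exact h1.pow 2
  have t2 : Tendsto (fun n => ‖x n - (TT fun s => A n (σ s))^[k] (x n)‖ ^ 2) 𝒰
      (𝓝 (‖ξ - (TT fun s => ρ (σ s))^[k] ξ‖ ^ 2)) := by
    have h1 := Rep.norm hnorm ((Rep.base hA).sub hf1)
    rw [map_sub, hf2] at h1
    exact h1.pow 2
  have t3 : Tendsto (fun n => 4 / κ * ∑ s, ‖A n (σ s) (x n) - x n‖ ^ 2) 𝒰
      (𝓝 (4 / κ * ∑ s, ‖ρ (σ s) ξ - ξ‖ ^ 2)) := by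
    refine Tendsto.const_mul _ (tendsto_finsetSum _ fun s _ => ?_)
    have h1 := Rep.norm hnorm (((Rep.base hA).act hA (σ s)).sub (Rep.base hA))
    rw [map_sub, ← he] at h1
    exact h1.pow 2
  have hlt : ∑ s, ‖ρ (σ s) ((TT fun s => ρ (σ s))^[k] ξ) - (TT fun s => ρ (σ s))^[k] ξ‖ ^ 2 < ε := by
    refine lt_of_le_of_lt hb1 ?_
    have h1 : ‖ξ‖ ^ 2 ≤ 1 := pow_le_one₀ (norm_nonneg _) hξ1
    have h2 : (0 : ℝ) ≤ 4 * Fintype.card S * (1 - κ / (4 * Fintype.card S)) ^ k := by positivity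
    have h3 := mul_le_mul_of_nonneg_left h1 h2
    rw [mul_one] at h3
    exact lt_of_le_of_lt h3 hk
  have e1 := t1.eventually (gt_mem_nhds hlt)
  have e2 : ∀ᶠ n in (𝒰 : Filter ℕ), ‖x n - (TT fun s => A n (σ s))^[k] (x n)‖ ^ 2 -
      4 / κ * ∑ s, ‖A n (σ s) (x n) - x n‖ ^ 2 < ε := by
    refine (t2.sub t3).eventually (gt_mem_nhds ?_)
    linarith
  filter_upwards [e1, e2] with n h1 h2
  exact ⟨h1.le, by linarith⟩

end Pool.Agent.H51K
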