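import Pool.Agent.H51K.KazGap

/-!
The lazy averaging operator and its iterates.
-/

set_option autoImplicit false
open Filter Topology

namespace Pool.Agent.H51K

section TT

variable {W : Type} [NormedAddCommGroup W] [InnerProductSpace ℂ W] {S : Type} [Fintype S]

/-- lazy averaging operator -/
noncomputable def TT (A : S → (W ≃ₗᵢ[ℂ] W)) (x : W) : W :=
  ((2 * Fintype.card S : ℂ))⁻¹ • ∑ s, (x + A s x)

theorem TT_add (A : S → (W ≃ₗᵢ[ℂ] W)) (x y : W) : TT A (x + y) = TT A x + TT A y := by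
  unfold TT
  rw [← smul_add, ← Finset.sum_add_distrib]
  congr 1
  refine Finset.sum_congr rfl fun s _ => ?_
  rw [map_add]
  abel

theorem TT_fix (A : S → (W ≃ₗᵢ[ℂ] W)) (hS : 0 < Fintype.card S) (x : W) (hx : ∀ s, A s x = x) :
    TT A x = x := by
  unfold TT
  have h1 : ∑ s, (x + A s x) = (2 * Fintype.card S : ℂ) • x := by
    have : ∀ s : S, x + A s x = (2 : ℂ) • x := by
      intro s
      rw [hx s, two_smul]
    rw [Finset.sum_congr rfl fun s _ => this s, Finset.sum_const, Finset.card_univ,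
      ← Nat.cast_smul_eq_nsmul ℂ, smul_smul, mul_comm]
  rw [h1, smul_smul, inv_mul_cancel₀, one_smul]
  have : (Fintype.card S : ℂ) ≠ 0 := by exact_mod_cast hS.ne'
  exact mul_ne_zero two_ne_zero this

theorem TT_norm_sq (A : S → (W ≃ₗᵢ[ℂ] W)) (hS : 0 < Fintype.card S) (x : W) :
    ‖TT A x‖ ^ 2 ≤ ‖x‖ ^ 2 - 1 / (4 * Fintype.card S) * ∑ s, ‖A s x - x‖ ^ 2 := by
  unfold TT
  have hc : (0 : ℝ) < Fintype.card S := by exact_mod_cast hS
  have h0 : ‖((2 * Fintype.card S : ℂ))⁻¹‖ = (2 * (Fintype.card S : ℝ))⁻¹ := by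
    rw [norm_inv, norm_mul, Complex.norm_natCast]
    simp
  rw [norm_smul, h0, mul_pow]
  have h1 : ‖∑ s, (x + A s x)‖ ^ 2 ≤ (∑ s, ‖x + A s x‖) ^ 2 :=
    pow_le_pow_left₀ (norm_nonneg _) (norm_sum_le _ _) 2
  have h2 : (∑ s, ‖x + A s x‖) ^ 2 ≤
      (Finset.univ : Finset S).card * ∑ s, ‖x + A s x‖ ^ 2 := sq_sum_le_card_mul_sum_sq
  rw [Finset.card_univ] at h2
  have h3 : ∀ s, ‖x + A s x‖ ^ 2 = 4 * ‖x‖ ^ 2 - ‖A s x - x‖ ^ 2 := by
    intro s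
    have h4 := parallelogram_law_with_norm ℂ x (A s x)
    rw [(A s).norm_map, norm_sub_rev] at h4
    nlinarith
  rw [Finset.sum_congr rfl fun s _ => h3 s, Finset.sum_sub_distrib, Finset.sum_const,
    Finset.card_univ, nsmul_eq_mul] at h2
  have h5 := h1.trans h2
  have h6 : ((2 * (Fintype.card S : ℝ))⁻¹) ^ 2 * ‖∑ s, (x + A s x)‖ ^ 2 ≤
      ((2 * (Fintype.card S : ℝ))⁻¹) ^ 2 *
        ((Fintype.card S : ℝ) * ((Fintype.card S : ℝ) * (4 * ‖x‖ ^ 2) -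
          ∑ s, ‖A s x - x‖ ^ 2)) := mul_le_mul_of_nonneg_left h5 (by positivity)
  refine h6.trans (le_of_eq ?_)
  field_simp
  ring

end TT

section Iter

variable {G : Type} [Group G] {H : Type} [NormedAddCommGroup H] [InnerProductSpace ℂ H]
  [CompleteSpace H] {S : Type} [Fintype S]

omit [CompleteSpace H] in
theorem TT_mem (ρ : G →* (H ≃ₗᵢ[ℂ] H)) (σ : S → G) {z : H} (hz : z ∈ (invS ρ)ᗮ) :
    TT (fun s => ρ (σ s)) z ∈ (invS ρ)ᗮ := by
  unfold TT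
  apply Submodule.smul_mem
  apply Submodule.sum_mem
  intro s _
  exact Submodule.add_mem _ hz (rho_mem_orth ρ _ hz)

theorem iter_bounds (ρ : G →* (H ≃ₗᵢ[ℂ] H)) (σ : S → G) (hS : 0 < Fintype.card S) {κ : ℝ}
    (hκ : 0 < κ) (hκ4 : κ ≤ 4 * Fintype.card S)
    (hgap : ∀ v ∈ (invS ρ)ᗮ, κ * ‖v‖ ^ 2 ≤ ∑ s, ‖ρ (σ s) v - v‖ ^ 2) (ξ : H) (k : ℕ) :
    ∑ s, ‖ρ (σ s) ((TT fun s => ρ (σ s))^[k] ξ) - (TT fun s => ρ (σ s))^[k] ξ‖ ^ 2 ≤
      4 * Fintype.card S * (1 - κ / (4 * Fintype.card S)) ^ k * ‖ξ‖ ^ 2 ∧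
    ‖ξ - (TT fun s => ρ (σ s))^[k] ξ‖ ^ 2 ≤ 4 / κ * ∑ s, ‖ρ (σ s) ξ - ξ‖ ^ 2 := by
  have hc : (0 : ℝ) < Fintype.card S := by exact_mod_cast hS
  have hq : 0 ≤ 1 - κ / (4 * Fintype.card S) := by
    rw [sub_nonneg, div_le_one (by positivity)]
    exact hκ4
  have hq1 : 1 - κ / (4 * Fintype.card S) ≤ 1 := by
    have : 0 ≤ κ / (4 * Fintype.card S) := by positivity
    linarith
  set q : ℝ := 1 - κ / (4 * Fintype.card S) with hqdef
  have hcomp : CompleteSpace (invS ρ) := (isClosed_invS ρ).completeSpace_coe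
  obtain ⟨p, hp, z, hz, hξ⟩ := Submodule.exists_add_mem_mem_orthogonal (K := invS ρ) ξ
  have hnorm : ‖z‖ ≤ ‖ξ‖ := by
    have h1 : inner ℂ p z = 0 := (Submodule.mem_orthogonal _ _).1 hz p hp
    have h2 := norm_add_sq_eq_norm_sq_add_norm_sq_of_inner_eq_zero p z h1
    rw [← hξ] at h2
    nlinarith [norm_nonneg z, norm_nonneg ξ, mul_self_nonneg ‖p‖]
  have hiter : ∀ k, (TT fun s => ρ (σ s))^[k] z ∈ (invS ρ)ᗮ ∧
      ‖(TT fun s => ρ (σ s))^[k] z‖ ^ 2 ≤ q ^ k * ‖z‖ ^ 2 := by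
    intro k
    induction k with
    | zero => simpa using hz
    | succ k ih =>
      obtain ⟨h1, h2⟩ := ih
      rw [Function.iterate_succ_apply']
      refine ⟨TT_mem ρ σ h1, ?_⟩
      have h3 := TT_norm_sq (fun s => ρ (σ s)) hS ((TT fun s => ρ (σ s))^[k] z)
      have h4 := hgap _ h1
      have h5 : 1 / (4 * (Fintype.card S : ℝ)) * (κ * ‖(TT fun s => ρ (σ s))^[k] z‖ ^ 2) ≤
          1 / (4 * (Fintype.card S : ℝ)) *
          ∑ s, ‖ρ (σ s) ((TT fun s => ρ (σ s))^[k] z) - (TT fun s => ρ (σ s))^[k] z‖ ^ 2 :=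
        mul_le_mul_of_nonneg_left h4 (by positivity)
      calc ‖TT (fun s => ρ (σ s)) ((TT fun s => ρ (σ s))^[k] z)‖ ^ 2
          ≤ ‖(TT fun s => ρ (σ s))^[k] z‖ ^ 2 -
            1 / (4 * (Fintype.card S : ℝ)) * (κ * ‖(TT fun s => ρ (σ s))^[k] z‖ ^ 2) := by
              linarith
        _ = q * ‖(TT fun s => ρ (σ s))^[k] z‖ ^ 2 := by
              rw [hqdef]
              field_simp
        _ ≤ q * (q ^ k * ‖z‖ ^ 2) := mul_le_mul_of_nonneg_left h2 hq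
        _ = q ^ (k + 1) * ‖z‖ ^ 2 := by ring
  have hfix : ∀ k, (TT fun s => ρ (σ s))^[k] ξ = p + (TT fun s => ρ (σ s))^[k] z := by
    intro k
    induction k with
    | zero => simpa using hξ
    | succ k ih =>
      rw [Function.iterate_succ_apply', ih, TT_add, Function.iterate_succ_apply',
        TT_fix _ hS p fun s => hp (σ s)]
  set zk := (TT fun s => ρ (σ s))^[k] z with hzk
  obtain ⟨hzk1, hzk2⟩ := hiter k
  rw [← hzk] at hzk1 hzk2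
  have hpk : q ^ k ≤ 1 := pow_le_one₀ hq hq1
  have hpk0 : 0 ≤ q ^ k := pow_nonneg hq k
  constructor
  · rw [hfix k]
    have h1 : ∀ s, ‖ρ (σ s) (p + zk) - (p + zk)‖ ^ 2 ≤ 4 * (q ^ k * ‖ξ‖ ^ 2) := by
      intro s
      have e : ρ (σ s) (p + zk) - (p + zk) = ρ (σ s) zk - zk := by
        rw [map_add, hp (σ s)]
        abel
      rw [e]
      have h2 : ‖ρ (σ s) zk - zk‖ ≤ 2 * ‖zk‖ := by
        have := norm_sub_le (ρ (σ s) zk) zk
        rw [(ρ (σ s)).norm_map] at this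
        linarith
      have h3 : ‖ρ (σ s) zk - zk‖ ^ 2 ≤ (2 * ‖zk‖) ^ 2 := pow_le_pow_left₀ (norm_nonneg _) h2 2
      have h4 : q ^ k * ‖z‖ ^ 2 ≤ q ^ k * ‖ξ‖ ^ 2 :=
        mul_le_mul_of_nonneg_left (pow_le_pow_left₀ (norm_nonneg _) hnorm 2) hpk0
      nlinarith
    calc ∑ s, ‖ρ (σ s) (p + zk) - (p + zk)‖ ^ 2 ≤ ∑ _s : S, 4 * (q ^ k * ‖ξ‖ ^ 2) :=
          Finset.sum_le_sum fun s _ => h1 s
      _ = 4 * Fintype.card S * q ^ k * ‖ξ‖ ^ 2 := by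
          rw [Finset.sum_const, Finset.card_univ, nsmul_eq_mul]
          ring
  · rw [hfix k]
    have e : ξ - (p + zk) = z - zk := by
      rw [hξ]
      abel
    rw [e]
    have h1 : ‖zk‖ ≤ ‖z‖ := by
      have h2 : ‖zk‖ ^ 2 ≤ ‖z‖ ^ 2 := by
        refine hzk2.trans ?_
        have := mul_le_mul_of_nonneg_right hpk (sq_nonneg ‖z‖)
        linarith
      exact (pow_le_pow_iff_left₀ (norm_nonneg _) (norm_nonneg _) two_ne_zero).1 h2
    have h3 : ‖z - zk‖ ≤ 2 * ‖z‖ := by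
      have := norm_sub_le z zk
      linarith
    have h4 : ‖z - zk‖ ^ 2 ≤ (2 * ‖z‖) ^ 2 := pow_le_pow_left₀ (norm_nonneg _) h3 2
    have h5 := hgap z hz
    have h6 : ∀ s, ρ (σ s) ξ - ξ = ρ (σ s) z - z := by
      intro s
      rw [hξ, map_add, hp (σ s)]
      abel
    simp only [h6]
    have h7 : 4 / κ * (κ * ‖z‖ ^ 2) ≤ 4 / κ * ∑ s, ‖ρ (σ s) z - z‖ ^ 2 :=
      mul_le_mul_of_nonneg_left h5 (by positivity)
    have h8 : 4 / κ * (κ * ‖z‖ ^ 2) = (2 * ‖z‖) ^ 2 := by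
      field_simp
      ring
    linarith

end Iter

end Pool.Agent.H51K
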