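import Pool.Agent.H51K.KazHilb

/-!
Weighted families of matrices as vectors of a Euclidean space; proof of PART 3.
-/

set_option autoImplicit false
open Matrix Filter Topology
open scoped ComplexOrder MatrixOrder

namespace Pool.Agent.H51K

section Conj

variable {d : ℕ}

theorem hs_mul_unitary_left {u : Matrix (Fin d) (Fin d) ℂ} (hu : u ∈ Matrix.unitaryGroup (Fin d) ℂ)
    (y : Matrix (Fin d) (Fin d) ℂ) : hs (u * y) = hs y := by
  have h : uᴴ * u = 1 := Matrix.mem_unitaryGroup_iff'.1 hu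
  unfold hs
  rw [Matrix.conjTranspose_mul]
  have e : yᴴ * uᴴ * (u * y) = yᴴ * (uᴴ * u) * y := by
    simp only [Matrix.mul_assoc]
  rw [e, h, Matrix.mul_one]

theorem star_mem {u : Matrix (Fin d) (Fin d) ℂ} (hu : u ∈ Matrix.unitaryGroup (Fin d) ℂ) :
    uᴴ ∈ Matrix.unitaryGroup (Fin d) ℂ := by
  rw [Matrix.mem_unitaryGroup_iff]
  show uᴴ * uᴴᴴ = 1
  rw [Matrix.conjTranspose_conjTranspose]
  exact Matrix.mem_unitaryGroup_iff'.1 hu

theorem hs_mul_unitary_right {u : Matrix (Fin d) (Fin d) ℂ}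
    (hu : u ∈ Matrix.unitaryGroup (Fin d) ℂ) (y : Matrix (Fin d) (Fin d) ℂ) :
    hs (y * u) = hs y := by
  rw [← hs_conjTranspose (y * u), Matrix.conjTranspose_mul, hs_mul_unitary_left (star_mem hu),
    hs_conjTranspose]

theorem kaz_hs_conj_unitary {u : Matrix (Fin d) (Fin d) ℂ} (hu : u ∈ Matrix.unitaryGroup (Fin d) ℂ)
    (y : Matrix (Fin d) (Fin d) ℂ) : hs (u * y * uᴴ) = hs y := by
  rw [hs_mul_unitary_right (star_mem hu), hs_mul_unitary_left hu]

theorem hs_comm_unitary {u : Matrix (Fin d) (Fin d) ℂ} (hu : u ∈ Matrix.unitaryGroup (Fin d) ℂ)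
    (y : Matrix (Fin d) (Fin d) ℂ) : hs (u * y * uᴴ - y) = hs (u * y - y * u) := by
  rw [← hs_mul_unitary_right hu (u * y * uᴴ - y)]
  congr 1
  have h : uᴴ * u = 1 := Matrix.mem_unitaryGroup_iff'.1 hu
  rw [Matrix.sub_mul, Matrix.mul_assoc (u * y), h, Matrix.mul_one]

theorem sum_hs_conj_sub_le {L : ℕ} (w : Fin L → ℝ) (c : Fin L → Matrix (Fin d) (Fin d) ℂ)
    (hw : ∀ i, 0 ≤ w i)
    (h1 : ∑ i, w i • (c i * (c i)ᴴ) ≤ (1 : Matrix (Fin d) (Fin d) ℂ))
    (h2 : ∑ i, w i • ((c i)ᴴ * c i) ≤ (1 : Matrix (Fin d) (Fin d) ℂ))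
    {V V' : Matrix (Fin d) (Fin d) ℂ} (hV : V ∈ Matrix.unitaryGroup (Fin d) ℂ)
    (hV' : V' ∈ Matrix.unitaryGroup (Fin d) ℂ) :
    ∑ i, w i * hs (V * c i * Vᴴ - V' * c i * V'ᴴ) ≤ 4 * hs (V - V') := by
  set δ := V - V' with hδ
  have hpsd : (δᴴ * δ).PosSemidef := Matrix.posSemidef_conjTranspose_mul_self _
  have k1 : ∀ i, hs (V * c i * Vᴴ - V' * c i * V'ᴴ) ≤
      2 * rtr (δᴴ * δ * (c i * (c i)ᴴ)) + 2 * rtr (δᴴ * δ * ((c i)ᴴ * c i)) := by
    intro i
    have e : V * c i * Vᴴ - V' * c i * V'ᴴ = δ * c i * Vᴴ + V' * c i * δᴴ := by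
      rw [hδ, Matrix.conjTranspose_sub]
      simp only [Matrix.sub_mul, Matrix.mul_sub]
      abel
    rw [e]
    refine (hs_add_le _ _).trans (le_of_eq ?_)
    have e1 : hs (δ * c i * Vᴴ) = rtr (δᴴ * δ * (c i * (c i)ᴴ)) := by
      rw [hs_mul_unitary_right (star_mem hV)]
      unfold hs
      rw [Matrix.conjTranspose_mul, rtr_mul_comm]
      rw [show δ * c i * ((c i)ᴴ * δᴴ) = δ * ((c i * (c i)ᴴ) * δᴴ) by
        simp only [Matrix.mul_assoc]]
      rw [rtr_mul_comm, rtr_mul_comm (δᴴ * δ)]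
      simp only [Matrix.mul_assoc]
    have e2 : hs (V' * c i * δᴴ) = rtr (δᴴ * δ * ((c i)ᴴ * c i)) := by
      rw [Matrix.mul_assoc, hs_mul_unitary_left hV']
      unfold hs
      rw [Matrix.conjTranspose_mul, Matrix.conjTranspose_conjTranspose]
      rw [show δ * (c i)ᴴ * (c i * δᴴ) = δ * (((c i)ᴴ * c i) * δᴴ) by
        simp only [Matrix.mul_assoc]]
      rw [rtr_mul_comm, rtr_mul_comm (δᴴ * δ)]
      simp only [Matrix.mul_assoc]
    rw [e1, e2]
  have k2 : ∀ M : Fin L → Matrix (Fin d) (Fin d) ℂ,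
      ∑ i, w i * rtr (δᴴ * δ * M i) = rtr (δᴴ * δ * ∑ i, w i • M i) := by
    intro M
    rw [Matrix.mul_sum, rtr_sum]
    refine Finset.sum_congr rfl fun i _ => ?_
    rw [Matrix.mul_smul, rtr_smul]
  calc ∑ i, w i * hs (V * c i * Vᴴ - V' * c i * V'ᴴ)
      ≤ ∑ i, w i * (2 * rtr (δᴴ * δ * (c i * (c i)ᴴ)) + 2 * rtr (δᴴ * δ * ((c i)ᴴ * c i))) :=
        Finset.sum_le_sum fun i _ => mul_le_mul_of_nonneg_left (k1 i) (hw i)
    _ = 2 * ∑ i, w i * rtr (δᴴ * δ * (c i * (c i)ᴴ)) +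
        2 * ∑ i, w i * rtr (δᴴ * δ * ((c i)ᴴ * c i)) := by
        rw [Finset.mul_sum, Finset.mul_sum, ← Finset.sum_add_distrib]
        refine Finset.sum_congr rfl fun i _ => ?_
        ring
    _ ≤ 2 * rtr (δᴴ * δ * 1) + 2 * rtr (δᴴ * δ * 1) := by
        rw [k2, k2]
        have a1 := rtr_mul_mono_right h1 hpsd
        have a2 := rtr_mul_mono_right h2 hpsd
        linarith
    _ = 4 * hs δ := by
        rw [Matrix.mul_one]
        unfold hs
        ring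

end Conj

section Avg

variable {d : ℕ}

theorem avg_of_fintype {ι : Type} [Fintype ι] (α : ι → ℝ) (u : ι → Matrix (Fin d) (Fin d) ℂ)
    (h0 : ∀ i, 0 ≤ α i) (h1 : ∑ i, α i = 1) (hu : ∀ i, u i ∈ Matrix.unitaryGroup (Fin d) ℂ) :
    ∃ Φ : Avg d, ∀ x, Φ.ap x = ∑ i, α i • (u i * x * (u i)ᴴ) := by
  let e := Fintype.equivFin ι
  refine ⟨⟨Fintype.card ι, fun i => α (e.symm i), fun i => u (e.symm i), fun i => h0 _, ?_,
    fun i => hu _⟩, fun x => ?_⟩
  · rw [← h1]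
    exact Equiv.sum_comp e.symm α
  · exact Equiv.sum_comp e.symm fun i => α i • (u i * x * (u i)ᴴ)

variable {S : Type} [Fintype S]

/-- the lazy averaging on matrices -/
noncomputable def Tm (g : S → Matrix (Fin d) (Fin d) ℂ) (y : Matrix (Fin d) (Fin d) ℂ) :
    Matrix (Fin d) (Fin d) ℂ := ((2 * Fintype.card S : ℂ))⁻¹ • ∑ s, (y + g s * y * (g s)ᴴ)

theorem Tm_iter_avg (g : S → Matrix (Fin d) (Fin d) ℂ)
    (hg : ∀ s, g s ∈ Matrix.unitaryGroup (Fin d) ℂ) (hS : 0 < Fintype.card S) (k : ℕ) :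
    ∃ Φ : Avg d, ∀ x, Φ.ap x = (Tm g)^[k] x := by
  induction k with
  | zero =>
    obtain ⟨Φ, hΦ⟩ := avg_of_fintype (d := d) (ι := Unit) (fun _ => 1) (fun _ => 1)
      (fun _ => zero_le_one) (by simp) (fun _ => one_mem _)
    refine ⟨Φ, fun x => ?_⟩
    rw [hΦ]
    simp
  | succ k ih =>
    obtain ⟨Φ, hΦ⟩ := ih
    have hc : (0 : ℝ) < Fintype.card S := by exact_mod_cast hS
    let v : S × Bool → Matrix (Fin d) (Fin d) ℂ := fun p => if p.2 then g p.1 else 1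
    have hv : ∀ p, v p ∈ Matrix.unitaryGroup (Fin d) ℂ := by
      rintro ⟨s, b⟩
      cases b
      · exact one_mem _
      · exact hg s
    obtain ⟨Ψ, hΨ⟩ := avg_of_fintype (d := d) (ι := (S × Bool) × Fin Φ.N)
      (fun p => (2 * (Fintype.card S : ℝ))⁻¹ * Φ.α p.2) (fun p => v p.1 * Φ.u p.2)
      (fun p => mul_nonneg (by positivity) (Φ.nonneg _))
      (by
        rw [Fintype.sum_prod_type]
        simp only [← Finset.mul_sum, Φ.sum_one, mul_one, Finset.sum_const, Finset.card_univ,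
          Fintype.card_prod, Fintype.card_bool, nsmul_eq_mul]
        push_cast
        field_simp)
      (fun p => mul_mem (hv _) (Φ.unitary _))
    refine ⟨Ψ, fun x => ?_⟩
    rw [hΨ, Function.iterate_succ_apply', ← hΦ, Fintype.sum_prod_type]
    have h1 : ∀ p : S × Bool, ∑ i, ((2 * (Fintype.card S : ℝ))⁻¹ * Φ.α i) •
        (v p * Φ.u i * x * (v p * Φ.u i)ᴴ) =
        (2 * (Fintype.card S : ℝ))⁻¹ • (v p * Φ.ap x * (v p)ᴴ) := by
      intro p
      unfold Avg.ap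
      rw [Matrix.mul_sum, Matrix.sum_mul, Finset.smul_sum]
      refine Finset.sum_congr rfl fun i _ => ?_
      rw [Matrix.mul_smul, Matrix.smul_mul, smul_smul, Matrix.conjTranspose_mul]
      simp only [Matrix.mul_assoc]
    rw [Finset.sum_congr rfl fun p _ => h1 p, ← Finset.smul_sum]
    unfold Tm
    have h2 : ∑ p, v p * Φ.ap x * (v p)ᴴ = ∑ s, (Φ.ap x + g s * Φ.ap x * (g s)ᴴ) := by
      rw [Fintype.sum_prod_type]
      refine Finset.sum_congr rfl fun s _ => ?_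
      rw [Fintype.sum_bool]
      simp only [v, if_true, Bool.false_eq_true, if_false, Matrix.one_mul,
        Matrix.conjTranspose_one, Matrix.mul_one]
      exact add_comm _ _
    rw [h2, ← Complex.coe_smul]
    congr 1
    push_cast
    rfl

end Avg

end Pool.Agent.H51K
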