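import Pool.Agent.H51K.SysEx

/-!
OverlapTheorem, part 1: potential step, near-diagonality identity.
-/

set_option autoImplicit false
set_option linter.unusedSectionVars false
open Matrix
open scoped ComplexOrder MatrixOrder

namespace Pool.Agent.H51K.Ov

variable {n : Type} [Fintype n] [DecidableEq n]

theorem sqrt_hs_smul (a : ℝ) (A : Matrix n n ℂ) :
    Real.sqrt (hs (a • A)) = |a| * Real.sqrt (hs A) := by
  rw [hs_smul, Real.sqrt_mul (sq_nonneg a), Real.sqrt_sq_eq_abs]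

theorem sqrt_hs_mul_le {A : Matrix n n ℂ} (hA : Aᴴ * A ≤ 1) (B : Matrix n n ℂ) :
    Real.sqrt (hs (A * B)) ≤ Real.sqrt (hs B) := by
  refine Real.sqrt_le_sqrt ?_
  have := hs_mul_le (κ := 1) (A := A) (by rwa [one_smul]) B
  rwa [one_mul] at this

theorem near_mul {p A M : Matrix n n ℂ} {a c e₁ e₂ : ℝ} (hA : Aᴴ * A ≤ 1) (ha : |a| ≤ 1)
    (hM : Real.sqrt (hs (M - a • p)) ≤ e₁) (hAp : Real.sqrt (hs (A * p - c • p)) ≤ e₂) :
    Real.sqrt (hs (A * M - (c * a) • p)) ≤ e₁ + e₂ := by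
  have e : A * M - (c * a) • p = A * (M - a • p) + a • (A * p - c • p) := by
    rw [Matrix.mul_sub, smul_sub, smul_smul, Matrix.mul_smul, mul_comm c a]
    abel
  rw [e]
  refine (sqrt_hs_add_le _ _).trans ?_
  rw [sqrt_hs_smul]
  have h1 := sqrt_hs_mul_le hA (M - a • p)
  have h2 : |a| * Real.sqrt (hs (A * p - c • p)) ≤ 1 * e₂ :=
    mul_le_mul ha hAp (Real.sqrt_nonneg _) zero_le_one
  linarith

theorem rtr_near {p M : Matrix n n ℂ} {a e : ℝ} (hp : IsProj p)
    (hM : Real.sqrt (hs (M - a • p)) ≤ e) :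
    |rtr (p * M) - a * rtr p| ≤ Real.sqrt (rtr p) * e := by
  have h1 : rtr (p * M) - a * rtr p = ip p (M - a • p) := by
    unfold ip
    rw [hp.1, Matrix.mul_sub, Matrix.mul_smul, hp.2, rtr_sub, rtr_smul]
  rw [h1]
  refine (abs_ip_le _ _).trans ?_
  rw [hp.hs_eq]
  exact mul_le_mul_of_nonneg_left hM (Real.sqrt_nonneg _)

/-- the cubic potential -/
noncomputable def Th (N : Matrix n n ℂ) : ℝ :=
  -4 * rtr (N * (N * N)) + 8 * rtr (N * N) - 5 * rtr N + rtr (1 : Matrix n n ℂ)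

theorem Th_sub {p N N' : Matrix n n ℂ} (hp : IsProj p)
    (h : N - N' = N * p * N') :
    Th N - Th N' = -4 * (rtr (p * (N' * (N * (N * (N * p))))) +
      rtr (p * (N' * (N * (N' * (N * p))))) + rtr (p * (N' * (N' * (N' * (N * p)))))) +
      8 * (rtr (p * (N' * (N * (N * p)))) + rtr (p * (N' * (N' * (N * p))))) -
      5 * rtr (p * (N' * (N * p))) := by
  have hw : ∀ W, rtr ((N - N') * W) = rtr (p * (N' * (W * (N * p)))) := by
    intro W
    rw [h]
    have e1 : N * p * N' * W = (N * p) * (p * (N' * W)) := by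
      rw [← Matrix.mul_assoc, Matrix.mul_assoc N p p, hp.2]
      simp only [Matrix.mul_assoc]
    rw [e1, rtr_mul_comm]
    simp only [Matrix.mul_assoc]
  have h1 := hw (N * N)
  have h2 := hw (N * N')
  have h3 := hw (N' * N')
  have h4 := hw N
  have h5 := hw N'
  have h6 := hw 1
  simp only [Matrix.mul_assoc, Matrix.sub_mul, rtr_sub, Matrix.mul_one, Matrix.one_mul]
    at h1 h2 h3 h4 h5 h6
  have c1 : rtr (N' * (N * N)) = rtr (N * (N * N')) := by
    rw [rtr_mul_comm, Matrix.mul_assoc]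
  have c2 : rtr (N' * (N * N')) = rtr (N * (N' * N')) := by
    rw [rtr_mul_comm, Matrix.mul_assoc]
  have c3 : rtr (N' * N) = rtr (N * N') := rtr_mul_comm _ _
  unfold Th
  linarith

theorem Th_eq (N : Matrix n n ℂ) :
    Th N = rtr (((2 : ℝ) • N - 1) * ((2 : ℝ) • N - 1) * (1 - N)) := by
  have e : ((2 : ℝ) • N - 1) * ((2 : ℝ) • N - 1) * (1 - N) =
      (-4 : ℝ) • (N * (N * N)) + (8 : ℝ) • (N * N) - (5 : ℝ) • N + 1 := by
    have e1 : ((2 : ℝ) • N - 1) * ((2 : ℝ) • N - 1) = (4 : ℝ) • (N * N) - (4 : ℝ) • N + 1 := by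
      rw [Matrix.sub_mul, Matrix.mul_sub, Matrix.one_mul, Matrix.mul_one, Matrix.smul_mul,
        Matrix.mul_smul, smul_smul]
      module
    rw [e1, Matrix.mul_sub, Matrix.mul_one, Matrix.add_mul, Matrix.sub_mul, Matrix.smul_mul,
      Matrix.smul_mul, Matrix.one_mul, Matrix.mul_assoc]
    module
  rw [e, rtr_add, rtr_sub, rtr_add, rtr_smul, rtr_smul, rtr_smul]
  rfl

theorem Th_one : Th (1 : Matrix n n ℂ) = 0 := by
  unfold Th
  simp only [Matrix.mul_one]
  ring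

section
variable {p : ℕ → Matrix n n ℂ} {m : ℕ}

theorem Ns_contr (hp : ∀ j < m, IsProj (p j)) {j : ℕ} (hj : j ≤ m) :
    (Ns p j)ᴴ * Ns p j ≤ 1 := by
  rw [Ns_herm hp hj]
  exact trace_step_aux hp hj

theorem proj_contr {q : Matrix n n ℂ} (hq : IsProj q) : qᴴ * q ≤ 1 := by
  rw [hq.1, hq.2]
  exact hq.le_one

/-- `N' p ≈ c' p` -/
theorem near_N' (hp : ∀ j < m, IsProj (p j)) {j : ℕ} (hj : j < m) {c c' : ℝ} (hc : 0 ≤ c)
    (hc' : (1 + c) * c' = c) :
    Real.sqrt (hs (Ns p (j + 1) * p j - c' • p j)) ≤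
      2 * Real.sqrt (hs (Ns p j * p j - c • p j)) := by
  set N := Ns p j with hN
  set N' := Ns p (j + 1) with hN'
  set E := N * p j - c • p j with hE
  have hpj := hp j hj
  have h1 : N - N' = N' * p j * N := sub_Ns' hp hj
  have h2 : (1 + c) • (N' * p j - c' • p j) = E - N' * (p j * E) := by
    have h3 : N * p j = c • p j + E := by rw [hE]; abel
    have h4 : N' * p j * (N * p j) = c • (N' * p j) + N' * (p j * E) := by
      rw [h3, Matrix.mul_add, Matrix.mul_smul, Matrix.mul_assoc N', hpj.2, Matrix.mul_assoc N']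
    have h5 : N * p j - N' * p j = N' * p j * (N * p j) := by
      rw [← Matrix.sub_mul, h1, Matrix.mul_assoc]
    rw [smul_sub, smul_smul, hc', add_smul, one_smul]
    have h6 : N' * p j = N * p j - N' * p j * (N * p j) := by rw [← h5]; abel
    calc N' * p j + c • (N' * p j) - c • p j
        = (N * p j - N' * p j * (N * p j)) + c • (N' * p j) - c • p j := by rw [← h6]
      _ = (c • p j + E - (c • (N' * p j) + N' * (p j * E))) + c • (N' * p j) - c • p j := by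
          rw [h4, h3]
      _ = _ := by abel
  have h7 : Real.sqrt (hs (E - N' * (p j * E))) ≤ 2 * Real.sqrt (hs E) := by
    refine (sqrt_hs_sub_le _ _).trans ?_
    have a1 := sqrt_hs_mul_le (Ns_contr hp (Nat.succ_le_of_lt hj)) (p j * E)
    have a2 := sqrt_hs_mul_le (proj_contr hpj) E
    change Real.sqrt (hs (N' * (p j * E))) ≤ _ at a1
    linarith
  rw [← h2, sqrt_hs_smul, abs_of_nonneg (by linarith)] at h7
  have h8 : 0 ≤ Real.sqrt (hs (N' * p j - c' • p j)) := Real.sqrt_nonneg _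
  nlinarith

theorem potential_value {o c c' : ℝ} (ho0 : 0 ≤ o) (ho1 : o ≤ 1 / 8) (hc : c = 1 - o)
    (hcc : (1 + c) * c' = c) :
    o / 4 ≤ c * c' * (-4 * (c * c + c * c' + c' * c') + 8 * (c + c') - 5) := by
  have h1 : c * c' = c - c' := by linarith
  have h2 : c * c' * (-4 * (c * c + c * c' + c' * c') + 8 * (c + c') - 5) =
      (1 - c) * (2 * c - 1) ^ 2 - (1 - c') * (2 * c' - 1) ^ 2 := by
    have : c * c' * (-4 * (c * c + c * c' + c' * c') + 8 * (c + c') - 5) =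
      (c - c') * (-4 * (c * c + c * c' + c' * c') + 8 * (c + c') - 5) := by rw [h1]
    rw [this]
    ring
  rw [h2]
  have h3 : (2 * c' - 1) * (1 + c) = -o := by
    have : (2 * c' - 1) * (1 + c) = 2 * ((1 + c) * c') - (1 + c) := by ring
    rw [this, hcc, hc]
    ring
  have hc0 : 7 / 8 ≤ c := by linarith
  have h4 : (2 * c' - 1) ^ 2 ≤ o ^ 2 := by
    have h5 : (2 * c' - 1) ^ 2 * (1 + c) ^ 2 = o ^ 2 := by
      rw [← mul_pow, h3]
      ring
    have h6 : 1 ≤ (1 + c) ^ 2 := by nlinarith only [hc0]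
    have h7 := mul_le_mul_of_nonneg_left h6 (sq_nonneg (2 * c' - 1))
    rw [mul_one] at h7
    linarith
  have h7 : (1 - c') * (2 * c' - 1) ^ 2 ≤ 1 * o ^ 2 := by
    have hc'0 : 0 ≤ c' := by
      by_contra hneg
      push Not at hneg
      nlinarith only [hneg, hcc, hc0]
    exact mul_le_mul (by linarith) h4 (sq_nonneg _) zero_le_one
  have h8 : (1 - c) * (2 * c - 1) ^ 2 = o * (1 - 2 * o) ^ 2 := by rw [hc]; ring
  have h9 : (3 / 4 : ℝ) ^ 2 ≤ (1 - 2 * o) ^ 2 :=
    pow_le_pow_left₀ (by norm_num) (by linarith) 2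
  rw [h8]
  have h10 := mul_le_mul_of_nonneg_left h9 ho0
  have h11 : o ^ 2 ≤ o * (1 / 8) := by
    rw [sq]
    exact mul_le_mul_of_nonneg_left ho1 ho0
  nlinarith only [h10, h11, h7, ho0]

/-- the potential decreases -/
theorem potential_step (hp : ∀ j < m, IsProj (p j)) {j : ℕ} (hj : j < m) {o : ℝ}
    (ho0 : 0 ≤ o) (ho1 : o ≤ 1 / 8) :
    o / 4 * rtr (p j) ≤ Th (Ns p j) - Th (Ns p (j + 1)) +
      212 * (Real.sqrt (rtr (p j)) * Real.sqrt (hs (Ns p j * p j - (1 - o) • p j))) := by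
  set N := Ns p j with hN
  set N' := Ns p (j + 1) with hN'
  set r := rtr (p j) with hr
  have hpj := hp j hj
  have hr0 : 0 ≤ r := rtr_nonneg hpj.psd
  set c := 1 - o with hc
  set c' := c / (1 + c) with hc'
  have hc0 : 0 ≤ c := by linarith
  have hc1 : c ≤ 1 := by linarith
  have hcc : (1 + c) * c' = c := by
    rw [hc']
    field_simp
  have hc'0 : 0 ≤ c' := by positivity
  have hc'1 : c' ≤ 1 := by
    rw [hc', div_le_one (by positivity)]
    linarith
  set β := Real.sqrt (hs (N * p j - c • p j)) with hβ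
  have hβ0 : 0 ≤ β := Real.sqrt_nonneg _
  have nN : Real.sqrt (hs (N * p j - c • p j)) ≤ 2 * β := by rw [← hβ]; linarith
  have nN' : Real.sqrt (hs (N' * p j - c' • p j)) ≤ 2 * β := near_N' hp hj hc0 hcc
  have kN : Nᴴ * N ≤ 1 := Ns_contr hp hj.le
  have kN' : N'ᴴ * N' ≤ 1 := Ns_contr hp (Nat.succ_le_of_lt hj)
  have ab : ∀ x : ℝ, 0 ≤ x → x ≤ 1 → |x| ≤ 1 := fun x h0 h1 => by
    rw [abs_of_nonneg h0]; exact h1
  have mul01 : ∀ x y : ℝ, 0 ≤ x → x ≤ 1 → 0 ≤ y → y ≤ 1 → x * y ≤ 1 := fun x y _ h2 h3 h4 =>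
    mul_le_one₀ h2 h3 h4
  -- words
  have w1 : Real.sqrt (hs (N * p j - c • p j)) ≤ 2 * β := nN
  have w2 := near_mul kN (ab c hc0 hc1) w1 nN
  have w2' := near_mul kN' (ab c hc0 hc1) w1 nN'
  have w3 := near_mul kN (ab _ (by positivity) (mul01 _ _ hc0 hc1 hc0 hc1)) w2 nN
  have w3' := near_mul kN' (ab _ (by positivity) (mul01 _ _ hc0 hc1 hc0 hc1)) w2 nN'
  have w3'' := near_mul kN (ab _ (by positivity) (mul01 _ _ hc'0 hc'1 hc0 hc1)) w2' nN
  have w3''' := near_mul kN' (ab _ (by positivity) (mul01 _ _ hc'0 hc'1 hc0 hc1)) w2' nN'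
  have m2 : 0 ≤ c * c := by positivity
  have m2' : c * c ≤ 1 := mul01 _ _ hc0 hc1 hc0 hc1
  have m3 : 0 ≤ c' * c := by positivity
  have m3' : c' * c ≤ 1 := mul01 _ _ hc'0 hc'1 hc0 hc1
  have w4 := near_mul kN' (ab _ (by positivity) (mul01 _ _ hc0 hc1 m2 m2')) w3 nN'
  have w4' := near_mul kN' (ab _ (by positivity) (mul01 _ _ hc0 hc1 m3 m3')) w3'' nN'
  have w4'' := near_mul kN' (ab _ (by positivity) (mul01 _ _ hc'0 hc'1 m3 m3')) w3''' nN'
  have t1 := abs_le.1 (rtr_near hpj w4)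
  have t2 := abs_le.1 (rtr_near hpj w4')
  have t3 := abs_le.1 (rtr_near hpj w4'')
  have t4 := abs_le.1 (rtr_near hpj w3')
  have t5 := abs_le.1 (rtr_near hpj w3''')
  have t6 := abs_le.1 (rtr_near hpj w2')
  have hT := Th_sub hpj (sub_Ns hp hj)
  rw [← hN, ← hN'] at hT
  rw [hT]
  rw [← hr] at t1 t2 t3 t4 t5 t6
  set s := Real.sqrt r * β with hs'
  have hs0 : 0 ≤ s := by positivity
  have hval : o / 4 ≤ c * c' * (-4 * (c * c + c * c' + c' * c') + 8 * (c + c') - 5) :=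
    potential_value ho0 ho1 hc hcc
  have hval' := mul_le_mul_of_nonneg_right hval hr0
  have e1 : Real.sqrt r * (2 * β + 2 * β + 2 * β + 2 * β) = 8 * s := by rw [hs']; ring
  have e2 : Real.sqrt r * (2 * β + 2 * β + 2 * β) = 6 * s := by rw [hs']; ring
  have e3 : Real.sqrt r * (2 * β + 2 * β) = 4 * s := by rw [hs']; ring
  rw [e1] at t1 t2 t3
  rw [e2] at t4 t5
  rw [e3] at t6
  have k1 := t1.2
  have k2 := t2.2
  have k3 := t3.2
  have k4 := t4.1
  have k5 := t5.1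
  have k6 := t6.2
  have hexp : c * c' * (-4 * (c * c + c * c' + c' * c') + 8 * (c + c') - 5) * r =
      -4 * (c' * (c * (c * c)) * r + c' * (c * (c' * c)) * r + c' * (c' * (c' * c)) * r) +
        8 * (c' * (c * c) * r + c' * (c' * c) * r) - 5 * (c' * c * r) := by ring
  rw [hexp] at hval'
  linarith

end

end Pool.Agent.H51K.Ov
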