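import Pool.Agent.H51K.Ov1

/-!
OverlapTheorem, part 2: near-diagonality, energies, rank of projections.
-/

set_option autoImplicit false
set_option linter.unusedSectionVars false
open Matrix
open scoped ComplexOrder MatrixOrder

namespace Pool.Agent.H51K.Ov

variable {n : Type} [Fintype n] [DecidableEq n]

theorem eig_proj {p : Matrix n n ℂ} (hp : IsProj p) (hH : p.IsHermitian) (i : n) :
    hH.eigenvalues i = 0 ∨ hH.eigenvalues i = 1 := by
  have h1 := hH.mulVec_eigenvectorBasis i
  set v : n → ℂ := ⇑(hH.eigenvectorBasis i) with hv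
  have h2 : p *ᵥ (p *ᵥ v) = p *ᵥ v := by
    rw [Matrix.mulVec_mulVec, hp.2]
  have h3 : (hH.eigenvalues i * hH.eigenvalues i) • v = hH.eigenvalues i • v := by
    rw [h1, Matrix.mulVec_smul, h1, smul_smul] at h2
    exact h2
  have hne : v ≠ 0 := by
    intro h0
    have h4 : ‖hH.eigenvectorBasis i‖ = 1 := hH.eigenvectorBasis.norm_eq_one i
    have h5 : hH.eigenvectorBasis i = 0 := by
      ext k
      have := congrFun h0 k
      simpa [hv] using this
    rw [h5, norm_zero] at h4
    exact zero_ne_one h4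
  have h4 : (hH.eigenvalues i * hH.eigenvalues i - hH.eigenvalues i) • v = 0 := by
    rw [sub_smul, h3, sub_self]
  have h5 := (smul_eq_zero.1 h4).resolve_right hne
  have h6 : hH.eigenvalues i * (hH.eigenvalues i - 1) = 0 := by linarith
  rcases mul_eq_zero.1 h6 with h | h
  · exact Or.inl h
  · exact Or.inr (by linarith)

theorem rank_proj {p : Matrix n n ℂ} (hp : IsProj p) : (p.rank : ℝ) = rtr p := by
  have hH : p.IsHermitian := hp.1
  rw [hH.rank_eq_card_non_zero_eigs, rtr, hH.trace_eq_sum_eigenvalues]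
  rw [Complex.re_sum]
  have h1 : ∀ i, (((hH.eigenvalues i : ℝ) : ℂ)).re = if hH.eigenvalues i ≠ 0 then (1 : ℝ) else 0 := by
    intro i
    rw [Complex.ofReal_re]
    rcases eig_proj hp hH i with h | h
    · simp [h]
    · simp [h]
  have h2 : ∑ i, ((RCLike.ofReal (hH.eigenvalues i) : ℂ)).re =
      ∑ i, if hH.eigenvalues i ≠ 0 then (1 : ℝ) else 0 :=
    Finset.sum_congr rfl fun i _ => h1 i
  rw [h2, Fintype.card_subtype, Finset.sum_boole]

section
variable {p : ℕ → Matrix n n ℂ} {m : ℕ}

theorem yy (hp : ∀ j < m, IsProj (p j)) {j : ℕ} (hj : j < m) :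
    (p j * Ns p j)ᴴ * (p j * Ns p j) = Ns p j * p j * Ns p j := by
  have hpj := hp j hj
  rw [Matrix.conjTranspose_mul, Ns_herm hp hj.le, hpj.1]
  have : Ns p j * p j * (p j * Ns p j) = Ns p j * (p j * p j) * Ns p j := by
    simp only [Matrix.mul_assoc]
  rw [this, hpj.2]

/-- near-diagonality identity -/
theorem near_diag (hp : ∀ j < m, IsProj (p j)) {j : ℕ} (hj : j < m) {c : ℝ}
    (h : rtr (p j * Ns p j) = c * rtr (p j)) :
    rtr ((p j * Ns p j)ᴴ * (p j * Ns p j) * Rs p j) ≤
      (1 - c) * hs (p j * Ns p j) - c * hs (Ns p j * p j - c • p j) := by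
  have hpj := hp j hj
  have hy : hs (p j * Ns p j) = rtr (Ns p j * p j * Ns p j) := by
    unfold hs
    rw [yy hp hj]
  rw [yy hp hj, hy]
  set N := Ns p j with hN
  have hNh : Nᴴ = N := Ns_herm hp hj.le
  set E := N * p j - c • p j with hE
  have hEh : Eᴴ = p j * N - c • p j := by
    rw [hE, Matrix.conjTranspose_sub, Matrix.conjTranspose_mul, hNh, hpj.1,
      Matrix.conjTranspose_smul, hpj.1]
    simp
  set q := p j with hq
  have hqq : q * q = q := hpj.2
  -- traces
  have a0 : rtr (q * (N * q)) = rtr (q * N) := by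
    rw [rtr_mul_comm, Matrix.mul_assoc, hqq, rtr_mul_comm]
  have a1 : rtr (q * (N * (N * q))) = rtr (q * (N * N)) := by
    have : q * (N * (N * q)) = (q * (N * N)) * q := by simp only [Matrix.mul_assoc]
    rw [this, rtr_mul_comm, ← Matrix.mul_assoc, hqq]
  have a2 : rtr (q * (N * (N * (N * q)))) = rtr (q * (N * (N * N))) := by
    have : q * (N * (N * (N * q))) = (q * (N * (N * N))) * q := by simp only [Matrix.mul_assoc]
    rw [this, rtr_mul_comm, ← Matrix.mul_assoc, hqq]
  have b1 : hs E = rtr (q * (N * N)) - 2 * c * rtr (q * N) + c ^ 2 * rtr q := by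
    unfold hs
    rw [hEh, hE]
    simp only [Matrix.sub_mul, Matrix.mul_sub, Matrix.smul_mul, Matrix.mul_smul, rtr_sub,
      rtr_smul, Matrix.mul_assoc, hqq, a0, a1]
    ring
  have b2 : 0 ≤ rtr (q * (N * (N * N))) - 2 * c * rtr (q * (N * N)) + c ^ 2 * rtr (q * N) := by
    have h1 : (Eᴴ * N * E).PosSemidef := psd_conj (Ns_psd hp hj.le) E
    have h2 := rtr_nonneg h1
    rw [hEh, hE] at h2
    simp only [Matrix.sub_mul, Matrix.mul_sub, Matrix.smul_mul, Matrix.mul_smul, rtr_sub,
      rtr_smul, Matrix.mul_assoc, a0, a1, a2] at h2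
    linarith
  have d1 : rtr (N * q * N) = rtr (q * (N * N)) := by
    rw [Matrix.mul_assoc, rtr_mul_comm, Matrix.mul_assoc]
  have d2 : rtr (N * q * N * Rs p j) = rtr (q * (N * N)) - rtr (q * (N * (N * N))) := by
    have : Rs p j = 1 - N := rfl
    rw [this, Matrix.mul_sub, Matrix.mul_one, rtr_sub, d1]
    congr 1
    have : N * q * N * N = N * (q * (N * N)) := by simp only [Matrix.mul_assoc]
    rw [this, rtr_mul_comm]
    simp only [Matrix.mul_assoc]
  rw [d1, d2, b1]
  have h3 : c ^ 2 * rtr (q * N) = c ^ 3 * rtr q := by rw [h]; ring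
  nlinarith [b2, h3]

/-- energy of `p N` -/
theorem en_pN (hp : ∀ j < m, IsProj (p j)) (g : Matrix n n ℂ) :
    ∑ j ∈ Finset.range m, hs (g * (p j * Ns p j) - (p j * Ns p j) * g) ≤
      28 * ∑ j ∈ Finset.range m, hs (g * p j - p j * g) := by
  have h1 : ∀ j ∈ Finset.range m, hs (g * (p j * Ns p j) - (p j * Ns p j) * g) ≤
      2 * hs (g * p j - p j * g) + 2 * hs ((gᴴ * Ns p j - Ns p j * gᴴ) * p j) := by
    intro j hj
    have hj' := Finset.mem_range.1 hj
    have hpj := hp j hj'
    have e : g * (p j * Ns p j) - (p j * Ns p j) * g =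
        (g * p j - p j * g) * Ns p j + p j * (g * Ns p j - Ns p j * g) := by
      simp only [Matrix.sub_mul, Matrix.mul_sub, Matrix.mul_assoc]
      abel
    rw [e]
    refine (hs_add_le _ _).trans ?_
    have k1 : hs ((g * p j - p j * g) * Ns p j) ≤ hs (g * p j - p j * g) := by
      have := hs_mul_le' (κ := 1) (B := Ns p j) (by
        rw [one_smul, Ns_herm hp hj'.le]; exact trace_step_aux hp hj'.le) (g * p j - p j * g)
      rwa [one_mul] at this
    have k2 : hs (p j * (g * Ns p j - Ns p j * g)) = hs ((gᴴ * Ns p j - Ns p j * gᴴ) * p j) := by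
      rw [← hs_conjTranspose, ← hs_neg]
      congr 1
      rw [Matrix.conjTranspose_mul, Matrix.conjTranspose_sub, Matrix.conjTranspose_mul,
        Matrix.conjTranspose_mul, Ns_herm hp hj'.le, hpj.1, ← Matrix.neg_mul, neg_sub]
    rw [k2]
    linarith
  have h2 := Finset.sum_le_sum h1
  rw [Finset.sum_add_distrib, ← Finset.mul_sum, ← Finset.mul_sum] at h2
  have h3 := sum_comm_le hp gᴴ
  have h4 : ∑ j ∈ Finset.range m, hs (gᴴ * p j - p j * gᴴ) =
      ∑ j ∈ Finset.range m, hs (g * p j - p j * g) := by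
    refine Finset.sum_congr rfl fun j hj => ?_
    have hpj := hp j (Finset.mem_range.1 hj)
    rw [← hs_conjTranspose, Matrix.conjTranspose_sub, Matrix.conjTranspose_mul,
      Matrix.conjTranspose_mul, Matrix.conjTranspose_conjTranspose, hpj.1, hs_sub_comm]
  rw [h4] at h3
  linarith

end

end Pool.Agent.H51K.Ov
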