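import Pool.Agent.H51K.Iface

/-!
PART 1: internal interfaces.  `θ = 1/8` throughout.
-/

set_option autoImplicit false
open Matrix
open scoped ComplexOrder MatrixOrder

namespace Pool.Agent.H51K

/-- orthogonal projections -/
def IsProj {n : Type*} [Fintype n] (p : Matrix n n ℂ) : Prop := pᴴ = p ∧ p * p = p

section
variable {n : Type*} [Fintype n] [DecidableEq n]

/-- `X_j = ∑_{i<j} p_i` -/
def Xs (p : ℕ → Matrix n n ℂ) (j : ℕ) : Matrix n n ℂ := ∑ i ∈ Finset.range j, p i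

/-- `N_j = (1 + X_j)⁻¹` -/
noncomputable def Ns (p : ℕ → Matrix n n ℂ) (j : ℕ) : Matrix n n ℂ := (1 + Xs p j)⁻¹

/-- `R_j = 1 - N_j = X_j (1 + X_j)⁻¹`, the soft join of `p_0, ..., p_{j-1}` -/
noncomputable def Rs (p : ℕ → Matrix n n ℂ) (j : ℕ) : Matrix n n ℂ := 1 - Ns p j

end

variable {S : Type} [Fintype S]

/-- A greedy system of projections. -/
structure Sys {d : ℕ} (g : S → Matrix (Fin d) (Fin d) ℂ) (h : ℝ) where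
  m : ℕ
  p : ℕ → Matrix (Fin d) (Fin d) ℂ
  proj : ∀ j < m, IsProj (p j)
  pos : ∀ j < m, 0 < rtr (p j)
  en : ∀ j < m, En g (p j) ≤ h * rtr (p j)
  ov : ∀ j < m, rtr (p j * Rs p j) ≤ (1 / 8) * rtr (p j)
  near : ∀ j < m, ∀ q, IsProj q → 0 < rtr q → En g q ≤ h * rtr q →
    rtr (q * Rs p j) ≤ (1 / 8) * rtr q →
    rtr (p j * (1 + Rs p j)) ≤ (1 + h) * rtr (q * (1 + Rs p j))
  stop : ∀ q, IsProj q → 0 < rtr q → En g q ≤ h * rtr q →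
    ¬ (rtr (q * Rs p m) ≤ (1 / 8) * rtr q)

/-- PART 1a (layer cake and coarea) -/
def LayerTheorem : Prop :=
  ∀ (n l : Type) [Fintype n] [Fintype l] [DecidableEq n] [DecidableEq l] (y : Matrix l n ℂ),
    ∃ (K : ℕ) (w : Fin K → ℝ) (z : Fin K → Matrix n n ℂ),
      (∀ k, 0 ≤ w k) ∧ (∀ k, IsProj (z k)) ∧ (∀ k, rtr (z k) ≤ y.rank) ∧
      yᴴ * y = ∑ k, w k • z k ∧
      ∀ (g' : Matrix l l ℂ) (g : Matrix n n ℂ), g' ∈ Matrix.unitaryGroup l ℂ →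
        g ∈ Matrix.unitaryGroup n ℂ →
        ∑ k, w k * hs (g * z k - z k * g) ≤
          2 * Real.sqrt (hs y) * Real.sqrt (hs (g' * y - y * g))

/-- PART 1b (GIL) : improvement by property (T) against near-minimality -/
def GilTheorem : Prop :=
  ∀ (S : Type) [Fintype S] (C : ℝ), 0 < C → ∀ γ > 0, ∀ ε > 0, ∃ εE > 0, ∃ h₀ > 0,
    ∀ h > 0, h ≤ h₀ → ∃ t > 0,
    ∀ (d : ℕ) (g : S → Matrix (Fin d) (Fin d) ℂ), 0 < d →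
      (∀ s, g s ∈ Matrix.unitaryGroup (Fin d) ℂ) → HasT g C t → ∀ (X : Sys g h),
    ∀ (Λ : Type) [Fintype Λ] (T : Λ → Type) [∀ a, Fintype (T a)] [∀ a, DecidableEq (T a)]
      (W' : ∀ a, S → Matrix (T a) (T a) ℂ) (y : ∀ a, Matrix (T a) (Fin d) ℂ)
      (i : Λ → ℕ) (κ : Λ → ℝ),
      (∀ a s, W' a s ∈ Matrix.unitaryGroup (T a) ℂ) →
      (∀ a, i a < X.m) →
      (∑ a, (y a)ᴴ * y a ≤ (2 : ℝ) • (1 : Matrix (Fin d) (Fin d) ℂ)) →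
      (∑ a, EnR (W' a) g (y a) ≤ εE * d) →
      (∀ a, κ a ≤ 1 / 8 - γ) →
      (∀ a, (1 + κ a) * (y a).rank ≤ (1 - γ) * rtr (X.p (i a) * (1 + Rs X.p (i a)))) →
      ∑ a, κ a * hs (y a) ≤ ∑ a, rtr ((y a)ᴴ * y a * Rs X.p (i a)) + ε * d

/-- PART 1b' (GIL for the stopping rule) -/
def GilStopTheorem : Prop :=
  ∀ (S : Type) [Fintype S] (C : ℝ), 0 < C → ∀ γ > 0, ∀ ε > 0, ∃ εE > 0, ∃ h₀ > 0,
    ∀ h > 0, h ≤ h₀ → ∃ t > 0,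
    ∀ (d : ℕ) (g : S → Matrix (Fin d) (Fin d) ℂ), 0 < d →
      (∀ s, g s ∈ Matrix.unitaryGroup (Fin d) ℂ) → HasT g C t → ∀ (X : Sys g h),
    ∀ (Λ : Type) [Fintype Λ] (T : Λ → Type) [∀ a, Fintype (T a)] [∀ a, DecidableEq (T a)]
      (W' : ∀ a, S → Matrix (T a) (T a) ℂ) (y : ∀ a, Matrix (T a) (Fin d) ℂ)
      (κ : Λ → ℝ),
      (∀ a s, W' a s ∈ Matrix.unitaryGroup (T a) ℂ) →
      (∑ a, (y a)ᴴ * y a ≤ (2 : ℝ) • (1 : Matrix (Fin d) (Fin d) ℂ)) →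
      (∑ a, EnR (W' a) g (y a) ≤ εE * d) →
      (∀ a, κ a ≤ 1 / 8 - γ) →
      ∑ a, κ a * hs (y a) ≤ ∑ a, rtr ((y a)ᴴ * y a * Rs X.p X.m) + ε * d

/-- PART 1c (existence of greedy systems) -/
def SysTheorem : Prop :=
  ∀ (S : Type) [Fintype S] (h : ℝ), 0 < h → ∀ (d : ℕ) (g : S → Matrix (Fin d) (Fin d) ℂ),
    0 < d → Nonempty (Sys g h)

/-- PART 1d (resolvent estimates; no smallness) -/
def ResolventTheorem : Prop :=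
  ∀ (n : Type) [Fintype n] [DecidableEq n] (p : ℕ → Matrix n n ℂ) (m : ℕ),
    (∀ j < m, IsProj (p j)) →
    -- positivity
    (∀ j ≤ m, (Ns p j)ᴴ = Ns p j ∧ 0 ≤ Ns p j ∧ Ns p j ≤ 1 ∧ 0 ≤ Rs p j ∧ Rs p j ≤ 1) ∧
    -- (A)
    (∑ j ∈ Finset.range m, Ns p j * p j * Ns p j ≤ (2 : ℝ) • Rs p m) ∧
    -- (A') trace comparison
    (2 * rtr (Rs p m) ≤ ∑ j ∈ Finset.range m, hs (Ns p j * p j) +
      ∑ j ∈ Finset.range m, rtr (p j * Rs p j)) ∧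
    -- (B)
    (∀ g ∈ Matrix.unitaryGroup n ℂ, ∑ j ∈ Finset.range m, hs ((g * Ns p j - Ns p j * g) * p j) ≤
      13 * ∑ j ∈ Finset.range m, hs (g * p j - p j * g)) ∧
    -- (C)
    (∀ g ∈ Matrix.unitaryGroup n ℂ, hs (g * Ns p m - Ns p m * g) ≤
      ∑ j ∈ Finset.range m, hs (g * p j - p j * g)) ∧
    -- mass
    ((∀ j < m, rtr (p j * Rs p j) ≤ (1 / 8) * rtr (p j)) →
      ∑ j ∈ Finset.range m, rtr (p j) ≤ 3 * Fintype.card n)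

/-- PART 1e (small overlaps, covering) -/
def OverlapTheorem : Prop :=
  ∀ (S : Type) [Fintype S] (C : ℝ), 0 < C → ∀ ε > 0, ∃ h₀ > 0, ∀ h > 0, h ≤ h₀ → ∃ t > 0,
    ∀ (d : ℕ) (g : S → Matrix (Fin d) (Fin d) ℂ), 0 < d →
      (∀ s, g s ∈ Matrix.unitaryGroup (Fin d) ℂ) → HasT g C t → ∀ (X : Sys g h),
      ∑ j ∈ Finset.range X.m, rtr (X.p j * Rs X.p j) ≤ ε * d ∧
      hs ((2 : ℝ) • Ns X.p X.m - 1) ≤ ε * d

end Pool.Agent.H51K
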