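import Pool.Agent.H51K.Res

/-!
Resolvent estimates, part 2: commutators.
-/

set_option autoImplicit false
set_option linter.unusedSectionVars false
open Matrix
open scoped ComplexOrder MatrixOrder

namespace Pool.Agent.H51K

variable {n : Type} [Fintype n] [DecidableEq n]

/-- commutator with `p` splits -/
theorem comm_split {p : Matrix n n ℂ} (hp : IsProj p) (g : Matrix n n ℂ) :
    g * p - p * g = (g * p - p * g) * p + p * (g * p - p * g) := by
  have h := hp.2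
  rw [Matrix.sub_mul, Matrix.mul_sub, Matrix.mul_assoc g p p, h, ← Matrix.mul_assoc p p g, h,
    Matrix.mul_assoc p g p]
  abel

section
variable {p : ℕ → Matrix n n ℂ} {m : ℕ}

/-- `[g, N] = - N [g, X] N` -/
theorem comm_Ns (hp : ∀ j < m, IsProj (p j)) {j : ℕ} (hj : j ≤ m) (g : Matrix n n ℂ) :
    g * Ns p j - Ns p j * g = -(Ns p j * (∑ i ∈ Finset.range j, (g * p i - p i * g)) *
      Ns p j) := by
  have h1 := Ns_mul hp hj
  have h2 := mul_Ns hp hj
  have e : ∑ i ∈ Finset.range j, (g * p i - p i * g) = g * Xs p j - Xs p j * g := by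
    rw [Finset.sum_sub_distrib, ← Matrix.mul_sum, ← Matrix.sum_mul]
    rfl
  rw [e]
  have e2 : g * Xs p j - Xs p j * g = g * (1 + Xs p j) - (1 + Xs p j) * g := by
    rw [Matrix.mul_add, Matrix.add_mul, Matrix.mul_one, Matrix.one_mul]
    abel
  rw [e2, Matrix.mul_sub, Matrix.sub_mul]
  have e3 : Ns p j * (g * (1 + Xs p j)) * Ns p j = Ns p j * g := by
    rw [Matrix.mul_assoc, Matrix.mul_assoc, h2, Matrix.mul_one]
  have e4 : Ns p j * ((1 + Xs p j) * g) * Ns p j = g * Ns p j := by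
    rw [← Matrix.mul_assoc, h1, Matrix.one_mul]
  rw [e3, e4]
  abel

/-- `N X N ≤ 1/4` -/
theorem NXN_le (hp : ∀ j < m, IsProj (p j)) {j : ℕ} (hj : j ≤ m) :
    Ns p j * Xs p j * Ns p j ≤ (1 / 4 : ℝ) • (1 : Matrix n n ℂ) := by
  have h1 := Ns_mul hp hj
  have e : Ns p j * Xs p j * Ns p j = Ns p j - Ns p j * Ns p j := by
    have : Ns p j * Xs p j = 1 - Ns p j := by
      rw [Matrix.mul_add, Matrix.mul_one] at h1
      rw [eq_sub_iff_add_eq, add_comm]
      exact h1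
    rw [this, Matrix.sub_mul, Matrix.one_mul]
  rw [e, Matrix.le_iff]
  have h2 : (((1 / 2 : ℝ) • (1 : Matrix n n ℂ) - Ns p j)ᴴ *
      ((1 / 2 : ℝ) • (1 : Matrix n n ℂ) - Ns p j)).PosSemidef :=
    Matrix.posSemidef_conjTranspose_mul_self _
  have h3 : ((1 / 2 : ℝ) • (1 : Matrix n n ℂ) - Ns p j)ᴴ =
      (1 / 2 : ℝ) • (1 : Matrix n n ℂ) - Ns p j := by
    rw [Matrix.conjTranspose_sub, Ns_herm hp hj, Matrix.conjTranspose_smul,
      Matrix.conjTranspose_one]
    simp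
  rw [h3] at h2
  have h4 : ((1 / 2 : ℝ) • (1 : Matrix n n ℂ) - Ns p j) *
      ((1 / 2 : ℝ) • (1 : Matrix n n ℂ) - Ns p j) =
      (1 / 4 : ℝ) • (1 : Matrix n n ℂ) - (Ns p j - Ns p j * Ns p j) := by
    rw [Matrix.sub_mul, Matrix.mul_sub, Matrix.mul_sub, Matrix.smul_mul, Matrix.smul_mul,
      Matrix.one_mul, Matrix.one_mul, Matrix.mul_smul, Matrix.mul_one, smul_smul]
    have : (1 / 2 : ℝ) • Ns p j + (1 / 2 : ℝ) • Ns p j = Ns p j := by
      rw [← add_smul]
      norm_num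
    have e5 : (1 / 2 * (1 / 2) : ℝ) = 1 / 4 := by norm_num
    rw [e5]
    calc (1 / 4 : ℝ) • (1 : Matrix n n ℂ) - (1 / 2 : ℝ) • Ns p j -
        ((1 / 2 : ℝ) • Ns p j - Ns p j * Ns p j) =
        (1 / 4 : ℝ) • (1 : Matrix n n ℂ) - ((1 / 2 : ℝ) • Ns p j + (1 / 2 : ℝ) • Ns p j) +
          Ns p j * Ns p j := by abel
      _ = _ := by rw [this]; abel
  rwa [h4] at h2

theorem sum_NpN_quarter (hp : ∀ j < m, IsProj (p j)) {j : ℕ} (hj : j ≤ m) :
    ∑ i ∈ Finset.range j, Ns p j * p i * Ns p j ≤ (1 / 4 : ℝ) • (1 : Matrix n n ℂ) := by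
  refine le_trans (le_of_eq ?_) (NXN_le hp hj)
  rw [Xs, Matrix.mul_sum, Matrix.sum_mul]

/-- (C) -/
theorem comm_Ns_le (hp : ∀ j < m, IsProj (p j)) {j : ℕ} (hj : j ≤ m) (g : Matrix n n ℂ) :
    hs (g * Ns p j - Ns p j * g) ≤ ∑ i ∈ Finset.range j, hs (g * p i - p i * g) := by
  rw [comm_Ns hp hj, hs_neg]
  set δ : ℕ → Matrix n n ℂ := fun i => g * p i - p i * g with hδ
  have hN := Ns_herm hp hj
  have hle : ∀ i ∈ Finset.range j, i < m := fun i hi =>
    lt_of_lt_of_le (Finset.mem_range.1 hi) hj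
  have e : Ns p j * (∑ i ∈ Finset.range j, δ i) * Ns p j =
      (∑ i ∈ Finset.range j, (Ns p j * δ i) * (p i * Ns p j)) +
      ∑ i ∈ Finset.range j, (Ns p j * p i) * (δ i * Ns p j) := by
    rw [Matrix.mul_sum, Matrix.sum_mul, ← Finset.sum_add_distrib]
    refine Finset.sum_congr rfl fun i hi => ?_
    have h1 := comm_split (hp i (hle i hi)) g
    calc Ns p j * δ i * Ns p j = Ns p j * (δ i * p i + p i * δ i) * Ns p j := by
          rw [hδ]; exact congrArg (fun x => Ns p j * x * Ns p j) h1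
      _ = _ := by simp only [Matrix.mul_add, Matrix.add_mul, Matrix.mul_assoc]
  have hcontr : (Ns p j)ᴴ * Ns p j ≤ (1 : ℝ) • (1 : Matrix n n ℂ) := by
    rw [one_smul]
    have h1 := trace_step_aux hp hj
    rwa [hN]
  have b1 : ∑ i ∈ Finset.range j, (p i * Ns p j)ᴴ * (p i * Ns p j) ≤
      (1 / 4 : ℝ) • (1 : Matrix n n ℂ) := by
    refine le_trans (le_of_eq (Finset.sum_congr rfl fun i hi => ?_)) (sum_NpN_quarter hp hj)
    have hpi := hp i (hle i hi)
    rw [Matrix.conjTranspose_mul, hN, hpi.1, ← Matrix.mul_assoc, Matrix.mul_assoc (Ns p j),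
      hpi.2]
  have b2 : ∑ i ∈ Finset.range j, (Ns p j * p i) * (Ns p j * p i)ᴴ ≤
      (1 / 4 : ℝ) • (1 : Matrix n n ℂ) := by
    refine le_trans (le_of_eq (Finset.sum_congr rfl fun i hi => ?_)) (sum_NpN_quarter hp hj)
    have hpi := hp i (hle i hi)
    rw [Matrix.conjTranspose_mul, hN, hpi.1, ← Matrix.mul_assoc, Matrix.mul_assoc (Ns p j),
      hpi.2]
  have c1 := hs_sum_mul_le (Finset.range j) (by norm_num) (fun i => Ns p j * δ i)
    (fun i => p i * Ns p j) b1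
  have c2 := hs_sum_mul_le' (Finset.range j) (by norm_num) (fun i => Ns p j * p i)
    (fun i => δ i * Ns p j) b2
  have d1 : ∑ i ∈ Finset.range j, hs (Ns p j * δ i) ≤ ∑ i ∈ Finset.range j, hs (δ i) := by
    refine Finset.sum_le_sum fun i _ => ?_
    have := hs_mul_le hcontr (δ i)
    rwa [one_mul] at this
  have d2 : ∑ i ∈ Finset.range j, hs (δ i * Ns p j) ≤ ∑ i ∈ Finset.range j, hs (δ i) := by
    refine Finset.sum_le_sum fun i _ => ?_
    have := hs_mul_le' (κ := 1) (B := Ns p j) (by rw [hN]; rw [hN] at hcontr; exact hcontr) (δ i)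
    rwa [one_mul] at this
  have h := hs_add_le (∑ i ∈ Finset.range j, (Ns p j * δ i) * (p i * Ns p j))
    (∑ i ∈ Finset.range j, (Ns p j * p i) * (δ i * Ns p j))
  show hs (Ns p j * (∑ i ∈ Finset.range j, δ i) * Ns p j) ≤ _
  rw [e]
  linarith

end

end Pool.Agent.H51K
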