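import Pool.Agent.H51K.Res2

/-!
Resolvent estimates, part 3: (B), mass, and `resolventTheorem`.
-/

set_option autoImplicit false
set_option linter.unusedSectionVars false
open Matrix
open scoped ComplexOrder MatrixOrder

namespace Pool.Agent.H51K

variable {n : Type} [Fintype n] [DecidableEq n]

/-- the algebraic identity of recursive least squares -/
theorem rls_identity {p N N' w u : Matrix n n ℂ} (hp : IsProj p) (hN : Nᴴ = N)
    (h1 : N - N' = N * p * N') (h2 : N - N' = N' * p * N) (hu : u * p = u) :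
    (u - w * N * p) * (1 - p * N' * p) * (u - w * N * p)ᴴ =
      u * uᴴ - (w + u) * N' * (w + u)ᴴ + w * N * wᴴ := by
  have hpu : p * uᴴ = uᴴ := by
    have := congrArg Matrix.conjTranspose hu
    rwa [Matrix.conjTranspose_mul, hp.1] at this
  have he : (u - w * N * p)ᴴ = uᴴ - p * N * wᴴ := by
    rw [Matrix.conjTranspose_sub, Matrix.conjTranspose_mul, Matrix.conjTranspose_mul, hp.1, hN,
      Matrix.mul_assoc]
  have s1 : (1 - p * N' * p) * (u - w * N * p)ᴴ = uᴴ - p * N' * (w + u)ᴴ := by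
    rw [he, Matrix.sub_mul, Matrix.one_mul, Matrix.mul_sub]
    have a1 : p * N' * p * uᴴ = p * N' * uᴴ := by
      rw [Matrix.mul_assoc (p * N'), hpu]
    have a2 : p * N' * p * (p * N * wᴴ) = p * N * wᴴ - p * N' * wᴴ := by
      have : p * N' * p * (p * N * wᴴ) = p * (N' * (p * p) * N) * wᴴ := by
        simp only [Matrix.mul_assoc]
      rw [this, hp.2, ← h2, Matrix.mul_sub, Matrix.sub_mul]
    rw [a1, a2, Matrix.conjTranspose_add, Matrix.mul_add]
    abel
  rw [Matrix.mul_assoc, s1, Matrix.sub_mul, Matrix.mul_sub, Matrix.mul_sub]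
  have b1 : u * (p * N' * (w + u)ᴴ) = u * N' * (w + u)ᴴ := by
    have : u * (p * N' * (w + u)ᴴ) = u * p * N' * (w + u)ᴴ := by simp only [Matrix.mul_assoc]
    rw [this, hu]
  have b2 : w * N * p * uᴴ = w * N * uᴴ := by
    rw [Matrix.mul_assoc (w * N), hpu]
  have b3 : w * N * p * (p * N' * (w + u)ᴴ) = w * N * (w + u)ᴴ - w * N' * (w + u)ᴴ := by
    have : w * N * p * (p * N' * (w + u)ᴴ) = w * (N * (p * p) * N') * (w + u)ᴴ := by
      simp only [Matrix.mul_assoc]
    rw [this, hp.2, ← h1, Matrix.mul_sub, Matrix.sub_mul]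
  rw [b1, b2, b3]
  have b4 : w * N * (w + u)ᴴ = w * N * wᴴ + w * N * uᴴ := by
    rw [Matrix.conjTranspose_add, Matrix.mul_add]
  have b5 : (w + u) * N' * (w + u)ᴴ = w * N' * (w + u)ᴴ + u * N' * (w + u)ᴴ := by
    rw [Matrix.add_mul, Matrix.add_mul]
  rw [b4, b5]
  abel

section
variable {p : ℕ → Matrix n n ℂ} {m : ℕ}

/-- `hs (e) ≤ 2 rtr (e (1 - p N' p) e*)` -/
theorem hs_le_two_e (hp : ∀ j < m, IsProj (p j)) {j : ℕ} (hj : j < m) (e : Matrix n n ℂ) :
    hs e ≤ 2 * rtr (e * (1 - p j * Ns p (j + 1) * p j) * eᴴ) := by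
  have h1 : p j * Ns p (j + 1) * p j ≤ (1 / 2 : ℝ) • (1 : Matrix n n ℂ) := by
    refine (pNp_le_half hp hj).trans ?_
    rw [Matrix.le_iff, ← smul_sub]
    exact ((hp j hj).one_sub.psd).smul (by norm_num)
  have h2 := rtr_mono (conj_mono' h1 e)
  rw [Matrix.mul_smul, Matrix.smul_mul, rtr_smul, Matrix.mul_one, ← hs_eq'] at h2
  rw [Matrix.mul_sub, Matrix.sub_mul, rtr_sub, Matrix.mul_one, ← hs_eq']
  linarith

/-- recursive least squares: `∑ hs (w_j N_j p_j) ≤ 6 E` -/
theorem sum_c_le (hp : ∀ j < m, IsProj (p j)) (u : ℕ → Matrix n n ℂ)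
    (hu : ∀ j < m, u j * p j = u j) :
    ∑ j ∈ Finset.range m, hs ((∑ i ∈ Finset.range j, u i) * Ns p j * p j) ≤
      6 * ∑ j ∈ Finset.range m, hs (u j) := by
  set w : ℕ → Matrix n n ℂ := fun j => ∑ i ∈ Finset.range j, u i with hw
  have hw' : ∀ j, w (j + 1) = w j + u j := fun j => Finset.sum_range_succ _ _
  set e : ℕ → Matrix n n ℂ := fun j => u j - w j * Ns p j * p j with he
  have h1 : ∀ j ∈ Finset.range m, hs (e j) ≤ 2 * (hs (u j) +
      (rtr (w j * Ns p j * (w j)ᴴ) - rtr (w (j + 1) * Ns p (j + 1) * (w (j + 1))ᴴ))) := by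
    intro j hj
    have hj' := Finset.mem_range.1 hj
    have h2 := hs_le_two_e hp hj' (e j)
    rw [rls_identity (hp j hj') (Ns_herm hp hj'.le) (sub_Ns hp hj') (sub_Ns' hp hj') (hu j hj'),
      rtr_add, rtr_sub, ← hs_eq', ← hw' j] at h2
    linarith
  have h2 := Finset.sum_le_sum h1
  rw [← Finset.mul_sum, Finset.sum_add_distrib, Finset.sum_range_sub'] at h2
  have h3 : rtr (w 0 * Ns p 0 * (w 0)ᴴ) = 0 := by
    simp [hw, rtr_zero]
  have h4 : 0 ≤ rtr (w m * Ns p m * (w m)ᴴ) := by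
    have : (w m * Ns p m * (w m)ᴴ).PosSemidef := by
      have := psd_conj (Ns_psd hp le_rfl) (w m)ᴴ
      rwa [Matrix.conjTranspose_conjTranspose] at this
    exact rtr_nonneg this
  rw [h3] at h2
  have h5 : ∀ j ∈ Finset.range m, hs (w j * Ns p j * p j) ≤ 2 * hs (u j) + 2 * hs (e j) := by
    intro j _
    have : w j * Ns p j * p j = u j - e j := (sub_sub_cancel _ _).symm
    rw [this]
    exact hs_sub_le _ _
  have h6 := Finset.sum_le_sum h5
  rw [Finset.sum_add_distrib, ← Finset.mul_sum, ← Finset.mul_sum] at h6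
  linarith

/-- (B) -/
theorem sum_comm_le (hp : ∀ j < m, IsProj (p j)) (g : Matrix n n ℂ) :
    ∑ j ∈ Finset.range m, hs ((g * Ns p j - Ns p j * g) * p j) ≤
      13 * ∑ j ∈ Finset.range m, hs (g * p j - p j * g) := by
  set δ : ℕ → Matrix n n ℂ := fun i => g * p i - p i * g with hδ
  -- first term
  set A : ℕ → Matrix n n ℂ := fun j => ∑ i ∈ Finset.range j, (Ns p j * p i) * (δ i * Ns p j * p j)
    with hA
  set B : ℕ → Matrix n n ℂ := fun j =>
    Ns p j * ((∑ i ∈ Finset.range j, δ i * p i) * Ns p j * p j) with hB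
  have hdec : ∀ j ∈ Finset.range m, (g * Ns p j - Ns p j * g) * p j = -(A j + B j) := by
    intro j hj
    have hj' := Finset.mem_range.1 hj
    rw [comm_Ns hp hj'.le g, Matrix.neg_mul]
    congr 1
    have h1 : ∀ i ∈ Finset.range j, δ i = δ i * p i + p i * δ i := fun i hi =>
      comm_split (hp i ((Finset.mem_range.1 hi).trans hj')) g
    have h2 : (∑ i ∈ Finset.range j, δ i) =
        (∑ i ∈ Finset.range j, δ i * p i) + ∑ i ∈ Finset.range j, p i * δ i := by
      rw [← Finset.sum_add_distrib]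
      exact Finset.sum_congr rfl h1
    show Ns p j * (∑ i ∈ Finset.range j, δ i) * Ns p j * p j = A j + B j
    rw [h2, hA, hB]
    simp only [Matrix.mul_add, Matrix.add_mul, Matrix.mul_sum, Matrix.sum_mul, Matrix.mul_assoc]
    rw [add_comm]
  have hA1 : ∀ j ∈ Finset.range m, hs (A j) ≤
      1 / 4 * ∑ i ∈ Finset.range m, hs (δ i * Ns p j * p j) := by
    intro j hj
    have hj' := Finset.mem_range.1 hj
    have b2 : ∑ i ∈ Finset.range j, (Ns p j * p i) * (Ns p j * p i)ᴴ ≤
        (1 / 4 : ℝ) • (1 : Matrix n n ℂ) := by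
      refine le_trans (le_of_eq (Finset.sum_congr rfl fun i hi => ?_))
        (sum_NpN_quarter hp hj'.le)
      have hpi := hp i ((Finset.mem_range.1 hi).trans hj')
      rw [Matrix.conjTranspose_mul, Ns_herm hp hj'.le, hpi.1, ← Matrix.mul_assoc,
        Matrix.mul_assoc (Ns p j), hpi.2]
    have c2 := hs_sum_mul_le' (Finset.range j) (by norm_num) (fun i => Ns p j * p i)
      (fun i => δ i * Ns p j * p j) b2
    refine c2.trans ?_
    refine mul_le_mul_of_nonneg_left ?_ (by norm_num)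
    exact Finset.sum_le_sum_of_subset_of_nonneg
      (Finset.range_subset_range.2 hj'.le) fun i _ _ => hs_nonneg _
  have hA2 : ∑ j ∈ Finset.range m, hs (A j) ≤ 1 / 2 * ∑ i ∈ Finset.range m, hs (δ i) := by
    refine (Finset.sum_le_sum hA1).trans ?_
    rw [← Finset.mul_sum, Finset.sum_comm]
    have h3 : ∀ i, ∑ j ∈ Finset.range m, hs (δ i * Ns p j * p j) ≤ 2 * hs (δ i) := by
      intro i
      have e : ∑ j ∈ Finset.range m, hs (δ i * Ns p j * p j) =
          rtr (δ i * (∑ j ∈ Finset.range m, Ns p j * p j * Ns p j) * (δ i)ᴴ) := by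
        rw [Matrix.mul_sum, Matrix.sum_mul, rtr_sum]
        refine Finset.sum_congr rfl fun j hj => ?_
        have hj' := Finset.mem_range.1 hj
        rw [hs_eq', Matrix.conjTranspose_mul, Matrix.conjTranspose_mul, Ns_herm hp hj'.le,
          (hp j hj').1]
        have : δ i * Ns p j * p j * (p j * (Ns p j * (δ i)ᴴ)) =
            δ i * Ns p j * (p j * p j) * (Ns p j * (δ i)ᴴ) := by simp only [Matrix.mul_assoc]
        rw [this, (hp j hj').2]
        simp only [Matrix.mul_assoc]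
      rw [e]
      have h4 : ∑ j ∈ Finset.range m, Ns p j * p j * Ns p j ≤ (2 : ℝ) • (1 : Matrix n n ℂ) := by
        refine (sum_NpN_le hp le_rfl).trans ?_
        rw [Matrix.le_iff, ← smul_sub]
        exact (Matrix.le_iff.1 (Rs_le_one hp le_rfl)).smul (by norm_num)
      refine (rtr_mono (conj_mono' h4 (δ i))).trans (le_of_eq ?_)
      rw [Matrix.mul_smul, Matrix.mul_one, Matrix.smul_mul, rtr_smul, ← hs_eq']
    have h5 := Finset.sum_le_sum fun i (_ : i ∈ Finset.range m) => h3 i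
    rw [← Finset.mul_sum] at h5
    linarith
  have hB1 : ∑ j ∈ Finset.range m, hs (B j) ≤ 6 * ∑ j ∈ Finset.range m, hs (δ j) := by
    have h6 := sum_c_le hp (fun i => δ i * p i) (fun j hj => by
      rw [Matrix.mul_assoc, (hp j hj).2])
    have h7 : ∑ j ∈ Finset.range m, hs (δ j * p j) ≤ ∑ j ∈ Finset.range m, hs (δ j) := by
      refine Finset.sum_le_sum fun j hj => ?_
      have hj' := Finset.mem_range.1 hj
      have := hs_mul_le' (κ := 1) (B := p j) (by
        rw [(hp j hj').1, (hp j hj').2, one_smul]; exact (hp j hj').le_one) (δ j)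
      rwa [one_mul] at this
    have h8 : ∀ j ∈ Finset.range m, hs (B j) ≤
        hs ((∑ i ∈ Finset.range j, δ i * p i) * Ns p j * p j) := by
      intro j hj
      have hj' := Finset.mem_range.1 hj
      have hcontr : (Ns p j)ᴴ * Ns p j ≤ (1 : ℝ) • (1 : Matrix n n ℂ) := by
        rw [one_smul, Ns_herm hp hj'.le]
        exact trace_step_aux hp hj'.le
      have := hs_mul_le hcontr ((∑ i ∈ Finset.range j, δ i * p i) * Ns p j * p j)
      rwa [one_mul] at this
    refine (Finset.sum_le_sum h8).trans (h6.trans ?_)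
    linarith
  have hfin : ∀ j ∈ Finset.range m, hs ((g * Ns p j - Ns p j * g) * p j) ≤
      2 * hs (A j) + 2 * hs (B j) := by
    intro j hj
    rw [hdec j hj, hs_neg]
    exact hs_add_le _ _
  have h9 := Finset.sum_le_sum hfin
  rw [Finset.sum_add_distrib, ← Finset.mul_sum, ← Finset.mul_sum] at h9
  linarith

theorem hs_Np (hp : ∀ j < m, IsProj (p j)) {j : ℕ} (hj : j < m) :
    hs (Ns p j * p j) = rtr (Ns p j * p j * Ns p j) := by
  have hpj := hp j hj
  unfold hs
  rw [Matrix.conjTranspose_mul, Ns_herm hp hj.le, hpj.1, rtr_mul_comm]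
  have : Ns p j * p j * (p j * Ns p j) = Ns p j * (p j * p j) * Ns p j := by
    simp only [Matrix.mul_assoc]
  rw [this, hpj.2]

/-- mass bound -/
theorem mass_le (hp : ∀ j < m, IsProj (p j))
    (ho : ∀ j < m, rtr (p j * Rs p j) ≤ (1 / 8) * rtr (p j)) :
    ∑ j ∈ Finset.range m, rtr (p j) ≤ 3 * Fintype.card n := by
  have h1 : ∀ j ∈ Finset.range m, 49 / 64 * rtr (p j) ≤ rtr (Ns p j * p j * Ns p j) := by
    intro j hj
    have hj' := Finset.mem_range.1 hj
    have hpj := hp j hj'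
    have h0 : 0 ≤ rtr (p j) := rtr_nonneg hpj.psd
    have h2 : 7 / 8 * rtr (p j) ≤ rtr (p j * Ns p j) := by
      have := ho j hj'
      rw [Rs, Matrix.mul_sub, Matrix.mul_one, rtr_sub] at this
      linarith
    have h3 := ip_sq_le (p j) (Ns p j * p j)
    have h4 : ip (p j) (Ns p j * p j) = rtr (p j * Ns p j) := by
      unfold ip
      rw [hpj.1, ← Matrix.mul_assoc, rtr_mul_comm, ← Matrix.mul_assoc, hpj.2]
    rw [h4, hpj.hs_eq, hs_Np hp hj'] at h3
    by_cases hz : rtr (p j) = 0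
    · rw [hz, mul_zero, ← hs_Np hp hj']
      exact hs_nonneg _
    · have hpos : 0 < rtr (p j) := lt_of_le_of_ne h0 (Ne.symm hz)
      have h5 : (7 / 8 * rtr (p j)) ^ 2 ≤ rtr (p j * Ns p j) ^ 2 :=
        pow_le_pow_left₀ (by positivity) h2 2
      have h6 : rtr (p j) * (49 / 64 * rtr (p j)) ≤ rtr (p j) * rtr (Ns p j * p j * Ns p j) := by
        nlinarith
      exact le_of_mul_le_mul_left h6 hpos
  have h2 := Finset.sum_le_sum h1
  rw [← Finset.mul_sum] at h2
  have h3 := rtr_mono (sum_NpN_le hp (le_refl m))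
  rw [rtr_sum] at h3
  have h4 := rtr_mono (Rs_le_one hp (le_refl m))
  rw [rtr_one] at h4
  rw [rtr_smul] at h3
  have h5 : 0 ≤ ∑ j ∈ Finset.range m, rtr (p j) :=
    Finset.sum_nonneg fun j hj => rtr_nonneg (hp j (Finset.mem_range.1 hj)).psd
  have h6 : (0 : ℝ) ≤ Fintype.card n := Nat.cast_nonneg _
  linarith

end

theorem resolventTheorem : ResolventTheorem := by
  intro n _ _ p m hp
  refine ⟨fun j hj => ⟨Ns_herm hp hj, Matrix.nonneg_iff_posSemidef.2 (Ns_psd hp hj),
    Ns_le_one hp hj, Matrix.nonneg_iff_posSemidef.2 (Rs_psd hp hj), Rs_le_one hp hj⟩,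
    sum_NpN_le hp le_rfl, trace_sum hp, fun g _ => sum_comm_le hp g,
    fun g _ => comm_Ns_le hp le_rfl g, fun ho => mass_le hp ho⟩

end Pool.Agent.H51K
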