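import Pool.Agent.H51K.Res3

/-!
Existence of greedy systems (SysTheorem).
-/

set_option autoImplicit false
open Matrix
open scoped ComplexOrder MatrixOrder

namespace Pool.Agent.H51K

theorem hs_mul_le_mul {m n l : Type*} [Fintype m] [Fintype n] [Fintype l]
    (A : Matrix m n ℂ) (B : Matrix n l ℂ) : hs (A * B) ≤ hs A * hs B := by
  have h1 : ∀ i j, ‖(A * B) i j‖ ^ 2 ≤ (∑ k, ‖A i k‖ ^ 2) * ∑ k, ‖B k j‖ ^ 2 := by
    intro i j
    rw [Matrix.mul_apply]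
    have h2 : ‖∑ k, A i k * B k j‖ ≤ ∑ k, ‖A i k‖ * ‖B k j‖ := by
      refine (norm_sum_le _ _).trans (Finset.sum_le_sum fun k _ => ?_)
      rw [norm_mul]
    have h3 := Finset.sum_mul_sq_le_sq_mul_sq Finset.univ (fun k => ‖A i k‖) (fun k => ‖B k j‖)
    exact (pow_le_pow_left₀ (norm_nonneg _) h2 2).trans h3
  have hA : hs A = ∑ i, ∑ k, ‖A i k‖ ^ 2 := by
    rw [hs_eq_sum, Finset.sum_comm]
  rw [hs_eq_sum (A * B), hA, hs_eq_sum B, Finset.mul_sum]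
  refine Finset.sum_le_sum fun j _ => ?_
  rw [Finset.sum_mul]
  exact Finset.sum_le_sum fun i _ => h1 i j

theorem IsProj.one_le_rtr {n : Type*} [Fintype n] {p : Matrix n n ℂ} (hp : IsProj p)
    (h : 0 < rtr p) : 1 ≤ rtr p := by
  have h1 := hs_mul_le_mul p p
  rw [hp.2, hp.hs_eq] at h1
  have : rtr p * 1 ≤ rtr p * rtr p := by linarith
  exact le_of_mul_le_mul_left this h

theorem Xs_congr {n : Type} [Fintype n] [DecidableEq n] {p p' : ℕ → Matrix n n ℂ} {m : ℕ}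
    (h : ∀ j < m, p j = p' j) {j : ℕ} (hj : j ≤ m) : Xs p j = Xs p' j :=
  Finset.sum_congr rfl fun i hi => h i (lt_of_lt_of_le (Finset.mem_range.1 hi) hj)

theorem Rs_congr {n : Type} [Fintype n] [DecidableEq n] {p p' : ℕ → Matrix n n ℂ} {m : ℕ}
    (h : ∀ j < m, p j = p' j) {j : ℕ} (hj : j ≤ m) : Rs p j = Rs p' j := by
  unfold Rs Ns
  rw [Xs_congr h hj]

/-- partial greedy system -/
def PSys {S : Type} [Fintype S] {d : ℕ} (g : S → Matrix (Fin d) (Fin d) ℂ) (h : ℝ) (m : ℕ)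
    (p : ℕ → Matrix (Fin d) (Fin d) ℂ) : Prop :=
  (∀ j < m, IsProj (p j)) ∧ (∀ j < m, 0 < rtr (p j)) ∧ (∀ j < m, En g (p j) ≤ h * rtr (p j)) ∧
  (∀ j < m, rtr (p j * Rs p j) ≤ (1 / 8) * rtr (p j)) ∧
  (∀ j < m, ∀ q, IsProj q → 0 < rtr q → En g q ≤ h * rtr q →
    rtr (q * Rs p j) ≤ (1 / 8) * rtr q →
    rtr (p j * (1 + Rs p j)) ≤ (1 + h) * rtr (q * (1 + Rs p j)))

theorem sysTheorem : SysTheorem := by
  intro S _ h hh d g hd
  -- bound on the length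
  have hbound : ∀ m p, PSys g h m p → m ≤ 3 * d := by
    intro m p hP
    have h1 := mass_le hP.1 hP.2.2.2.1
    have h2 : (m : ℝ) ≤ ∑ j ∈ Finset.range m, rtr (p j) := by
      calc (m : ℝ) = ∑ j ∈ Finset.range m, (1 : ℝ) := by simp
        _ ≤ _ := Finset.sum_le_sum fun j hj =>
          (hP.1 j (Finset.mem_range.1 hj)).one_le_rtr (hP.2.1 j (Finset.mem_range.1 hj))
    rw [Fintype.card_fin] at h1
    exact_mod_cast h2.trans h1
  have h0 : ∃ p, PSys g h 0 p :=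
    ⟨fun _ => 0, fun j hj => absurd hj (Nat.not_lt_zero j), fun j hj => absurd hj (Nat.not_lt_zero j),
      fun j hj => absurd hj (Nat.not_lt_zero j), fun j hj => absurd hj (Nat.not_lt_zero j),
      fun j hj => absurd hj (Nat.not_lt_zero j)⟩
  -- maximal length
  classical
  let m := Nat.findGreatest (fun m => ∃ p, PSys g h m p) (3 * d)
  obtain ⟨p, hp⟩ : ∃ p, PSys g h m p :=
    Nat.findGreatest_spec (P := fun m => ∃ p, PSys g h m p) (Nat.zero_le _) h0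
  have hmax : ∀ p', ¬ PSys g h (m + 1) p' := by
    intro p' hp'
    have h1 := hbound _ _ hp'
    exact Nat.findGreatest_is_greatest (P := fun m => ∃ p, PSys g h m p) (Nat.lt_succ_self m) h1
      ⟨p', hp'⟩
  refine ⟨⟨m, p, hp.1, hp.2.1, hp.2.2.1, hp.2.2.2.1, hp.2.2.2.2, ?_⟩⟩
  intro q hq hq0 hqE hqo
  -- candidates
  let I : Set ℝ := {x | ∃ q, IsProj q ∧ 0 < rtr q ∧ En g q ≤ h * rtr q ∧
    rtr (q * Rs p m) ≤ (1 / 8) * rtr q ∧ x = rtr (q * (1 + Rs p m))}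
  have hIne : I.Nonempty := ⟨_, q, hq, hq0, hqE, hqo, rfl⟩
  have hI1 : ∀ x ∈ I, 1 ≤ x := by
    rintro x ⟨q, hq, hq0, -, -, rfl⟩
    rw [Matrix.mul_add, Matrix.mul_one, rtr_add]
    have h1 := hq.one_le_rtr hq0
    have h2 := rtr_mul_nonneg hq.psd (Rs_psd hp.1 le_rfl)
    linarith
  have hInf : 1 ≤ sInf I := le_csInf hIne hI1
  obtain ⟨x, ⟨q₀, hq₀, hq₀0, hq₀E, hq₀o, rfl⟩, hx⟩ : ∃ x ∈ I, x < (1 + h) * sInf I := by
    apply exists_lt_of_csInf_lt hIne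
    nlinarith
  let p' : ℕ → Matrix (Fin d) (Fin d) ℂ := Function.update p m q₀
  have e1 : ∀ j < m, p j = p' j := fun j hj => (Function.update_of_ne (ne_of_lt hj) _ _).symm
  have e2 : p' m = q₀ := Function.update_self _ _ _
  have e3 : ∀ j ≤ m, Rs p j = Rs p' j := fun j hj => Rs_congr e1 hj
  apply hmax p'
  have key : ∀ j < m + 1, j < m ∨ j = m := fun j hj => lt_or_eq_of_le (Nat.lt_succ_iff.1 hj)
  refine ⟨?_, ?_, ?_, ?_, ?_⟩
  · intro j hj
    rcases key j hj with hj | rfl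
    · rw [← e1 j hj]; exact hp.1 j hj
    · rw [e2]; exact hq₀
  · intro j hj
    rcases key j hj with hj | rfl
    · rw [← e1 j hj]; exact hp.2.1 j hj
    · rw [e2]; exact hq₀0
  · intro j hj
    rcases key j hj with hj | rfl
    · rw [← e1 j hj]; exact hp.2.2.1 j hj
    · rw [e2]; exact hq₀E
  · intro j hj
    rcases key j hj with hj | rfl
    · rw [← e1 j hj, ← e3 j hj.le]; exact hp.2.2.2.1 j hj
    · rw [e2, ← e3 _ le_rfl]; exact hq₀o
  · intro j hj q' hq' hq'0 hq'E hq'o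
    rcases key j hj with hj | rfl
    · rw [← e3 j hj.le] at hq'o ⊢
      rw [← e1 j hj]
      exact hp.2.2.2.2 j hj q' hq' hq'0 hq'E hq'o
    · rw [← e3 _ le_rfl] at hq'o ⊢
      rw [e2]
      have h3 : sInf I ≤ rtr (q' * (1 + Rs p m)) :=
        csInf_le ⟨1, fun x hx => hI1 x hx⟩ ⟨q', hq', hq'0, hq'E, hq'o, rfl⟩
      have h4 : (1 + h) * sInf I ≤ (1 + h) * rtr (q' * (1 + Rs p m)) :=
        mul_le_mul_of_nonneg_left h3 (by linarith)
      exact (hx.le).trans h4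

end Pool.Agent.H51K
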