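import Pool.Agent.H51K.UIdent
import Pool.Agent.H51K.UPolar
import Pool.Agent.H51K.Iface
import Pool.Agent.H51K.Basic2

/-!
From `Core` to unitaries in `M_m(ℂ)` near the corners of the given ones; diagonal choice.
-/

set_option autoImplicit false
open Matrix Filter Topology
open scoped ComplexOrder MatrixOrder

namespace Pool.Agent.H51K.U

theorem exists_unitary_near3 {n : Type*} [Fintype n] [DecidableEq n] (A : Matrix n n ℂ) :
    ∃ V ∈ Matrix.unitaryGroup n ℂ, hs (A - V) ≤ 3 * hs (Aᴴ * A - 1) := by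
  rcases (hs_nonneg (Aᴴ * A - 1)).lt_or_eq with h | h
  · obtain ⟨V, hV, hV2⟩ := exists_unitary_near A h
    exact ⟨V, hV, hV2.trans (by linarith)⟩
  · have h1 := hs_eq_zero h.symm
    refine ⟨A, ?_, ?_⟩
    · rw [Matrix.mem_unitaryGroup_iff']
      exact sub_eq_zero.1 h1
    · rw [sub_self, hs_zero, ← h, mul_zero]

/-- diagonal choice of a sequence of tolerances -/
theorem diagonal {𝒰 : Ultrafilter ℕ} (hfree : (𝒰 : Filter ℕ) ≤ Filter.cofinite)
    (P : ℕ → ℝ → Prop) (hP : ∀ ε > 0, ∀ᶠ n in (𝒰 : Filter ℕ), P n ε) :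
    ∃ ε : ℕ → ℝ, (∀ n, 0 < ε n) ∧ Tendsto ε 𝒰 (𝓝 0) ∧ ∀ᶠ n in (𝒰 : Filter ℕ), P n (ε n) := by
  classical
  let K : ℕ → Finset ℕ := fun n => (Finset.range (n + 1)).filter (fun k => P n (1 / ((k : ℝ) + 1)))
  let kk : ℕ → ℕ := fun n => (K n).sup id
  have hkk : ∀ n, (K n).Nonempty → kk n ∈ K n := by
    intro n hn
    obtain ⟨i, hi, hi2⟩ := Finset.exists_mem_eq_sup (K n) hn id
    show (K n).sup id ∈ K n
    rw [hi2]; exact hi
  have hmem : ∀ k : ℕ, ∀ᶠ n in (𝒰 : Filter ℕ), k ∈ K n := by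
    intro k
    have h1 : ∀ᶠ n in (𝒰 : Filter ℕ), k ≤ n := by
      refine hfree ?_
      rw [Nat.cofinite_eq_atTop]
      exact eventually_ge_atTop k
    have h2 := hP (1 / ((k : ℝ) + 1)) (by positivity)
    filter_upwards [h1, h2] with n hn1 hn2
    exact Finset.mem_filter.2 ⟨Finset.mem_range.2 (by omega), hn2⟩
  refine ⟨fun n => 1 / ((kk n : ℝ) + 1), fun n => by positivity, ?_, ?_⟩
  · rw [Metric.tendsto_nhds]
    intro ε hε
    obtain ⟨k, hk⟩ := exists_nat_one_div_lt hε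
    filter_upwards [hmem k] with n hn
    have h1 : k ≤ kk n := Finset.le_sup (f := id) hn
    have h2 : (1 : ℝ) / ((kk n : ℝ) + 1) ≤ 1 / ((k : ℝ) + 1) := by
      have : (k : ℝ) ≤ kk n := by exact_mod_cast h1
      exact one_div_le_one_div_of_le (by positivity) (by linarith)
    rw [Real.dist_eq, sub_zero, abs_of_pos (by positivity)]
    exact h2.trans_lt hk
  · filter_upwards [hmem 0] with n hn
    exact (Finset.mem_filter.1 (hkk n ⟨0, hn⟩)).2

section
variable {S : Type} [Fintype S]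

theorem uH_mem {k : ℕ} {V : Mat k} (hV : V ∈ Matrix.unitaryGroup (Fin k) ℂ) :
    Vᴴ ∈ Matrix.unitaryGroup (Fin k) ℂ := by
  rw [Matrix.mem_unitaryGroup_iff, Matrix.star_eq_conjTranspose,
    Matrix.conjTranspose_conjTranspose]
  exact Matrix.mem_unitaryGroup_iff'.1 hV

theorem conj_unitary {k : ℕ} {V W : Mat k} (hV : V ∈ Matrix.unitaryGroup (Fin k) ℂ)
    (hW : W ∈ Matrix.unitaryGroup (Fin k) ℂ) :
    V * W * Vᴴ ∈ Matrix.unitaryGroup (Fin k) ℂ :=
  mul_mem (mul_mem hV hW) (uH_mem hV)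

theorem uH_mul {k : ℕ} {V : Mat k} (hV : V ∈ Matrix.unitaryGroup (Fin k) ℂ) : Vᴴ * V = 1 :=
  Matrix.mem_unitaryGroup_iff'.1 hV

theorem mul_uH {k : ℕ} {V : Mat k} (hV : V ∈ Matrix.unitaryGroup (Fin k) ℂ) : V * Vᴴ = 1 :=
  Matrix.mem_unitaryGroup_iff.1 hV

/-- from `Core` to unitaries near the corners of the given ones -/
theorem core_step {d : ℕ} (hd : 0 < d) {g : S → Mat d}
    (hg : ∀ s, g s ∈ Matrix.unitaryGroup (Fin d) ℂ) {C' ε : ℝ}
    (hε1 : ε ≤ 1 / 2) (h : Core g C' ε) :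
    ∃ (m : ℕ) (w : S → Mat m), 0 < m ∧ |(m : ℝ) - d| ≤ ε * d ∧
      (∀ s, w s ∈ Matrix.unitaryGroup (Fin m) ℂ) ∧
      (∀ s, hs (w s - corner d m (g s)) ≤ 400 * (ε * d)) ∧
      ∀ x : Mat m, xᴴ * x ≤ 1 → ∃ x' : Mat m, (∀ s, x' * w s = w s * x') ∧ x'ᴴ * x' ≤ 1 ∧
        hs (x - x') ≤ C' * En w x + ε * d := by
  obtain ⟨m, W, U, hW, hmd, hU, hUU, hUU', hE, hcom⟩ := h
  have hd' : (0 : ℝ) < d := by exact_mod_cast hd
  have hεd : 0 ≤ ε * d := (abs_nonneg _).trans hmd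
  have hm : 0 < m := by
    rcases Nat.eq_zero_or_pos m with h0 | h0
    · exfalso
      rw [h0, Nat.cast_zero, zero_sub, abs_neg, abs_of_pos hd'] at hmd
      nlinarith
    · exact h0
  -- the almost unitary `B = J U`
  obtain ⟨J, hJ⟩ : ∃ J, J = cut m d := ⟨_, rfl⟩
  have hJJ : Jᴴ * J ≤ 1 := by rw [hJ]; exact cutH_cut_le m d
  have hQ : hs (1 - Jᴴ * J) ≤ ε * d := by
    rw [hJ]; exact (hs_one_sub_cut m d).trans hmd
  have hUs : U * Uᴴ ≤ (2 : ℝ) • (1 : Mat d) := swap_bound two_pos hU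
  have hUs' : (Uᴴ)ᴴ * Uᴴ ≤ (2 : ℝ) • (1 : Mat d) := by
    rw [Matrix.conjTranspose_conjTranspose]; exact hUs
  obtain ⟨B, hB⟩ : ∃ B, B = J * U := ⟨_, rfl⟩
  have hBB : hs (Bᴴ * B - 1) ≤ 10 * (ε * d) := by
    have e : Bᴴ * B - 1 = (Uᴴ * U - 1) - Uᴴ * ((1 - Jᴴ * J) * U) := by
      rw [hB, Matrix.conjTranspose_mul]
      simp only [Matrix.mul_sub, Matrix.sub_mul, Matrix.one_mul, Matrix.mul_assoc]
      abel
    rw [e]
    have h1 := hs_sub_le (Uᴴ * U - 1) (Uᴴ * ((1 - Jᴴ * J) * U))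
    have h2 := hs_mul_le hUs' ((1 - Jᴴ * J) * U)
    have h3 := hs_mul_le' hUs (1 - Jᴴ * J)
    linarith
  have hBc : Bᴴ * B ≤ (2 : ℝ) • (1 : Mat m) := by
    have h1 := conj_mono hJJ U
    have e1 : Uᴴ * (Jᴴ * J) * U = Bᴴ * B := by
      rw [hB, Matrix.conjTranspose_mul]; simp only [Matrix.mul_assoc]
    rw [e1, Matrix.mul_one] at h1
    exact h1.trans hU
  obtain ⟨V, hV, hVB⟩ := exists_unitary_near3 B
  have hVB' : hs (V - B) ≤ 30 * (ε * d) := by
    rw [hs_sub_comm]; linarith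
  refine ⟨m, fun s => V * W s * Vᴴ, hm, hmd, fun s => conj_unitary hV (hW s), fun s => ?_, ?_⟩
  · have e : V * W s * Vᴴ - corner d m (g s) =
        ((V - B) * (W s * Vᴴ) + B * (W s * (V - B)ᴴ)) +
          (J * ((U * W s - g s * U) * Bᴴ) + J * (g s * ((U * Uᴴ - 1) * Jᴴ))) := by
      rw [corner_eq, ← hJ, hB, Matrix.conjTranspose_sub, Matrix.conjTranspose_mul]
      simp only [Matrix.mul_sub, Matrix.sub_mul, Matrix.one_mul, Matrix.mul_assoc]
      abel
    show hs (V * W s * Vᴴ - corner d m (g s)) ≤ _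
    rw [e]
    have hWV : W s * Vᴴ ∈ Matrix.unitaryGroup (Fin m) ℂ := mul_mem (hW s) (uH_mem hV)
    have h1 : hs ((V - B) * (W s * Vᴴ)) = hs (V - B) := hs_mul_unitary hWV _
    have h2 : hs (B * (W s * (V - B)ᴴ)) ≤ 2 * hs (V - B) := by
      refine (hs_mul_le hBc _).trans (le_of_eq ?_)
      rw [hs_unitary_mul (hW s), hs_conjTranspose]
    have hJ1 : Jᴴ * J ≤ (1 : ℝ) • (1 : Mat d) := by rw [one_smul]; exact hJJ
    have h3 : hs (J * ((U * W s - g s * U) * Bᴴ)) ≤ 2 * (ε * d) := by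
      have ha := hs_mul_le hJ1 ((U * W s - g s * U) * Bᴴ)
      have hb : hs ((U * W s - g s * U) * Bᴴ) ≤ 2 * hs (U * W s - g s * U) := by
        refine hs_mul_le' ?_ _
        rw [Matrix.conjTranspose_conjTranspose]; exact hBc
      have hc : hs (U * W s - g s * U) ≤ ε * d := by
        rw [hs_sub_comm]
        refine le_trans ?_ hE
        exact Finset.single_le_sum (f := fun s => hs (g s * U - U * W s))
          (fun i _ => hs_nonneg _) (Finset.mem_univ s)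
      linarith
    have h4 : hs (J * (g s * ((U * Uᴴ - 1) * Jᴴ))) ≤ ε * d := by
      have ha := hs_mul_le hJ1 (g s * ((U * Uᴴ - 1) * Jᴴ))
      rw [hs_unitary_mul (hg s)] at ha
      have hb : hs ((U * Uᴴ - 1) * Jᴴ) ≤ 1 * hs (U * Uᴴ - 1) := by
        refine hs_mul_le' ?_ _
        rw [Matrix.conjTranspose_conjTranspose]; exact hJ1
      linarith
    have k1 := hs_add_le ((V - B) * (W s * Vᴴ) + B * (W s * (V - B)ᴴ))
      (J * ((U * W s - g s * U) * Bᴴ) + J * (g s * ((U * Uᴴ - 1) * Jᴴ)))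
    have k2 := hs_add_le ((V - B) * (W s * Vᴴ)) (B * (W s * (V - B)ᴴ))
    have k3 := hs_add_le (J * ((U * W s - g s * U) * Bᴴ)) (J * (g s * ((U * Uᴴ - 1) * Jᴴ)))
    linarith
  · intro x hx
    have hV1 := uH_mul hV
    have hV2 := mul_uH hV
    have hy : (Vᴴ * x * V)ᴴ * (Vᴴ * x * V) ≤ 1 := by
      have e : (Vᴴ * x * V)ᴴ * (Vᴴ * x * V) = Vᴴ * (xᴴ * x) * V := by
        rw [Matrix.conjTranspose_mul, Matrix.conjTranspose_mul, Matrix.conjTranspose_conjTranspose]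
        calc Vᴴ * (xᴴ * V) * (Vᴴ * x * V) = Vᴴ * (xᴴ * ((V * Vᴴ) * (x * V))) := by
              simp only [Matrix.mul_assoc]
          _ = Vᴴ * (xᴴ * x) * V := by rw [hV2, Matrix.one_mul]; simp only [Matrix.mul_assoc]
      rw [e]
      have := conj_mono hx V
      rwa [Matrix.mul_one, hV1] at this
    obtain ⟨y', hy1, hy2, hy3⟩ := hcom _ hy
    refine ⟨V * y' * Vᴴ, fun s => ?_, ?_, ?_⟩
    · calc V * y' * Vᴴ * (V * W s * Vᴴ) = V * (y' * ((Vᴴ * V) * (W s * Vᴴ))) := by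
            simp only [Matrix.mul_assoc]
        _ = V * ((y' * W s) * Vᴴ) := by rw [hV1, Matrix.one_mul]; simp only [Matrix.mul_assoc]
        _ = V * ((W s * y') * Vᴴ) := by rw [hy1 s]
        _ = V * (W s * ((Vᴴ * V) * (y' * Vᴴ))) := by
            rw [hV1, Matrix.one_mul]; simp only [Matrix.mul_assoc]
        _ = V * W s * Vᴴ * (V * y' * Vᴴ) := by simp only [Matrix.mul_assoc]
    · have e : (V * y' * Vᴴ)ᴴ * (V * y' * Vᴴ) = V * (y'ᴴ * y') * Vᴴ := by
        rw [Matrix.conjTranspose_mul, Matrix.conjTranspose_mul, Matrix.conjTranspose_conjTranspose]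
        calc V * (y'ᴴ * Vᴴ) * (V * y' * Vᴴ) = V * (y'ᴴ * ((Vᴴ * V) * (y' * Vᴴ))) := by
              simp only [Matrix.mul_assoc]
          _ = V * (y'ᴴ * y') * Vᴴ := by rw [hV1, Matrix.one_mul]; simp only [Matrix.mul_assoc]
      rw [e]
      have := conj_mono' hy2 V
      rwa [Matrix.mul_one, hV2] at this
    · have hVs : Vᴴ ∈ Matrix.unitaryGroup (Fin m) ℂ := uH_mem hV
      have e1 : hs (x - V * y' * Vᴴ) = hs (Vᴴ * x * V - y') := by
        have : Vᴴ * x * V - y' = Vᴴ * ((x - V * y' * Vᴴ) * V) := by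
          rw [Matrix.sub_mul, Matrix.mul_sub]
          have e2 : Vᴴ * (V * y' * Vᴴ * V) = y' := by
            calc Vᴴ * (V * y' * Vᴴ * V) = (Vᴴ * V) * y' * (Vᴴ * V) := by
                  simp only [Matrix.mul_assoc]
              _ = y' := by rw [hV1, Matrix.one_mul, Matrix.mul_one]
          rw [e2, Matrix.mul_assoc]
        rw [this, hs_unitary_mul hVs, hs_mul_unitary hV]
      have e2 : En (fun s => V * W s * Vᴴ) x = En W (Vᴴ * x * V) := by
        unfold En EnR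
        refine Finset.sum_congr rfl fun s _ => ?_
        have : W s * (Vᴴ * x * V) - Vᴴ * x * V * W s =
            Vᴴ * ((V * W s * Vᴴ * x - x * (V * W s * Vᴴ)) * V) := by
          rw [Matrix.sub_mul, Matrix.mul_sub]
          have e3 : Vᴴ * (V * W s * Vᴴ * x * V) = W s * (Vᴴ * x * V) := by
            calc Vᴴ * (V * W s * Vᴴ * x * V) = (Vᴴ * V) * (W s * (Vᴴ * x * V)) := by
                  simp only [Matrix.mul_assoc]
              _ = _ := by rw [hV1, Matrix.one_mul]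
          have e4 : Vᴴ * (x * (V * W s * Vᴴ) * V) = Vᴴ * x * V * W s := by
            calc Vᴴ * (x * (V * W s * Vᴴ) * V) = Vᴴ * x * V * W s * (Vᴴ * V) := by
                  simp only [Matrix.mul_assoc]
              _ = _ := by rw [hV1, Matrix.mul_one]
          rw [e3, e4]
        rw [this, hs_unitary_mul hVs, hs_mul_unitary hV]
      rw [e1, e2]
      exact hy3

end

end Pool.Agent.H51K.U
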