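import Pool.Agent.H51K.Basic
import Pool.Agent.H51K.KazDefs

/-!
The tracial matrix ultraproduct: definitions.
-/

set_option autoImplicit false
open Matrix Filter Topology
open scoped ComplexOrder MatrixOrder Matrix.Norms.L2Operator

namespace Pool.Agent.H51K.U

/-- `M_k(ℂ)` -/
abbrev Mat (k : ℕ) : Type := Matrix (Fin k) (Fin k) ℂ

/-- the operator norm on `M_k(ℂ)` -/
noncomputable def opNorm {k : ℕ} (x : Mat k) : ℝ := ‖x‖

/-- the normalised 2-norm `tr(x* x)^{1/2}` on `M_k(ℂ)`, `tr` the normalised trace -/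
noncomputable def nrm2 {k : ℕ} (x : Mat k) : ℝ := Real.sqrt ((Matrix.trace (xᴴ * x)).re / k)

/-- the sequence `(x_n)`, `x_n ∈ M_{k_n}(ℂ)`, is bounded in the operator norm -/
def IsBdd {k : ℕ → ℕ} (x : ∀ n, Mat (k n)) : Prop := ∃ K : ℝ, ∀ n, opNorm (x n) ≤ K

theorem isBdd_mul {k : ℕ → ℕ} {x y : ∀ n, Mat (k n)} (hx : IsBdd x) (hy : IsBdd y) :
    IsBdd (x * y) := by
  obtain ⟨K, hK⟩ := hx
  obtain ⟨L, hL⟩ := hy
  refine ⟨|K| * |L|, fun n => ?_⟩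
  exact (norm_mul_le _ _).trans (mul_le_mul ((hK n).trans (le_abs_self _))
    ((hL n).trans (le_abs_self _)) (norm_nonneg _) (abs_nonneg _))

theorem isBdd_add {k : ℕ → ℕ} {x y : ∀ n, Mat (k n)} (hx : IsBdd x) (hy : IsBdd y) :
    IsBdd (x + y) := by
  obtain ⟨K, hK⟩ := hx
  obtain ⟨L, hL⟩ := hy
  exact ⟨K + L, fun n => (norm_add_le _ _).trans (add_le_add (hK n) (hL n))⟩

theorem isBdd_neg {k : ℕ → ℕ} {x : ∀ n, Mat (k n)} (hx : IsBdd x) : IsBdd (-x) := by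
  obtain ⟨K, hK⟩ := hx
  refine ⟨K, fun n => ?_⟩
  show ‖-(x n)‖ ≤ K
  rw [norm_neg]
  exact hK n

theorem isBdd_zero (k : ℕ → ℕ) : IsBdd (0 : ∀ n, Mat (k n)) :=
  ⟨0, fun n => by show ‖(0 : Mat (k n))‖ ≤ 0; rw [norm_zero]⟩

theorem isBdd_one (k : ℕ → ℕ) : IsBdd (1 : ∀ n, Mat (k n)) := by
  refine ⟨1, fun n => ?_⟩
  show ‖(1 : Mat (k n))‖ ≤ 1
  rcases isEmpty_or_nonempty (Fin (k n)) with h | h
  · have : (1 : Mat (k n)) = 0 := Subsingleton.elim _ _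
    rw [this, norm_zero]
    exact zero_le_one
  · rw [norm_one]

theorem isBdd_star {k : ℕ → ℕ} {x : ∀ n, Mat (k n)} (hx : IsBdd x) :
    IsBdd (fun n => (x n)ᴴ) := by
  obtain ⟨K, hK⟩ := hx
  refine ⟨K, fun n => ?_⟩
  show ‖(x n)ᴴ‖ ≤ K
  rw [Matrix.l2_opNorm_conjTranspose]
  exact hK n

/-- the norm bounded sequences form a ring (with the entrywise operations) -/
def bddSubring (k : ℕ → ℕ) : Subring (∀ n, Mat (k n)) where
  carrier := {x | IsBdd x}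
  mul_mem' := isBdd_mul
  add_mem' := isBdd_add
  neg_mem' := isBdd_neg
  one_mem' := isBdd_one k
  zero_mem' := isBdd_zero k

/-- the norm bounded sequences `(x_n)`, `x_n ∈ M_{k_n}(ℂ)` -/
def Bdd (k : ℕ → ℕ) : Type := bddSubring k

/-- the `n`-th entry of a sequence -/
def Bdd.at {k : ℕ → ℕ} (x : Bdd k) (n : ℕ) : Mat (k n) := x.1 n

/-- ring structure with entrywise operations -/
noncomputable instance instRingBdd (k : ℕ → ℕ) : Ring (Bdd k) := (bddSubring k).toRing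

/-- the entrywise adjoint -/
def Bdd.adj {k : ℕ → ℕ} (x : Bdd k) : Bdd k := ⟨fun n => (x.at n)ᴴ, isBdd_star x.2⟩

theorem Bdd.ext {k : ℕ → ℕ} {x y : Bdd k} (h : ∀ n, x.at n = y.at n) : x = y :=
  Subtype.ext (funext h)

theorem at_mul {k : ℕ → ℕ} (x y : Bdd k) (n : ℕ) : (x * y).at n = x.at n * y.at n := rfl
theorem at_add {k : ℕ → ℕ} (x y : Bdd k) (n : ℕ) : (x + y).at n = x.at n + y.at n := rfl
theorem at_sub {k : ℕ → ℕ} (x y : Bdd k) (n : ℕ) : (x - y).at n = x.at n - y.at n := rfl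
theorem at_one {k : ℕ → ℕ} (n : ℕ) : (1 : Bdd k).at n = 1 := rfl
theorem at_zero {k : ℕ → ℕ} (n : ℕ) : (0 : Bdd k).at n = 0 := rfl
theorem at_adj {k : ℕ → ℕ} (x : Bdd k) (n : ℕ) : x.adj.at n = (x.at n)ᴴ := rfl

theorem adj_adj {k : ℕ → ℕ} (x : Bdd k) : x.adj.adj = x :=
  Bdd.ext fun n => by rw [at_adj, at_adj, Matrix.conjTranspose_conjTranspose]

theorem adj_mul {k : ℕ → ℕ} (x y : Bdd k) : (x * y).adj = y.adj * x.adj :=
  Bdd.ext fun n => by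
    rw [at_adj, at_mul, at_mul, at_adj, at_adj, Matrix.conjTranspose_mul]

theorem adj_add {k : ℕ → ℕ} (x y : Bdd k) : (x + y).adj = x.adj + y.adj :=
  Bdd.ext fun n => by
    rw [at_adj, at_add, at_add, at_adj, at_adj, Matrix.conjTranspose_add]

theorem bound {k : ℕ → ℕ} (x : Bdd k) : ∃ K : ℝ, ∀ n, ‖x.at n‖ ≤ K := x.2

/-! ### norms -/

theorem contr_of_norm {k : ℕ} {x : Mat k} {K : ℝ} (h : ‖x‖ ≤ K) :
    xᴴ * x ≤ (K ^ 2) • (1 : Mat k) := by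
  have h1 : star x * x ≤ algebraMap ℝ (Mat k) (‖x‖ ^ 2) :=
    CStarAlgebra.star_mul_le_algebraMap_norm_sq
  have h2 : algebraMap ℝ (Mat k) (‖x‖ ^ 2) ≤ algebraMap ℝ (Mat k) (K ^ 2) := by
    rw [Algebra.algebraMap_eq_smul_one, Algebra.algebraMap_eq_smul_one]
    refine smul_le_smul_of_nonneg_right (pow_le_pow_left₀ (norm_nonneg _) h 2) ?_
    exact Matrix.nonneg_iff_posSemidef.2 Matrix.PosSemidef.one
  have h3 := h1.trans h2
  rwa [Algebra.algebraMap_eq_smul_one] at h3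

theorem norm_of_contr {k : ℕ} {x : Mat k} {K : ℝ} (hK : 0 ≤ K)
    (h : xᴴ * x ≤ (K ^ 2) • (1 : Mat k)) : ‖x‖ ≤ K := by
  have h0 : (0 : Mat k) ≤ star x * x := star_mul_self_nonneg x
  have h1 : star x * x ≤ algebraMap ℝ (Mat k) (K ^ 2) := by
    rw [Algebra.algebraMap_eq_smul_one]; exact h
  have h2 := (CStarAlgebra.norm_le_iff_le_algebraMap (star x * x) (sq_nonneg K) h0).2 h1
  rw [CStarRing.norm_star_mul_self] at h2
  nlinarith [norm_nonneg x]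

theorem nrm2_sq {k : ℕ} (x : Mat k) : nrm2 x ^ 2 = hs x / k := by
  unfold nrm2
  rw [Real.sq_sqrt]
  · rfl
  · exact div_nonneg (hs_nonneg x) (Nat.cast_nonneg _)

theorem tendsto_nrm2_iff {𝒰 : Ultrafilter ℕ} {k : ℕ → ℕ} (x : ∀ n, Mat (k n)) :
    Tendsto (fun n => nrm2 (x n)) 𝒰 (𝓝 0) ↔ Tendsto (fun n => hs (x n) / k n) 𝒰 (𝓝 0) := by
  constructor
  · intro h
    have := h.pow 2
    simpa [nrm2_sq] using this
  · intro h
    have := (Real.continuous_sqrt.tendsto 0).comp h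
    rw [Real.sqrt_zero] at this
    exact this

/-- squeeze -/
theorem tendsto_hs_of_le {𝒰 : Ultrafilter ℕ} {k : ℕ → ℕ} {a b : ℕ → ℝ} (ha : ∀ n, 0 ≤ a n)
    (K : ℝ) (hab : ∀ n, a n ≤ K * b n) (hb : Tendsto (fun n => b n / k n) 𝒰 (𝓝 0)) :
    Tendsto (fun n => a n / k n) 𝒰 (𝓝 0) := by
  have h1 : Tendsto (fun n => K * (b n / k n)) 𝒰 (𝓝 0) := by
    simpa using hb.const_mul K
  refine squeeze_zero (fun n => div_nonneg (ha n) (Nat.cast_nonneg _)) (fun n => ?_) h1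
  rw [← mul_div_assoc]
  exact div_le_div_of_nonneg_right (hab n) (Nat.cast_nonneg _)

/-- `lim_𝒰 ‖x_n‖₂ = 0` -/
def IsNull (𝒰 : Ultrafilter ℕ) {k : ℕ → ℕ} (x : Bdd k) : Prop :=
  Tendsto (fun n => nrm2 (x.at n)) 𝒰 (𝓝 0)

theorem isNull_iff {𝒰 : Ultrafilter ℕ} {k : ℕ → ℕ} (x : Bdd k) :
    IsNull 𝒰 x ↔ Tendsto (fun n => hs (x.at n) / k n) 𝒰 (𝓝 0) := tendsto_nrm2_iff _

theorem isNull_add {𝒰 : Ultrafilter ℕ} {k : ℕ → ℕ} {x y : Bdd k} (hx : IsNull 𝒰 x)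
    (hy : IsNull 𝒰 y) : IsNull 𝒰 (x + y) := by
  rw [isNull_iff] at *
  have h : Tendsto (fun n => (hs (x.at n) + hs (y.at n)) / k n) 𝒰 (𝓝 0) := by
    simpa [add_div] using hx.add hy
  refine tendsto_hs_of_le (fun n => hs_nonneg _) 2 (fun n => ?_) h
  rw [at_add]
  exact (hs_add_le _ _).trans (le_of_eq (by ring))

theorem isNull_zero (𝒰 : Ultrafilter ℕ) (k : ℕ → ℕ) : IsNull 𝒰 (0 : Bdd k) := by
  rw [isNull_iff]
  simp only [at_zero, hs_zero, zero_div]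
  exact tendsto_const_nhds

theorem isNull_mul {𝒰 : Ultrafilter ℕ} {k : ℕ → ℕ} (x : Bdd k) {y : Bdd k}
    (hy : IsNull 𝒰 y) : IsNull 𝒰 (x * y) := by
  rw [isNull_iff] at *
  obtain ⟨K, hK⟩ := bound x
  refine tendsto_hs_of_le (fun n => hs_nonneg _) (K ^ 2) (fun n => ?_) hy
  rw [at_mul]
  exact hs_mul_le (contr_of_norm (hK n)) _

theorem isNull_mul' {𝒰 : Ultrafilter ℕ} {k : ℕ → ℕ} {x : Bdd k} (y : Bdd k)
    (hx : IsNull 𝒰 x) : IsNull 𝒰 (x * y) := by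
  rw [isNull_iff] at *
  obtain ⟨K, hK⟩ := bound y
  refine tendsto_hs_of_le (fun n => hs_nonneg _) (K ^ 2) (fun n => ?_) hx
  have h1 : ‖(y.at n)ᴴ‖ ≤ K := by
    rw [Matrix.l2_opNorm_conjTranspose]; exact hK n
  have h2 := contr_of_norm h1
  rw [Matrix.conjTranspose_conjTranspose] at h2
  rw [at_mul]
  exact hs_mul_le' h2 _

theorem isNull_adj {𝒰 : Ultrafilter ℕ} {k : ℕ → ℕ} {x : Bdd k} (hx : IsNull 𝒰 x) :
    IsNull 𝒰 x.adj := by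
  rw [isNull_iff] at *
  refine hx.congr (fun n => ?_)
  rw [at_adj, hs_conjTranspose]

/-- the two-sided ideal of the bounded sequences with `lim_𝒰 ‖x_n‖₂ = 0` -/
noncomputable def Null (𝒰 : Ultrafilter ℕ) (k : ℕ → ℕ) : Ideal (Bdd k) where
  carrier := {x | IsNull 𝒰 x}
  add_mem' := isNull_add
  zero_mem' := isNull_zero 𝒰 k
  smul_mem' := isNull_mul

instance instTwoSided (𝒰 : Ultrafilter ℕ) (k : ℕ → ℕ) : (Null 𝒰 k).IsTwoSided where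
  mul_mem_of_left := isNull_mul'

/-- The tracial ultraproduct `∏_𝒰 M_{k_n}(ℂ)`. -/
def Ultra (𝒰 : Ultrafilter ℕ) (k : ℕ → ℕ) : Type := Bdd k ⧸ Null 𝒰 k

/-- the quotient ring structure -/
noncomputable instance instRingUltra (𝒰 : Ultrafilter ℕ) (k : ℕ → ℕ) : Ring (Ultra 𝒰 k) :=
  Ideal.Quotient.ring (Null 𝒰 k)

/-- the class of a bounded sequence -/
noncomputable def cls (𝒰 : Ultrafilter ℕ) {k : ℕ → ℕ} (x : Bdd k) : Ultra 𝒰 k :=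
  Ideal.Quotient.mk (Null 𝒰 k) x

theorem cls_surjective {𝒰 : Ultrafilter ℕ} {k : ℕ → ℕ} (x : Ultra 𝒰 k) :
    ∃ y : Bdd k, cls 𝒰 y = x :=
  Ideal.Quotient.mk_surjective x

theorem cls_mul {𝒰 : Ultrafilter ℕ} {k : ℕ → ℕ} (x y : Bdd k) :
    cls 𝒰 (x * y) = cls 𝒰 x * cls 𝒰 y := rfl

theorem cls_add {𝒰 : Ultrafilter ℕ} {k : ℕ → ℕ} (x y : Bdd k) :
    cls 𝒰 (x + y) = cls 𝒰 x + cls 𝒰 y := rfl

theorem cls_one (𝒰 : Ultrafilter ℕ) (k : ℕ → ℕ) : cls 𝒰 (1 : Bdd k) = 1 := rfl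

theorem cls_eq_iff {𝒰 : Ultrafilter ℕ} {k : ℕ → ℕ} {x y : Bdd k} :
    cls 𝒰 x = cls 𝒰 y ↔ IsNull 𝒰 (x - y) := Ideal.Quotient.eq

theorem cls_eq {𝒰 : Ultrafilter ℕ} {k : ℕ → ℕ} {x y : Bdd k} :
    cls 𝒰 x = cls 𝒰 y ↔ Tendsto (fun n => hs (x.at n - y.at n) / k n) 𝒰 (𝓝 0) := by
  rw [cls_eq_iff, isNull_iff]
  simp only [at_sub]

/-- a map defined on classes of sequences -/
noncomputable def Ultra.lift {𝒰 : Ultrafilter ℕ} {k : ℕ → ℕ} {R : Type} (f : Bdd k → R)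
    (h : ∀ x y, cls 𝒰 x = cls 𝒰 y → f x = f y) (a : Ultra 𝒰 k) : R :=
  Quotient.lift f (fun x y hxy => h x y (Quotient.sound hxy)) a

theorem lift_cls {𝒰 : Ultrafilter ℕ} {k : ℕ → ℕ} {R : Type} (f : Bdd k → R)
    (h : ∀ x y, cls 𝒰 x = cls 𝒰 y → f x = f y) (x : Bdd k) :
    Ultra.lift f h (cls 𝒰 x) = f x := rfl

theorem cls_adj_eq {𝒰 : Ultrafilter ℕ} {k : ℕ → ℕ} (x y : Bdd k)
    (h : cls 𝒰 x = cls 𝒰 y) : cls 𝒰 x.adj = cls 𝒰 y.adj := by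
  rw [cls_eq] at *
  refine h.congr (fun n => ?_)
  rw [at_adj, at_adj, ← Matrix.conjTranspose_sub, hs_conjTranspose]

/-- the adjoint of a class of sequences is the class of the adjoint sequence -/
noncomputable def Ultra.adj {𝒰 : Ultrafilter ℕ} {k : ℕ → ℕ} (a : Ultra 𝒰 k) : Ultra 𝒰 k :=
  Ultra.lift (fun x => cls 𝒰 x.adj) cls_adj_eq a

theorem adj_cls {𝒰 : Ultrafilter ℕ} {k : ℕ → ℕ} (x : Bdd k) :
    (cls 𝒰 x).adj = cls 𝒰 x.adj := rfl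

theorem ultra_adj_adj {𝒰 : Ultrafilter ℕ} {k : ℕ → ℕ} (a : Ultra 𝒰 k) : a.adj.adj = a := by
  obtain ⟨x, rfl⟩ := cls_surjective a
  rw [adj_cls, adj_cls, adj_adj]

theorem ultra_adj_mul {𝒰 : Ultrafilter ℕ} {k : ℕ → ℕ} (a b : Ultra 𝒰 k) :
    (a * b).adj = b.adj * a.adj := by
  obtain ⟨x, rfl⟩ := cls_surjective a
  obtain ⟨y, rfl⟩ := cls_surjective b
  rw [← cls_mul, adj_cls, adj_mul, cls_mul, adj_cls, adj_cls]

theorem ultra_adj_add {𝒰 : Ultrafilter ℕ} {k : ℕ → ℕ} (a b : Ultra 𝒰 k) :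
    (a + b).adj = a.adj + b.adj := by
  obtain ⟨x, rfl⟩ := cls_surjective a
  obtain ⟨y, rfl⟩ := cls_surjective b
  rw [← cls_add, adj_cls, adj_add, cls_add, adj_cls, adj_cls]

/-- the involution of the ultraproduct -/
noncomputable instance instStarRingUltra (𝒰 : Ultrafilter ℕ) (k : ℕ → ℕ) :
    StarRing (Ultra 𝒰 k) where
  star := Ultra.adj
  star_involutive := ultra_adj_adj
  star_mul := ultra_adj_mul
  star_add := ultra_adj_add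

theorem star_cls {𝒰 : Ultrafilter ℕ} {k : ℕ → ℕ} (x : Bdd k) :
    star (cls 𝒰 x) = cls 𝒰 x.adj := rfl

end Pool.Agent.H51K.U
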