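import Pool.Agent.H51K.UCore

/-!
The final theorem, from `CoreTheorem` and `KazTheorem`.
-/

set_option autoImplicit false
open Matrix Filter Topology
open scoped ComplexOrder MatrixOrder Matrix.Norms.L2Operator

namespace Pool.Agent.H51K.U

theorem exists_ofNorm {k : ℕ → ℕ} (x : ∀ n, Mat (k n)) (K : ℝ) (h : ∀ n, ‖x n‖ ≤ K) :
    ∃ X : Bdd k, ∀ n, X.at n = x n := ⟨⟨x, K, h⟩, fun _ => rfl⟩

theorem norm_le_one_of_contr {k : ℕ} {x : Mat k} (h : xᴴ * x ≤ 1) : ‖x‖ ≤ 1 :=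
  norm_of_contr zero_le_one (by rw [one_pow, one_smul]; exact h)

theorem exists_ofUnitary {k : ℕ → ℕ} (x : ∀ n, Mat (k n))
    (h : ∀ n, x n ∈ Matrix.unitaryGroup (Fin (k n)) ℂ) :
    ∃ X : Bdd k, ∀ n, X.at n = x n :=
  exists_ofNorm x 1 (fun n => norm_le_one_of_contr (uH_mul (h n)).le)

theorem cls_mul_eq {𝒰 : Ultrafilter ℕ} {k : ℕ → ℕ} {x y z : Bdd k}
    (h : cls 𝒰 x * cls 𝒰 y = cls 𝒰 z) :
    Tendsto (fun n => hs (x.at n * y.at n - z.at n) / k n) 𝒰 (𝓝 0) := by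
  rw [← cls_mul] at h
  have h2 := cls_eq.1 h
  simp only [at_mul] at h2
  exact h2

theorem cls_comm_eq {𝒰 : Ultrafilter ℕ} {k : ℕ → ℕ} {x y : Bdd k}
    (h : cls 𝒰 x * cls 𝒰 y = cls 𝒰 y * cls 𝒰 x) :
    Tendsto (fun n => hs (x.at n * y.at n - y.at n * x.at n) / k n) 𝒰 (𝓝 0) := by
  rw [← cls_mul, ← cls_mul] at h
  have h2 := cls_eq.1 h
  simp only [at_mul] at h2
  exact h2

/-- unitaries of the ultraproduct lift to sequences of unitaries -/
theorem exists_unitary_lift {𝒰 : Ultrafilter ℕ} {d : ℕ → ℕ} (x : Ultra 𝒰 d)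
    (hx : star x * x = 1) :
    ∃ u : Bdd d, (∀ n, u.at n ∈ Matrix.unitaryGroup (Fin (d n)) ℂ) ∧ cls 𝒰 u = x := by
  obtain ⟨X, rfl⟩ := cls_surjective x
  rw [star_cls, ← cls_one] at hx
  have hx2 := cls_mul_eq hx
  simp only [at_adj, at_one] at hx2
  choose V hV hV2 using fun n => exists_unitary_near3 (X.at n)
  obtain ⟨u, hu⟩ := exists_ofUnitary V hV
  refine ⟨u, fun n => by rw [hu]; exact hV n, ?_⟩
  rw [eq_comm, cls_eq]
  refine tendsto_hs_of_le (fun n => hs_nonneg _) 3 (fun n => ?_) hx2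
  rw [hu]
  exact hV2 n

/-- a sequence almost commuting with the `g s` is equivalent to an exactly commuting one -/
theorem commutant_lift {𝒰 : Ultrafilter ℕ} {m : ℕ → ℕ} {S : Type} [Fintype S]
    (g : S → Bdd m) {C' : ℝ} (δ : ℕ → ℝ) (hδ : Tendsto (fun n => δ n / m n) 𝒰 (𝓝 0))
    (happ : ∀ᶠ n in (𝒰 : Filter ℕ), ∀ x : Mat (m n), xᴴ * x ≤ 1 →
      ∃ x' : Mat (m n), (∀ s, x' * (g s).at n = (g s).at n * x') ∧ x'ᴴ * x' ≤ 1 ∧
        hs (x - x') ≤ C' * En (fun s => (g s).at n) x + δ n)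
    (X : Bdd m) (hX : ∀ s, cls 𝒰 (g s) * cls 𝒰 X = cls 𝒰 X * cls 𝒰 (g s)) :
    ∃ Y : Bdd m, (∀ n, ∀ s, Y.at n * (g s).at n = (g s).at n * Y.at n) ∧ cls 𝒰 Y = cls 𝒰 X := by
  classical
  obtain ⟨K0, hK0⟩ := bound X
  obtain ⟨K, hKd⟩ : ∃ K : ℝ, K = max K0 1 := ⟨_, rfl⟩
  have hK1 : 0 < K := by rw [hKd]; exact lt_of_lt_of_le one_pos (le_max_right _ _)
  have hXK : ∀ n, ‖X.at n‖ ≤ K := fun n => (hK0 n).trans (by rw [hKd]; exact le_max_left _ _)
  have hcomm : ∀ s : S, Tendsto (fun n => hs ((g s).at n * X.at n - X.at n * (g s).at n) / m n) 𝒰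
      (𝓝 0) := fun s => cls_comm_eq (hX s)
  have hcsum : Tendsto (fun n => (∑ s : S, hs ((g s).at n * X.at n - X.at n * (g s).at n)) / m n) 𝒰
      (𝓝 0) := by
    have := tendsto_finsetSum (Finset.univ : Finset S) (fun s _ => hcomm s)
    simp only [Finset.sum_const_zero] at this
    refine this.congr (fun n => ?_)
    rw [Finset.sum_div]
  have hapx : ∀ n, ∃ y : Mat (m n), (∀ s, y * (g s).at n = (g s).at n * y) ∧ yᴴ * y ≤ 1 ∧
      ((∀ x : Mat (m n), xᴴ * x ≤ 1 →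
        ∃ x' : Mat (m n), (∀ s, x' * (g s).at n = (g s).at n * x') ∧ x'ᴴ * x' ≤ 1 ∧
        hs (x - x') ≤ C' * En (fun s => (g s).at n) x + δ n) →
        hs (X.at n - K • y) ≤ C' * (∑ s : S, hs ((g s).at n * X.at n - X.at n * (g s).at n)) +
          K ^ 2 * δ n) := by
    intro n
    by_cases h : (∀ x : Mat (m n), xᴴ * x ≤ 1 →
        ∃ x' : Mat (m n), (∀ s, x' * (g s).at n = (g s).at n * x') ∧ x'ᴴ * x' ≤ 1 ∧
        hs (x - x') ≤ C' * En (fun s => (g s).at n) x + δ n)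
    · have hc : (K⁻¹ • X.at n)ᴴ * (K⁻¹ • X.at n) ≤ 1 := by
        have h1 : ‖K⁻¹ • X.at n‖ ≤ 1 := by
          refine (norm_smul_le _ _).trans ?_
          rw [Real.norm_eq_abs, abs_of_pos (inv_pos.2 hK1)]
          have := mul_le_mul_of_nonneg_left (hXK n) (inv_pos.2 hK1).le
          rwa [inv_mul_cancel₀ hK1.ne'] at this
        have h2 := contr_of_norm h1
        rwa [one_pow, one_smul] at h2
      obtain ⟨y, hy1, hy2, hy3⟩ := h _ hc
      refine ⟨y, hy1, hy2, fun _ => ?_⟩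
      have e1 : X.at n - K • y = K • (K⁻¹ • X.at n - y) := by
        rw [smul_sub, smul_smul, mul_inv_cancel₀ hK1.ne', one_smul]
      have e2 : En (fun s => (g s).at n) (K⁻¹ • X.at n) =
          (K⁻¹) ^ 2 * ∑ s : S, hs ((g s).at n * X.at n - X.at n * (g s).at n) := by
        unfold En EnR
        rw [Finset.mul_sum]
        refine Finset.sum_congr rfl fun s _ => ?_
        rw [← hs_smul, smul_sub, Matrix.mul_smul, Matrix.smul_mul]
      rw [e1, hs_smul]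
      rw [e2] at hy3
      have h3 := mul_le_mul_of_nonneg_left hy3 (sq_nonneg K)
      refine h3.trans (le_of_eq ?_)
      have hKne : K ≠ 0 := hK1.ne'
      field_simp
    · refine ⟨0, fun s => by rw [Matrix.zero_mul, Matrix.mul_zero], ?_, fun h' => absurd h' h⟩
      rw [Matrix.mul_zero]
      exact Matrix.nonneg_iff_posSemidef.2 Matrix.PosSemidef.one
  choose y hy1 hy2 hy3 using hapx
  obtain ⟨Y, hY⟩ := exists_ofNorm (fun n => K • y n) K (fun n => by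
    refine (norm_smul_le _ _).trans ?_
    rw [Real.norm_eq_abs, abs_of_pos hK1]
    have := mul_le_mul_of_nonneg_left (norm_le_one_of_contr (hy2 n)) hK1.le
    rwa [mul_one] at this)
  refine ⟨Y, ?_, ?_⟩
  · intro n s
    rw [hY, Matrix.smul_mul, Matrix.mul_smul, hy1 n s]
  · rw [eq_comm, cls_eq]
    have h1 : Tendsto (fun n => (C' * (∑ s : S, hs ((g s).at n * X.at n - X.at n * (g s).at n)) +
          K ^ 2 * δ n) / m n) 𝒰 (𝓝 0) := by
      have := (hcsum.const_mul C').add (hδ.const_mul (K ^ 2))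
      simp only [mul_zero, add_zero] at this
      refine this.congr (fun n => ?_)
      rw [add_div, mul_div_assoc, mul_div_assoc]
    refine squeeze_zero' (Eventually.of_forall fun n =>
      div_nonneg (hs_nonneg _) (Nat.cast_nonneg _)) ?_ h1
    filter_upwards [happ] with n hn
    refine div_le_div_of_nonneg_right ?_ (Nat.cast_nonneg _)
    rw [hY]
    exact hy3 n hn

/-- commuting with a generating set of a group of units -/
theorem comm_of_generators {G R : Type*} [Group G] [Monoid R] (ρ : G →* R) (S : Set G)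
    (hS : Subgroup.closure S = ⊤) (y : R) (h : ∀ s ∈ S, y * ρ s = ρ s * y) (a : G) :
    y * ρ a = ρ a * y := by
  have ha : a ∈ Subgroup.closure S := by rw [hS]; exact Subgroup.mem_top a
  induction ha using Subgroup.closure_induction with
  | mem s hs => exact h s hs
  | one => rw [map_one, mul_one, one_mul]
  | mul a b _ _ ha hb => rw [map_mul, ← mul_assoc, ha, mul_assoc, hb, mul_assoc]
  | inv a _ ha =>
    have h1 : ρ a * ρ a⁻¹ = 1 := by rw [← map_mul, mul_inv_cancel, map_one]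
    have h2 : ρ a⁻¹ * ρ a = 1 := by rw [← map_mul, inv_mul_cancel, map_one]
    calc y * ρ a⁻¹ = (ρ a⁻¹ * ρ a) * (y * ρ a⁻¹) := by rw [h2, one_mul]
      _ = ρ a⁻¹ * ((ρ a * y) * ρ a⁻¹) := by simp only [mul_assoc]
      _ = ρ a⁻¹ * ((y * ρ a) * ρ a⁻¹) := by rw [ha]
      _ = ρ a⁻¹ * (y * (ρ a * ρ a⁻¹)) := by simp only [mul_assoc]
      _ = ρ a⁻¹ * y := by rw [h1, mul_one]

/-- the homomorphism `G → ∏_𝒰 M_{m_n}(ℂ)` obtained from `π` by the identification -/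
noncomputable def transport {G : Type} [Group G] {𝒰 : Ultrafilter ℕ} {d m : ℕ → ℕ}
    (hm : Tendsto (fun n => (m n : ℝ) / d n) 𝒰 (𝓝 1)) (π : G →* unitary (Ultra 𝒰 d)) :
    G →* Ultra 𝒰 m where
  toFun a := ident hm (π a)
  map_one' := by rw [map_one]; exact identMap_one hm
  map_mul' a b := by rw [map_mul]; exact identMap_mul hm _ _

/-- the data at each `n` -/
theorem exists_data {𝒰 : Ultrafilter ℕ} (hfree : (𝒰 : Filter ℕ) ≤ Filter.cofinite)
    {S : Type} [Fintype S] {d : ℕ → ℕ} (hd : ∀ n, 0 < d n) (v : S → ∀ n, Mat (d n))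
    (hv : ∀ s n, v s n ∈ Matrix.unitaryGroup (Fin (d n)) ℂ) {C' : ℝ}
    (hP : ∀ ε > 0, ∀ᶠ n in (𝒰 : Filter ℕ), Core (fun s : S => v s n) C' ε) :
    ∃ (m : ℕ → ℕ) (w : ∀ n, S → Mat (m n)) (δ : ℕ → ℝ), (∀ n, 0 < m n) ∧
      (∀ s n, w n s ∈ Matrix.unitaryGroup (Fin (m n)) ℂ) ∧
      Tendsto (fun n => (m n : ℝ) / d n) 𝒰 (𝓝 1) ∧
      Tendsto (fun n => δ n / m n) 𝒰 (𝓝 0) ∧
      ∀ᶠ n in (𝒰 : Filter ℕ),
        (∀ s : S, hs (w n s - corner (d n) (m n) (v s n)) ≤ 400 * δ n) ∧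
        ∀ x : Mat (m n), xᴴ * x ≤ 1 → ∃ x' : Mat (m n), (∀ s, x' * w n s = w n s * x') ∧
          x'ᴴ * x' ≤ 1 ∧ hs (x - x') ≤ C' * En (w n) x + δ n := by
  classical
  obtain ⟨ε, hε0, hε1, hε2⟩ := diagonal hfree _ hP
  have hε3 : ∀ᶠ n in (𝒰 : Filter ℕ), ε n ≤ 1 / 2 :=
    (hε1.eventually_le_const (by norm_num : (0 : ℝ) < 1 / 2))
  have hdata : ∀ n, ∃ (m : ℕ) (w : S → Mat m), 0 < m ∧
      (∀ s, w s ∈ Matrix.unitaryGroup (Fin m) ℂ) ∧
      (Core (fun s : S => v s n) C' (ε n) ∧ ε n ≤ 1 / 2 →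
        |(m : ℝ) - d n| ≤ ε n * d n ∧
        (∀ s : S, hs (w s - corner (d n) m (v s n)) ≤ 400 * (ε n * d n)) ∧
        ∀ x : Mat m, xᴴ * x ≤ 1 → ∃ x' : Mat m, (∀ s, x' * w s = w s * x') ∧ x'ᴴ * x' ≤ 1 ∧
          hs (x - x') ≤ C' * En w x + ε n * d n) := by
    intro n
    by_cases h : Core (fun s : S => v s n) C' (ε n) ∧ ε n ≤ 1 / 2
    · obtain ⟨m, w, h1, h2, h3, h4, h5⟩ := core_step (hd n) (fun s : S => hv s n) h.2 h.1
      exact ⟨m, w, h1, h3, fun _ => ⟨h2, h4, h5⟩⟩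
    · exact ⟨d n, fun s => v s n, hd n, fun s => hv s n, fun h' => absurd h' h⟩
  choose m w hm0 hw hgood using hdata
  have hgood' : ∀ᶠ n in (𝒰 : Filter ℕ), |(m n : ℝ) - d n| ≤ ε n * d n ∧
        (∀ s : S, hs (w n s - corner (d n) (m n) (v s n)) ≤ 400 * (ε n * d n)) ∧
        ∀ x : Mat (m n), xᴴ * x ≤ 1 →
          ∃ x' : Mat (m n), (∀ s, x' * w n s = w n s * x') ∧ x'ᴴ * x' ≤ 1 ∧
          hs (x - x') ≤ C' * En (w n) x + ε n * d n := by
    filter_upwards [hε2, hε3] with n h1 h2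
    exact hgood n ⟨h1, h2⟩
  have hm : Tendsto (fun n => (m n : ℝ) / d n) 𝒰 (𝓝 1) := by
    rw [tendsto_iff_norm_sub_tendsto_zero]
    refine squeeze_zero' (Eventually.of_forall fun n => norm_nonneg _) ?_ hε1
    filter_upwards [hgood'] with n hn
    have hd' : (0 : ℝ) < d n := by exact_mod_cast hd n
    rw [Real.norm_eq_abs]
    have e : (m n : ℝ) / d n - 1 = ((m n : ℝ) - d n) / d n := by
      field_simp
    rw [e, abs_div, abs_of_pos hd', div_le_iff₀ hd']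
    exact hn.1
  refine ⟨m, w, fun n => ε n * d n, hm0, fun s n => hw n s, hm, ?_, ?_⟩
  · refine transfer hm (hε1.congr (fun n => ?_))
    have hd' : (0 : ℝ) < d n := by exact_mod_cast hd n
    field_simp
  · filter_upwards [hgood'] with n hn
    exact hn.2

/-- the main statement, from `CoreTheorem` and `KazTheorem` -/
theorem main_of (hCore : CoreTheorem) (hKaz : KazTheorem) (G : Type) [Group G]
    (hG : IsKazhdan G) (S : Finset G) (hS : Subgroup.closure (S : Set G) = ⊤)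
    (𝒰 : Ultrafilter ℕ) (hfree : (𝒰 : Filter ℕ) ≤ Filter.cofinite)
    (d : ℕ → ℕ) (hd : ∀ n, 0 < d n) (π : G →* unitary (Ultra 𝒰 d)) :
    ∃ (m : ℕ → ℕ) (hm : Tendsto (fun n => (m n : ℝ) / d n) 𝒰 (𝓝 1)) (g : S → Bdd m),
      (∀ n, 0 < m n) ∧
      (∀ s n, (g s).at n ∈ Matrix.unitaryGroup (Fin (m n)) ℂ) ∧
      (∀ s : S, cls 𝒰 (g s) = ident hm (π s)) ∧
      {x : Ultra 𝒰 m | ∀ a : G, x * ident hm (π a) = ident hm (π a) * x} =
        cls 𝒰 '' {y : Bdd m | ∀ n, ∀ s : S, y.at n * (g s).at n = (g s).at n * y.at n} := by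
  classical
  -- unitary lifts
  have hlift : ∀ a : G, ∃ u : Bdd d, (∀ n, u.at n ∈ Matrix.unitaryGroup (Fin (d n)) ℂ) ∧
      cls 𝒰 u = (π a : Ultra 𝒰 d) := fun a =>
    exists_unitary_lift _ (Unitary.coe_star_mul_self (π a))
  choose u hu hu2 using hlift
  have hmul : ∀ a b, Tendsto (fun n => hs ((u a).at n * (u b).at n - (u (a * b)).at n) / d n) 𝒰
      (𝓝 0) := by
    intro a b
    have h1 : cls 𝒰 (u a) * cls 𝒰 (u b) = cls 𝒰 (u (a * b)) := by
      rw [hu2, hu2, hu2, map_mul]; rfl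
    exact cls_mul_eq h1
  have hcl : Subgroup.closure (Set.range (fun s : S => (s : G))) = ⊤ := by
    rw [Subtype.range_coe_subtype]; exact hS
  obtain ⟨C, hC, hK⟩ := hKaz G hG S (fun s => (s : G)) hcl
  obtain ⟨C', hC', hD⟩ := hCore S C hC
  have hP : ∀ ε > 0, ∀ᶠ n in (𝒰 : Filter ℕ), Core (fun s : S => (u s).at n) C' ε := by
    intro ε hε
    obtain ⟨t, ht, hD⟩ := hD ε hε
    filter_upwards [hK 𝒰 d (fun a n => (u a).at n) hd hu hmul t ht] with n hn
    exact hD (d n) (fun s : S => (u s).at n) (hd n) (fun s => hu s n) hn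
  obtain ⟨m, w, δ, hm0, hw, hm, hδ, hgood⟩ :=
    exists_data hfree hd (fun (s : S) n => (u s).at n) (fun s n => hu s n) hP
  have hgex : ∀ s : S, ∃ X : Bdd m, ∀ n, X.at n = w n s := fun s =>
    exists_ofUnitary (fun n => w n s) (fun n => hw s n)
  choose g hgn using hgex
  have hg : ∀ s : S, cls 𝒰 (g s) = ident hm (π s) := by
    intro s
    rw [← hu2, ident_cls, cls_eq]
    have h1 : Tendsto (fun n => 400 * (δ n / m n)) 𝒰 (𝓝 0) := by
      simpa using hδ.const_mul 400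
    refine squeeze_zero' (Eventually.of_forall fun n =>
      div_nonneg (hs_nonneg _) (Nat.cast_nonneg _)) ?_ h1
    filter_upwards [hgood] with n hn
    rw [← mul_div_assoc, hgn, at_cornerSeq]
    exact div_le_div_of_nonneg_right (hn.1 s) (Nat.cast_nonneg _)
  refine ⟨m, hm, g, hm0, fun s n => by rw [hgn]; exact hw s n, hg, ?_⟩
  ext x
  constructor
  · -- the relative commutant is contained in the ultraproduct of the centralizers
    intro hx
    have hx' : ∀ a : G, x * ident hm (π a) = ident hm (π a) * x := hx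
    obtain ⟨X, rfl⟩ := cls_surjective x
    have happ : ∀ᶠ n in (𝒰 : Filter ℕ), ∀ x : Mat (m n), xᴴ * x ≤ 1 →
      ∃ x' : Mat (m n), (∀ s, x' * (g s).at n = (g s).at n * x') ∧ x'ᴴ * x' ≤ 1 ∧
        hs (x - x') ≤ C' * En (fun s => (g s).at n) x + δ n := by
      filter_upwards [hgood] with n hn
      simp only [hgn]
      exact hn.2
    obtain ⟨Y, hY, hY2⟩ := commutant_lift g δ hδ happ X (fun s => by
      rw [hg]
      exact (hx' s).symm)
    exact ⟨Y, hY, hY2⟩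
  · -- conversely
    rintro ⟨y, hy, rfl⟩
    refine comm_of_generators (transport hm π) (S : Set G) hS (cls 𝒰 y) (fun s hs => ?_)
    have h1 : transport hm π s = cls 𝒰 (g ⟨s, hs⟩) := (hg ⟨s, hs⟩).symm
    rw [h1, ← cls_mul, ← cls_mul]
    refine congrArg (cls 𝒰) (Bdd.ext fun n => ?_)
    rw [at_mul, at_mul]
    exact hy n ⟨s, hs⟩

end Pool.Agent.H51K.U
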