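import Pool.Agent.H51K.UDefs

/-!
The identification of `∏_𝒰 M_{d_n}(ℂ)` and `∏_𝒰 M_{m_n}(ℂ)` when `lim_𝒰 m_n / d_n = 1`.
-/

set_option autoImplicit false
open Matrix Filter Topology
open scoped ComplexOrder MatrixOrder Matrix.Norms.L2Operator

namespace Pool.Agent.H51K.U

/-- For `k ≤ l` the corner embedding `M_k(ℂ) → M_l(ℂ)` (upper left corner), for `l ≤ k` the
compression `M_k(ℂ) → M_l(ℂ)` to the upper left corner. -/
def corner (k l : ℕ) (x : Mat k) : Mat l := fun i j =>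
  if h : (i : ℕ) < k ∧ (j : ℕ) < k then x ⟨i, h.1⟩ ⟨j, h.2⟩ else 0

/-- the `l × k` matrix `δ_{ij}` -/
def cut (l k : ℕ) : Matrix (Fin l) (Fin k) ℂ := fun i j => if (i : ℕ) = j then 1 else 0

theorem cut_conj (l k : ℕ) : (cut l k)ᴴ = cut k l := by
  ext i j
  simp only [cut, Matrix.conjTranspose_apply]
  by_cases h : (i : ℕ) = j
  · simp [h]
  · have h' : ¬ (j : ℕ) = i := fun e => h e.symm
    simp [h, h']

theorem cut_mul_apply (l k : ℕ) {p : ℕ} (x : Matrix (Fin k) (Fin p) ℂ) (i : Fin l) (j : Fin p) :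
    (cut l k * x) i j = if h : (i : ℕ) < k then x ⟨i, h⟩ j else 0 := by
  rw [Matrix.mul_apply]
  by_cases h : (i : ℕ) < k
  · rw [dif_pos h, Finset.sum_eq_single (⟨i, h⟩ : Fin k)]
    · simp [cut]
    · intro b _ hb
      have : ¬ (i : ℕ) = b := fun e => hb (Fin.ext e.symm)
      simp [cut, this]
    · intro h'; exact absurd (Finset.mem_univ _) h'
  · rw [dif_neg h]
    refine Finset.sum_eq_zero (fun b _ => ?_)
    have : ¬ (i : ℕ) = b := fun e => h (e ▸ b.2)
    simp [cut, this]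

theorem corner_eq (k l : ℕ) (x : Mat k) : corner k l x = cut l k * x * (cut l k)ᴴ := by
  have h1 : cut l k * x * (cut l k)ᴴ = (cut l k * (cut l k * x)ᴴ)ᴴ := by
    rw [Matrix.conjTranspose_mul, Matrix.conjTranspose_conjTranspose]
  rw [h1]
  ext i j
  rw [Matrix.conjTranspose_apply, cut_mul_apply]
  unfold corner
  by_cases hj : (j : ℕ) < k
  · rw [dif_pos hj, Matrix.conjTranspose_apply, star_star, cut_mul_apply]
    by_cases hi : (i : ℕ) < k
    · rw [dif_pos hi, dif_pos ⟨hi, hj⟩]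
    · rw [dif_neg hi, dif_neg (fun h => hi h.1)]
  · rw [dif_neg hj, dif_neg (fun h => hj h.2), star_zero]

theorem cutH_mul_cut (l k : ℕ) :
    (cut l k)ᴴ * cut l k = Matrix.diagonal (fun j : Fin k => if (j : ℕ) < l then 1 else 0) := by
  rw [cut_conj]
  ext i j
  rw [cut_mul_apply]
  by_cases h : (i : ℕ) < l
  · rw [dif_pos h]
    by_cases e : i = j
    · subst e; simp [cut, h]
    · have e' : ¬ (i : ℕ) = j := fun e' => e (Fin.ext e')
      simp [cut, e', Matrix.diagonal_apply_ne _ e]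
  · rw [dif_neg h]
    by_cases e : i = j
    · subst e; simp [h]
    · rw [Matrix.diagonal_apply_ne _ e]

theorem norm_cut_sq_le (l k : ℕ) : ‖(cut l k)ᴴ * cut l k‖ ≤ 1 := by
  rw [cutH_mul_cut, Matrix.l2_opNorm_diagonal]
  rw [pi_norm_le_iff_of_nonneg zero_le_one]
  intro j
  split_ifs <;> simp

theorem norm_cut_le (l k : ℕ) : ‖cut l k‖ ≤ 1 := by
  have h := norm_cut_sq_le l k
  rw [Matrix.l2_opNorm_conjTranspose_mul_self] at h
  nlinarith [norm_nonneg (cut l k)]

theorem norm_corner_le (k l : ℕ) (x : Mat k) : ‖corner k l x‖ ≤ ‖x‖ := by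
  rw [corner_eq]
  calc ‖cut l k * x * (cut l k)ᴴ‖ ≤ ‖cut l k * x‖ * ‖(cut l k)ᴴ‖ := Matrix.l2_opNorm_mul _ _
    _ ≤ (‖cut l k‖ * ‖x‖) * ‖cut l k‖ := by
        rw [Matrix.l2_opNorm_conjTranspose]
        exact mul_le_mul_of_nonneg_right (Matrix.l2_opNorm_mul _ _) (norm_nonneg _)
    _ ≤ (1 * ‖x‖) * 1 := by
        have := norm_cut_le l k
        gcongr
    _ = ‖x‖ := by ring

theorem cutH_cut_le (l k : ℕ) : (cut l k)ᴴ * cut l k ≤ 1 := by
  rw [Matrix.le_iff, cutH_mul_cut, ← Matrix.diagonal_one, Matrix.diagonal_sub]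
  refine Matrix.PosSemidef.diagonal (fun j => ?_)
  simp only [Pi.zero_apply]
  split_ifs <;> simp

theorem cut_cutH_le (l k : ℕ) : cut l k * (cut l k)ᴴ ≤ 1 := swap_contr (cutH_cut_le l k)

theorem hs_one_sub_cut (l k : ℕ) : hs (1 - (cut l k)ᴴ * cut l k) ≤ |(l : ℝ) - k| := by
  rw [cutH_mul_cut, ← Matrix.diagonal_one, Matrix.diagonal_sub, hs_eq_sum]
  have h1 : ∀ j : Fin k, ∑ i : Fin k, ‖(Matrix.diagonal
      (fun i : Fin k => (1 : ℂ) - if (i : ℕ) < l then 1 else 0)) i j‖ ^ 2 =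
      if (j : ℕ) < l then 0 else 1 := by
    intro j
    rw [Finset.sum_eq_single j]
    · rw [Matrix.diagonal_apply_eq]
      split_ifs <;> simp
    · intro b _ hb
      rw [Matrix.diagonal_apply_ne _ hb]; simp
    · intro h; exact absurd (Finset.mem_univ _) h
  rw [Finset.sum_congr rfl (fun j _ => h1 j)]
  rw [Fin.sum_univ_eq_sum_range (fun j => if j < l then (0 : ℝ) else 1) k]
  have h2 : ∀ k : ℕ, ∑ j ∈ Finset.range k, (if j < l then (0 : ℝ) else 1) = ((k - l : ℕ) : ℝ) := by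
    intro k
    induction k with
    | zero => simp
    | succ k ih =>
      rw [Finset.sum_range_succ, ih]
      by_cases h : k < l
      · rw [if_pos h]
        have e1 : k - l = 0 := by omega
        have e2 : k + 1 - l = 0 := by omega
        rw [e1, e2]; simp
      · rw [if_neg h]
        have e1 : k + 1 - l = (k - l) + 1 := by omega
        rw [e1]; push_cast; ring
  rw [h2 k]
  rcases le_total l k with h | h
  · rw [Nat.cast_sub h, abs_sub_comm]
    exact le_abs_self _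
  · have : k - l = 0 := by omega
    rw [this, Nat.cast_zero]
    exact abs_nonneg _

theorem hs_one_sub_cut' (l k : ℕ) : hs (1 - cut l k * (cut l k)ᴴ) ≤ |(l : ℝ) - k| := by
  have h := hs_one_sub_cut k l
  rw [cut_conj] at h
  rw [cut_conj, abs_sub_comm]
  exact h

/-! ### estimates -/

theorem hs_corner_le (k l : ℕ) (x : Mat k) : hs (corner k l x) ≤ hs x := by
  rw [corner_eq]
  have h1 : hs (cut l k * x * (cut l k)ᴴ) ≤ 1 * hs (cut l k * x) := by
    refine hs_mul_le' ?_ _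
    rw [Matrix.conjTranspose_conjTranspose, one_smul]
    exact cutH_cut_le l k
  have h2 : hs (cut l k * x) ≤ 1 * hs x := by
    refine hs_mul_le ?_ _
    rw [one_smul]
    exact cutH_cut_le l k
  linarith

theorem hs_corner_mul (k l : ℕ) (x y : Mat k) :
    hs (corner k l x * corner k l y - corner k l (x * y)) ≤
      ‖x‖ ^ 2 * ‖y‖ ^ 2 * |(l : ℝ) - k| := by
  have e : corner k l x * corner k l y - corner k l (x * y) =
      -(corner k l (x * (1 - (cut l k)ᴴ * cut l k) * y)) := by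
    simp only [corner_eq, Matrix.mul_sub, Matrix.sub_mul, Matrix.mul_one, Matrix.mul_assoc]
    abel
  rw [e, hs_neg]
  refine (hs_corner_le _ _ _).trans ?_
  have hy : y * yᴴ ≤ (‖y‖ ^ 2) • (1 : Mat k) := by
    have h1 : ‖yᴴ‖ ≤ ‖y‖ := (Matrix.l2_opNorm_conjTranspose y).le
    have h2 := contr_of_norm h1
    rwa [Matrix.conjTranspose_conjTranspose] at h2
  have h1 := hs_mul_le' hy (x * (1 - (cut l k)ᴴ * cut l k))
  have h2 := hs_mul_le (contr_of_norm (le_refl ‖x‖)) (1 - (cut l k)ᴴ * cut l k)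
  have h3 := hs_one_sub_cut l k
  calc _ ≤ _ := h1
    _ ≤ ‖y‖ ^ 2 * (‖x‖ ^ 2 * |(l : ℝ) - k|) := by
        refine mul_le_mul_of_nonneg_left (h2.trans ?_) (sq_nonneg _)
        exact mul_le_mul_of_nonneg_left h3 (sq_nonneg _)
    _ = _ := by ring

theorem hs_corner_corner (k l : ℕ) (x : Mat k) :
    hs (corner l k (corner k l x) - x) ≤ 4 * ‖x‖ ^ 2 * |(l : ℝ) - k| := by
  have e : corner l k (corner k l x) - x =
      -((1 - (cut l k)ᴴ * cut l k) * x) +
        -((cut l k)ᴴ * cut l k * x * (1 - (cut l k)ᴴ * cut l k)) := by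
    rw [corner_eq l k, corner_eq k l]
    have : cut k l = (cut l k)ᴴ := (cut_conj l k).symm
    rw [this, Matrix.conjTranspose_conjTranspose]
    simp only [Matrix.mul_sub, Matrix.sub_mul, Matrix.mul_one, Matrix.one_mul, Matrix.mul_assoc]
    abel
  rw [e]
  refine (hs_add_le _ _).trans ?_
  rw [hs_neg, hs_neg]
  have hx : x * xᴴ ≤ (‖x‖ ^ 2) • (1 : Mat k) := by
    have h1 : ‖xᴴ‖ ≤ ‖x‖ := (Matrix.l2_opNorm_conjTranspose x).le
    have h2 := contr_of_norm h1
    rwa [Matrix.conjTranspose_conjTranspose] at h2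
  have h3 := hs_one_sub_cut l k
  have h1 : hs ((1 - (cut l k)ᴴ * cut l k) * x) ≤ ‖x‖ ^ 2 * |(l : ℝ) - k| :=
    (hs_mul_le' hx _).trans (mul_le_mul_of_nonneg_left h3 (sq_nonneg _))
  have h2 : hs ((cut l k)ᴴ * cut l k * x * (1 - (cut l k)ᴴ * cut l k)) ≤
      ‖x‖ ^ 2 * |(l : ℝ) - k| := by
    have hn : ‖(cut l k)ᴴ * cut l k * x‖ ≤ ‖x‖ := by
      refine (norm_mul_le _ _).trans ?_
      have := norm_cut_sq_le l k
      have h0 := norm_nonneg x
      nlinarith
    exact (hs_mul_le (contr_of_norm hn) _).trans (mul_le_mul_of_nonneg_left h3 (sq_nonneg _))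
  linarith

/-! ### the identification -/

section
variable {𝒰 : Ultrafilter ℕ} {d m : ℕ → ℕ}

theorem pos_of_ratio (h : Tendsto (fun n => (m n : ℝ) / d n) 𝒰 (𝓝 1)) :
    ∀ᶠ n in (𝒰 : Filter ℕ), 0 < d n ∧ 0 < m n := by
  have h1 : ∀ᶠ n in (𝒰 : Filter ℕ), (1 / 2 : ℝ) < (m n : ℝ) / d n :=
    h.eventually (lt_mem_nhds (by norm_num))
  filter_upwards [h1] with n hn
  constructor
  · rcases Nat.eq_zero_or_pos (d n) with h0 | h0
    · rw [h0] at hn; norm_num at hn
    · exact h0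
  · rcases Nat.eq_zero_or_pos (m n) with h0 | h0
    · rw [h0] at hn; norm_num at hn
    · exact h0

theorem ratio_symm (h : Tendsto (fun n => (m n : ℝ) / d n) 𝒰 (𝓝 1)) :
    Tendsto (fun n => (d n : ℝ) / m n) 𝒰 (𝓝 1) := by
  have := h.inv₀ one_ne_zero
  rw [inv_one] at this
  refine this.congr (fun n => ?_)
  rw [inv_div]

theorem transfer (h : Tendsto (fun n => (m n : ℝ) / d n) 𝒰 (𝓝 1)) {a : ℕ → ℝ}
    (ha : Tendsto (fun n => a n / d n) 𝒰 (𝓝 0)) : Tendsto (fun n => a n / m n) 𝒰 (𝓝 0) := by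
  have h1 := ha.mul (ratio_symm h)
  rw [zero_mul] at h1
  refine h1.congr' ?_
  filter_upwards [pos_of_ratio h] with n hn
  have h2 : (d n : ℝ) ≠ 0 := by have := hn.1; positivity
  have h3 : (m n : ℝ) ≠ 0 := by have := hn.2; positivity
  field_simp

theorem tendsto_defect (h : Tendsto (fun n => (m n : ℝ) / d n) 𝒰 (𝓝 1)) :
    Tendsto (fun n => |(m n : ℝ) - d n| / d n) 𝒰 (𝓝 0) := by
  have h1 := (h.sub_const 1).abs
  rw [sub_self, abs_zero] at h1
  refine h1.congr' ?_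
  filter_upwards [pos_of_ratio h] with n hn
  have h2 : (0 : ℝ) < d n := by exact_mod_cast hn.1
  rw [← abs_of_pos h2, ← abs_div, abs_of_pos h2, sub_div, div_self h2.ne']

theorem corner_add (k l : ℕ) (x y : Mat k) :
    corner k l (x + y) = corner k l x + corner k l y := by
  simp only [corner_eq, Matrix.mul_add, Matrix.add_mul]

theorem corner_sub (k l : ℕ) (x y : Mat k) :
    corner k l (x - y) = corner k l x - corner k l y := by
  simp only [corner_eq, Matrix.mul_sub, Matrix.sub_mul]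

theorem corner_star (k l : ℕ) (x : Mat k) : corner k l (xᴴ) = (corner k l x)ᴴ := by
  simp only [corner_eq, Matrix.conjTranspose_mul, Matrix.conjTranspose_conjTranspose,
    Matrix.mul_assoc]

theorem corner_bdd {d : ℕ → ℕ} (m : ℕ → ℕ) (x : Bdd d) :
    IsBdd (fun n => corner (d n) (m n) (x.at n)) := by
  obtain ⟨K, hK⟩ := bound x
  exact ⟨K, fun n => (norm_corner_le _ _ _).trans (hK n)⟩

/-- the corner map on bounded sequences -/
def cornerSeq {d : ℕ → ℕ} (m : ℕ → ℕ) (x : Bdd d) : Bdd m :=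
  ⟨fun n => corner (d n) (m n) (x.at n), corner_bdd m x⟩

theorem at_cornerSeq {d : ℕ → ℕ} (m : ℕ → ℕ) (x : Bdd d) (n : ℕ) :
    (cornerSeq m x).at n = corner (d n) (m n) (x.at n) := rfl

theorem cornerSeq_congr (h : Tendsto (fun n => (m n : ℝ) / d n) 𝒰 (𝓝 1)) (x y : Bdd d)
    (hxy : cls 𝒰 x = cls 𝒰 y) : cls 𝒰 (cornerSeq m x) = cls 𝒰 (cornerSeq m y) := by
  rw [cls_eq] at *
  refine squeeze_zero (fun n => div_nonneg (hs_nonneg _) (Nat.cast_nonneg _))
      (fun n => ?_) (transfer h hxy)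
  refine div_le_div_of_nonneg_right ?_ (Nat.cast_nonneg _)
  rw [at_cornerSeq, at_cornerSeq, ← corner_sub]
  exact hs_corner_le _ _ _

/-- the map `∏_𝒰 M_{d_n}(ℂ) → ∏_𝒰 M_{m_n}(ℂ)` induced by the corner maps -/
noncomputable def identMap (h : Tendsto (fun n => (m n : ℝ) / d n) 𝒰 (𝓝 1)) (a : Ultra 𝒰 d) :
    Ultra 𝒰 m :=
  Ultra.lift (fun x => cls 𝒰 (cornerSeq m x)) (cornerSeq_congr h) a

theorem identMap_cls (h : Tendsto (fun n => (m n : ℝ) / d n) 𝒰 (𝓝 1)) (x : Bdd d) :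
    identMap h (cls 𝒰 x) = cls 𝒰 (cornerSeq m x) := rfl

theorem identMap_one (h : Tendsto (fun n => (m n : ℝ) / d n) 𝒰 (𝓝 1)) :
    identMap h (1 : Ultra 𝒰 d) = 1 := by
  rw [← cls_one, ← cls_one, identMap_cls, cls_eq]
  refine squeeze_zero (fun n => div_nonneg (hs_nonneg _) (Nat.cast_nonneg _))
    (fun n => ?_) (transfer h (tendsto_defect h))
  refine div_le_div_of_nonneg_right ?_ (Nat.cast_nonneg _)
  have e : (cornerSeq m (1 : Bdd d)).at n - (1 : Bdd m).at n =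
      -(1 - cut (m n) (d n) * (cut (m n) (d n))ᴴ) := by
    rw [at_cornerSeq, at_one, at_one, corner_eq, Matrix.mul_one, neg_sub]
  rw [e, hs_neg]
  exact hs_one_sub_cut' _ _

theorem identMap_add (h : Tendsto (fun n => (m n : ℝ) / d n) 𝒰 (𝓝 1)) (a b : Ultra 𝒰 d) :
    identMap h (a + b) = identMap h a + identMap h b := by
  obtain ⟨x, rfl⟩ := cls_surjective a
  obtain ⟨y, rfl⟩ := cls_surjective b
  rw [← cls_add, identMap_cls, identMap_cls, identMap_cls, ← cls_add]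
  refine congrArg (cls 𝒰) (Bdd.ext fun n => ?_)
  rw [at_cornerSeq, at_add, at_add, at_cornerSeq, at_cornerSeq, corner_add]

theorem identMap_mul (h : Tendsto (fun n => (m n : ℝ) / d n) 𝒰 (𝓝 1)) (a b : Ultra 𝒰 d) :
    identMap h (a * b) = identMap h a * identMap h b := by
  obtain ⟨x, rfl⟩ := cls_surjective a
  obtain ⟨y, rfl⟩ := cls_surjective b
  rw [← cls_mul, identMap_cls, identMap_cls, identMap_cls, ← cls_mul, eq_comm, cls_eq]
  obtain ⟨K, hK⟩ := bound x
  obtain ⟨L, hL⟩ := bound y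
  have h0 : Tendsto (fun n => (K ^ 2 * L ^ 2 * |(m n : ℝ) - d n|) / m n) 𝒰 (𝓝 0) := by
    refine transfer h ?_
    have := (tendsto_defect h).const_mul (K ^ 2 * L ^ 2)
    rw [mul_zero] at this
    refine this.congr (fun n => ?_)
    rw [mul_div_assoc]
  refine squeeze_zero (fun n => div_nonneg (hs_nonneg _) (Nat.cast_nonneg _))
    (fun n => ?_) h0
  refine div_le_div_of_nonneg_right ?_ (Nat.cast_nonneg _)
  rw [at_mul, at_cornerSeq, at_cornerSeq, at_cornerSeq, at_mul]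
  refine (hs_corner_mul (d n) (m n) (x.at n) (y.at n)).trans ?_
  have h1 : ‖x.at n‖ ^ 2 ≤ K ^ 2 := pow_le_pow_left₀ (norm_nonneg _) (hK n) 2
  have h2 : ‖y.at n‖ ^ 2 ≤ L ^ 2 := pow_le_pow_left₀ (norm_nonneg _) (hL n) 2
  have := abs_nonneg ((m n : ℝ) - d n)
  gcongr

theorem identMap_star (h : Tendsto (fun n => (m n : ℝ) / d n) 𝒰 (𝓝 1)) (a : Ultra 𝒰 d) :
    identMap h (star a) = star (identMap h a) := by
  obtain ⟨x, rfl⟩ := cls_surjective a
  rw [star_cls, identMap_cls, identMap_cls, star_cls]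
  refine congrArg (cls 𝒰) (Bdd.ext fun n => ?_)
  rw [at_cornerSeq, at_adj, at_adj, at_cornerSeq, corner_star]

theorem identMap_identMap (h : Tendsto (fun n => (m n : ℝ) / d n) 𝒰 (𝓝 1))
    (h' : Tendsto (fun n => (d n : ℝ) / m n) 𝒰 (𝓝 1)) (a : Ultra 𝒰 d) :
    identMap h' (identMap h a) = a := by
  obtain ⟨x, rfl⟩ := cls_surjective a
  rw [identMap_cls, identMap_cls, cls_eq]
  obtain ⟨K, hK⟩ := bound x
  have h0 : Tendsto (fun n => (4 * K ^ 2 * |(m n : ℝ) - d n|) / d n) 𝒰 (𝓝 0) := by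
    have := (tendsto_defect h).const_mul (4 * K ^ 2)
    rw [mul_zero] at this
    refine this.congr (fun n => ?_)
    rw [mul_div_assoc]
  refine squeeze_zero (fun n => div_nonneg (hs_nonneg _) (Nat.cast_nonneg _))
    (fun n => ?_) h0
  refine div_le_div_of_nonneg_right ?_ (Nat.cast_nonneg _)
  rw [at_cornerSeq, at_cornerSeq]
  refine (hs_corner_corner (d n) (m n) (x.at n)).trans ?_
  have h1 : ‖x.at n‖ ^ 2 ≤ K ^ 2 := pow_le_pow_left₀ (norm_nonneg _) (hK n) 2
  have := abs_nonneg ((m n : ℝ) - d n)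
  gcongr

/-- The canonical identification `∏_𝒰 M_{d_n}(ℂ) = ∏_𝒰 M_{m_n}(ℂ)` (an isomorphism of
`*`-rings) in case `lim_𝒰 m_n / d_n = 1`: the class of `(x_n)` is mapped to the class of the
images of the `x_n` under the corner embeddings `M_{d_n}(ℂ) → M_{m_n}(ℂ)` (where `d_n ≤ m_n`),
respectively under the compressions to the corner `M_{m_n}(ℂ)` of `M_{d_n}(ℂ)` (where
`m_n ≤ d_n`). -/
noncomputable def ident (h : Tendsto (fun n => (m n : ℝ) / d n) 𝒰 (𝓝 1)) :
    Ultra 𝒰 d ≃⋆+* Ultra 𝒰 m where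
  toFun := identMap h
  invFun := identMap (ratio_symm h)
  left_inv := identMap_identMap h (ratio_symm h)
  right_inv := identMap_identMap (ratio_symm h) h
  map_mul' := identMap_mul h
  map_add' := identMap_add h
  map_star' := identMap_star h

theorem ident_cls (h : Tendsto (fun n => (m n : ℝ) / d n) 𝒰 (𝓝 1)) (x : Bdd d) :
    ident h (cls 𝒰 x) = cls 𝒰 (cornerSeq m x) := rfl

end

end Pool.Agent.H51K.U
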