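import Pool.Agent.H51K.UFinal

/-!
Vocabulary of the final statement.
-/

set_option autoImplicit false
open Filter Topology

namespace Pool.Agent.H51K.U

/-- a unitary representation of the discrete group `G` on the Hilbert space `H` -/
def URep (G H : Type) [Group G] [NormedAddCommGroup H] [InnerProductSpace ℂ H] : Type :=
  G →* (H ≃ₗᵢ[ℂ] H)

/-- the action of `a : G` on `v : H` -/
def URep.act {G H : Type} [Group G] [NormedAddCommGroup H] [InnerProductSpace ℂ H]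
    (ρ : URep G H) (a : G) (v : H) : H := (show G →* (H ≃ₗᵢ[ℂ] H) from ρ) a v

/-- Kazhdan's property (T) for the discrete group `G`: there are a finite set `F` in `G` and
`ε > 0` such that every unitary representation of `G` on a Hilbert space which has a nonzero
`(F, ε)`-invariant vector has a nonzero invariant vector. -/
def PropertyT (G : Type) [Group G] : Prop :=
  ∃ (F : Finset G) (ε : ℝ), 0 < ε ∧
    ∀ (H : Type) [NormedAddCommGroup H] [InnerProductSpace ℂ H] [CompleteSpace H]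
      (ρ : URep G H),
      (∃ v : H, v ≠ 0 ∧ ∀ a ∈ F, ‖ρ.act a v - v‖ ≤ ε * ‖v‖) →
        ∃ v : H, v ≠ 0 ∧ ∀ a : G, ρ.act a v = v

theorem isKazhdan_of {G : Type} [Group G] (h : PropertyT G) : IsKazhdan G := h

/-- a homomorphism from `G` to the unitary group of `∏_𝒰 M_{d_n}(ℂ)` -/
def UHom (G : Type) [Group G] (𝒰 : Ultrafilter ℕ) (d : ℕ → ℕ) : Type :=
  G →* unitary (Ultra 𝒰 d)

/-- the element `π(a)` of `∏_𝒰 M_{d_n}(ℂ)` -/
noncomputable def UHom.val {G : Type} [Group G] {𝒰 : Ultrafilter ℕ} {d : ℕ → ℕ} (π : UHom G 𝒰 d)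
    (a : G) : Ultra 𝒰 d := ((show G →* unitary (Ultra 𝒰 d) from π) a : Ultra 𝒰 d)

/-- the image of `x` under the identification of `∏_𝒰 M_{d_n}(ℂ)` with `∏_𝒰 M_{m_n}(ℂ)` -/
noncomputable def idf {𝒰 : Ultrafilter ℕ} {d m : ℕ → ℕ}
    (hm : Tendsto (fun n => (m n : ℝ) / d n) 𝒰 (𝓝 1)) (x : Ultra 𝒰 d) : Ultra 𝒰 m :=
  ident hm x

theorem main (hCore : CoreTheorem) (hKaz : KazTheorem) (G : Type) [Group G]
    (hG : PropertyT G) (S : Finset G) (hS : Subgroup.closure (S : Set G) = ⊤)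
    (𝒰 : Ultrafilter ℕ) (hfree : (𝒰 : Filter ℕ) ≤ Filter.cofinite)
    (d : ℕ → ℕ) (hd : ∀ n, 0 < d n) (π : UHom G 𝒰 d) :
    ∃ (m : ℕ → ℕ) (hm : Tendsto (fun n => (m n : ℝ) / d n) 𝒰 (𝓝 1)) (g : S → Bdd m),
      (∀ n, 0 < m n) ∧
      (∀ s n, (g s).at n ∈ Matrix.unitaryGroup (Fin (m n)) ℂ) ∧
      (∀ s : S, cls 𝒰 (g s) = idf hm (π.val s)) ∧
      {x : Ultra 𝒰 m | ∀ a : G, x * idf hm (π.val a) = idf hm (π.val a) * x} =
        cls 𝒰 '' {y : Bdd m | ∀ n, ∀ s : S, y.at n * (g s).at n = (g s).at n * y.at n} :=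
  main_of hCore hKaz G (isKazhdan_of hG) S hS 𝒰 hfree d hd π

end Pool.Agent.H51K.U
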