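import Pool.Agent.H51K.KazDefs
import Pool.Agent.H51K.Iface

/-!
Tracial ultraproducts of matrix algebras, and the final statement (PART 4).
-/

set_option autoImplicit false
open Matrix Filter Topology
open scoped Matrix.Norms.L2Operator

namespace Pool.Agent.H51K

/-- square of the normalised trace norm: `‖x‖₂² = tr(x* x)` -/
noncomputable def tn {k : ℕ} (x : Matrix (Fin k) (Fin k) ℂ) : ℝ :=
  (Matrix.trace (xᴴ * x)).re / k

/-- norm bounded sequences `(x_n)`, `x_n ∈ M_{k_n}(ℂ)` (operator norm) -/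
noncomputable def Bdd (k : ℕ → ℕ) :
    StarSubalgebra ℂ (∀ n, Matrix (Fin (k n)) (Fin (k n)) ℂ) where
  carrier := {x | ∃ C : ℝ, ∀ n, ‖x n‖ ≤ C}
  mul_mem' := by
    rintro x y ⟨C, hC⟩ ⟨D, hD⟩
    refine ⟨C * D, fun n => ?_⟩
    have h0 : 0 ≤ C := (norm_nonneg _).trans (hC n)
    exact (norm_mul_le _ _).trans (mul_le_mul (hC n) (hD n) (norm_nonneg _) h0)
  add_mem' := by
    rintro x y ⟨C, hC⟩ ⟨D, hD⟩
    exact ⟨C + D, fun n => (norm_add_le _ _).trans (add_le_add (hC n) (hD n))⟩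
  algebraMap_mem' := by
    intro r
    refine ⟨‖r‖, fun n => ?_⟩
    have h1 : (algebraMap ℂ (∀ n, Matrix (Fin (k n)) (Fin (k n)) ℂ) r) n =
        Matrix.diagonal (fun _ : Fin (k n) => r) := rfl
    rw [h1, Matrix.l2_opNorm_diagonal]
    exact (pi_norm_le_iff_of_nonneg (norm_nonneg r)).2 fun _ => le_rfl
  star_mem' := by
    rintro x ⟨C, hC⟩
    refine ⟨C, fun n => ?_⟩
    have : (star x) n = (x n)ᴴ := rfl
    rw [this, Matrix.l2_opNorm_conjTranspose]
    exact hC n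

theorem tn_eq {k : ℕ} (x : Matrix (Fin k) (Fin k) ℂ) : tn x = hs x / k := rfl

theorem tn_nonneg {k : ℕ} (x : Matrix (Fin k) (Fin k) ℂ) : 0 ≤ tn x :=
  div_nonneg (hs_nonneg x) (Nat.cast_nonneg k)

section order
open scoped ComplexOrder MatrixOrder

/-- operator norm bound in terms of the order -/
theorem le_of_opNorm {m n : Type} [Fintype m] [Fintype n] [DecidableEq m] [DecidableEq n]
    {C : ℝ} (A : Matrix m n ℂ) (h : ‖A‖ ≤ C) : Aᴴ * A ≤ (C ^ 2) • (1 : Matrix n n ℂ) := by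
  rw [Matrix.le_iff, Matrix.posSemidef_iff_dotProduct_mulVec]
  refine ⟨?_, fun v => ?_⟩
  · simp [Matrix.IsHermitian, Matrix.conjTranspose_sub, Matrix.conjTranspose_mul,
      Matrix.conjTranspose_smul]
  · have h1 := Matrix.l2_opNorm_mulVec A (WithLp.toLp 2 v)
    have h2 : ‖(WithLp.toLp 2 (A *ᵥ v) : EuclideanSpace ℂ m)‖ ≤
        C * ‖(WithLp.toLp 2 v : EuclideanSpace ℂ n)‖ := by
      refine le_trans ?_ (mul_le_mul_of_nonneg_right h (norm_nonneg _))
      simpa using h1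
    have h0 : 0 ≤ C := (norm_nonneg A).trans h
    have h3 := pow_le_pow_left₀ (norm_nonneg _) h2 2
    rw [mul_pow, EuclideanSpace.norm_sq_eq, EuclideanSpace.norm_sq_eq] at h3
    simp only at h3
    have e1 : star v ⬝ᵥ ((C ^ 2 • (1 : Matrix n n ℂ) - Aᴴ * A) *ᵥ v) =
        ((C ^ 2 * (∑ i, ‖v i‖ ^ 2) - ∑ i, ‖(A *ᵥ v) i‖ ^ 2 : ℝ) : ℂ) := by
      rw [Matrix.sub_mulVec, dotProduct_sub, Matrix.smul_mulVec, Matrix.one_mulVec,
        dotProduct_smul, ← Matrix.mulVec_mulVec, Matrix.dotProduct_mulVec, Matrix.vecMul_conjTranspose,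
        star_star]
      have e2 : ∀ {ι : Type} [Fintype ι] (w : ι → ℂ), star w ⬝ᵥ w = ((∑ i, ‖w i‖ ^ 2 : ℝ) : ℂ) := by
        intro ι _ w
        rw [dotProduct]
        push_cast
        refine Finset.sum_congr rfl fun i _ => ?_
        rw [Pi.star_apply, Complex.star_def, ← Complex.normSq_eq_conj_mul_self,
          Complex.normSq_eq_norm_sq]
        push_cast
        rfl
      rw [e2, e2]
      push_cast
      simp [Complex.real_smul]
    rw [e1]
    exact_mod_cast sub_nonneg.2 h3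

end order

theorem tn_mul_le {k : ℕ} (x y : Matrix (Fin k) (Fin k) ℂ) : tn (x * y) ≤ ‖x‖ ^ 2 * tn y := by
  rw [tn_eq, tn_eq, mul_div_assoc']
  exact div_le_div_of_nonneg_right (hs_mul_le (le_of_opNorm x le_rfl) y) (Nat.cast_nonneg k)

theorem tn_star {k : ℕ} (x : Matrix (Fin k) (Fin k) ℂ) : tn xᴴ = tn x := by
  rw [tn_eq, tn_eq, hs_conjTranspose]

theorem tn_mul_le' {k : ℕ} (x y : Matrix (Fin k) (Fin k) ℂ) : tn (x * y) ≤ ‖y‖ ^ 2 * tn x := by
  rw [← tn_star, Matrix.conjTranspose_mul]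
  refine (tn_mul_le _ _).trans ?_
  rw [tn_star, Matrix.l2_opNorm_conjTranspose]

theorem tn_add_le {k : ℕ} (x y : Matrix (Fin k) (Fin k) ℂ) :
    tn (x + y) ≤ 2 * tn x + 2 * tn y := by
  rw [tn_eq, tn_eq, tn_eq]
  have := div_le_div_of_nonneg_right (hs_add_le x y) (Nat.cast_nonneg (α := ℝ) k)
  refine this.trans (le_of_eq ?_)
  ring

/-- the ideal of sequences with `lim_𝒰 ‖x_n‖₂ = 0` -/
noncomputable def nullIdeal (𝒰 : Ultrafilter ℕ) (k : ℕ → ℕ) : Ideal (Bdd k) where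
  carrier := {x | Tendsto (fun n => tn (x.1 n)) 𝒰 (𝓝 0)}
  add_mem' := by
    intro x y hx hy
    refine squeeze_zero (fun n => tn_nonneg _) (fun n => tn_add_le _ _) ?_
    have := (hx.const_mul 2).add (hy.const_mul 2)
    simpa using this
  zero_mem' := by
    have : (fun n => tn (((0 : Bdd k) : ∀ n, Matrix (Fin (k n)) (Fin (k n)) ℂ) n)) =
        fun _ => (0 : ℝ) := by
      funext n
      simp [tn]
    show Tendsto _ _ _
    rw [this]
    exact tendsto_const_nhds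
  smul_mem' := by
    intro c x hx
    obtain ⟨C, hC⟩ := c.2
    refine squeeze_zero (fun n => tn_nonneg _) (g := fun n => C ^ 2 * tn (x.1 n)) (fun n => ?_) ?_
    · refine (tn_mul_le _ _).trans ?_
      exact mul_le_mul_of_nonneg_right (pow_le_pow_left₀ (norm_nonneg _) (hC n) 2) (tn_nonneg _)
    · simpa using Tendsto.const_mul (C ^ 2) hx

instance (𝒰 : Ultrafilter ℕ) (k : ℕ → ℕ) : (nullIdeal 𝒰 k).IsTwoSided := by
  refine ⟨fun {x} y hx => ?_⟩
  obtain ⟨C, hC⟩ := y.2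
  refine squeeze_zero (fun n => tn_nonneg _) (g := fun n => C ^ 2 * tn (x.1 n)) (fun n => ?_) ?_
  · refine (tn_mul_le' _ _).trans ?_
    exact mul_le_mul_of_nonneg_right (pow_le_pow_left₀ (norm_nonneg _) (hC n) 2) (tn_nonneg _)
  · have h1 : Tendsto (fun n => tn (x.1 n)) 𝒰 (𝓝 0) := hx
    simpa using Tendsto.const_mul (C ^ 2) h1

/-- The tracial ultraproduct `∏_𝒰 M_{k_n}(ℂ)`. -/
abbrev UProd (𝒰 : Ultrafilter ℕ) (k : ℕ → ℕ) : Type := Bdd k ⧸ nullIdeal 𝒰 k

/-- the class of a bounded sequence -/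
noncomputable def cls (𝒰 : Ultrafilter ℕ) {k : ℕ → ℕ} (x : Bdd k) : UProd 𝒰 k :=
  Ideal.Quotient.mk (nullIdeal 𝒰 k) x

theorem star_mem_nullIdeal {𝒰 : Ultrafilter ℕ} {k : ℕ → ℕ} {x : Bdd k}
    (hx : x ∈ nullIdeal 𝒰 k) : star x ∈ nullIdeal 𝒰 k := by
  have h1 : Tendsto (fun n => tn (x.1 n)) 𝒰 (𝓝 0) := hx
  have h2 : (fun n => tn ((star x : Bdd k).1 n)) = fun n => tn (x.1 n) := by
    funext n
    exact tn_star _
  show Tendsto (fun n => tn ((star x : Bdd k).1 n)) 𝒰 (𝓝 0)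
  rw [h2]
  exact h1

/-- the involution of the ultraproduct, induced by the entrywise adjoint of sequences -/
noncomputable instance (𝒰 : Ultrafilter ℕ) (k : ℕ → ℕ) : StarRing (UProd 𝒰 k) where
  star := QuotientAddGroup.map _ _ (starAddEquiv (R := Bdd k)).toAddMonoidHom
    (fun _ hx => star_mem_nullIdeal hx)
  star_involutive := by
    intro a
    obtain ⟨x, rfl⟩ := Ideal.Quotient.mk_surjective a
    show cls 𝒰 (star (star x)) = cls 𝒰 x
    rw [star_star]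
  star_mul := by
    intro a b
    obtain ⟨x, rfl⟩ := Ideal.Quotient.mk_surjective a
    obtain ⟨y, rfl⟩ := Ideal.Quotient.mk_surjective b
    show cls 𝒰 (star (x * y)) = cls 𝒰 (star y * star x)
    rw [star_mul]
  star_add := by
    intro a b
    exact map_add _ a b

theorem star_cls {𝒰 : Ultrafilter ℕ} {k : ℕ → ℕ} (x : Bdd k) : star (cls 𝒰 x) = cls 𝒰 (star x) :=
  rfl

/-- The rectangular identity matrix `ℂ^a → ℂ^b` (the inclusion of the first coordinates if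
`a ≤ b`, the projection onto the first coordinates if `b ≤ a`). -/
def rectId (a b : ℕ) : Matrix (Fin b) (Fin a) ℂ := fun i j => if i.1 = j.1 then 1 else 0

/-- The map `M_a(ℂ) → M_b(ℂ)`, `x ↦ J x J*` with `J` the rectangular identity: the corner embedding
(padding by zeros) if `a ≤ b`, the compression to the upper left corner if `b ≤ a`. -/
def corner {a b : ℕ} (x : Matrix (Fin a) (Fin a) ℂ) : Matrix (Fin b) (Fin b) ℂ :=
  rectId a b * x * (rectId a b)ᴴ

theorem rectId_norm_le (a b : ℕ) : ‖rectId a b‖ ≤ 1 := by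
  have h : ∀ v : EuclideanSpace ℂ (Fin a), ‖WithLp.toLp 2 (rectId a b *ᵥ v.ofLp)‖ ≤ 1 * ‖v‖ := by
    intro v
    rw [one_mul]
    refine (sq_le_sq₀ (norm_nonneg _) (norm_nonneg _)).1 ?_
    rw [EuclideanSpace.norm_sq_eq, EuclideanSpace.norm_sq_eq]
    have e : ∀ i : Fin b, ‖(rectId a b *ᵥ v.ofLp) i‖ ^ 2 =
        if h : i.1 < a then ‖v ⟨i.1, h⟩‖ ^ 2 else 0 := by
      intro i
      have e1 : (rectId a b *ᵥ v.ofLp) i = if h : i.1 < a then v ⟨i.1, h⟩ else 0 := by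
        simp only [Matrix.mulVec, dotProduct, rectId, ite_mul, one_mul, zero_mul]
        split_ifs with h
        · rw [Finset.sum_eq_single (⟨i.1, h⟩ : Fin a)]
          · simp
          · intro j _ hj
            rw [if_neg]
            intro h2
            exact hj (Fin.ext h2.symm)
          · simp
        · refine Finset.sum_eq_zero fun j _ => ?_
          rw [if_neg]
          intro h2
          exact h (h2 ▸ j.2)
      rw [e1]
      split_ifs <;> simp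
    simp only [e]
    have e3 : ∑ i : Fin b, (if h : i.1 < a then ‖v ⟨i.1, h⟩‖ ^ 2 else 0) =
        ∑ i ∈ Finset.univ.filter (fun i : Fin b => i.1 < a),
          (if h : i.1 < a then ‖v ⟨i.1, h⟩‖ ^ 2 else 0) := by
      rw [Finset.sum_filter]
      refine Finset.sum_congr rfl fun i _ => ?_
      split_ifs <;> rfl
    rw [e3]
    have hinj : Set.InjOn (fun i : Fin b => if h : i.1 < a then some (⟨i.1, h⟩ : Fin a) else none)
        (Finset.univ.filter (fun i : Fin b => i.1 < a) : Finset (Fin b)) := by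
      intro i hi j hj hij
      simp only [Finset.coe_filter, Finset.mem_univ, true_and, Set.mem_ofPred_eq] at hi hj
      simp only [hi, hj, dif_pos, Option.some.injEq, Fin.mk.injEq] at hij
      exact Fin.ext hij
    have e4 : ∑ i ∈ Finset.univ.filter (fun i : Fin b => i.1 < a),
          (if h : i.1 < a then ‖v ⟨i.1, h⟩‖ ^ 2 else 0) =
        ∑ j ∈ (Finset.univ.filter (fun i : Fin b => i.1 < a)).image
          (fun i : Fin b => if h : i.1 < a then some (⟨i.1, h⟩ : Fin a) else none),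
          (j.elim 0 fun j => ‖v j‖ ^ 2) := by
      rw [Finset.sum_image hinj]
      refine Finset.sum_congr rfl fun i hi => ?_
      simp only [Finset.mem_filter, Finset.mem_univ, true_and] at hi
      simp [hi]
    rw [e4]
    have e5 : ∑ j : Option (Fin a), (j.elim 0 fun j => ‖v j‖ ^ 2) = ∑ j : Fin a, ‖v j‖ ^ 2 := by
      rw [Fintype.sum_option]
      simp
    rw [← e5]
    refine Finset.sum_le_sum_of_subset_of_nonneg (Finset.subset_univ _) fun j _ _ => ?_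
    cases j <;> simp
  rw [Matrix.l2_opNorm_def]
  refine ContinuousLinearMap.opNorm_le_bound _ zero_le_one fun v => ?_
  exact h v

theorem corner_norm_le {a b : ℕ} (x : Matrix (Fin a) (Fin a) ℂ) :
    ‖(corner x : Matrix (Fin b) (Fin b) ℂ)‖ ≤ ‖x‖ := by
  have h1 := rectId_norm_le a b
  have h2 : ‖(rectId a b)ᴴ‖ ≤ 1 := by
    rw [Matrix.l2_opNorm_conjTranspose]
    exact h1
  calc ‖(corner x : Matrix (Fin b) (Fin b) ℂ)‖ ≤ ‖rectId a b * x‖ * ‖(rectId a b)ᴴ‖ :=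
        Matrix.l2_opNorm_mul _ _
    _ ≤ (‖rectId a b‖ * ‖x‖) * 1 :=
        mul_le_mul (Matrix.l2_opNorm_mul _ _) h2 (norm_nonneg _) (by positivity)
    _ ≤ (1 * ‖x‖) * 1 := by gcongr
    _ = ‖x‖ := by ring

/-- `(x_n) ↦ (corner x_n)` -/
noncomputable def cornerSeq (d m : ℕ → ℕ) : Bdd d →+ Bdd m where
  toFun x := ⟨fun n => corner (x.1 n), by
    obtain ⟨C, hC⟩ := x.2
    exact ⟨C, fun n => (corner_norm_le _).trans (hC n)⟩⟩
  map_zero' := by
    refine Subtype.ext (funext fun n => ?_)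
    show corner (0 : Matrix _ _ ℂ) = 0
    simp [corner]
  map_add' x y := by
    refine Subtype.ext (funext fun n => ?_)
    show corner (x.1 n + y.1 n) = corner (x.1 n) + corner (y.1 n)
    simp [corner, Matrix.mul_add, Matrix.add_mul]

open scoped ComplexOrder MatrixOrder in
theorem hs_corner_le {a b : ℕ} (x : Matrix (Fin a) (Fin a) ℂ) :
    hs (corner x : Matrix (Fin b) (Fin b) ℂ) ≤ hs x := by
  unfold corner
  have h1 : (rectId a b)ᴴ * rectId a b ≤ (1 ^ 2 : ℝ) • (1 : Matrix (Fin a) (Fin a) ℂ) :=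
    le_of_opNorm _ (rectId_norm_le a b)
  have h2 : (rectId a b)ᴴ * ((rectId a b)ᴴ)ᴴ ≤ (1 ^ 2 : ℝ) • (1 : Matrix (Fin a) (Fin a) ℂ) := by
    rw [Matrix.conjTranspose_conjTranspose]
    exact h1
  have h3 := hs_mul_le' h2 (rectId a b * x)
  have h4 := hs_mul_le h1 x
  simp only [one_pow, one_mul] at h3 h4
  exact h3.trans h4

theorem cornerSeq_mem {𝒰 : Ultrafilter ℕ} {d m : ℕ → ℕ}
    (h : Tendsto (fun n => (m n : ℝ) / d n) 𝒰 (𝓝 1)) {x : Bdd d} (hx : x ∈ nullIdeal 𝒰 d) :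
    cornerSeq d m x ∈ nullIdeal 𝒰 m := by
  have h1 : Tendsto (fun n => tn (x.1 n)) 𝒰 (𝓝 0) := hx
  have h2 : Tendsto (fun n => ((m n : ℝ) / d n)⁻¹ * tn (x.1 n)) 𝒰 (𝓝 0) := by
    have := (h.inv₀ one_ne_zero).mul h1
    simpa using this
  show Tendsto (fun n => tn ((cornerSeq d m x).1 n)) 𝒰 (𝓝 0)
  have hev : ∀ᶠ n in (𝒰 : Filter ℕ), (0 : ℝ) < (m n : ℝ) / d n :=
    h.eventually (lt_mem_nhds one_pos)
  refine squeeze_zero' (Eventually.of_forall fun n => tn_nonneg _) ?_ h2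
  filter_upwards [hev] with n hn
  have hd : (d n : ℝ) ≠ 0 := by
    intro h0
    rw [h0, div_zero] at hn
    exact lt_irrefl _ hn
  have hd' : (0 : ℝ) < d n := lt_of_le_of_ne (Nat.cast_nonneg _) (Ne.symm hd)
  have hm : (0 : ℝ) < m n := by
    by_contra h0
    have : (m n : ℝ) / d n ≤ 0 := div_nonpos_of_nonpos_of_nonneg (not_lt.1 h0) hd'.le
    linarith
  have e1 : tn ((cornerSeq d m x).1 n) = hs (corner (x.1 n) : Matrix (Fin (m n)) (Fin (m n)) ℂ) /
      m n := rfl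
  rw [e1, tn_eq]
  have e2 : ((m n : ℝ) / d n)⁻¹ * (hs (x.1 n) / d n) = hs (x.1 n) / m n := by
    field_simp
  rw [e2]
  exact div_le_div_of_nonneg_right (hs_corner_le _) hm.le

/-- The canonical identification of `∏_𝒰 M_{d_n}(ℂ)` with `∏_𝒰 M_{m_n}(ℂ)` when
`lim_𝒰 m_n / d_n = 1`, induced by the corner embeddings. -/
noncomputable def ident {𝒰 : Ultrafilter ℕ} {d m : ℕ → ℕ}
    (h : Tendsto (fun n => (m n : ℝ) / d n) 𝒰 (𝓝 1)) : UProd 𝒰 d →+ UProd 𝒰 m :=
  QuotientAddGroup.map _ _ (cornerSeq d m) (fun _ hx => cornerSeq_mem h hx)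

theorem ident_cls {𝒰 : Ultrafilter ℕ} {d m : ℕ → ℕ}
    (h : Tendsto (fun n => (m n : ℝ) / d n) 𝒰 (𝓝 1)) (x : Bdd d) :
    ident h (cls 𝒰 x) = cls 𝒰 (cornerSeq d m x) := rfl

/-- FINAL STATEMENT (affirmative answer to Q1). -/
def FinalTheorem : Prop :=
  ∀ (G : Type) [Group G] [Countable G], IsKazhdan G →
  ∀ (S : Finset G), (∀ s ∈ S, s⁻¹ ∈ S) → Subgroup.closure (S : Set G) = ⊤ →
  ∀ (𝒰 : Ultrafilter ℕ), (𝒰 : Filter ℕ) ≤ Filter.cofinite →
  ∀ (d : ℕ → ℕ), (∀ n, 0 < d n) → ∀ π : G →* unitary (UProd 𝒰 d),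
    ∃ (m : ℕ → ℕ) (hm : Tendsto (fun n => (m n : ℝ) / d n) 𝒰 (𝓝 1)) (g : S → Bdd m),
      (∀ n, 0 < m n) ∧
      (∀ s n, (g s).1 n ∈ Matrix.unitaryGroup (Fin (m n)) ℂ) ∧
      (∀ s : S, cls 𝒰 (g s) = ident hm (π s)) ∧
      ∀ x : UProd 𝒰 m, (∀ a : G, x * ident hm (π a) = ident hm (π a) * x) ↔
        ∃ y : Bdd m, (∀ n s, y.1 n * (g s).1 n = (g s).1 n * y.1 n) ∧ cls 𝒰 y = x

end Pool.Agent.H51K
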